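import Pool.Agent.Lib.MP_c2de4f_an.Conc

set_option autoImplicit false

/-! # CDEF: the concrete vectors and maps -/

noncomputable section

open Metric Set
open scoped RealInnerProductSpace

namespace Pool.Agent.Lib.MP_c2de4f_an

/-- `δ_0 - 1/7`. -/
def d0 : E7 := ⟨WithLp.toLp 2 (fun m => if m = 0 then 6 / 7 else -1 / 7), by
  rw [mem_E7]
  show ∑ m : ZMod 7, (if m = 0 then (6 / 7 : ℝ) else -1 / 7) = 0
  rw [Finset.sum_ite, Finset.sum_const, Finset.sum_const]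
  have h1 : (Finset.univ.filter (fun m : ZMod 7 => m = 0)).card = 1 := by decide
  have h2 : (Finset.univ.filter (fun m : ZMod 7 => ¬ m = 0)).card = 6 := by decide
  rw [h1, h2]; norm_num⟩

theorem norm_d0 : ‖d0‖ ^ 2 = 6 / 7 := by
  show ‖(WithLp.toLp 2 (fun m : ZMod 7 => if m = 0 then (6 / 7 : ℝ) else -1 / 7) :
    EuclideanSpace ℝ (ZMod 7))‖ ^ 2 = 6 / 7
  rw [EuclideanSpace.norm_sq_eq]
  show ∑ m : ZMod 7, ‖(if m = 0 then (6 / 7 : ℝ) else -1 / 7)‖ ^ 2 = 6 / 7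
  have : ∀ m : ZMod 7, ‖(if m = 0 then (6 / 7 : ℝ) else -1 / 7)‖ ^ 2 =
      if m = 0 then (36 / 49 : ℝ) else 1 / 49 := by
    intro m
    split_ifs <;> norm_num
  simp only [this]
  rw [Finset.sum_ite, Finset.sum_const, Finset.sum_const]
  have h1 : (Finset.univ.filter (fun m : ZMod 7 => m = 0)).card = 1 := by decide
  have h2 : (Finset.univ.filter (fun m : ZMod 7 => ¬ m = 0)).card = 6 := by decide
  rw [h1, h2]; norm_num

theorem sum7 {M : Type*} [AddCommMonoid M] (f : ZMod 7 → M) :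
    ∑ m, f m = f 0 + f 1 + f 2 + f 3 + f 4 + f 5 + f 6 := by
  exact Fin.sum_univ_seven (f : Fin 7 → M)

theorem chi_vals : chi 0 = 0 ∧ chi 1 = 1 ∧ chi 2 = eta - 1 ∧ chi 3 = eta ∧ chi 4 = -eta ∧
    chi 5 = 1 - eta ∧ chi 6 = -1 := by
  have h3 : eta ^ 3 = -1 := eta_cube
  have h2 : eta ^ 2 = eta - 1 := eta_sq
  have h4 : eta ^ 4 = -eta := by
    have : eta ^ 4 = eta ^ 3 * eta := by ring
    rw [this, h3]; ring
  have h5 : eta ^ 5 = 1 - eta := by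
    have : eta ^ 5 = eta ^ 3 * eta ^ 2 := by ring
    rw [this, h3, h2]; ring
  refine ⟨by simp [chi], chi_one, ?_, ?_, ?_, ?_, ?_⟩
  · have : chi 2 = eta ^ 2 := by
      unfold chi; rw [if_neg (by decide)]; rfl
    rw [this, h2]
  · have : chi 3 = eta ^ 1 := by
      unfold chi; rw [if_neg (by decide)]; rfl
    rw [this, pow_one]
  · have : chi 4 = eta ^ 4 := by
      unfold chi; rw [if_neg (by decide)]; rfl
    rw [this, h4]
  · have : chi 5 = eta ^ 5 := by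
      unfold chi; rw [if_neg (by decide)]; rfl
    rw [this, h5]
  · have : chi 6 = eta ^ 3 := by
      unfold chi; rw [if_neg (by decide)]; rfl
    rw [this, h3]

/-- The axis vector. -/
def e7 : Sph E7 := ⟨(‖d0‖)⁻¹ • d0, by
  have h : ‖d0‖ ≠ 0 := by
    intro h
    have := norm_d0
    rw [h] at this
    norm_num at this
  rw [mem_sphere_zero_iff_norm, norm_smul, norm_inv, norm_norm, inv_mul_cancel₀ h]⟩

/-- the linear function `z`. -/
def zf (x : ZMod 7 → ℝ) : ℂ := ∑ m, chi m * (x m : ℂ)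

/-- the quadratic function `h`. -/
def hf (x : ZMod 7 → ℝ) : ℂ :=
  ∑ m, chi m * (((-5 * x m ^ 2 + 2 * x 0 * x m : ℝ) : ℂ) + 2 * eta * ((x m * x (2 * m) : ℝ) : ℂ)
    + 2 * (1 + eta) * ((x m * x (3 * m) : ℝ) : ℂ))

/-- The map `g : E7 → U4`. -/
def g7 (x : E7) : U4 :=
  WithLp.toLp 2 (zf (x : EuclideanSpace ℝ (ZMod 7)),
    (‖x‖⁻¹ : ℝ) • hf (x : EuclideanSpace ℝ (ZMod 7)))

/-- The map `v : U4 → E7`. -/
def v7fun (u : U4) (m : ZMod 7) : ℝ :=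
  ((starRingEnd ℂ (chi m)) * u.snd).re + ‖u‖⁻¹ * ((starRingEnd ℂ (chi m)) ^ 2 * u.fst ^ 2).re

theorem sum_chi : ∑ m, chi m = 0 := by
  obtain ⟨h0, h1, h2, h3, h4, h5, h6⟩ := chi_vals
  rw [sum7, h0, h1, h2, h3, h4, h5, h6]; ring

theorem sum_chi_sq : ∑ m, chi m ^ 2 = 0 := by
  obtain ⟨h0, h1, h2, h3, h4, h5, h6⟩ := chi_vals
  rw [sum7, h0, h1, h2, h3, h4, h5, h6]
  have h := eta_sq
  linear_combination 4 * h

theorem v7_mem (u : U4) : (WithLp.toLp 2 (v7fun u) : EuclideanSpace ℝ (ZMod 7)) ∈ E7 := by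
  rw [mem_E7]
  show ∑ m : ZMod 7, (((starRingEnd ℂ (chi m)) * u.snd).re +
    ‖u‖⁻¹ * ((starRingEnd ℂ (chi m)) ^ 2 * u.fst ^ 2).re) = 0
  rw [Finset.sum_add_distrib, ← Finset.mul_sum]
  have h1 : ∑ m : ZMod 7, ((starRingEnd ℂ (chi m)) * u.snd).re = 0 := by
    rw [← Complex.re_sum, ← Finset.sum_mul, ← map_sum, sum_chi]; simp
  have h2 : ∑ m : ZMod 7, ((starRingEnd ℂ (chi m)) ^ 2 * u.fst ^ 2).re = 0 := by
    rw [← Complex.re_sum, ← Finset.sum_mul]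
    have : ∑ m : ZMod 7, (starRingEnd ℂ (chi m)) ^ 2 = 0 := by
      have h3 : ∑ m : ZMod 7, (starRingEnd ℂ (chi m)) ^ 2 = starRingEnd ℂ (∑ m, chi m ^ 2) := by
        rw [map_sum]; simp
      rw [h3, sum_chi_sq]; simp
    rw [this]; simp
  rw [h1, h2]; simp

def v7 (u : U4) : E7 := ⟨WithLp.toLp 2 (v7fun u), v7_mem u⟩

end Pool.Agent.Lib.MP_c2de4f_an
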