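import Pool.Agent.Lib.MP_c2de4f_an.Prod

set_option autoImplicit false

/-! # The concrete representation of `AGL(1,7)` on `E7 ⊕ U4` (dimension `6 + 4`) -/

noncomputable section

open Metric Set
open scoped RealInnerProductSpace

namespace Pool.Agent.Lib.MP_c2de4f_an

/-- The affine group of the field with 7 elements: `m ↦ a m + b`. -/
@[ext] structure Aff where
  a : (ZMod 7)ˣ
  b : ZMod 7

namespace Aff

instance : Mul Aff := ⟨fun g h => ⟨g.a * h.a, g.a * h.b + g.b⟩⟩
instance : One Aff := ⟨⟨1, 0⟩⟩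
instance : Inv Aff := ⟨fun g => ⟨g.a⁻¹, -((g.a⁻¹ : (ZMod 7)ˣ) : ZMod 7) * g.b⟩⟩

@[simp] theorem mul_a (g h : Aff) : (g * h).a = g.a * h.a := rfl
@[simp] theorem mul_b (g h : Aff) : (g * h).b = g.a * h.b + g.b := rfl
@[simp] theorem one_a : (1 : Aff).a = 1 := rfl
@[simp] theorem one_b : (1 : Aff).b = 0 := rfl
@[simp] theorem inv_a (g : Aff) : (g⁻¹).a = g.a⁻¹ := rfl
@[simp] theorem inv_b (g : Aff) : (g⁻¹).b = -((g.a⁻¹ : (ZMod 7)ˣ) : ZMod 7) * g.b := rfl

instance : Group Aff := Group.ofLeftAxioms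
  (by intro x y z; ext <;> simp [mul_assoc]; ring_nf)
  (by intro x; ext <;> simp)
  (by intro x; ext <;> simp)

instance : Finite Aff := by
  apply Finite.of_injective (fun g : Aff => ((g.a, g.b) : (ZMod 7)ˣ × ZMod 7))
  intro g h hgh
  simp only [Prod.mk.injEq] at hgh
  exact Aff.ext hgh.1 hgh.2

/-- The permutation of the field. -/
def perm : Aff →* Equiv.Perm (ZMod 7) where
  toFun g :=
    { toFun := fun m => g.a * m + g.b
      invFun := fun m => ((g.a⁻¹ : (ZMod 7)ˣ) : ZMod 7) * (m - g.b)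
      left_inv := by intro m; simp
      right_inv := by intro m; simp }
  map_one' := by ext m; simp
  map_mul' g h := by
    apply Equiv.ext; intro m
    simp only [mul_a, mul_b, Units.val_mul, Equiv.coe_fn_mk, Equiv.Perm.coe_mul, Function.comp_apply]
    ring

@[simp] theorem perm_apply (g : Aff) (m : ZMod 7) : perm g m = g.a * m + g.b := rfl

end Aff

/-- Sum-zero functions on `ZMod 7`. -/
def E7 : Submodule ℝ (EuclideanSpace ℝ (ZMod 7)) where
  carrier := {x | ∑ m, x m = 0}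
  zero_mem' := by simp
  add_mem' := by
    intro x y hx hy
    have hx' : ∑ m, x m = 0 := hx
    have hy' : ∑ m, y m = 0 := hy
    show ∑ m, (x + y) m = 0
    simp [Finset.sum_add_distrib, hx', hy']
  smul_mem' := by
    intro c x hx
    have hx' : ∑ m, x m = 0 := hx
    show ∑ m, (c • x) m = 0
    simp [← Finset.mul_sum, hx']

theorem mem_E7 (x : EuclideanSpace ℝ (ZMod 7)) : x ∈ E7 ↔ ∑ m, x m = 0 := Iff.rfl

/-- Permutation of the coordinates of a vector. -/
def permI (p : Equiv.Perm (ZMod 7)) : EuclideanSpace ℝ (ZMod 7) ≃ₗᵢ[ℝ] EuclideanSpace ℝ (ZMod 7) :=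
  LinearIsometryEquiv.piLpCongrLeft 2 ℝ ℝ p

theorem permI_apply (p : Equiv.Perm (ZMod 7)) (x : EuclideanSpace ℝ (ZMod 7)) (m : ZMod 7) :
    permI p x m = x (p.symm m) := by
  simp [permI, LinearIsometryEquiv.piLpCongrLeft_apply]

theorem permI_mem (p : Equiv.Perm (ZMod 7)) (x : EuclideanSpace ℝ (ZMod 7)) (hx : x ∈ E7) :
    permI p x ∈ E7 := by
  rw [mem_E7] at *
  simp only [permI_apply]
  rw [← hx]
  exact Equiv.sum_comp p.symm (fun m => x m)

/-- The action of a permutation on `E7`. -/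
def permE (p : Equiv.Perm (ZMod 7)) : E7 ≃ₗᵢ[ℝ] E7 where
  toFun x := ⟨permI p x, permI_mem p x x.2⟩
  map_add' x y := by apply Subtype.ext; simp
  map_smul' c x := by apply Subtype.ext; simp
  invFun x := ⟨permI p.symm x, permI_mem p.symm x x.2⟩
  left_inv x := by
    apply Subtype.ext
    ext m
    simp [permI_apply]
  right_inv x := by
    apply Subtype.ext
    ext m
    simp [permI_apply]
  norm_map' x := by
    show ‖permI p x‖ = ‖(x : EuclideanSpace ℝ (ZMod 7))‖
    simp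

theorem permE_apply (p : Equiv.Perm (ZMod 7)) (x : E7) (m : ZMod 7) :
    (permE p x : EuclideanSpace ℝ (ZMod 7)) m = (x : EuclideanSpace ℝ (ZMod 7)) (p.symm m) :=
  permI_apply p x m

/-- The permutation representation on `E7`. -/
def rhoE : Aff →* (E7 ≃ₗᵢ[ℝ] E7) where
  toFun g := permE (Aff.perm g)
  map_one' := by
    apply LinearIsometryEquiv.ext; intro x
    apply Subtype.ext; ext m
    rw [permE_apply, map_one]; rfl
  map_mul' g h := by
    apply LinearIsometryEquiv.ext; intro x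
    apply Subtype.ext; ext m
    rw [permE_apply]
    show _ = (permE (Aff.perm g) (permE (Aff.perm h) x) : EuclideanSpace ℝ (ZMod 7)) m
    rw [permE_apply, permE_apply, map_mul]
    rfl

theorem rhoE_apply (g : Aff) (x : E7) (m : ZMod 7) :
    (rhoE g x : EuclideanSpace ℝ (ZMod 7)) m =
      (x : EuclideanSpace ℝ (ZMod 7)) (((g.a⁻¹ : (ZMod 7)ˣ) : ZMod 7) * (m - g.b)) :=
  permE_apply _ x m

/-- `exp(i π / 3)`. -/
def eta : ℂ := ⟨1 / 2, Real.sqrt 3 / 2⟩

theorem eta_sq : eta ^ 2 = eta - 1 := by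
  have h : Real.sqrt 3 * Real.sqrt 3 = 3 := Real.mul_self_sqrt (by norm_num)
  apply Complex.ext
  · simp [eta, pow_two]; nlinarith
  · simp [eta, pow_two]; ring

theorem eta_cube : eta ^ 3 = -1 := by
  have : eta ^ 3 = eta * eta ^ 2 := by ring
  rw [this, eta_sq]
  have : eta * (eta - 1) = eta ^ 2 - eta := by ring
  rw [this, eta_sq]; ring

theorem eta_six : eta ^ 6 = 1 := by
  have : eta ^ 6 = (eta ^ 3) ^ 2 := by ring
  rw [this, eta_cube]; ring

theorem norm_eta : ‖eta‖ = 1 := by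
  have h : ‖eta‖ ^ 6 = 1 := by rw [← norm_pow, eta_six]; simp
  exact (pow_eq_one_iff_of_nonneg (norm_nonneg _) (by norm_num)).1 h

/-- Discrete logarithm to the base 3. -/
def lg : ZMod 7 → ℕ := ![0, 0, 2, 1, 4, 5, 3]

theorem lg_mul (a b : ZMod 7) (ha : a ≠ 0) (hb : b ≠ 0) : lg (a * b) % 6 = (lg a + lg b) % 6 := by
  revert a b; decide

theorem fact7 : Fact (Nat.Prime 7) := ⟨by norm_num⟩

/-- The generator character, extended by 0. -/
def chi (m : ZMod 7) : ℂ := if m = 0 then 0 else eta ^ lg m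

theorem eta_pow_mod (k : ℕ) : eta ^ (k % 6) = eta ^ k := by
  conv_rhs => rw [← Nat.div_add_mod k 6, pow_add, pow_mul, eta_six, one_pow, one_mul]

theorem chi_mul (a b : ZMod 7) : chi (a * b) = chi a * chi b := by
  unfold chi
  by_cases ha : a = 0
  · simp [ha]
  by_cases hb : b = 0
  · simp [hb]
  have hab : a * b ≠ 0 := by
    haveI := fact7
    exact mul_ne_zero ha hb
  rw [if_neg ha, if_neg hb, if_neg hab, ← eta_pow_mod, lg_mul a b ha hb, eta_pow_mod, pow_add]

theorem chi_one : chi 1 = 1 := by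
  have h : lg 1 = 0 := rfl
  have h1 : (1 : ZMod 7) ≠ 0 := by decide
  simp [chi, h, h1]

theorem norm_chi (m : ZMod 7) (hm : m ≠ 0) : ‖chi m‖ = 1 := by
  simp [chi, hm, norm_eta]

/-- The character of the affine group. -/
def chiC : Aff →* Circle where
  toFun g := ⟨chi (g.a : ZMod 7), by
    have : ‖chi (g.a : ZMod 7)‖ = 1 := by
      haveI := fact7
      exact norm_chi _ g.a.ne_zero
    simpa [Submonoid.unitSphere] using this⟩
  map_one' := by
    apply Subtype.ext
    show chi ((1 : (ZMod 7)ˣ) : ZMod 7) = 1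
    simp [chi_one]
  map_mul' g h := by
    apply Subtype.ext
    show chi (((g * h).a : (ZMod 7)ˣ) : ZMod 7) = chi (g.a : ZMod 7) * chi (h.a : ZMod 7)
    simp [chi_mul]

/-- `ℂ²` as a real Hilbert space. -/
abbrev U4 : Type := W2 ℂ ℂ

/-- The representation on `U4`. -/
def rhoU : Aff →* (U4 ≃ₗᵢ[ℝ] U4) := prodRep (rotation.comp chiC) (rotation.comp chiC)

theorem rhoU_fst (g : Aff) (u : U4) : (rhoU g u).fst = chi (g.a : ZMod 7) * u.fst := rfl

theorem rhoU_snd (g : Aff) (u : U4) : (rhoU g u).snd = chi (g.a : ZMod 7) * u.snd := rfl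

end Pool.Agent.Lib.MP_c2de4f_an
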