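import Pool.Agent.Lib.MP_c2de4f_an.Defs

set_option autoImplicit false

/-! # DYN1A: existence of the equivariant continuous extension -/

noncomputable section

open Metric Set Filter Topology
open scoped RealInnerProductSpace

namespace Pool.Agent.Lib.MP_c2de4f_an

variable {S : Type*} [MetricSpace S] {A : Type*} [Group A] {B : Subgroup A}

namespace PP

variable (P : PP S A B)

theorem act_inv_act (i : Bool) (a : A) (x : S) : P.act i a⁻¹ (P.act i a x) = x := by
  rw [← P.mul, inv_mul_cancel, P.one]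

theorem act_act_inv (i : Bool) (a : A) (x : S) : P.act i a (P.act i a⁻¹ x) = x := by
  rw [← P.mul, mul_inv_cancel, P.one]

theorem act_bij (i : Bool) (a : A) : Function.Bijective (P.act i a) :=
  Function.bijective_iff_has_inverse.2
    ⟨P.act i a⁻¹, fun x => P.act_inv_act i a x, fun x => P.act_act_inv i a x⟩

theorem act_eq (i j : Bool) {b : A} (hb : b ∈ B) (x : S) : P.act i b x = P.act j b x := by
  cases i <;> cases j
  · rfl
  · exact (P.actB b hb x).symm
  · exact P.actB b hb x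
  · rfl

theorem E_disj' {i : Bool} {x : S} (h : x ∈ P.E i) : x ∉ P.E (!i) := by
  cases i
  · intro h'; exact P.E_disj x h' h
  · exact P.E_disj x h

theorem E_iff (i j : Bool) {b : A} (hb : b ∈ B) (x : S) : P.act j b x ∈ P.E i ↔ x ∈ P.E i := by
  refine ⟨fun h => ?_, P.E_inv i j b hb x⟩
  have := P.E_inv i j b⁻¹ (B.inv_mem hb) _ h
  rwa [P.act_inv_act] at this

theorem inv_notMem {a : A} (ha : a ∉ B) : a⁻¹ ∉ B := fun h => ha (by simpa using B.inv_mem h)

theorem C_sub {i : Bool} {x : S} (h : x ∈ P.C i) : x ∈ P.E i := h.1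

theorem mem_C_iff (i : Bool) (x : S) : x ∈ P.C i ↔ ∃ a, a ∉ B ∧ P.act i a x ∉ P.E i := by
  refine ⟨fun h => h.2, fun ⟨a, ha, hx⟩ => ⟨?_, a, ha, hx⟩⟩
  have := P.E_map i a⁻¹ (inv_notMem ha) _ hx
  rwa [P.act_inv_act] at this

theorem C_closed [Finite A] (i : Bool) : IsClosed (P.C i) := by
  have : P.C i = ⋃ a : {a : A // a ∉ B}, (P.act i a.1) ⁻¹' (P.E i)ᶜ := by
    ext x
    rw [P.mem_C_iff]
    simp
  rw [this]
  exact isClosed_iUnion_of_finite fun a => (P.E_open i).isClosed_compl.preimage (P.cont i a.1)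

/-- two letters taking a point out of `E i` differ by an element of `B` -/
theorem letter_unique {i : Bool} {x : S} {a a1 : A} (hx : P.act i a x ∉ P.E i)
    (hx1 : P.act i a1 x ∉ P.E i) : a1 * a⁻¹ ∈ B := by
  by_contra h
  apply hx1
  have := P.E_map i (a1 * a⁻¹) h _ hx
  rwa [← P.mul, inv_mul_cancel_right] at this

theorem C_inv {i j : Bool} {b : A} (hb : b ∈ B) {x : S} (h : x ∈ P.C i) : P.act j b x ∈ P.C i := by
  obtain ⟨a, ha, hx⟩ := h.2
  rw [P.act_eq j i hb, P.mem_C_iff]
  refine ⟨a * b⁻¹, fun h' => ha ?_, ?_⟩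
  · have := B.mul_mem h' hb
    rwa [inv_mul_cancel_right] at this
  · rwa [← P.mul, inv_mul_cancel_right]

theorem F0_inv {j : Bool} {b : A} (hb : b ∈ B) {x : S} (h : x ∈ P.F0) : P.act j b x ∈ P.F0 := by
  intro i hi
  have := P.C_inv (j := j) (B.inv_mem hb) hi
  rw [P.act_inv_act] at this
  exact h i this

/-- `E i \ C i` is invariant under the `i`-th action. -/
theorem stay {i : Bool} {x : S} (hE : x ∈ P.E i) (hC : x ∉ P.C i) (a : A) :
    P.act i a x ∈ P.E i ∧ P.act i a x ∉ P.C i := by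
  have key : ∀ a, P.act i a x ∈ P.E i := by
    intro a
    by_cases ha : a ∈ B
    · exact (P.E_iff i i ha x).2 hE
    · by_contra h
      exact hC ⟨hE, a, ha, h⟩
  refine ⟨key a, fun h => ?_⟩
  obtain ⟨a', -, h'⟩ := h.2
  rw [← P.mul] at h'
  exact h' (key _)

theorem mem_F0 {i : Bool} {x : S} (hE : x ∈ P.E i) (hC : x ∉ P.C i) : x ∈ P.F0 := by
  intro j hj
  by_cases h : j = i
  · subst h; exact hC hj
  · have : j = !i := by cases i <;> cases j <;> simp_all
    subst this
    exact P.E_disj' hE hj.1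

theorem notMem_cases {i : Bool} {X : S} (hX : X ∉ P.E i) : X ∈ P.F0 ∨ X ∈ P.C (!i) := by
  by_cases h : X ∈ P.C (!i)
  · exact Or.inr h
  · left
    intro j hj
    by_cases hji : j = i
    · subst hji; exact hX hj.1
    · have : j = !i := by cases i <;> cases j <;> simp_all
      subst this
      exact h hj

theorem enter {i : Bool} {x : S} (hx : x ∉ P.E i) {a : A} (ha : a ∉ B) : P.act i a x ∈ P.C i := by
  rw [P.mem_C_iff]
  refine ⟨a⁻¹, inv_notMem ha, ?_⟩
  rwa [P.act_inv_act]

end PP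

theorem F0_open [Finite A] (P : PP S A B) : IsOpen P.F0 := by
  have : P.F0 = (P.C true)ᶜ ∩ (P.C false)ᶜ := by
    ext x
    constructor
    · intro h; exact ⟨h true, h false⟩
    · rintro ⟨h1, h2⟩ (_ | _)
      · exact h2
      · exact h1
  rw [this]
  exact (P.C_closed true).isOpen_compl.inter (P.C_closed false).isOpen_compl

/-- admissible maps -/
structure Adm (P Q : PP S A B) (h : S ≃ₜ S) (f : S → S) : Prop where
  cont : Continuous f
  eqF : ∀ x ∈ P.F0, f x = h x
  mapC : ∀ i, ∀ x ∈ P.C i, f x ∈ Q.C i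
  eqB : ∀ i, ∀ b ∈ B, ∀ x, f (P.act i b x) = Q.act i b (f x)

theorem Compat.mem_C {P Q : PP S A B} {h : S ≃ₜ S} (hc : Compat P Q h) (i : Bool) (x : S) :
    x ∈ P.C i ↔ h x ∈ Q.C i := by
  constructor
  · rintro ⟨hE, a, ha, hx⟩
    exact ⟨(hc.hE i x).1 hE, a, ha, fun h' => hx ((hc.hI i a x hE).2 h')⟩
  · rintro ⟨hE, a, ha, hx⟩
    have hE' := (hc.hE i x).2 hE
    exact ⟨hE', a, ha, fun h' => hx ((hc.hI i a x hE').1 h')⟩

theorem Compat.adm {P Q : PP S A B} {h : S ≃ₜ S} (hc : Compat P Q h) : Adm P Q h h where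
  cont := h.continuous
  eqF := fun _ _ => rfl
  mapC := fun i x hx => (hc.mem_C i x).1 hx
  eqB := hc.hB

open Classical in
/-- one step of the construction -/
def dynPhi (P Q : PP S A B) (h : S ≃ₜ S) (f : S → S) (x : S) : S :=
  if hx : x ∈ P.C true then
    Q.act true (Classical.choose hx.2)⁻¹ (f (P.act true (Classical.choose hx.2) x))
  else if hx : x ∈ P.C false then
    Q.act false (Classical.choose hx.2)⁻¹ (f (P.act false (Classical.choose hx.2) x))
  else h x

theorem dynPhi_F0 (P Q : PP S A B) (h : S ≃ₜ S) (f : S → S) {x : S} (hx : x ∈ P.F0) :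
    dynPhi P Q h f x = h x := by
  unfold dynPhi
  rw [dif_neg (hx true), dif_neg (hx false)]

theorem dynPhi_C_aux (P Q : PP S A B) (f : S → S)
    (hB : ∀ i, ∀ b ∈ B, ∀ x, f (P.act i b x) = Q.act i b (f x)) {i : Bool} {x : S}
    {a a0 : A} (ha : P.act i a x ∉ P.E i) (ha0 : P.act i a0 x ∉ P.E i) :
    Q.act i a0⁻¹ (f (P.act i a0 x)) = Q.act i a⁻¹ (f (P.act i a x)) := by
  have hb : a * a0⁻¹ ∈ B := P.letter_unique ha0 ha
  have h1 : P.act i a x = P.act i (a * a0⁻¹) (P.act i a0 x) := by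
    rw [← P.mul, inv_mul_cancel_right]
  rw [h1, hB i _ hb, ← Q.mul]
  congr 1
  group

theorem dynPhi_C (P Q : PP S A B) (h : S ≃ₜ S) (f : S → S)
    (hB : ∀ i, ∀ b ∈ B, ∀ x, f (P.act i b x) = Q.act i b (f x)) {i : Bool} {x : S}
    {a : A} (ha : a ∉ B) (hx : P.act i a x ∉ P.E i) :
    dynPhi P Q h f x = Q.act i a⁻¹ (f (P.act i a x)) := by
  have hxC : x ∈ P.C i := (P.mem_C_iff i x).2 ⟨a, ha, hx⟩
  unfold dynPhi
  cases i
  · have h1 : x ∉ P.C true := fun h' => P.E_disj x h'.1 hxC.1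
    rw [dif_neg h1, dif_pos hxC]
    exact dynPhi_C_aux P Q f hB hx (Classical.choose_spec hxC.2).2
  · rw [dif_pos hxC]
    exact dynPhi_C_aux P Q f hB hx (Classical.choose_spec hxC.2).2

theorem Adm.out {P Q : PP S A B} {h : S ≃ₜ S} (hc : Compat P Q h) {f : S → S}
    (hf : Adm P Q h f) {i : Bool} {X : S} (hX : X ∉ P.E i) : f X ∉ Q.E i := by
  rcases P.notMem_cases hX with h1 | h1
  · rw [hf.eqF X h1]
    exact fun h' => hX ((hc.hE i X).2 h')
  · have := Q.E_disj' (hf.mapC _ X h1).1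
    rwa [Bool.not_not] at this

theorem Adm.step [Finite A] {P Q : PP S A B} {h : S ≃ₜ S} (hc : Compat P Q h) {f : S → S}
    (hf : Adm P Q h f) : Adm P Q h (dynPhi P Q h f) where
  cont := by
    rw [continuous_iff_continuousAt]
    intro x
    by_cases hx : x ∈ P.F0
    · have h1 : dynPhi P Q h f =ᶠ[𝓝 x] h := by
        filter_upwards [(F0_open P).mem_nhds hx] with y hy
        exact dynPhi_F0 P Q h f hy
      exact (h.continuous.continuousAt).congr h1.symm
    · obtain ⟨i, hi⟩ : ∃ i, x ∈ P.C i := by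
        by_contra hcon
        push Not at hcon
        exact hx hcon
      obtain ⟨a, ha, hxa⟩ := hi.2
      -- the closed set of the other cosets
      have hZ : IsClosed (⋃ a1 : {a1 : A // a1 * a⁻¹ ∉ B}, (P.act i a1.1) ⁻¹' (P.E i)ᶜ) :=
        isClosed_iUnion_of_finite fun a1 =>
          (P.E_open i).isClosed_compl.preimage (P.cont i a1.1)
      have hxZ : x ∉ ⋃ a1 : {a1 : A // a1 * a⁻¹ ∉ B}, (P.act i a1.1) ⁻¹' (P.E i)ᶜ := by
        intro h'
        rw [Set.mem_iUnion] at h'
        obtain ⟨⟨a1, h1⟩, h2⟩ := h'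
        exact h1 (P.letter_unique hxa h2)
      have h1 : dynPhi P Q h f =ᶠ[𝓝 x] fun y => Q.act i a⁻¹ (f (P.act i a y)) := by
        filter_upwards [(P.E_open i).mem_nhds hi.1, hZ.isOpen_compl.mem_nhds hxZ] with y hyE hyZ
        by_cases hyC : y ∈ P.C i
        · obtain ⟨a1, ha1, hya1⟩ := hyC.2
          have hb : a1 * a⁻¹ ∈ B := by
            by_contra h'
            exact hyZ (Set.mem_iUnion.2 ⟨⟨a1, h'⟩, hya1⟩)
          refine dynPhi_C P Q h f hf.eqB ha fun h' => hya1 ?_
          have := (P.E_iff i i hb (P.act i a y)).2 h'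
          rwa [← P.mul, inv_mul_cancel_right] at this
        · rw [dynPhi_F0 P Q h f (P.mem_F0 hyE hyC)]
          obtain ⟨h2, h3⟩ := P.stay hyE hyC a
          rw [hf.eqF _ (P.mem_F0 h2 h3), hc.hI2 i a y hyE h2, Q.act_inv_act]
      refine ContinuousAt.congr ?_ h1.symm
      exact ((Q.cont i a⁻¹).comp (hf.cont.comp (P.cont i a))).continuousAt
  eqF := fun x hx => dynPhi_F0 P Q h f hx
  mapC := by
    intro i x hx
    obtain ⟨a, ha, hxa⟩ := hx.2
    rw [dynPhi_C P Q h f hf.eqB ha hxa]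
    exact Q.enter (hf.out hc hxa) (PP.inv_notMem ha)
  eqB := by
    intro j b hb x
    by_cases hx : x ∈ P.F0
    · rw [dynPhi_F0 P Q h f hx, dynPhi_F0 P Q h f (P.F0_inv hb hx), hc.hB j b hb]
    · obtain ⟨i, hi⟩ : ∃ i, x ∈ P.C i := by
        by_contra hcon
        push Not at hcon
        exact hx hcon
      obtain ⟨a, ha, hxa⟩ := hi.2
      have hab : a * b⁻¹ ∉ B := by
        intro h'
        have := B.mul_mem h' hb
        rw [inv_mul_cancel_right] at this
        exact ha this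
      have h1 : P.act i (a * b⁻¹) (P.act j b x) = P.act i a x := by
        rw [P.act_eq j i hb, ← P.mul, inv_mul_cancel_right]
      rw [dynPhi_C P Q h f hf.eqB hab (by rw [h1]; exact hxa),
        dynPhi_C P Q h f hf.eqB ha hxa, h1, Q.act_eq j i hb, ← Q.mul]
      congr 1
      group

/-- the contraction estimate -/
theorem dyn_contract {P Q : PP S A B} {f f' : S → S}
    (h0 : ∀ x ∈ P.F0, f x = f' x)
    (hC : ∀ i, ∀ x ∈ P.C i, f x ∈ Q.C i) (hC' : ∀ i, ∀ x ∈ P.C i, f' x ∈ Q.C i)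
    {K K' : ℝ} (hK0 : 0 ≤ K) (hK0' : 0 ≤ K')
    (hK : ∀ x ∈ P.C true, dist (f x) (f' x) ≤ K) (hK' : ∀ x ∈ P.C false, dist (f x) (f' x) ≤ K')
    {i : Bool} {x : S} {a : A} (ha : a ∉ B) (hx : P.act i a x ∉ P.E i) :
    dist (Q.act i a⁻¹ (f (P.act i a x))) (Q.act i a⁻¹ (f' (P.act i a x)))
      ≤ if i then K' else K / 4 := by
  rcases P.notMem_cases hx with h1 | h1
  · rw [h0 _ h1, dist_self]
    split_ifs
    · exact hK0'
    · linarith
  · cases i
    · have := Q.lip2 a⁻¹ (PP.inv_notMem ha) _ (hC _ _ h1).1 _ (hC' _ _ h1).1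
      have h2 := hK _ h1
      simp only [Bool.false_eq_true, if_false]
      linarith
    · have := Q.lip1 a⁻¹ (PP.inv_notMem ha) _ (hC _ _ h1).1 _ (hC' _ _ h1).1
      have h2 := hK' _ h1
      simp only [if_true]
      linarith

/-- equivariance from the fixed point equation -/
theorem dyn_equiv {P Q : PP S A B} {h : S ≃ₜ S} (hc : Compat P Q h) {f : S → S}
    (h0 : ∀ x ∈ P.F0, f x = h x)
    (hB : ∀ i, ∀ b ∈ B, ∀ x, f (P.act i b x) = Q.act i b (f x))
    (hfix : ∀ i a x, a ∉ B → P.act i a x ∉ P.E i → f x = Q.act i a⁻¹ (f (P.act i a x)))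
    (i : Bool) (a : A) (x : S) : f (P.act i a x) = Q.act i a (f x) := by
  have hout : ∀ (a : A) (X : S), X ∉ P.E i → f (P.act i a X) = Q.act i a (f X) := by
    intro a X hX
    by_cases ha : a ∈ B
    · exact hB i a ha X
    · have := hfix i a⁻¹ (P.act i a X) (PP.inv_notMem ha) (by rwa [P.act_inv_act])
      rwa [P.act_inv_act, inv_inv] at this
  by_cases hE : x ∈ P.E i
  · by_cases hC : x ∈ P.C i
    · obtain ⟨a', ha', hx'⟩ := hC.2
      have h1 := hfix i a' x ha' hx'
      have h2 := hout (a * a'⁻¹) _ hx'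
      rw [← P.mul, inv_mul_cancel_right] at h2
      rw [h2, h1, ← Q.mul]
    · obtain ⟨h2, h3⟩ := P.stay hE hC a
      rw [h0 _ (P.mem_F0 h2 h3), hc.hI2 i a x hE h2, h0 _ (P.mem_F0 hE hC)]
  · exact hout a x hE

theorem exists_bound (S : Type*) [MetricSpace S] [CompactSpace S] :
    ∃ D : ℝ, 0 ≤ D ∧ ∀ x y : S, dist x y ≤ D := by
  obtain ⟨C, hC⟩ := Metric.isBounded_iff.1 (isCompact_univ (X := S)).isBounded
  exact ⟨max C 0, le_max_right _ _, fun x y =>
    (hC (Set.mem_univ x) (Set.mem_univ y)).trans (le_max_left _ _)⟩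

theorem dyn_exist [CompactSpace S] [Finite A] (P Q : PP S A B) (h : S ≃ₜ S) (hc : Compat P Q h) :
    ∃ f : S → S, Continuous f ∧ (∀ x ∈ P.F0, f x = h x) ∧ (∀ i, ∀ x ∈ P.C i, f x ∈ Q.C i) ∧
      (∀ i a x, f (P.act i a x) = Q.act i a (f x)) := by
  obtain ⟨D, hD0, hD⟩ := exists_bound S
  let F : ℕ → S → S := fun n => (dynPhi P Q h)^[n] h
  have hF0 : F 0 = h := rfl
  have hFs : ∀ n, F (n + 1) = dynPhi P Q h (F n) := fun n =>
    Function.iterate_succ_apply' (dynPhi P Q h) n h
  have hadm : ∀ n, Adm P Q h (F n) := by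
    intro n
    induction n with
    | zero => exact hc.adm
    | succ n ih => rw [hFs]; exact ih.step hc
  have hstep : ∀ n, (∀ x ∈ P.C true, dist (F n x) (F (n + 1) x) ≤ 2 * D * (1 / 2) ^ n) ∧
      (∀ x ∈ P.C false, dist (F n x) (F (n + 1) x) ≤ D * (1 / 2) ^ n) := by
    intro n
    induction n with
    | zero =>
      constructor
      · intro x _
        have := hD (F 0 x) (F (0 + 1) x)
        rw [pow_zero]
        linarith
      · intro x _
        have := hD (F 0 x) (F (0 + 1) x)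
        rw [pow_zero]
        linarith
    | succ n ih =>
      have h0 : ∀ x ∈ P.F0, F n x = F (n + 1) x := fun x hx => by
        rw [(hadm n).eqF x hx, (hadm (n + 1)).eqF x hx]
      constructor
      · intro x hx
        obtain ⟨a, ha, hxa⟩ := hx.2
        rw [hFs (n + 1), hFs n, dynPhi_C P Q h _ (hadm n).eqB ha hxa,
          ← hFs n, dynPhi_C P Q h _ (hadm (n + 1)).eqB ha hxa]
        have := dyn_contract h0 (hadm n).mapC (hadm (n + 1)).mapC (by positivity) (by positivity)
          ih.1 ih.2 ha hxa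
        simp only [if_true] at this
        refine this.trans_eq ?_
        rw [pow_succ]; ring
      · intro x hx
        obtain ⟨a, ha, hxa⟩ := hx.2
        rw [hFs (n + 1), hFs n, dynPhi_C P Q h _ (hadm n).eqB ha hxa,
          ← hFs n, dynPhi_C P Q h _ (hadm (n + 1)).eqB ha hxa]
        have := dyn_contract h0 (hadm n).mapC (hadm (n + 1)).mapC (by positivity) (by positivity)
          ih.1 ih.2 ha hxa
        simp only [Bool.false_eq_true, if_false] at this
        refine this.trans_eq ?_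
        rw [pow_succ]; ring
  have hall : ∀ x n, dist (F n x) (F (n + 1) x) ≤ 2 * D * (1 / 2) ^ n := by
    intro x n
    by_cases hx : x ∈ P.F0
    · rw [(hadm n).eqF x hx, (hadm (n + 1)).eqF x hx, dist_self]; positivity
    · obtain ⟨i, hi⟩ : ∃ i, x ∈ P.C i := by
        by_contra hcon
        push Not at hcon
        exact hx hcon
      cases i
      · refine ((hstep n).2 x hi).trans ?_
        have : (0 : ℝ) ≤ D * (1 / 2) ^ n := by positivity
        linarith
      · exact (hstep n).1 x hi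
  have hcau : ∀ x, CauchySeq fun n => F n x := fun x =>
    cauchySeq_of_le_geometric (1 / 2) (2 * D) (by norm_num) (hall x)
  choose f hf using fun x => cauchySeq_tendsto_of_complete (hcau x)
  have hunif : TendstoUniformly F f atTop := by
    rw [Metric.tendstoUniformly_iff]
    intro ε hε
    have h1 : Tendsto (fun n : ℕ => 2 * D * (1 / 2 : ℝ) ^ n / (1 - 1 / 2)) atTop (𝓝 0) := by
      have h2 := tendsto_pow_atTop_nhds_zero_of_lt_one (show (0 : ℝ) ≤ 1 / 2 by norm_num)
        (by norm_num)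
      have h3 := (h2.const_mul (2 * D)).div_const (1 - 1 / 2)
      simpa using h3
    filter_upwards [h1.eventually (gt_mem_nhds hε)] with n hn x
    rw [dist_comm]
    exact (dist_le_of_le_geometric_of_tendsto (1 / 2) (2 * D) (by norm_num) (hall x)
      (hf x) n).trans_lt hn
  have hcont : Continuous f :=
    hunif.continuous (Frequently.of_forall fun n => (hadm n).cont)
  have h0 : ∀ x ∈ P.F0, f x = h x := by
    intro x hx
    refine tendsto_nhds_unique (hf x) ?_
    have : (fun n => F n x) = fun _ => h x := funext fun n => (hadm n).eqF x hx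
    rw [this]
    exact tendsto_const_nhds
  have hB : ∀ i, ∀ b ∈ B, ∀ x, f (P.act i b x) = Q.act i b (f x) := by
    intro i b hb x
    refine tendsto_nhds_unique (hf (P.act i b x)) ?_
    have : (fun n => F n (P.act i b x)) = fun n => Q.act i b (F n x) :=
      funext fun n => (hadm n).eqB i b hb x
    rw [this]
    exact ((Q.cont i b).tendsto _).comp (hf x)
  have hfix : ∀ i a x, a ∉ B → P.act i a x ∉ P.E i →
      f x = Q.act i a⁻¹ (f (P.act i a x)) := by
    intro i a x ha hx
    refine tendsto_nhds_unique ((tendsto_add_atTop_iff_nat 1).2 (hf x)) ?_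
    have : (fun n => F (n + 1) x) = fun n => Q.act i a⁻¹ (F n (P.act i a x)) :=
      funext fun n => by rw [hFs n, dynPhi_C P Q h _ (hadm n).eqB ha hx]
    rw [this]
    exact ((Q.cont i a⁻¹).tendsto _).comp (hf (P.act i a x))
  refine ⟨f, hcont, h0, ?_, dyn_equiv hc h0 hB hfix⟩
  intro i x hx
  exact (Q.C_closed i).mem_of_tendsto (hf x) (Eventually.of_forall fun n => (hadm n).mapC i x hx)

end Pool.Agent.Lib.MP_c2de4f_an
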