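import Pool.Agent.Lib.MP_c2de4f_an.DYN1A

set_option autoImplicit false

/-! # DYN1B: uniqueness; the extension is a homeomorphism -/

noncomputable section

open Metric Set Filter Topology
open scoped RealInnerProductSpace

namespace Pool.Agent.Lib.MP_c2de4f_an

variable {S : Type*} [MetricSpace S] {A : Type*} [Group A] {B : Subgroup A}

theorem dyn_unique [CompactSpace S] (P Q : PP S A B) (f f' : S → S)
    (h0 : ∀ x ∈ P.F0, f x = f' x)
    (hC : ∀ i, ∀ x ∈ P.C i, f x ∈ Q.C i) (hC' : ∀ i, ∀ x ∈ P.C i, f' x ∈ Q.C i)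
    (hf : ∀ i a x, f (P.act i a x) = Q.act i a (f x))
    (hf' : ∀ i a x, f' (P.act i a x) = Q.act i a (f' x)) : f = f' := by
  obtain ⟨D, hD0, hD⟩ := exists_bound S
  have hback : ∀ (g : S → S), (∀ i a x, g (P.act i a x) = Q.act i a (g x)) →
      ∀ i a x, g x = Q.act i a⁻¹ (g (P.act i a x)) := by
    intro g hg i a x
    rw [hg, Q.act_inv_act]
  have hstep : ∀ n : ℕ, (∀ x ∈ P.C true, dist (f x) (f' x) ≤ 2 * D * (1 / 2) ^ n) ∧
      (∀ x ∈ P.C false, dist (f x) (f' x) ≤ D * (1 / 2) ^ n) := by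
    intro n
    induction n with
    | zero =>
      constructor
      · intro x _
        have := hD (f x) (f' x)
        rw [pow_zero]
        linarith
      · intro x _
        have := hD (f x) (f' x)
        rw [pow_zero]
        linarith
    | succ n ih =>
      constructor
      · intro x hx
        obtain ⟨a, ha, hxa⟩ := hx.2
        rw [hback f hf true a x, hback f' hf' true a x]
        have := dyn_contract h0 hC hC' (by positivity) (by positivity) ih.1 ih.2 ha hxa
        simp only [if_true] at this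
        refine this.trans_eq ?_
        rw [pow_succ]; ring
      · intro x hx
        obtain ⟨a, ha, hxa⟩ := hx.2
        rw [hback f hf false a x, hback f' hf' false a x]
        have := dyn_contract h0 hC hC' (by positivity) (by positivity) ih.1 ih.2 ha hxa
        simp only [Bool.false_eq_true, if_false] at this
        refine this.trans_eq ?_
        rw [pow_succ]; ring
  have hlim : ∀ c : ℝ, Tendsto (fun n : ℕ => c * (1 / 2 : ℝ) ^ n) atTop (𝓝 0) := by
    intro c
    have h2 := tendsto_pow_atTop_nhds_zero_of_lt_one (show (0 : ℝ) ≤ 1 / 2 by norm_num)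
      (by norm_num)
    simpa using h2.const_mul c
  funext x
  by_cases hx : x ∈ P.F0
  · exact h0 x hx
  · obtain ⟨i, hi⟩ : ∃ i, x ∈ P.C i := by
      by_contra hcon
      push Not at hcon
      exact hx hcon
    have hle : dist (f x) (f' x) ≤ 0 := by
      cases i
      · exact ge_of_tendsto' (hlim D) fun n => (hstep n).2 x hi
      · exact ge_of_tendsto' (hlim (2 * D)) fun n => (hstep n).1 x hi
    exact dist_le_zero.1 hle

theorem Compat.symm {P Q : PP S A B} {h : S ≃ₜ S} (hc : Compat P Q h) : Compat Q P h.symm where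
  hE := by
    intro i x
    rw [hc.hE i (h.symm x), h.apply_symm_apply]
  hB := by
    intro i b hb x
    apply h.injective
    rw [h.apply_symm_apply, hc.hB i b hb, h.apply_symm_apply]
  hI := by
    intro i a x hx
    have h1 : h.symm x ∈ P.E i := by rw [hc.hE i, h.apply_symm_apply]; exact hx
    have := hc.hI i a (h.symm x) h1
    rw [h.apply_symm_apply] at this
    exact this.symm
  hI2 := by
    intro i a x hx hax
    have h1 : h.symm x ∈ P.E i := by rw [hc.hE i, h.apply_symm_apply]; exact hx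
    have h2 := hc.hI i a (h.symm x) h1
    rw [h.apply_symm_apply] at h2
    have h3 := hc.hI2 i a (h.symm x) h1 (h2.2 hax)
    rw [h.apply_symm_apply] at h3
    rw [← h3, h.symm_apply_apply]

theorem Compat.mem_F0 {P Q : PP S A B} {h : S ≃ₜ S} (hc : Compat P Q h) {x : S}
    (hx : x ∈ P.F0) : h x ∈ Q.F0 := fun i hi => hx i ((hc.mem_C i x).2 hi)

theorem dyn_comp_id [CompactSpace S] {P Q : PP S A B} {h : S ≃ₜ S} (hc : Compat P Q h)
    {f f' : S → S} (h0 : ∀ x ∈ P.F0, f x = h x) (h0' : ∀ x ∈ Q.F0, f' x = h.symm x)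
    (hC : ∀ i, ∀ x ∈ P.C i, f x ∈ Q.C i) (hC' : ∀ i, ∀ x ∈ Q.C i, f' x ∈ P.C i)
    (hf : ∀ i a x, f (P.act i a x) = Q.act i a (f x))
    (hf' : ∀ i a x, f' (Q.act i a x) = P.act i a (f' x)) (x : S) : f' (f x) = x := by
  have : (fun x => f' (f x)) = id := by
    refine dyn_unique P P _ _ ?_ ?_ ?_ ?_ ?_
    · intro x hx
      simp only [id]
      rw [h0 x hx, h0' _ (hc.mem_F0 hx), h.symm_apply_apply]
    · exact fun i x hx => hC' i _ (hC i x hx)
    · exact fun i x hx => hx
    · intro i a x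
      rw [hf, hf']
    · exact fun i a x => rfl
  exact congrFun this x

theorem dyn1 [CompactSpace S] [Finite A] (P Q : PP S A B) (h : S ≃ₜ S) (hc : Compat P Q h) :
    ∃ f : S ≃ₜ S, (∀ i a x, f (P.act i a x) = Q.act i a (f x)) ∧ (∀ x ∈ P.F0, f x = h x) := by
  obtain ⟨f, hfc, h0, hC, hf⟩ := dyn_exist P Q h hc
  obtain ⟨f', hfc', h0', hC', hf'⟩ := dyn_exist Q P h.symm hc.symm
  have h1 : ∀ x, f' (f x) = x := dyn_comp_id hc h0 h0' hC hC' hf hf'
  have h2 : ∀ x, f (f' x) = x := dyn_comp_id hc.symm h0' (by simpa using h0) hC' hC hf' hf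
  exact ⟨⟨⟨f, f', h1, h2⟩, hfc, hfc'⟩, hf, h0⟩

end Pool.Agent.Lib.MP_c2de4f_an
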