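import Pool.Agent.Lib.MP_c2de4f_an.DYN1A

set_option autoImplicit false

/-! # DYN2A: words; quasiconformality at the points of the domain of discontinuity -/

noncomputable section

open Metric Set Filter Topology
open scoped RealInnerProductSpace

namespace Pool.Agent.Lib.MP_c2de4f_an

variable {S : Type*} [MetricSpace S] {A : Type*} [Group A] {B : Subgroup A}

/-- `Word P Q k g g' j`: `g` is a product of `k` nontrivial letters, alternately from the two
actions of `P`, such that a letter of the action `j` may follow; `g'` is the same word in `Q`. -/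
inductive Word (P Q : PP S A B) : ℕ → (S → S) → (S → S) → Bool → Prop
  | nil (j : Bool) : Word P Q 0 id id j
  | snoc {k : ℕ} {g g' : S → S} {j : Bool} (a : A) (ha : a ∉ B) (hw : Word P Q k g g' j) :
      Word P Q (k + 1) (g ∘ P.act j a) (g' ∘ Q.act j a) (!j)

theorem CR.comp_inj {X Y Z : Type*} [PseudoMetricSpace X] [MetricSpace Y] [MetricSpace Z]
    {g : Y → Z} {k : X → Y} (hg : CR g) (hk : CR k)
    (hi : ∀ x y, k x = k y → dist x y = 0) : CR (g ∘ k) := by
  intro a b d e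
  simp only [Function.comp_apply]
  have h1 := hg (k a) (k b) (k d) (k e)
  have h2 := hk a b d e
  by_cases h0 : dist (k a) (k b) * dist (k d) (k e) = 0
  · rcases mul_eq_zero.1 h0 with h3 | h3
    · rw [dist_eq_zero] at h3
      rw [h3, hi a b h3, dist_self]
      ring
    · rw [dist_eq_zero] at h3
      rw [h3, hi d e h3, dist_self]
      ring
  · refine mul_right_cancel₀ h0 ?_
    calc dist (g (k a)) (g (k d)) * dist (g (k b)) (g (k e)) * (dist a b * dist d e)
          * (dist (k a) (k b) * dist (k d) (k e))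
        = (dist (g (k a)) (g (k d)) * dist (g (k b)) (g (k e))
          * (dist (k a) (k b) * dist (k d) (k e))) * (dist a b * dist d e) := by ring
      _ = (dist (g (k a)) (g (k b)) * dist (g (k d)) (g (k e)))
          * (dist (k a) (k d) * dist (k b) (k e) * (dist a b * dist d e)) := by rw [h1]; ring
      _ = dist a d * dist b e * (dist (g (k a)) (g (k b)) * dist (g (k d)) (g (k e)))
          * (dist (k a) (k b) * dist (k d) (k e)) := by rw [h2]; ring

theorem CR.id' {X : Type*} [PseudoMetricSpace X] : CR (id : X → X) := by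
  intro a b d e
  simp only [id]

theorem Word.props {P Q : PP S A B} (hP : ∀ i a, CR (P.act i a)) (hQ : ∀ i a, CR (Q.act i a))
    {f : S → S} (hf : ∀ i a x, f (P.act i a x) = Q.act i a (f x))
    {k : ℕ} {g g' : S → S} {j : Bool} (hw : Word P Q k g g' j) :
    Function.Bijective g ∧ Function.Bijective g' ∧ Continuous g ∧ Continuous g' ∧
      CR g ∧ CR g' ∧ ∀ x, f (g x) = g' (f x) := by
  induction hw with
  | nil j =>
    exact ⟨Function.bijective_id, Function.bijective_id, continuous_id, continuous_id,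
      CR.id', CR.id', fun _ => rfl⟩
  | snoc a ha hw ih =>
    obtain ⟨h1, h2, h3, h4, h5, h6, h7⟩ := ih
    refine ⟨h1.comp (P.act_bij _ a), h2.comp (Q.act_bij _ a), h3.comp (P.cont _ a),
      h4.comp (Q.cont _ a), h5.comp_inj (hP _ a) ?_, h6.comp_inj (hQ _ a) ?_, ?_⟩
    · intro x y hxy
      rw [(P.act_bij _ a).1 hxy, dist_self]
    · intro x y hxy
      rw [(Q.act_bij _ a).1 hxy, dist_self]
    · intro x
      simp only [Function.comp_apply]
      rw [h7, hf]

/-- A map preserving cross ratios is infinitesimally round. -/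
theorem cr_round {g : S → S} (hg : CR g) (hc : Continuous g) (hi : Function.Injective g)
    (x p : S) (hp : p ≠ x) : ∃ δ > (0 : ℝ), ∀ y z, dist y x < δ → dist z x < δ →
      dist (g y) (g x) * dist z x ≤ 2 * (dist (g z) (g x) * dist y x) := by
  have hpos : 0 < dist (g p) (g x) * dist x p :=
    mul_pos (dist_pos.2 fun h => hp (hi h)) (dist_pos.2 hp.symm)
  -- two positive continuous functions
  have c1 : Continuous fun q : S × S => dist (g p) (g q.2) * dist q.1 p := by fun_prop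
  have c2 : Continuous fun q : S × S => 2 * (dist (g p) (g q.2) * dist q.1 p)
      - dist p q.2 * dist (g q.1) (g p) := by fun_prop
  have e1 : ∀ᶠ q : S × S in 𝓝 (x, x), 0 < dist (g p) (g q.2) * dist q.1 p :=
    (c1.tendsto (x, x)).eventually (lt_mem_nhds hpos)
  have e2 : ∀ᶠ q : S × S in 𝓝 (x, x), 0 < 2 * (dist (g p) (g q.2) * dist q.1 p)
      - dist p q.2 * dist (g q.1) (g p) := by
    refine (c2.tendsto (x, x)).eventually (lt_mem_nhds ?_)
    simp only []
    rw [dist_comm p x, dist_comm (g x) (g p)]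
    linarith
  obtain ⟨δ, hδ, hball⟩ := Metric.eventually_nhds_iff.1 (e1.and e2)
  refine ⟨δ, hδ, fun y z hy hz => ?_⟩
  have hd : dist ((y, z) : S × S) (x, x) < δ := by
    rw [Prod.dist_eq]; exact max_lt hy hz
  obtain ⟨h1, h2⟩ := hball hd
  simp only [] at h1 h2
  have h3 := hg y p x z
  -- u * α = v * β
  set α := dist (g p) (g z) * dist y p with hα
  set β := dist p z * dist (g y) (g p) with hβ
  have h4 : (dist (g y) (g x) * dist z x) * α = (dist (g z) (g x) * dist y x) * β := by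
    rw [hα, hβ, dist_comm z x, dist_comm (g z) (g x)]
    linarith
  have h5 : β ≤ 2 * α := by linarith
  have h6 : 0 ≤ dist (g z) (g x) * dist y x := by positivity
  refine le_of_mul_le_mul_right ?_ h1
  rw [h4]
  calc dist (g z) (g x) * dist y x * β ≤ dist (g z) (g x) * dist y x * (2 * α) :=
        mul_le_mul_of_nonneg_left h5 h6
    _ = 2 * (dist (g z) (g x) * dist y x) * α := by ring

/-- `x` is in the orbit of the fundamental region. -/
def Reg (P Q : PP S A B) (x : S) : Prop := ∃ k g g' j y, Word P Q k g g' j ∧ y ∈ P.F0 ∧ g y = x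

theorem qc_reg [CompactSpace S] [Finite A] (P Q : PP S A B) (h : S ≃ₜ S)
    (hP : ∀ i a, CR (P.act i a)) (hQ : ∀ i a, CR (Q.act i a)) (hL : BiLip h) (f : S ≃ₜ S)
    (hf : ∀ i a x, f (P.act i a x) = Q.act i a (f x)) (hf0 : ∀ x ∈ P.F0, f x = h x) :
    ∃ H : ℝ, ∀ x : S, Reg P Q x → ∃ δ > (0 : ℝ), ∀ ρ : ℝ, 0 < ρ → ρ < δ → ∀ y z : S,
      dist y x = ρ → dist z x = ρ → dist (f y) (f x) ≤ H * dist (f z) (f x) := by
  obtain ⟨L0, hL1', hL2'⟩ := hL
  obtain ⟨L, hL0, hL1, hL2⟩ : ∃ L : ℝ, 0 ≤ L ∧ (∀ x y, dist (h x) (h y) ≤ L * dist x y) ∧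
      (∀ x y, dist x y ≤ L * dist (h x) (h y)) := by
    refine ⟨max L0 0, le_max_right _ _, fun x y => (hL1' x y).trans ?_,
      fun x y => (hL2' x y).trans ?_⟩
    · exact mul_le_mul_of_nonneg_right (le_max_left _ _) dist_nonneg
    · exact mul_le_mul_of_nonneg_right (le_max_left _ _) dist_nonneg
  refine ⟨4 * L ^ 2, ?_⟩
  rintro x ⟨k, g, g', j, y0, hw, hy0, rfl⟩
  obtain ⟨b1, b2, c1, c2, r1, r2, hfg⟩ := hw.props hP hQ hf
  by_cases hex : ∃ p, p ≠ y0
  swap
  · push Not at hex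
    refine ⟨1, one_pos, fun ρ hρ _ y z hy _ => ?_⟩
    obtain ⟨Y, rfl⟩ := b1.2 y
    rw [hex Y, dist_self] at hy
    exact absurd hy hρ.ne
  obtain ⟨p, hp⟩ := hex
  -- the inverse of `g` is continuous
  let G : S ≃ₜ S := Continuous.homeoOfEquivCompactToT2 (f := Equiv.ofBijective g b1) c1
  have hG : ∀ Y, G Y = g Y := fun Y => rfl
  obtain ⟨δ1, hδ1, hr1⟩ := cr_round r1 c1 b1.1 y0 p hp
  have hfp : f p ≠ f y0 := fun h' => hp (f.injective h')
  obtain ⟨δ2, hδ2, hr2⟩ := cr_round r2 c2 b2.1 (f y0) (f p) hfp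
  -- all conditions on `Y` near `y0`
  have hev : ∀ᶠ Y in 𝓝 y0, dist Y y0 < δ1 ∧ dist (f Y) (f y0) < δ2 ∧ Y ∈ P.F0 := by
    have e1 : ∀ᶠ Y in 𝓝 y0, dist Y y0 < δ1 := Metric.ball_mem_nhds y0 hδ1
    have e2 : ∀ᶠ Y in 𝓝 y0, dist (f Y) (f y0) < δ2 :=
      (f.continuous.tendsto y0).eventually (Metric.ball_mem_nhds (f y0) hδ2)
    have e3 : ∀ᶠ Y in 𝓝 y0, Y ∈ P.F0 := (F0_open P).mem_nhds hy0
    exact e1.and (e2.and e3)
  have hsymm : G.symm (g y0) = y0 := by
    rw [← hG, G.symm_apply_apply]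
  have hev' : ∀ᶠ y in 𝓝 (g y0), dist (G.symm y) y0 < δ1 ∧ dist (f (G.symm y)) (f y0) < δ2 ∧
      G.symm y ∈ P.F0 := by
    have := G.symm.continuous.tendsto (g y0)
    rw [hsymm] at this
    exact this.eventually hev
  obtain ⟨δ, hδ, hball⟩ := Metric.eventually_nhds_iff.1 hev'
  refine ⟨δ, hδ, fun ρ hρ hρδ y z hy hz => ?_⟩
  obtain ⟨hY1, hY2, hY3⟩ := hball (show dist y (g y0) < δ by rw [hy]; exact hρδ)
  obtain ⟨hZ1, hZ2, hZ3⟩ := hball (show dist z (g y0) < δ by rw [hz]; exact hρδ)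
  set Y := G.symm y with hYdef
  set Z := G.symm z with hZdef
  have hgY : g Y = y := by rw [← hG, hYdef, G.apply_symm_apply]
  have hgZ : g Z = z := by rw [← hG, hZdef, G.apply_symm_apply]
  -- first comparison
  have h1 : dist Y y0 ≤ 2 * dist Z y0 := by
    have := hr1 Z Y hZ1 hY1
    rw [hgY, hgZ, hy, hz] at this
    have h2 : ρ * dist Y y0 ≤ ρ * (2 * dist Z y0) := by linarith
    exact le_of_mul_le_mul_left h2 hρ
  have h2 : dist (f Y) (f y0) ≤ 2 * L ^ 2 * dist (f Z) (f y0) := by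
    rw [hf0 Y hY3, hf0 Z hZ3, hf0 y0 hy0]
    calc dist (h Y) (h y0) ≤ L * dist Y y0 := hL1 _ _
      _ ≤ L * (2 * dist Z y0) := mul_le_mul_of_nonneg_left h1 hL0
      _ ≤ L * (2 * (L * dist (h Z) (h y0))) :=
        mul_le_mul_of_nonneg_left (mul_le_mul_of_nonneg_left (hL2 _ _) (by norm_num)) hL0
      _ = 2 * L ^ 2 * dist (h Z) (h y0) := by ring
  have h3 := hr2 (f Y) (f Z) hY2 hZ2
  rw [← hfg, ← hfg, ← hfg, hgY, hgZ] at h3
  have hZne : 0 < dist (f Z) (f y0) := by
    refine dist_pos.2 fun h' => ?_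
    have : Z = y0 := f.injective h'
    rw [← hgZ, this, dist_self] at hz
    exact absurd hz hρ.ne
  have h4 : dist (f y) (f (g y0)) * dist (f Z) (f y0)
      ≤ (4 * L ^ 2 * dist (f z) (f (g y0))) * dist (f Z) (f y0) := by
    calc dist (f y) (f (g y0)) * dist (f Z) (f y0)
        ≤ 2 * (dist (f z) (f (g y0)) * dist (f Y) (f y0)) := h3
      _ ≤ 2 * (dist (f z) (f (g y0)) * (2 * L ^ 2 * dist (f Z) (f y0))) := by gcongr
      _ = (4 * L ^ 2 * dist (f z) (f (g y0))) * dist (f Z) (f y0) := by ring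
  exact le_of_mul_le_mul_right h4 hZne

end Pool.Agent.Lib.MP_c2de4f_an
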