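import Pool.Agent.Lib.MP_c2de4f_an.DYN2A

set_option autoImplicit false

/-! # DYN2B: quasiconformality at the limit points -/

noncomputable section

open Metric Set
open scoped RealInnerProductSpace

namespace Pool.Agent.Lib.MP_c2de4f_an

variable {S : Type*} [MetricSpace S] {A : Type*} [Group A] {B : Subgroup A}

theorem Word.contr_aux {P Q : PP S A B} {e : S} (hO : PPO P e) {k : ℕ} {g g' : S → S} {j : Bool}
    (hw : Word P Q k g g' j) : ∀ x ∈ hO.O j, ∀ y ∈ hO.O j,
      dist (g x) (g y) ≤ (if j then 1 else 2) * (1 / 2 : ℝ) ^ k * dist x y := by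
  induction hw with
  | nil j =>
    intro x _ y _
    have h : (0 : ℝ) ≤ dist x y := dist_nonneg
    cases j
    · simp only [id, Bool.false_eq_true, if_false, pow_zero, mul_one]
      linarith
    · simp
  | @snoc k g g' j a ha hw ih =>
    intro x hx y hy
    have hx' := hO.O_map j a ha x hx
    have hy' := hO.O_map j a ha y hy
    have h1 := ih _ hx' _ hy'
    have h0 : (0 : ℝ) ≤ (1 / 2 : ℝ) ^ k := by positivity
    cases j
    · -- last letter `false`: contraction by 1/4
      have h2 := hO.lipO2 a ha x hx y hy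
      simp only [Bool.false_eq_true, if_false, Bool.not_false, if_true, Function.comp] at h1 ⊢
      calc dist (g (P.act false a x)) (g (P.act false a y))
          ≤ 2 * (1 / 2) ^ k * dist (P.act false a x) (P.act false a y) := h1
        _ ≤ 2 * (1 / 2) ^ k * (dist x y / 4) := by
            exact mul_le_mul_of_nonneg_left h2 (by positivity)
        _ = 1 * (1 / 2) ^ (k + 1) * dist x y := by ring
    · have h2 := hO.lipO1 a ha x hx y hy
      simp only [Bool.false_eq_true, if_false, Bool.not_true, if_true, Function.comp] at h1 ⊢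
      calc dist (g (P.act true a x)) (g (P.act true a y))
          ≤ 1 * (1 / 2) ^ k * dist (P.act true a x) (P.act true a y) := h1
        _ ≤ 1 * (1 / 2) ^ k * dist x y := by
            exact mul_le_mul_of_nonneg_left h2 (by positivity)
        _ = 2 * (1 / 2) ^ (k + 1) * dist x y := by ring

theorem Word.contr {P Q : PP S A B} {e : S} (hO : PPO P e) {k : ℕ} {g g' : S → S} {j : Bool}
    (hw : Word P Q k g g' j) : ∀ x ∈ hO.O j, ∀ y ∈ hO.O j,
      dist (g x) (g y) ≤ 2 * (1 / 2) ^ k * dist x y := by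
  intro x hx y hy
  refine (Word.contr_aux hO hw x hx y hy).trans ?_
  refine mul_le_mul_of_nonneg_right ?_ dist_nonneg
  refine mul_le_mul_of_nonneg_right ?_ (by positivity)
  split_ifs <;> norm_num

theorem Word.zero {P Q : PP S A B} {g g' : S → S} {j : Bool} (hw : Word P Q 0 g g' j) :
    g = id ∧ g' = id := by
  cases hw
  exact ⟨rfl, rfl⟩

theorem Word.ne_e {P Q : PP S A B} {e : S} (hO : PPO P e) {k : ℕ} {g g' : S → S} {j : Bool}
    (hw : Word P Q k g g' j) : 1 ≤ k → ∀ x ∈ hO.O j, g x ≠ e := by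
  induction hw with
  | nil j => intro h; omega
  | @snoc k g g' j a ha hw ih =>
    intro _ x hx
    have hx' := hO.O_map j a ha x hx
    rcases Nat.eq_zero_or_pos k with hk | hk
    · subst hk
      obtain ⟨h1, -⟩ := hw.zero
      subst h1
      exact hO.he j a ha x hx
    · exact ih hk _ hx'

theorem C_cases {P : PP S A B} {x : S} (hx : x ∉ P.F0) : ∃ i, x ∈ P.C i := by
  by_contra h
  push Not at h
  exact hx h

/-- a point outside of the orbit of the fundamental region has an infinite address -/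
theorem next_letter {P Q : PP S A B} {k : ℕ} {g g' : S → S} {j : Bool} (hw : Word P Q k g g' j)
    {X : S} (hX : X ∈ P.C j) (hR : ¬ Reg P Q (g X)) :
    ∃ a, a ∉ B ∧ ∃ Y, Y ∈ P.C (!j) ∧ P.act j a Y = X := by
  obtain ⟨_, a, ha, haX⟩ := hX
  have ha' : a⁻¹ ∉ B := fun h => ha (by simpa using B.inv_mem h)
  have hYX : P.act j a⁻¹ (P.act j a X) = X := by
    rw [← P.mul, inv_mul_cancel, P.one]
  refine ⟨a⁻¹, ha', P.act j a X, ?_, hYX⟩
  have hF : P.act j a X ∉ P.F0 := by
    intro hF
    exact hR ⟨k + 1, _, _, _, _, Word.snoc a⁻¹ ha' hw, hF, by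
      show g (P.act j a⁻¹ (P.act j a X)) = g X
      rw [hYX]⟩
  obtain ⟨i, hi⟩ := C_cases hF
  have hij : i = !j := by
    by_contra hne
    have : i = j := by
      cases i <;> cases j <;> simp_all
    subst this
    exact haX hi.1
  rw [← hij]
  exact hi

theorem qc_limit [CompactSpace S] [Finite A] (P Q : PP S A B) (e : S) (hO : PPO P e)
    (hQ : ∀ i a, CR (Q.act i a)) (f : S ≃ₜ S)
    (hf : ∀ i a x, f (P.act i a x) = Q.act i a (f x)) :
    ∃ H : ℝ, ∀ x : S, ¬ Reg P Q x → ∃ δ > (0 : ℝ), ∀ ρ : ℝ, 0 < ρ → ρ < δ → ∀ y z : S,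
      dist y x = ρ → dist z x = ρ → dist (f y) (f x) ≤ H * dist (f z) (f x) := by
  classical
  -- diameter bound
  obtain ⟨D, hD0, hD⟩ : ∃ D : ℝ, 0 < D ∧ ∀ u v : S, dist u v ≤ D := by
    have hb : Bornology.IsBounded (Set.univ : Set S) := isCompact_univ.isBounded
    obtain ⟨C, hC⟩ := Metric.isBounded_iff.1 hb
    exact ⟨max C 1, lt_of_lt_of_le one_pos (le_max_right _ _),
      fun u v => (hC (mem_univ u) (mem_univ v)).trans (le_max_left _ _)⟩
  -- modulus of `f`
  have hω : ∀ r : ℝ, 0 < r → ∃ w : ℝ, 0 < w ∧ ∀ u v : S, r ≤ dist u v → w ≤ dist (f u) (f v) := by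
    intro r hr
    have huc := CompactSpace.uniformContinuous_of_continuous f.symm.continuous
    obtain ⟨w, hw, hw'⟩ := Metric.uniformContinuous_iff.1 huc r hr
    refine ⟨w, hw, fun u v huv => ?_⟩
    by_contra hlt
    push Not at hlt
    have := hw' hlt
    simp only [Homeomorph.symm_apply_apply] at this
    linarith
  -- the two points outside of `O j`
  obtain ⟨r5, hr5, hr5'⟩ : ∃ r5 : ℝ, 0 < r5 ∧ ∀ j (P' : S), ∃ P2, P2 ∉ hO.O j ∧ r5 ≤ dist P2 P' := by
    obtain ⟨p, q, hp, hq, hpq⟩ := hO.two true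
    obtain ⟨p', q', hp', hq', hpq'⟩ := hO.two false
    have h1 : 0 < dist p q := dist_pos.2 hpq
    have h2 : 0 < dist p' q' := dist_pos.2 hpq'
    have gen : ∀ (r : ℝ) (O : Set S) (p q : S), p ∉ O → q ∉ O → 2 * r ≤ dist p q → ∀ P' : S,
        ∃ P2, P2 ∉ O ∧ r ≤ dist P2 P' := by
      intro r O p q hp hq h P'
      by_cases hh : r ≤ dist p P'
      · exact ⟨p, hp, hh⟩
      · refine ⟨q, hq, ?_⟩
        have := dist_triangle_right p q P'
        push Not at hh
        linarith
    refine ⟨min (dist p q) (dist p' q') / 2, by positivity, ?_⟩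
    intro j P'
    cases j
    · exact gen _ _ p' q' hp' hq' (by linarith [min_le_right (dist p q) (dist p' q')]) P'
    · exact gen _ _ p q hp hq (by linarith [min_le_left (dist p q) (dist p' q')]) P'
  have hc := hO.c_pos
  have hM : 0 < hO.M := lt_of_lt_of_le one_pos hO.M_pos
  -- inverse Lipschitz bound
  have hinvM : ∀ i a x y, dist x y ≤ hO.M * dist (P.act i a x) (P.act i a y) := by
    intro i a x y
    have := hO.lipM i a⁻¹ (P.act i a x) (P.act i a y)
    rwa [← P.mul, ← P.mul, inv_mul_cancel, P.one, P.one] at this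
  -- constants
  set ce : ℝ := hO.c / hO.M with hce
  have hce0 : 0 < ce := by positivity
  set ca : ℝ := hO.c * ce / (4 * hO.M * D ^ 2) with hca
  have hca0 : 0 < ca := by positivity
  set c2 : ℝ := ca * hO.c / (1 + ca) with hc2
  have hc20 : 0 < c2 := by positivity
  set cb : ℝ := hO.c * ce / (3 * D ^ 2) with hcb
  have hcb0 : 0 < cb := by positivity
  set c6 : ℝ := cb * r5 / (1 + cb) with hc6
  have hc60 : 0 < c6 := by positivity
  obtain ⟨w2, hw20, hw2⟩ := hω c2 hc20
  obtain ⟨w6, hw60, hw6⟩ := hω c6 hc60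
  obtain ⟨we, hwe0, hwe⟩ := hω (ce / 2) (by positivity)
  have hEO : ∀ j X, X ∈ P.E j → X ∈ hO.O j := by
    intro j X hX
    by_contra h
    have := hO.sep j X hX X h
    rw [dist_self] at this
    linarith
  refine ⟨D ^ 3 / (we * w6 * w2), fun x hx => ?_⟩
  have hxF : x ∉ P.F0 := fun h => hx ⟨0, id, id, true, x, Word.nil true, h, rfl⟩
  obtain ⟨i, hi⟩ := C_cases hxF
  -- first letter
  have hxi : ¬ Reg P Q (id x) := hx
  obtain ⟨a1, ha1, X1, hX1, hX1x⟩ := next_letter (Q := Q) (Word.nil i) hi hxi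
  -- distance from the complement of `act i a1 (O (!i))`
  have hfar : ∀ p, p ∉ (P.act i a1) '' (hO.O (!i)) → ce ≤ dist x p := by
    intro p hp
    have hp' : P.act i a1⁻¹ p ∉ hO.O (!i) := by
      intro h
      exact hp ⟨_, h, by rw [← P.mul, mul_inv_cancel, P.one]⟩
    have h1 := hO.sep (!i) X1 hX1.1 _ hp'
    have h2 := hinvM i a1 X1 (P.act i a1⁻¹ p)
    rw [← P.mul, mul_inv_cancel, P.one, hX1x] at h2
    rw [hce, div_le_iff₀ hM]
    linarith
  have hxe : ce ≤ dist x e := by
    apply hfar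
    rintro ⟨u, hu, hue⟩
    exact hO.he i a1 ha1 u hu hue
  refine ⟨ce / 4, by positivity, fun ρ hρ hρδ y z hy hz => ?_⟩
  -- admissible words
  let Adm : ℕ → Prop := fun k => ∃ (g g' : S → S) (j : Bool) (X : S), Word P Q k g g' j ∧
    X ∈ P.C j ∧ g X = x ∧ ∀ p, dist p x < 2 * ρ → p ∈ g '' (hO.O j)
  have hAdm1 : Adm 1 := by
    refine ⟨_, _, _, X1, Word.snoc a1 ha1 (Word.nil i), hX1, hX1x, ?_⟩
    intro p hp
    by_contra h
    have := hfar p h
    rw [dist_comm] at this
    linarith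
  obtain ⟨N, hN⟩ : ∃ N : ℕ, 2 * (1 / 2 : ℝ) ^ N * D < ρ := by
    obtain ⟨N, hN⟩ := exists_pow_lt_of_lt_one (show (0 : ℝ) < ρ / (2 * D) by positivity)
      (show (1 / 2 : ℝ) < 1 by norm_num)
    refine ⟨N, ?_⟩
    rw [lt_div_iff₀ (by positivity)] at hN
    linarith
  have hbd : ∀ k, Adm k → k < N := by
    rintro k ⟨g, g', j, X, hw, hXC, hgX, hball⟩
    by_contra hk
    push Not at hk
    obtain ⟨Y, hY, hgY⟩ := hball y (by rw [hy]; linarith)
    have h1 := Word.contr hO hw Y hY X (hEO j X hXC.1)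
    rw [hgY, hgX, hy] at h1
    have h2 : 2 * (1 / 2 : ℝ) ^ k * dist Y X ≤ 2 * (1 / 2 : ℝ) ^ N * D := by
      have h3 : (1 / 2 : ℝ) ^ k ≤ (1 / 2 : ℝ) ^ N :=
        pow_le_pow_of_le_one (by norm_num) (by norm_num) hk
      have h4 := hD Y X
      have h5 : (0 : ℝ) ≤ dist Y X := dist_nonneg
      have h6 : (0 : ℝ) ≤ (1 / 2 : ℝ) ^ N := by positivity
      calc 2 * (1 / 2 : ℝ) ^ k * dist Y X ≤ 2 * (1 / 2 : ℝ) ^ N * dist Y X := by
            exact mul_le_mul_of_nonneg_right (by linarith) h5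
        _ ≤ 2 * (1 / 2 : ℝ) ^ N * D := mul_le_mul_of_nonneg_left h4 (by positivity)
    linarith
  obtain ⟨k, hk1, hk, hk'⟩ : ∃ k, 1 ≤ k ∧ Adm k ∧ ¬ Adm (k + 1) := by
    by_contra hcon
    push Not at hcon
    have hall : ∀ m, Adm (m + 1) := by
      intro m
      induction m with
      | zero => exact hAdm1
      | succ m ih => exact hcon (m + 1) (by omega) ih
    exact absurd (hbd _ (hall N)) (by omega)
  obtain ⟨g, g', j, X, hw, hXC, hgX, hball⟩ := hk
  obtain ⟨hgbij, -, -, -, hgCR, hg'CR, hfg⟩ := Word.props hO.cr hQ hf hw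
  have hRX : ¬ Reg P Q (g X) := by rw [hgX]; exact hx
  obtain ⟨a, ha, X2, hX2, hX2X⟩ := next_letter hw hXC hRX
  -- the point `p1`
  obtain ⟨p1, hp1, hp1'⟩ : ∃ p1, dist p1 x < 2 * ρ ∧ p1 ∉ (g ∘ P.act j a) '' (hO.O (!j)) := by
    by_contra hcon
    push Not at hcon
    exact hk' ⟨_, _, _, X2, Word.snoc a ha hw, hX2, by
      show g (P.act j a X2) = x
      rw [hX2X, hgX], hcon⟩
  obtain ⟨Pt, hPt⟩ := hgbij.2 p1
  obtain ⟨Y, hY⟩ := hgbij.2 y
  obtain ⟨Z, hZ⟩ := hgbij.2 z
  obtain ⟨P', hP'⟩ := hgbij.2 e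
  have hPtX : ce ≤ dist X Pt := by
    have hPt' : P.act j a⁻¹ Pt ∉ hO.O (!j) := by
      intro h
      refine hp1' ⟨_, h, ?_⟩
      show g (P.act j a (P.act j a⁻¹ Pt)) = p1
      rw [← P.mul, mul_inv_cancel, P.one, hPt]
    have h1 := hO.sep (!j) X2 hX2.1 _ hPt'
    have h2 := hinvM j a X2 (P.act j a⁻¹ Pt)
    rw [← P.mul, mul_inv_cancel, P.one, hX2X] at h2
    rw [hce, div_le_iff₀ hM]
    linarith
  have hP'O : P' ∉ hO.O j := fun h => Word.ne_e hO hw hk1 P' h hP'
  have hXP' : hO.c ≤ dist X P' := hO.sep j X hXC.1 P' hP'O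
  have hye : ce / 2 ≤ dist y e := by
    have := dist_triangle x y e
    rw [dist_comm x y, hy] at this
    linarith
  have hze : ce / 2 ≤ dist z e := by
    have := dist_triangle x z e
    rw [dist_comm x z, hz] at this
    linarith
  have hp1e : ce / 2 ≤ dist e p1 := by
    have := dist_triangle x p1 e
    rw [dist_comm x p1, dist_comm p1 e] at this
    linarith
  -- Step 1
  have hZX : c2 ≤ dist Z X := by
    have hcr := hgCR Z P' X Pt
    rw [hZ, hP', hgX, hPt, hz] at hcr
    -- ρ * dist e p1 * (dist Z P' * dist X Pt) = dist Z X * dist P' Pt * (dist z e * dist x p1)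
    have h1 : ρ * (ce / 2) * (dist Z P' * ce) ≤ ρ * dist e p1 * (dist Z P' * dist X Pt) := by
      have hZP : 0 ≤ dist Z P' := dist_nonneg
      have : dist Z P' * ce ≤ dist Z P' * dist X Pt := mul_le_mul_of_nonneg_left hPtX hZP
      calc ρ * (ce / 2) * (dist Z P' * ce) ≤ ρ * dist e p1 * (dist Z P' * ce) := by
            refine mul_le_mul_of_nonneg_right ?_ (by positivity)
            exact mul_le_mul_of_nonneg_left hp1e hρ.le
        _ ≤ ρ * dist e p1 * (dist Z P' * dist X Pt) :=
            mul_le_mul_of_nonneg_left this (by positivity)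
    have h2 : dist Z X * dist P' Pt * (dist z e * dist x p1) ≤ dist Z X * D * (D * (2 * ρ)) := by
      have h3 : dist x p1 ≤ 2 * ρ := by rw [dist_comm]; exact hp1.le
      have h4 : dist Z X * dist P' Pt ≤ dist Z X * D :=
        mul_le_mul_of_nonneg_left (hD _ _) dist_nonneg
      have h5 : dist z e * dist x p1 ≤ D * (2 * ρ) :=
        mul_le_mul (hD _ _) h3 dist_nonneg hD0.le
      exact mul_le_mul h4 h5 (by positivity) (by positivity)
    have h6 : ρ * (ce / 2 * (dist Z P' * ce)) ≤ ρ * (2 * D ^ 2 * dist Z X) := by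
      have := h1.trans (hcr.le.trans h2)
      linarith [this]
    have h7 : ce / 2 * (dist Z P' * ce) ≤ 2 * D ^ 2 * dist Z X := le_of_mul_le_mul_left h6 hρ
    have h8 : hO.c - dist Z X ≤ dist Z P' := by
      have := dist_triangle X Z P'
      rw [dist_comm X Z] at this
      linarith
    -- ca * dist Z P' ≤ dist Z X
    have h9 : ca * dist Z P' ≤ dist Z X := by
      have hcc : hO.c = ce * hO.M := by
        rw [hce]; field_simp
      rw [hca, div_mul_eq_mul_div, div_le_iff₀ (by positivity)]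
      have : hO.c * ce * dist Z P' = hO.M * 2 * (ce / 2 * (dist Z P' * ce)) := by
        rw [hcc]; ring
      rw [this]
      calc hO.M * 2 * (ce / 2 * (dist Z P' * ce)) ≤ hO.M * 2 * (2 * D ^ 2 * dist Z X) :=
            mul_le_mul_of_nonneg_left h7 (by positivity)
        _ = dist Z X * (4 * hO.M * D ^ 2) := by ring
    rw [hc2, div_le_iff₀ (by positivity)]
    have h10 : ca * (hO.c - dist Z X) ≤ ca * dist Z P' := mul_le_mul_of_nonneg_left h8 hca0.le
    linarith [h10, h9]
  -- Step 2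
  have hYP' : c6 ≤ dist Y P' := by
    obtain ⟨P2, hP2O, hP2⟩ := hr5' j P'
    have hp2 : 2 * ρ ≤ dist (g P2) x := by
      by_contra hlt
      push Not at hlt
      obtain ⟨u, hu, hgu⟩ := hball _ hlt
      exact hP2O (hgbij.1 hgu ▸ hu)
    have hcr := hgCR Y P2 P' X
    rw [hY, hP', hgX] at hcr
    -- dist y e * dist p2 x * (dist Y P2 * dist P' X) = dist Y P' * dist P2 X * (dist y p2 * dist e x)
    have h0 : 0 < dist (g P2) x := by linarith
    have h1 : ce / 2 * dist (g P2) x * (dist Y P2 * hO.c) ≤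
        dist y e * dist (g P2) x * (dist Y P2 * dist P' X) := by
      have h2 : dist Y P2 * hO.c ≤ dist Y P2 * dist P' X := by
        rw [dist_comm P' X]
        exact mul_le_mul_of_nonneg_left hXP' dist_nonneg
      have h3 : ce / 2 * dist (g P2) x ≤ dist y e * dist (g P2) x :=
        mul_le_mul_of_nonneg_right hye dist_nonneg
      exact mul_le_mul h3 h2 (by positivity) (by positivity)
    have h2 : dist Y P' * dist P2 X * (dist y (g P2) * dist e x) ≤
        dist Y P' * D * (3 / 2 * dist (g P2) x * D) := by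
      have h3 : dist y (g P2) ≤ 3 / 2 * dist (g P2) x := by
        have := dist_triangle y x (g P2)
        rw [hy, dist_comm x (g P2)] at this
        linarith
      have h4 : dist Y P' * dist P2 X ≤ dist Y P' * D :=
        mul_le_mul_of_nonneg_left (hD _ _) dist_nonneg
      have h5 : dist y (g P2) * dist e x ≤ 3 / 2 * dist (g P2) x * D :=
        mul_le_mul h3 (hD _ _) dist_nonneg (by positivity)
      exact mul_le_mul h4 h5 (by positivity) (by positivity)
    have h6 : dist (g P2) x * (ce / 2 * (dist Y P2 * hO.c)) ≤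
        dist (g P2) x * (3 / 2 * D ^ 2 * dist Y P') := by
      have := h1.trans (hcr.le.trans h2)
      linarith [this]
    have h7 : ce / 2 * (dist Y P2 * hO.c) ≤ 3 / 2 * D ^ 2 * dist Y P' :=
      le_of_mul_le_mul_left h6 h0
    have h8 : r5 - dist Y P' ≤ dist Y P2 := by
      have := dist_triangle_left P2 P' Y
      linarith
    have h9 : cb * dist Y P2 ≤ dist Y P' := by
      rw [hcb, div_mul_eq_mul_div, div_le_iff₀ (by positivity)]
      linarith [h7]
    rw [hc6, div_le_iff₀ (by positivity)]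
    have h10 : cb * (r5 - dist Y P') ≤ cb * dist Y P2 := mul_le_mul_of_nonneg_left h8 hcb0.le
    linarith [h10, h9]
  -- Step 3
  have hfx : f x = g' (f X) := by rw [← hfg, hgX]
  have hfy : f y = g' (f Y) := by rw [← hfg, hY]
  have hfz : f z = g' (f Z) := by rw [← hfg, hZ]
  have hfe : f e = g' (f P') := by rw [← hfg, hP']
  have hcr := hg'CR (f Y) (f P') (f X) (f Z)
  rw [← hfx, ← hfy, ← hfz, ← hfe] at hcr
  -- dist fy fx * dist fe fz * (dist fY fP' * dist fX fZ) = dist fY fX * dist fP' fZ * (dist fy fe * dist fx fz)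
  have e1 : we ≤ dist (f e) (f z) := by
    rw [dist_comm]; exact hwe z e hze
  have e2 : w6 ≤ dist (f Y) (f P') := hw6 Y P' hYP'
  have e3 : w2 ≤ dist (f X) (f Z) := by
    rw [dist_comm]; exact hw2 Z X hZX
  have h1 : dist (f y) (f x) * we * (w6 * w2) ≤
      dist (f y) (f x) * dist (f e) (f z) * (dist (f Y) (f P') * dist (f X) (f Z)) := by
    have h2 : w6 * w2 ≤ dist (f Y) (f P') * dist (f X) (f Z) :=
      mul_le_mul e2 e3 hw20.le dist_nonneg
    have h3 : dist (f y) (f x) * we ≤ dist (f y) (f x) * dist (f e) (f z) :=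
      mul_le_mul_of_nonneg_left e1 dist_nonneg
    exact mul_le_mul h3 h2 (by positivity) (by positivity)
  have h4 : dist (f Y) (f X) * dist (f P') (f Z) * (dist (f y) (f e) * dist (f x) (f z)) ≤
      D * D * (D * dist (f z) (f x)) := by
    rw [dist_comm (f x) (f z)]
    have h5 : dist (f Y) (f X) * dist (f P') (f Z) ≤ D * D :=
      mul_le_mul (hD _ _) (hD _ _) dist_nonneg hD0.le
    have h6 : dist (f y) (f e) * dist (f z) (f x) ≤ D * dist (f z) (f x) :=
      mul_le_mul_of_nonneg_right (hD _ _) dist_nonneg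
    exact mul_le_mul h5 h6 (by positivity) (by positivity)
  have h7 := h1.trans (hcr.le.trans h4)
  rw [div_mul_eq_mul_div, le_div_iff₀ (by positivity)]
  linarith [h7]

end Pool.Agent.Lib.MP_c2de4f_an
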