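import Pool.Agent.Lib.MP_c2de4f_an.DYN2B

set_option autoImplicit false

/-! # DYN2C: quasiconformality -/

noncomputable section

open Metric Set
open scoped RealInnerProductSpace

namespace Pool.Agent.Lib.MP_c2de4f_an

variable {S : Type*} [MetricSpace S] {A : Type*} [Group A] {B : Subgroup A}

theorem dyn2 [CompactSpace S] [Finite A] (P Q : PP S A B) (h : S ≃ₜ S)
    (e : S) (hO : PPO P e) (hQ : ∀ i a, CR (Q.act i a)) (hL : BiLip h) (f : S ≃ₜ S)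
    (hf : ∀ i a x, f (P.act i a x) = Q.act i a (f x)) (hf0 : ∀ x ∈ P.F0, f x = h x) :
    QC f := by
  obtain ⟨H1, h1⟩ := qc_reg P Q h hO.cr hQ hL f hf hf0
  obtain ⟨H2, h2⟩ := qc_limit P Q e hO hQ f hf
  refine ⟨max H1 H2, fun x => ?_⟩
  by_cases hx : Reg P Q x
  · obtain ⟨δ, hδ, hh⟩ := h1 x hx
    refine ⟨δ, hδ, fun ρ hρ hρ' y z hy hz => (hh ρ hρ hρ' y z hy hz).trans ?_⟩
    exact mul_le_mul_of_nonneg_right (le_max_left _ _) dist_nonneg
  · obtain ⟨δ, hδ, hh⟩ := h2 x hx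
    refine ⟨δ, hδ, fun ρ hρ hρ' y z hy hz => (hh ρ hρ hρ' y z hy hz).trans ?_⟩
    exact mul_le_mul_of_nonneg_right (le_max_right _ _) dist_nonneg

end Pool.Agent.Lib.MP_c2de4f_an
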