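import Mathlib

set_option autoImplicit false

/-!
# MP_c2de4f_an: common definitions

Negative answer (frozen statement S06036): in dimension 10 there is no conformally natural
quasiconformal extension operator.  Text: `/team-store/C2DE_PROOF.md`.
-/

noncomputable section

open Metric Set
open scoped RealInnerProductSpace

namespace Pool.Agent.Lib.MP_c2de4f_an

/-- Preservation of cross ratios, in the form used by the frozen statement. -/
def CR {X Y : Type*} [PseudoMetricSpace X] [PseudoMetricSpace Y] (g : X → Y) : Prop :=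
  ∀ a b d e : X, dist (g a) (g d) * dist (g b) (g e) * (dist a b * dist d e) =
    dist a d * dist b e * (dist (g a) (g b) * dist (g d) (g e))

/-- Metric quasiconformality, in the form used by the frozen statement. -/
def QC {X Y : Type*} [PseudoMetricSpace X] [PseudoMetricSpace Y] (f : X → Y) : Prop :=
  ∃ H : ℝ, ∀ x : X, ∃ δ > (0 : ℝ), ∀ ρ : ℝ, 0 < ρ → ρ < δ → ∀ y z : X,
    dist y x = ρ → dist z x = ρ → dist (f y) (f x) ≤ H * dist (f z) (f x)

/-- `f` and its inverse are Lipschitz with constant `L`. -/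
def BiLip {X : Type*} [PseudoMetricSpace X] (f : X ≃ₜ X) : Prop :=
  ∃ L : ℝ, (∀ x y, dist (f x) (f y) ≤ L * dist x y) ∧ (∀ x y, dist x y ≤ L * dist (f x) (f y))

/-! ### Abstract dynamics: two actions of a finite group `A` that agree on `B`, in ping-pong
position.  `true` is the first particle, `false` the second one. -/

/-- Ping-pong data. `act i a` is the action of `a : A` in the `i`-th copy of `A`. -/
structure PP (S : Type*) [MetricSpace S] (A : Type*) [Group A] (B : Subgroup A) where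
  act : Bool → A → S → S
  one : ∀ i x, act i 1 x = x
  mul : ∀ i a b x, act i (a * b) x = act i a (act i b x)
  cont : ∀ i a, Continuous (act i a)
  actB : ∀ b ∈ B, ∀ x, act true b x = act false b x
  E : Bool → Set S
  E_open : ∀ i, IsOpen (E i)
  E_disj : ∀ x, x ∈ E true → x ∉ E false
  E_inv : ∀ i j, ∀ b ∈ B, ∀ x, x ∈ E i → act j b x ∈ E i
  E_map : ∀ i, ∀ a, a ∉ B → ∀ x, x ∉ E i → act i a x ∈ E i
  lip1 : ∀ a, a ∉ B → ∀ x ∈ E false, ∀ y ∈ E false, dist (act true a x) (act true a y) ≤ dist x y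
  lip2 : ∀ a, a ∉ B → ∀ x ∈ E true, ∀ y ∈ E true,
    dist (act false a x) (act false a y) ≤ dist x y / 4

section dyn
variable {S : Type*} [MetricSpace S] {A : Type*} [Group A] {B : Subgroup A}

/-- The part of `E i` covered by the nontrivial translates of the complement of `E i`. -/
def PP.C (P : PP S A B) (i : Bool) : Set S := {x | x ∈ P.E i ∧ ∃ a, a ∉ B ∧ P.act i a x ∉ P.E i}

/-- The (open) fundamental region. -/
def PP.F0 (P : PP S A B) : Set S := {x | ∀ i, x ∉ P.C i}

/-- `h` is a homeomorphism that conjugates `P` to `Q` on the first level. -/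
structure Compat (P Q : PP S A B) (h : S ≃ₜ S) : Prop where
  hE : ∀ i x, x ∈ P.E i ↔ h x ∈ Q.E i
  hB : ∀ i, ∀ b ∈ B, ∀ x, h (P.act i b x) = Q.act i b (h x)
  hI : ∀ i a x, x ∈ P.E i → (P.act i a x ∈ P.E i ↔ Q.act i a (h x) ∈ Q.E i)
  hI2 : ∀ i a x, x ∈ P.E i → P.act i a x ∈ P.E i → h (P.act i a x) = Q.act i a (h x)

/-- Outer regions `O i ⊇ E i` with a margin, used for the quasiconformality estimate. -/
structure PPO (P : PP S A B) (e : S) where
  O : Bool → Set S
  M : ℝ
  c : ℝ
  M_pos : 1 ≤ M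
  c_pos : 0 < c
  lipM : ∀ i a x y, dist (P.act i a x) (P.act i a y) ≤ M * dist x y
  sep : ∀ i, ∀ x ∈ P.E i, ∀ p, p ∉ O i → c ≤ dist x p
  O_map : ∀ i, ∀ a, a ∉ B → ∀ x ∈ O (!i), P.act i a x ∈ O i
  lipO1 : ∀ a, a ∉ B → ∀ x ∈ O false, ∀ y ∈ O false,
    dist (P.act true a x) (P.act true a y) ≤ dist x y
  lipO2 : ∀ a, a ∉ B → ∀ x ∈ O true, ∀ y ∈ O true,
    dist (P.act false a x) (P.act false a y) ≤ dist x y / 4
  he : ∀ i, ∀ a, a ∉ B → ∀ x ∈ O (!i), P.act i a x ≠ e
  two : ∀ i, ∃ p q, p ∉ O i ∧ q ∉ O i ∧ p ≠ q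
  cr : ∀ i a, CR (P.act i a)

end dyn

/-! ### The sphere and the Moebius translations -/

/-- The unit sphere. -/
abbrev Sph (V : Type*) [NormedAddCommGroup V] : Type _ := Metric.sphere (0 : V) 1

section Mob
variable {V : Type*} [NormedAddCommGroup V] [InnerProductSpace ℝ V]

/-- The denominator of the Moebius translation of the ball along `e` by `s`. -/
def den (e : V) (s : ℝ) (z : V) : ℝ :=
  (Real.cosh s * (1 + ‖z‖ ^ 2) + (1 - ‖z‖ ^ 2)) / 2 + Real.sinh s * ⟪e, z⟫

/-- The Moebius translation of the closed unit ball along the unit vector `e` by (hyperbolic)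
distance `s`. -/
def Tb (e : V) (s : ℝ) (z : V) : V :=
  (den e s z)⁻¹ • (z + (Real.sinh s * (1 + ‖z‖ ^ 2) / 2 + (Real.cosh s - 1) * ⟪e, z⟫) • e)

/-- The `e`-coordinate of a point of the sphere. -/
def tc (e x : Sph V) : ℝ := ⟪(e : V), (x : V)⟫

/-- The restriction of a linear isometry to the sphere. -/
def rS (a : V ≃ₗᵢ[ℝ] V) (x : Sph V) : Sph V :=
  ⟨a x, by simp⟩

/-- The stabiliser of the point `e`. -/
def stab {A : Type*} [Group A] (ρ : A →* (V ≃ₗᵢ[ℝ] V)) (e : Sph V) : Subgroup A where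
  carrier := {a | ρ a (e : V) = e}
  one_mem' := by
    show ρ 1 (e : V) = e
    rw [map_one]; rfl
  mul_mem' := by
    intro a b ha hb
    show ρ (a * b) (e : V) = e
    rw [map_mul]
    show ρ a (ρ b (e : V)) = e
    rw [show ρ b (e : V) = e from hb, show ρ a (e : V) = e from ha]
  inv_mem' := by
    intro a ha
    have ha' : ρ a (e : V) = e := ha
    show ρ a⁻¹ (e : V) = e
    conv_lhs => rw [← ha']
    show (ρ a⁻¹ * ρ a) (e : V) = e
    rw [← map_mul, inv_mul_cancel, map_one]; rfl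

theorem mem_stab {A : Type*} [Group A] (ρ : A →* (V ≃ₗᵢ[ℝ] V)) (e : Sph V) (a : A) :
    a ∈ stab ρ e ↔ ρ a (e : V) = e := Iff.rfl

end Mob

end Pool.Agent.Lib.MP_c2de4f_an
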