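import Pool.Agent.Lib.MP_c2de4f_an.EXDEF

set_option autoImplicit false
set_option linter.unusedSectionVars false

/-! # EX0: bounds for large s -/

noncomputable section

open Metric Set
open scoped RealInnerProductSpace

namespace Pool.Agent.Lib.MP_c2de4f_an

variable {V : Type*} [NormedAddCommGroup V] [InnerProductSpace ℝ V] {A : Type*} [Group A]

theorem EX0.norm_sph (x : Sph V) : ‖(x : V)‖ = 1 := by simp

theorem EX0.dist_rS (a : V ≃ₗᵢ[ℝ] V) (x y : Sph V) : dist (rS a x) (rS a y) = dist x y := by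
  rw [Subtype.dist_eq, Subtype.dist_eq]
  exact a.dist_map _ _

theorem EX0.rS_inj (a : V ≃ₗᵢ[ℝ] V) : Function.Injective (rS a) := by
  intro x y h
  apply Subtype.ext
  exact a.injective (congrArg Subtype.val h)

theorem EX0.rS_neg (a : V ≃ₗᵢ[ℝ] V) (x : Sph V) : rS a (-x) = -rS a x := by
  apply Subtype.ext
  show a ((-x : Sph V) : V) = ((-rS a x : Sph V) : V)
  simp [rS]

theorem EX0.tc_neg (e x : Sph V) : tc e (-x) = -tc e x := by
  simp [tc]

theorem EX0.dist_neg (x y : Sph V) : dist (-x) (-y) = dist x y := by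
  rw [Subtype.dist_eq, Subtype.dist_eq]
  simp [dist_neg_neg]

/-- the scalar products with the images of `e` are bounded away from `1` -/
theorem EX0.exists_bound [Finite A] (e : Sph V) (ρ : A →* (V ≃ₗᵢ[ℝ] V))
    (hneg : ∀ a, ρ a (e : V) ≠ -e) :
    ∃ c : ℝ, 0 ≤ c ∧ c < 1 ∧ ∀ a, a ∉ stab ρ e → |⟪(e : V), ρ a (e : V)⟫| ≤ c := by
  classical
  cases nonempty_fintype A
  have h1 : ∀ a, a ∉ stab ρ e → |⟪(e : V), ρ a (e : V)⟫| < 1 := by
    intro a ha
    have hn : ‖ρ a (e : V)‖ = 1 := by rw [LinearIsometryEquiv.norm_map]; simp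
    rw [abs_lt]
    constructor
    · have h2 : ⟪(e : V), -(ρ a (e : V))⟫ < 1 := by
        rw [inner_lt_one_iff_real_of_norm_eq_one (EX0.norm_sph e) (by rw [norm_neg]; exact hn)]
        intro h
        apply hneg a
        have h3 := congrArg Neg.neg h
        rw [neg_neg] at h3
        exact h3.symm
      rw [inner_neg_right] at h2
      linarith
    · rw [inner_lt_one_iff_real_of_norm_eq_one (EX0.norm_sph e) hn]
      intro h
      exact ha h.symm
  let f : A → ℝ := fun a => if a ∈ stab ρ e then 0 else |⟪(e : V), ρ a (e : V)⟫|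
  have hf : ∀ a, f a < 1 := by
    intro a
    simp only [f]
    split_ifs with h
    · exact one_pos
    · exact h1 a h
  have hf0 : ∀ a, 0 ≤ f a := by
    intro a
    simp only [f]
    split_ifs with h
    · exact le_rfl
    · exact abs_nonneg _
  have : Nonempty A := ⟨1⟩
  obtain ⟨a0, ha0⟩ := Finite.exists_max f
  refine ⟨f a0, hf0 a0, hf a0, fun a ha => ?_⟩
  have h2 := ha0 a
  simp only [f] at h2 ⊢
  rw [if_neg ha] at h2
  exact h2

/-- nontrivial elements move a neighbourhood of the ends `e`, `-e` away from the ends. -/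
theorem tc_far [Finite A] (e : Sph V) (ρ : A →* (V ≃ₗᵢ[ℝ] V)) (hneg : ∀ a, ρ a (e : V) ≠ -e) :
    ∃ κ : ℝ, 0 < κ ∧ κ < 1 ∧ ∃ s0 : ℝ, 0 < s0 ∧ ∀ s, s0 ≤ s → ∀ a, a ∉ stab ρ e → ∀ x : Sph V,
      Real.tanh s ≤ |tc e x| → |tc e (rS (ρ a) x)| ≤ 1 - κ := by
  obtain ⟨c, hc0, hc1, hc⟩ := EX0.exists_bound e ρ hneg
  refine ⟨(1 - c) / 2, by linarith, by linarith, 4 / (1 - c), by
    apply div_pos <;> linarith, ?_⟩
  intro s hs a ha x hx
  have hs0 : 0 < s := lt_of_lt_of_le (by apply div_pos <;> linarith) hs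
  have hcosh : 2 / (1 - c) ≤ Real.cosh s := by
    have h1 : Real.exp s / 2 ≤ Real.cosh s := by
      rw [Real.cosh_eq]
      have := Real.exp_pos (-s)
      linarith
    have h2 : s + 1 ≤ Real.exp s := Real.add_one_le_exp s
    have h3 : 4 / (1 - c) = 2 * (2 / (1 - c)) := by ring
    linarith
  set t := tc e x with ht
  have htle : |t| ≤ 1 := tc_le e x
  -- the component orthogonal to `e`
  let y : V := (x : V) - t • (e : V)
  have hy2 : ‖y‖ ^ 2 = 1 - t ^ 2 := by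
    have h1 : ‖(x : V) - t • (e : V)‖ ^ 2 = ‖(x : V)‖ ^ 2 - 2 * ⟪(x : V), t • (e : V)⟫
        + ‖t • (e : V)‖ ^ 2 := norm_sub_sq_real _ _
    have h2 : ⟪(x : V), t • (e : V)⟫ = t * t := by
      rw [inner_smul_right, real_inner_comm]
      rfl
    rw [show y = (x : V) - t • (e : V) from rfl, h1, h2, norm_smul, EX0.norm_sph, EX0.norm_sph,
      Real.norm_eq_abs, mul_one, sq_abs]
    ring
  have htanh0 : 0 ≤ Real.tanh s := by
    rw [Real.tanh_eq_sinh_div_cosh]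
    exact div_nonneg (Real.sinh_nonneg_iff.mpr hs0.le) (Real.cosh_pos s).le
  have hcp := Real.cosh_pos s
  have htt : Real.tanh s ^ 2 ≤ t ^ 2 := by
    rw [← sq_abs t]
    exact pow_le_pow_left₀ htanh0 hx 2
  have hid : 1 - Real.tanh s ^ 2 = (1 / Real.cosh s) ^ 2 := by
    rw [Real.tanh_eq_sinh_div_cosh]
    have := Real.cosh_sq s
    field_simp
    linarith
  have hy : ‖y‖ ≤ 1 / Real.cosh s := by
    rw [← pow_le_pow_iff_left₀ (norm_nonneg _) (by positivity) two_ne_zero, hy2, ← hid]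
    linarith
  have hy' : ‖y‖ ≤ (1 - c) / 2 := by
    refine hy.trans ?_
    rw [div_le_div_iff₀ hcp (by norm_num)]
    rw [div_le_iff₀ (by linarith)] at hcosh
    linarith
  have hsplit : tc e (rS (ρ a) x) = t * ⟪(e : V), ρ a (e : V)⟫ + ⟪(e : V), ρ a y⟫ := by
    have h1 : (x : V) = t • (e : V) + y := by simp [y]
    show ⟪(e : V), ρ a (x : V)⟫ = _
    conv_lhs => rw [h1]
    rw [map_add, map_smul, inner_add_right, inner_smul_right]
  rw [hsplit]
  have h1 : |t * ⟪(e : V), ρ a (e : V)⟫| ≤ 1 * c := by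
    rw [abs_mul]
    exact mul_le_mul htle (hc a ha) (abs_nonneg _) zero_le_one
  have h2 : |⟪(e : V), ρ a y⟫| ≤ ‖y‖ := by
    have h3 := abs_real_inner_le_norm (e : V) (ρ a y)
    rw [EX0.norm_sph, one_mul, LinearIsometryEquiv.norm_map] at h3
    exact h3
  have h3 := abs_add_le (t * ⟪(e : V), ρ a (e : V)⟫) ⟪(e : V), ρ a y⟫
  linarith

/-- `T_{2s} a T_{-2s}` is a strong contraction below the middle sphere. -/
theorem cact_contr [Finite A] (e : Sph V) (ρ : A →* (V ≃ₗᵢ[ℝ] V))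
    (hneg : ∀ a, ρ a (e : V) ≠ -e) : ∃ s0 : ℝ, 0 < s0 ∧ ∀ s, s0 ≤ s → ∀ a, a ∉ stab ρ e →
      ∀ x y : Sph V, tc e x ≤ Real.tanh s → tc e y ≤ Real.tanh s →
      dist (cact ρ e s false a x) (cact ρ e s false a y) ≤ dist x y / 4 := by
  obtain ⟨κ, hκ0, hκ1, s1, hs1, hfar⟩ := tc_far e ρ hneg
  refine ⟨max s1 (2 / κ), lt_max_of_lt_left hs1, ?_⟩
  intro s hs a ha x y hx hy
  have hss1 : s1 ≤ s := (le_max_left _ _).trans hs
  have hsκ : 2 / κ ≤ s := (le_max_right _ _).trans hs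
  have hs0 : 0 < s := lt_of_lt_of_le hs1 hss1
  have hcp := Real.cosh_pos s
  have hsinh2 : 0 < Real.sinh (2 * s) := Real.sinh_pos_iff.mpr (by linarith)
  have hth : Real.tanh s * Real.cosh s = Real.sinh s := by
    rw [Real.tanh_eq_sinh_div_cosh, div_mul_cancel₀ _ hcp.ne']
  have hcs := Real.cosh_sq s
  have hid1 : Real.cosh (2 * s) - Real.tanh s * Real.sinh (2 * s) = 1 := by
    rw [Real.cosh_two_mul, Real.sinh_two_mul]
    linear_combination (-2 * Real.sinh s) * hth + hcs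
  have hid2 : Real.sinh (2 * s) - Real.tanh s * Real.cosh (2 * s) = Real.tanh s := by
    rw [Real.cosh_two_mul, Real.sinh_two_mul]
    linear_combination (-2 * Real.cosh s) * hth + Real.tanh s * hcs
  have htanh0 : 0 < Real.tanh s := by
    rw [Real.tanh_eq_sinh_div_cosh]
    exact div_pos (Real.sinh_pos_iff.mpr hs0) hcp
  -- the first translation
  have hstep : ∀ z : Sph V, tc e z ≤ Real.tanh s →
      1 ≤ Real.cosh (-(2 * s)) + tc e z * Real.sinh (-(2 * s)) ∧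
      -(1 - κ) ≤ tc e (rS (ρ a) (Ts e (-(2 * s)) z)) := by
    intro z hz
    have h1 : 1 ≤ Real.cosh (-(2 * s)) + tc e z * Real.sinh (-(2 * s)) := by
      rw [Real.cosh_neg, Real.sinh_neg]
      nlinarith [mul_le_mul_of_nonneg_right hz hsinh2.le]
    refine ⟨h1, ?_⟩
    have h2 : tc e (Ts e (-(2 * s)) z) ≤ -Real.tanh s := by
      rw [tc_Ts, div_le_iff₀ (by linarith)]
      rw [Real.cosh_neg, Real.sinh_neg]
      have h3 : tc e z * Real.cosh (2 * s) + -Real.sinh (2 * s)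
          - -Real.tanh s * (Real.cosh (2 * s) + tc e z * -Real.sinh (2 * s))
          = tc e z - Real.tanh s := by
        linear_combination tc e z * hid1 - hid2
      linarith
    have h4 : Real.tanh s ≤ |tc e (Ts e (-(2 * s)) z)| := by
      rw [abs_of_neg (by linarith)]
      linarith
    have h5 := hfar s hss1 a ha _ h4
    exact (abs_le.mp h5).1
  obtain ⟨hx1, hx2⟩ := hstep x hx
  obtain ⟨hy1, hy2⟩ := hstep y hy
  have hcs2 : Real.sinh (2 * s) ≤ Real.cosh (2 * s) := (Real.sinh_lt_cosh _).le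
  have hs2 : 2 * s ≤ Real.sinh (2 * s) := Real.self_le_sinh_iff.mpr (by linarith)
  have hden : ∀ t : ℝ, -(1 - κ) ≤ t → 4 ≤ Real.cosh (2 * s) + t * Real.sinh (2 * s) := by
    intro t ht
    have h1 : κ * (2 * s) ≤ κ * Real.sinh (2 * s) := mul_le_mul_of_nonneg_left hs2 hκ0.le
    have h2 : 2 ≤ κ * s := by
      rw [div_le_iff₀ hκ0] at hsκ
      linarith
    nlinarith [mul_le_mul_of_nonneg_right ht hsinh2.le]
  have hd1 := hden _ hx2
  have hd2 := hden _ hy2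
  show dist (Ts e (2 * s) (rS (ρ a) (Ts e (-(2 * s)) x)))
    (Ts e (2 * s) (rS (ρ a) (Ts e (-(2 * s)) y))) ≤ dist x y / 4
  have hdist := dist_Ts e (2 * s) (rS (ρ a) (Ts e (-(2 * s)) x)) (rS (ρ a) (Ts e (-(2 * s)) y))
  rw [EX0.dist_rS, dist_Ts e (-(2 * s)) x y] at hdist
  rw [← pow_le_pow_iff_left₀ dist_nonneg (by positivity) two_ne_zero, hdist, div_pow]
  set D1 := Real.cosh (2 * s) + tc e (rS (ρ a) (Ts e (-(2 * s)) x)) * Real.sinh (2 * s)
  set D2 := Real.cosh (2 * s) + tc e (rS (ρ a) (Ts e (-(2 * s)) y)) * Real.sinh (2 * s)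
  set D3 := Real.cosh (-(2 * s)) + tc e x * Real.sinh (-(2 * s))
  set D4 := Real.cosh (-(2 * s)) + tc e y * Real.sinh (-(2 * s))
  have h16 : (4 : ℝ) ^ 2 ≤ D1 * D2 := by nlinarith
  have h1 : 1 ≤ D3 * D4 := by nlinarith
  calc dist x y ^ 2 / (D3 * D4) / (D1 * D2) ≤ dist x y ^ 2 / 1 / (4 : ℝ) ^ 2 := by
        apply div_le_div₀ (by positivity) _ (by norm_num) h16
        exact div_le_div_of_nonneg_left (by positivity) one_pos h1
    _ = _ := by rw [div_one]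

theorem EX0.cact_neg (e : Sph V) (ρ : A →* (V ≃ₗᵢ[ℝ] V)) (s : ℝ) (a : A) (x : Sph V) :
    cact ρ e (-s) false a x = -cact ρ e s false a (-x) := by
  show Ts e (2 * -s) (rS (ρ a) (Ts e (-(2 * -s)) x)) =
    -Ts e (2 * s) (rS (ρ a) (Ts e (-(2 * s)) (-x)))
  have h1 : Ts e (-(2 * s)) (-x) = -Ts e (-(2 * -s)) x := by
    rw [Ts_neg]
    congr 2
    ring_nf
  rw [h1, EX0.rS_neg, Ts_neg, neg_neg]
  congr 1
  ring_nf

/-- the mirror image. -/
theorem cact_contr_neg [Finite A] (e : Sph V) (ρ : A →* (V ≃ₗᵢ[ℝ] V))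
    (hneg : ∀ a, ρ a (e : V) ≠ -e) : ∃ s0 : ℝ, 0 < s0 ∧ ∀ s, s0 ≤ s → ∀ a, a ∉ stab ρ e →
      ∀ x y : Sph V, -Real.tanh s ≤ tc e x → -Real.tanh s ≤ tc e y →
      dist (cact ρ e (-s) false a x) (cact ρ e (-s) false a y) ≤ dist x y / 4 := by
  obtain ⟨s0, hs0, h⟩ := cact_contr e ρ hneg
  refine ⟨s0, hs0, fun s hs a ha x y hx hy => ?_⟩
  rw [EX0.cact_neg, EX0.cact_neg, EX0.dist_neg]
  have h1 := h s hs a ha (-x) (-y) (by rw [EX0.tc_neg]; linarith) (by rw [EX0.tc_neg]; linarith)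
  rwa [EX0.dist_neg] at h1

theorem EX0.cr_comp {X Y Z : Type*} [MetricSpace X] [MetricSpace Y] [MetricSpace Z]
    {g : X → Y} {f : Y → Z} (hg : CR g) (hf : CR f) (hi : Function.Injective g) :
    CR (fun x => f (g x)) := by
  intro a b d k
  have h1 := hg a b d k
  have h2 := hf (g a) (g b) (g d) (g k)
  by_cases hab : a = b
  · subst hab
    simp
  by_cases hdk : d = k
  · subst hdk
    simp
  have h3 : dist (g a) (g b) ≠ 0 := fun h => hab (hi (dist_eq_zero.mp h))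
  have h4 : dist (g d) (g k) ≠ 0 := fun h => hdk (hi (dist_eq_zero.mp h))
  have h5 : dist (g a) (g b) * dist (g d) (g k) ≠ 0 := mul_ne_zero h3 h4
  apply mul_right_cancel₀ h5
  linear_combination (dist a b * dist d k) * h2 +
    (dist (f (g a)) (f (g b)) * dist (f (g d)) (f (g k))) * h1

theorem EX0.cr_rS (a : V ≃ₗᵢ[ℝ] V) : CR (rS a) := by
  intro x y z w
  simp only [EX0.dist_rS]

theorem cact_cr (e : Sph V) (ρ : A →* (V ≃ₗᵢ[ℝ] V)) (s : ℝ) (i : Bool) (a : A) :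
    CR (cact ρ e s i a) := by
  cases i with
  | true => exact EX0.cr_rS (ρ a)
  | false =>
    have h1 : CR (fun x => rS (ρ a) (Ts e (-(2 * s)) x)) :=
      EX0.cr_comp (g := Ts e (-(2 * s))) (f := rS (ρ a)) (Ts_cr e _) (EX0.cr_rS _)
        (Ts e _).injective
    exact EX0.cr_comp (g := fun x => rS (ρ a) (Ts e (-(2 * s)) x)) (f := Ts e (2 * s))
      h1 (Ts_cr e (2 * s)) ((EX0.rS_inj _).comp (Ts e _).injective)

theorem cact_lip (e : Sph V) (ρ : A →* (V ≃ₗᵢ[ℝ] V)) (s : ℝ) (i : Bool) (a : A) (x y : Sph V) :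
    dist (cact ρ e s i a x) (cact ρ e s i a y) ≤ Real.exp (4 * |s|) * dist x y := by
  cases i with
  | true =>
    show dist (rS (ρ a) x) (rS (ρ a) y) ≤ _
    rw [EX0.dist_rS]
    have h1 : 1 ≤ Real.exp (4 * |s|) := Real.one_le_exp (by positivity)
    nlinarith [dist_nonneg (x := x) (y := y)]
  | false =>
    show dist (Ts e (2 * s) (rS (ρ a) (Ts e (-(2 * s)) x)))
      (Ts e (2 * s) (rS (ρ a) (Ts e (-(2 * s)) y))) ≤ _
    have h1 := Ts_lip e (2 * s) (rS (ρ a) (Ts e (-(2 * s)) x)) (rS (ρ a) (Ts e (-(2 * s)) y))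
    have h2 := Ts_lip e (-(2 * s)) x y
    rw [EX0.dist_rS] at h1
    rw [abs_neg] at h2
    have h3 : |2 * s| = 2 * |s| := by rw [abs_mul, abs_of_pos (by norm_num : (0 : ℝ) < 2)]
    rw [h3] at h1 h2
    calc _ ≤ Real.exp (2 * |s|) * dist (Ts e (-(2 * s)) x) (Ts e (-(2 * s)) y) := h1
      _ ≤ Real.exp (2 * |s|) * (Real.exp (2 * |s|) * dist x y) :=
          mul_le_mul_of_nonneg_left h2 (Real.exp_pos _).le
      _ = _ := by
          rw [← mul_assoc, ← Real.exp_add]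
          ring_nf

theorem EX0.Ts_cancel (e : Sph V) (s : ℝ) (x : Sph V) : Ts e s (Ts e (-s) x) = x := by
  rw [Ts_add, add_neg_cancel, Ts_zero]

theorem EX0.Ts_cancel' (e : Sph V) (s : ℝ) (x : Sph V) : Ts e (-s) (Ts e s x) = x := by
  rw [Ts_add, neg_add_cancel, Ts_zero]

theorem cact_one (e : Sph V) (ρ : A →* (V ≃ₗᵢ[ℝ] V)) (s : ℝ) (i : Bool) (x : Sph V) :
    cact ρ e s i 1 x = x := by
  have h1 : ∀ x : Sph V, rS (ρ 1) x = x := by
    intro x
    apply Subtype.ext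
    show ρ 1 (x : V) = x
    rw [map_one]
    rfl
  cases i with
  | true => exact h1 x
  | false =>
    show Ts e (2 * s) (rS (ρ 1) (Ts e (-(2 * s)) x)) = x
    rw [h1, EX0.Ts_cancel]

theorem EX0.rS_mul (ρ : A →* (V ≃ₗᵢ[ℝ] V)) (a b : A) (x : Sph V) :
    rS (ρ (a * b)) x = rS (ρ a) (rS (ρ b) x) := by
  apply Subtype.ext
  show ρ (a * b) (x : V) = ρ a (ρ b (x : V))
  rw [map_mul]
  rfl

theorem cact_mul (e : Sph V) (ρ : A →* (V ≃ₗᵢ[ℝ] V)) (s : ℝ) (i : Bool) (a b : A) (x : Sph V) :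
    cact ρ e s i (a * b) x = cact ρ e s i a (cact ρ e s i b x) := by
  cases i with
  | true => exact EX0.rS_mul ρ a b x
  | false =>
    show Ts e (2 * s) (rS (ρ (a * b)) (Ts e (-(2 * s)) x)) =
      Ts e (2 * s) (rS (ρ a) (Ts e (-(2 * s)) (Ts e (2 * s) (rS (ρ b) (Ts e (-(2 * s)) x)))))
    rw [EX0.Ts_cancel', EX0.rS_mul]

theorem cact_stab (e : Sph V) (ρ : A →* (V ≃ₗᵢ[ℝ] V)) (s : ℝ) (i : Bool) (a : A)
    (ha : a ∈ stab ρ e) (x : Sph V) : cact ρ e s i a x = rS (ρ a) x := by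
  cases i with
  | true => rfl
  | false =>
    show Ts e (2 * s) (rS (ρ a) (Ts e (-(2 * s)) x)) = rS (ρ a) x
    rw [Ts_rS e _ _ ha, EX0.Ts_cancel]

end Pool.Agent.Lib.MP_c2de4f_an
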