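import Pool.Agent.Lib.MP_c2de4f_an.EX0

set_option autoImplicit false
set_option linter.unusedSectionVars false

/-! # EX1: ping-pong position -/

noncomputable section

open Metric Set
open scoped RealInnerProductSpace

namespace Pool.Agent.Lib.MP_c2de4f_an

variable {V : Type*} [NormedAddCommGroup V] [InnerProductSpace ℝ V] {A : Type*} [Group A]

theorem EX1.tanh_ge (t0 : ℝ) (h1 : t0 < 1) : ∃ s1 : ℝ, 0 < s1 ∧ ∀ s, s1 ≤ s → t0 ≤ Real.tanh s := by
  refine ⟨max 1 ((1 + t0) / (1 - t0)), lt_max_of_lt_left one_pos, fun s hs => ?_⟩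
  have hs1 : 1 ≤ s := (le_max_left _ _).trans hs
  have hs2 : (1 + t0) / (1 - t0) ≤ s := (le_max_right _ _).trans hs
  have hd : 0 < 1 - t0 := by linarith
  rw [div_le_iff₀ hd] at hs2
  rw [Real.tanh_eq_sinh_div_cosh, le_div_iff₀ (Real.cosh_pos s), Real.sinh_eq, Real.cosh_eq]
  have e1 := Real.exp_pos s
  have e2 := Real.exp_pos (-s)
  have e3 : Real.exp s * Real.exp (-s) = 1 := by rw [← Real.exp_add]; simp
  have e4 : s + 1 ≤ Real.exp s := Real.add_one_le_exp s
  have e5 : Real.exp (-s) ≤ 1 := by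
    rw [Real.exp_le_one_iff]; linarith
  -- (1 + t0) e^{-s} ≤ (1 - t0) e^s
  have key : (1 + t0) * Real.exp (-s) ≤ (1 - t0) * Real.exp s := by
    by_cases h0 : 0 ≤ 1 + t0
    · calc (1 + t0) * Real.exp (-s) ≤ (1 + t0) * 1 := mul_le_mul_of_nonneg_left e5 h0
        _ ≤ s * (1 - t0) := by linarith
        _ ≤ Real.exp s * (1 - t0) := mul_le_mul_of_nonneg_right (by linarith) hd.le
        _ = _ := by ring
    · have h2 : (1 + t0) * Real.exp (-s) ≤ 0 :=
        mul_nonpos_of_nonpos_of_nonneg (by linarith) e2.le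
      have h3 : 0 ≤ (1 - t0) * Real.exp s := mul_nonneg hd.le e1.le
      linarith
  linarith

theorem EX1.tanh_lt_one (s : ℝ) : Real.tanh s < 1 := by
  rw [Real.tanh_eq_sinh_div_cosh, div_lt_one (Real.cosh_pos s)]
  exact Real.sinh_lt_cosh s

/-- translation moves a symmetric slab off itself -/
theorem EX1.far (t0 : ℝ) (h0 : 0 < t0) (h1 : t0 < 1) : ∃ s1 : ℝ, 0 < s1 ∧ ∀ s, s1 ≤ s →
    ∀ (e x : Sph V), |tc e x| < t0 → t0 ≤ tc e (Ts e (2 * s) x) := by
  obtain ⟨s1, hs1, hth⟩ := EX1.tanh_ge (2 * t0 / (1 + t0 ^ 2)) (by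
    rw [div_lt_one (by positivity)]
    nlinarith [mul_pos (sub_pos.mpr h1) (sub_pos.mpr h1)])
  refine ⟨s1, hs1, fun s hs e x hx => ?_⟩
  have hs0 : 0 < s := lt_of_lt_of_le hs1 hs
  have h2 := hth (2 * s) (by linarith)
  have hc := Real.cosh_pos (2 * s)
  rw [Real.tanh_eq_sinh_div_cosh, div_le_div_iff₀ (by positivity) hc] at h2
  have h3 : Real.sinh (2 * s) < Real.cosh (2 * s) := Real.sinh_lt_cosh _
  have h4 : 0 < Real.sinh (2 * s) := Real.sinh_pos_iff.mpr (by linarith)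
  obtain ⟨hx1, hx2⟩ := abs_lt.mp hx
  have h5 : 0 < Real.cosh (2 * s) - t0 * Real.sinh (2 * s) := by nlinarith
  have h6 : 0 < Real.cosh (2 * s) + tc e x * Real.sinh (2 * s) := by nlinarith
  rw [tc_Ts, le_div_iff₀ h6]
  nlinarith [mul_pos (by linarith : 0 < tc e x + t0) h5]

theorem EX1.far_neg (t0 : ℝ) (h0 : 0 < t0) (h1 : t0 < 1) : ∃ s1 : ℝ, 0 < s1 ∧ ∀ s, s1 ≤ s →
    ∀ (e x : Sph V), |tc e x| < t0 → tc e (Ts e (-(2 * s)) x) ≤ -t0 := by
  obtain ⟨s1, hs1, h⟩ := EX1.far (V := V) t0 h0 h1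
  refine ⟨s1, hs1, fun s hs e x hx => ?_⟩
  have h2 := h s hs e (-x) (by rw [EX0.tc_neg, abs_neg]; exact hx)
  rw [Ts_neg, EX0.tc_neg] at h2
  linarith

section boxes
variable {e : Sph V} {ρ : A →* (V ≃ₗᵢ[ℝ] V)} (b : Boxes e ρ)

theorem EX1.lt_of_symm (i : Bool) (x : Sph V) (hx : (b.Ψ i).symm x ∈ b.box i) :
    |tc e x| < b.t0 := by
  by_contra h
  push Not at h
  have h1 : (b.Ψ i).symm x = x := by
    conv_lhs => rw [← b.Ψ_id i x h]
    exact (b.Ψ i).symm_apply_apply x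
  have h2 := b.box_sub i _ hx
  rw [h1] at h2
  linarith

theorem EX1.symm_B (i : Bool) (a : A) (ha : a ∈ stab ρ e) (x : Sph V) :
    (b.Ψ i).symm (rS (ρ a) x) = rS (ρ a) ((b.Ψ i).symm x) := by
  apply (b.Ψ i).injective
  rw [(b.Ψ i).apply_symm_apply, b.Ψ_B i a ha, (b.Ψ i).apply_symm_apply]

theorem EX1.map_of_not (i : Bool) (a : A) (ha : a ∉ stab ρ e) (x : Sph V)
    (hx : (b.Ψ i).symm x ∉ b.box i) : (b.Ψ i).symm (rS (ρ a) x) ∈ b.box i := by
  by_contra h
  have h1 := b.sep i a _ _ ha hx h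
  rw [(b.Ψ i).apply_symm_apply, (b.Ψ i).apply_symm_apply] at h1
  exact h1 rfl

end boxes

theorem EX1.cact_cont (e : Sph V) (ρ : A →* (V ≃ₗᵢ[ℝ] V)) (s : ℝ) (i : Bool) (a : A) :
    Continuous (cact ρ e s i a) := by
  have h : LipschitzWith ⟨Real.exp (4 * |s|), (Real.exp_pos _).le⟩ (cact ρ e s i a) :=
    LipschitzWith.of_dist_le_mul fun x y => cact_lip e ρ s i a x y
  exact h.continuous

/-- EX1: ping-pong position, for all large `s`; also with `s` replaced by `-s`. -/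
theorem exch_PP [FiniteDimensional ℝ V] [Finite A] (e : Sph V) (ρ : A →* (V ≃ₗᵢ[ℝ] V))
    (hneg : ∀ a, ρ a (e : V) ≠ -e) (b : Boxes e ρ) :
    ∃ s0 : ℝ, 0 < s0 ∧ ∀ s, s0 ≤ |s| → ∃ P : PP (Sph V) A (stab ρ e),
      P.act = cact ρ e s ∧ P.E = cE b s := by
  obtain ⟨s1, hs1, h1⟩ := EX1.far (V := V) b.t0 b.t0_pos b.t0_lt
  obtain ⟨s2, hs2, h2⟩ := EX1.far_neg (V := V) b.t0 b.t0_pos b.t0_lt
  obtain ⟨s3, hs3, h3⟩ := cact_contr e ρ hneg
  obtain ⟨s4, hs4, h4⟩ := cact_contr_neg e ρ hneg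
  obtain ⟨s5, hs5, h5⟩ := EX1.tanh_ge b.t0 b.t0_lt
  refine ⟨max (max s1 s2) (max (max s3 s4) s5), lt_max_of_lt_left (lt_max_of_lt_left hs1), ?_⟩
  intro s hs
  have g1 : s1 ≤ |s| := ((le_max_left _ _).trans (le_max_left _ _)).trans hs
  have g2 : s2 ≤ |s| := ((le_max_right _ _).trans (le_max_left _ _)).trans hs
  have g3 : s3 ≤ |s| :=
    (((le_max_left _ _).trans (le_max_left _ _)).trans (le_max_right _ _)).trans hs
  have g4 : s4 ≤ |s| :=
    (((le_max_right _ _).trans (le_max_left _ _)).trans (le_max_right _ _)).trans hs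
  have g5 : s5 ≤ |s| := ((le_max_right _ _).trans (le_max_right _ _)).trans hs
  refine ⟨{
    act := cact ρ e s
    one := cact_one e ρ s
    mul := cact_mul e ρ s
    cont := EX1.cact_cont e ρ s
    actB := ?_
    E := cE b s
    E_open := ?_
    E_disj := ?_
    E_inv := ?_
    E_map := ?_
    lip1 := ?_
    lip2 := ?_ }, rfl, rfl⟩
  · intro a ha x
    rw [cact_stab e ρ s true a ha, cact_stab e ρ s false a ha]
  · intro i
    cases i with
    | true => exact (b.box_open true).preimage (b.Ψ true).symm.continuous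
    | false =>
      exact (b.box_open false).preimage
        ((b.Ψ false).symm.continuous.comp (Ts e (-(2 * s))).continuous)
  · intro x hx hx'
    have k1 : |tc e x| < b.t0 := EX1.lt_of_symm b true x hx
    have k2 : |tc e (Ts e (-(2 * s)) x)| < b.t0 := EX1.lt_of_symm b false _ hx'
    rcases le_total 0 s with h | h
    · rw [abs_of_nonneg h] at g1
      have k3 := h1 s g1 e _ k2
      rw [EX0.Ts_cancel] at k3
      have := (abs_lt.mp k1).2
      linarith
    · rw [abs_of_nonpos h] at g2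
      have k3 := h2 (-s) g2 e _ k2
      have k4 : -(2 * -s) = 2 * s := by ring
      rw [k4, EX0.Ts_cancel] at k3
      have := (abs_lt.mp k1).1
      linarith
  · intro i j a ha x hx
    rw [cact_stab e ρ s j a ha]
    cases i with
    | true =>
      show (b.Ψ true).symm (rS (ρ a) x) ∈ b.box true
      rw [EX1.symm_B b true a ha]
      exact b.box_B true a ha _ hx
    | false =>
      show (b.Ψ false).symm (Ts e (-(2 * s)) (rS (ρ a) x)) ∈ b.box false
      rw [Ts_rS e _ _ ha, EX1.symm_B b false a ha]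
      exact b.box_B false a ha _ hx
  · intro i a ha x hx
    cases i with
    | true => exact EX1.map_of_not b true a ha x hx
    | false =>
      show (b.Ψ false).symm (Ts e (-(2 * s)) (Ts e (2 * s) (rS (ρ a) (Ts e (-(2 * s)) x))))
        ∈ b.box false
      rw [EX0.Ts_cancel']
      exact EX1.map_of_not b false a ha _ hx
  · intro a _ x _ y _
    exact (EX0.dist_rS (ρ a) x y).le
  · intro a ha x hx y hy
    have k1 : |tc e x| < b.t0 := EX1.lt_of_symm b true x hx
    have k2 : |tc e y| < b.t0 := EX1.lt_of_symm b true y hy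
    have k3 := h5 |s| g5
    rcases le_total 0 s with h | h
    · rw [abs_of_nonneg h] at g3 k3
      exact h3 s g3 a ha x y (by linarith [(abs_lt.mp k1).2]) (by linarith [(abs_lt.mp k2).2])
    · rw [abs_of_nonpos h] at g4 k3
      have k4 := h4 (-s) g4 a ha x y (by linarith [(abs_lt.mp k1).1])
        (by linarith [(abs_lt.mp k2).1])
      rw [neg_neg] at k4
      exact k4

end Pool.Agent.Lib.MP_c2de4f_an
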