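import Pool.Agent.Lib.MP_c2de4f_an.EX0
import Pool.Agent.Lib.MP_c2de4f_an.EX1

set_option autoImplicit false

/-! # EX2: outer regions -/

noncomputable section

open Metric Set
open scoped RealInnerProductSpace

namespace Pool.Agent.Lib.MP_c2de4f_an

variable {V : Type*} [NormedAddCommGroup V] [InnerProductSpace ℝ V] {A : Type*} [Group A]

theorem EX2.tc_sub_le (e x y : Sph V) : |tc e x - tc e y| ≤ dist x y := by
  have h1 : tc e x - tc e y = ⟪(e : V), (x : V) - (y : V)⟫ := by
    rw [inner_sub_right]; rfl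
  rw [h1, Subtype.dist_eq, dist_eq_norm]
  have h2 := abs_real_inner_le_norm (e : V) ((x : V) - (y : V))
  rw [EX0.norm_sph, one_mul] at h2
  exact h2

theorem EX2.tc_self (e : Sph V) : tc e e = 1 := by
  show ⟪(e : V), (e : V)⟫ = 1
  rw [real_inner_self_eq_norm_sq, EX0.norm_sph, one_pow]

theorem EX2.ids (s : ℝ) : Real.cosh (2 * s) - Real.tanh s * Real.sinh (2 * s) = 1 ∧
    Real.sinh (2 * s) - Real.tanh s * Real.cosh (2 * s) = Real.tanh s := by
  have hcp := Real.cosh_pos s
  have hth : Real.tanh s * Real.cosh s = Real.sinh s := by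
    rw [Real.tanh_eq_sinh_div_cosh, div_mul_cancel₀ _ hcp.ne']
  have hcs := Real.cosh_sq s
  constructor
  · rw [Real.cosh_two_mul, Real.sinh_two_mul]
    linear_combination (-2 * Real.sinh s) * hth + hcs
  · rw [Real.cosh_two_mul, Real.sinh_two_mul]
    linear_combination (-2 * Real.cosh s) * hth + Real.tanh s * hcs

/-- below the middle sphere means far below after the translation -/
theorem EX2.low (e : Sph V) (s : ℝ) (hs : 0 < s) (x : Sph V) (hx : tc e x ≤ Real.tanh s) :
    tc e (Ts e (-(2 * s)) x) ≤ -Real.tanh s := by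
  obtain ⟨hid1, hid2⟩ := EX2.ids s
  have hpos := den_sph_pos e (-(2 * s)) x
  rw [tc_Ts, div_le_iff₀ hpos]
  rw [Real.cosh_neg, Real.sinh_neg]
  have h3 : tc e x * Real.cosh (2 * s) + -Real.sinh (2 * s)
      - -Real.tanh s * (Real.cosh (2 * s) + tc e x * -Real.sinh (2 * s))
      = tc e x - Real.tanh s := by
    linear_combination tc e x * hid1 - hid2
  linarith

theorem EX2.high (e : Sph V) (s : ℝ) (hs : 0 < s) (x : Sph V) (hx : -Real.tanh s < tc e x) :
    Real.tanh s < tc e (Ts e (2 * s) x) := by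
  obtain ⟨hid1, hid2⟩ := EX2.ids s
  have hpos := den_sph_pos e (2 * s) x
  rw [tc_Ts, lt_div_iff₀ hpos]
  have h3 : tc e x * Real.cosh (2 * s) + Real.sinh (2 * s)
      - Real.tanh s * (Real.cosh (2 * s) + tc e x * Real.sinh (2 * s))
      = tc e x + Real.tanh s := by
    linear_combination tc e x * hid1 + hid2
  linarith

/-- EX2: outer regions, for all large `s`. -/
theorem exch_PPO [FiniteDimensional ℝ V] [Finite A] (e : Sph V) (ρ : A →* (V ≃ₗᵢ[ℝ] V))
    (hneg : ∀ a, ρ a (e : V) ≠ -e) (hdim : ∃ y : Sph V, tc e y = 0) (b : Boxes e ρ) :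
    ∃ s0 : ℝ, 0 < s0 ∧ ∀ s, s0 ≤ s → ∀ P : PP (Sph V) A (stab ρ e),
      P.act = cact ρ e s → P.E = cE b s → Nonempty (PPO P e) := by
  obtain ⟨y0, hy0⟩ := hdim
  obtain ⟨κ, hκ0, hκ1, s1, hs1, hfar⟩ := tc_far e ρ hneg
  obtain ⟨s2, hs2, hcon⟩ := cact_contr e ρ hneg
  obtain ⟨s3, hs3, ht3⟩ := EX1.tanh_ge (1 - κ / 2) (by linarith)
  obtain ⟨s4, hs4, ht4⟩ := EX1.tanh_ge ((1 + b.t0) / 2) (by linarith [b.t0_lt])
  refine ⟨max (max s1 s2) (max s3 s4), lt_max_of_lt_left (lt_max_of_lt_left hs1), ?_⟩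
  intro s hs P hact hE
  have g1 : s1 ≤ s := ((le_max_left _ _).trans (le_max_left _ _)).trans hs
  have g2 : s2 ≤ s := ((le_max_right _ _).trans (le_max_left _ _)).trans hs
  have g3 : s3 ≤ s := ((le_max_left _ _).trans (le_max_right _ _)).trans hs
  have g4 : s4 ≤ s := ((le_max_right _ _).trans (le_max_right _ _)).trans hs
  have hs0 : 0 < s := lt_of_lt_of_le hs1 g1
  have t3 : 1 - κ < Real.tanh s := by linarith [ht3 s g3]
  have t4 : b.t0 < Real.tanh s := by linarith [ht4 s g4, b.t0_lt]
  have t1 : Real.tanh s < 1 := EX1.tanh_lt_one s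
  have t0 : 0 < Real.tanh s := b.t0_pos.trans t4
  have htt : 0 < Real.tanh s - b.t0 := by linarith
  have hq : tc e (Ts e s y0) = Real.tanh s := by
    rw [tc_Ts, hy0, zero_mul, zero_mul, add_zero, zero_add, Real.tanh_eq_sinh_div_cosh]
  -- points above the middle sphere are moved away from the ends
  have hup : ∀ a, a ∉ stab ρ e → ∀ x : Sph V, Real.tanh s < tc e x →
      |tc e (rS (ρ a) x)| ≤ 1 - κ := fun a ha x hx =>
    hfar s g1 a ha x (by rw [abs_of_pos (t0.trans hx)]; exact hx.le)
  have hdown : ∀ a, a ∉ stab ρ e → ∀ x : Sph V, tc e x < Real.tanh s →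
      |tc e (rS (ρ a) (Ts e (-(2 * s)) x))| ≤ 1 - κ := by
    intro a ha x hx
    have h1 := EX2.low e s hs0 x hx.le
    exact hfar s g1 a ha _ (by rw [abs_of_neg (by linarith)]; linarith)
  refine ⟨{
    O := fun i => match i with
      | true => {x | tc e x < Real.tanh s}
      | false => {x | Real.tanh s < tc e x}
    M := Real.exp (4 * |s|)
    c := Real.exp (-(2 * s)) * (Real.tanh s - b.t0)
    M_pos := Real.one_le_exp (by positivity)
    c_pos := mul_pos (Real.exp_pos _) htt
    lipM := ?_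
    sep := ?_
    O_map := ?_
    lipO1 := ?_
    lipO2 := ?_
    he := ?_
    two := ?_
    cr := ?_ }⟩
  · intro i a x y
    rw [hact]
    exact cact_lip e ρ s i a x y
  · intro i x hx p hp
    rw [hE] at hx
    cases i with
    | true =>
      have k1 : |tc e x| < b.t0 := EX1.lt_of_symm b true x hx
      have k2 : Real.tanh s ≤ tc e p := not_lt.mp hp
      have k3 := EX2.tc_sub_le e x p
      have k4 : Real.exp (-(2 * s)) ≤ 1 := by
        rw [Real.exp_le_one_iff]; linarith
      have k5 : Real.exp (-(2 * s)) * (Real.tanh s - b.t0) ≤ 1 * (Real.tanh s - b.t0) :=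
        mul_le_mul_of_nonneg_right k4 htt.le
      have k6 := (abs_le.mp k3).1
      have k7 := (abs_lt.mp k1).2
      linarith
    | false =>
      have k1 : |tc e (Ts e (-(2 * s)) x)| < b.t0 := EX1.lt_of_symm b false _ hx
      have k2 : tc e p ≤ Real.tanh s := not_lt.mp hp
      have k3 := EX2.low e s hs0 p k2
      have k4 := EX2.tc_sub_le e (Ts e (-(2 * s)) x) (Ts e (-(2 * s)) p)
      have k5 := Ts_lip e (-(2 * s)) x p
      rw [abs_neg, abs_of_pos (by linarith : 0 < 2 * s)] at k5
      have k6 := (abs_le.mp k4).2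
      have k7 := (abs_lt.mp k1).1
      have k8 : Real.tanh s - b.t0 ≤ Real.exp (2 * s) * dist x p := by linarith
      calc Real.exp (-(2 * s)) * (Real.tanh s - b.t0)
          ≤ Real.exp (-(2 * s)) * (Real.exp (2 * s) * dist x p) :=
            mul_le_mul_of_nonneg_left k8 (Real.exp_pos _).le
        _ = dist x p := by
            rw [← mul_assoc, ← Real.exp_add, neg_add_cancel, Real.exp_zero, one_mul]
  · intro i a ha x hx
    rw [hact]
    cases i with
    | true =>
      show tc e (rS (ρ a) x) < Real.tanh s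
      have h1 := (abs_le.mp (hup a ha x hx)).2
      linarith
    | false =>
      show Real.tanh s < tc e (Ts e (2 * s) (rS (ρ a) (Ts e (-(2 * s)) x)))
      have h1 := (abs_le.mp (hdown a ha x hx)).1
      exact EX2.high e s hs0 _ (by linarith)
  · intro a _ x _ y _
    rw [hact]
    exact (EX0.dist_rS (ρ a) x y).le
  · intro a ha x hx y hy
    rw [hact]
    exact hcon s g2 a ha x y (le_of_lt hx) (le_of_lt hy)
  · intro i a ha x hx h
    rw [hact] at h
    cases i with
    | true =>
      have h1 := (abs_le.mp (hup a ha x hx)).2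
      have h2 : rS (ρ a) x = e := h
      rw [h2, EX2.tc_self] at h1
      linarith
    | false =>
      have h1 := (abs_le.mp (hdown a ha x hx)).2
      have h2 : Ts e (2 * s) (rS (ρ a) (Ts e (-(2 * s)) x)) = e := h
      have h3 : rS (ρ a) (Ts e (-(2 * s)) x) = e := by
        have h4 := congrArg (Ts e (-(2 * s))) h2
        rwa [EX0.Ts_cancel', Ts_e] at h4
      rw [h3, EX2.tc_self] at h1
      linarith
  · intro i
    cases i with
    | true =>
      refine ⟨e, Ts e s y0, ?_, ?_, ?_⟩
      · show ¬ (tc e e < Real.tanh s)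
        rw [EX2.tc_self]; linarith
      · show ¬ (tc e (Ts e s y0) < Real.tanh s)
        rw [hq]; exact lt_irrefl _
      · intro h
        rw [← h, EX2.tc_self] at hq
        linarith
    | false =>
      refine ⟨-e, Ts e s y0, ?_, ?_, ?_⟩
      · show ¬ (Real.tanh s < tc e (-e))
        rw [EX0.tc_neg, EX2.tc_self]; linarith
      · show ¬ (Real.tanh s < tc e (Ts e s y0))
        rw [hq]; exact lt_irrefl _
      · intro h
        rw [← h, EX0.tc_neg, EX2.tc_self] at hq
        linarith
  · intro i a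
    rw [hact]
    exact cact_cr e ρ s i a

end Pool.Agent.Lib.MP_c2de4f_an
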