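import Pool.Agent.Lib.MP_c2de4f_an.EX0

set_option autoImplicit false

/-! # EX3: the exchange homeomorphism of level zero -/

noncomputable section

open Metric Set
open scoped RealInnerProductSpace

namespace Pool.Agent.Lib.MP_c2de4f_an

variable {V : Type*} [NormedAddCommGroup V] [InnerProductSpace ℝ V] {A : Type*} [Group A]

theorem BiLip.nonneg3 {X : Type*} [PseudoMetricSpace X] {f : X ≃ₜ X} (hf : BiLip f) :
    ∃ L : ℝ, 0 ≤ L ∧ (∀ x y, dist (f x) (f y) ≤ L * dist x y) ∧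
      (∀ x y, dist x y ≤ L * dist (f x) (f y)) := by
  obtain ⟨L, h1, h2⟩ := hf
  refine ⟨|L|, abs_nonneg L, fun x y => (h1 x y).trans ?_, fun x y => (h2 x y).trans ?_⟩
  · exact mul_le_mul_of_nonneg_right (le_abs_self L) dist_nonneg
  · exact mul_le_mul_of_nonneg_right (le_abs_self L) dist_nonneg

theorem BiLip.trans3 {X : Type*} [PseudoMetricSpace X] {f g : X ≃ₜ X} (hf : BiLip f)
    (hg : BiLip g) : BiLip (f.trans g) := by
  obtain ⟨L, hL, h1, h2⟩ := hf.nonneg3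
  obtain ⟨M, hM, h3, h4⟩ := hg.nonneg3
  refine ⟨M * L, fun x y => ?_, fun x y => ?_⟩
  · show dist (g (f x)) (g (f y)) ≤ M * L * dist x y
    calc dist (g (f x)) (g (f y)) ≤ M * dist (f x) (f y) := h3 _ _
      _ ≤ M * (L * dist x y) := mul_le_mul_of_nonneg_left (h1 x y) hM
      _ = M * L * dist x y := by ring
  · show dist x y ≤ M * L * dist (g (f x)) (g (f y))
    calc dist x y ≤ L * dist (f x) (f y) := h2 x y
      _ ≤ L * (M * dist (g (f x)) (g (f y))) := mul_le_mul_of_nonneg_left (h4 _ _) hL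
      _ = M * L * dist (g (f x)) (g (f y)) := by ring

theorem BiLip.symm3 {X : Type*} [PseudoMetricSpace X] {f : X ≃ₜ X} (hf : BiLip f) :
    BiLip f.symm := by
  obtain ⟨L, h1, h2⟩ := hf
  refine ⟨L, fun x y => ?_, fun x y => ?_⟩
  · have := h2 (f.symm x) (f.symm y)
    simpa using this
  · have := h1 (f.symm x) (f.symm y)
    simpa using this

theorem Ts_biLip (e : Sph V) (s : ℝ) : BiLip (Ts e s) := by
  refine ⟨Real.exp |s|, Ts_lip e s, fun x y => ?_⟩
  have h := Ts_lip e (-s) (Ts e s x) (Ts e s y)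
  rw [Ts_add, Ts_add, neg_add_cancel, Ts_zero, Ts_zero, abs_neg] at h
  exact h

theorem Ts_cancel (e : Sph V) (s : ℝ) (x : Sph V) : Ts e s (Ts e (-s) x) = x := by
  rw [Ts_add, add_neg_cancel, Ts_zero]

theorem Ts_cancel' (e : Sph V) (s : ℝ) (x : Sph V) : Ts e (-s) (Ts e s x) = x := by
  rw [Ts_add, neg_add_cancel, Ts_zero]

theorem tc_e_self (e : Sph V) : tc e e = 1 := by
  show ⟪(e : V), (e : V)⟫ = 1
  rw [real_inner_self_eq_norm_sq]
  have : ‖(e : V)‖ = 1 := by simp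
  rw [this]; norm_num

/-- large translations move the belt `|t| < t0` above the level `t0`. -/
theorem tc_up (e : Sph V) {t0 r : ℝ} (h0 : 0 < t0) (h1 : t0 < 1)
    (hr : 2 * t0 * Real.cosh r ≤ (1 + t0 ^ 2) * Real.sinh r) (x : Sph V) (hx : |tc e x| < t0) :
    t0 ≤ tc e (Ts e r x) := by
  rw [tc_Ts]
  have hc : 0 < Real.cosh r := Real.cosh_pos r
  have hs : 0 < Real.sinh r := by
    by_contra h
    push Not at h
    have : 0 < 2 * t0 * Real.cosh r := by positivity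
    nlinarith [mul_nonneg (show (0 : ℝ) ≤ 1 + t0 ^ 2 by positivity) (neg_nonneg.2 h)]
  have hcs : Real.sinh r < Real.cosh r := Real.sinh_lt_cosh r
  obtain ⟨h3, h4⟩ := abs_lt.1 hx
  have hden : 0 < Real.cosh r + tc e x * Real.sinh r := by nlinarith
  rw [le_div_iff₀ hden]
  have h5 : 0 < Real.cosh r - t0 * Real.sinh r := by nlinarith
  nlinarith [mul_pos (show 0 < tc e x + t0 by linarith) h5]

/-- the mirror image -/
theorem tc_down (e : Sph V) {t0 r : ℝ} (h0 : 0 < t0) (h1 : t0 < 1)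
    (hr : 2 * t0 * Real.cosh r ≤ (1 + t0 ^ 2) * Real.sinh r) (x : Sph V) (hx : |tc e x| < t0) :
    tc e (Ts e (-r) x) ≤ -t0 := by
  rw [tc_Ts, Real.cosh_neg, Real.sinh_neg]
  have hc : 0 < Real.cosh r := Real.cosh_pos r
  have hs : 0 < Real.sinh r := by
    by_contra h
    push Not at h
    have : 0 < 2 * t0 * Real.cosh r := by positivity
    nlinarith [mul_nonneg (show (0 : ℝ) ≤ 1 + t0 ^ 2 by positivity) (neg_nonneg.2 h)]
  have hcs : Real.sinh r < Real.cosh r := Real.sinh_lt_cosh r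
  obtain ⟨h3, h4⟩ := abs_lt.1 hx
  have hden : 0 < Real.cosh r + tc e x * -Real.sinh r := by nlinarith
  rw [div_le_iff₀ hden]
  have h5 : 0 < Real.cosh r - t0 * Real.sinh r := by nlinarith
  nlinarith [mul_pos (show 0 < t0 - tc e x by linarith) h5]

/-- `s` large: the inequality used by `tc_up`, `tc_down`. -/
theorem belt_exists {t0 : ℝ} (h0 : 0 < t0) (h1 : t0 < 1) :
    ∃ s0 : ℝ, 0 < s0 ∧ ∀ s, s0 ≤ s →
      2 * t0 * Real.cosh (2 * s) ≤ (1 + t0 ^ 2) * Real.sinh (2 * s) := by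
  -- `exp (2 r) (1 - t0)^2 ≥ (1 + t0)^2`
  have hd : 0 < (1 - t0) ^ 2 := by
    have : 0 < 1 - t0 := by linarith
    positivity
  refine ⟨(1 + t0) ^ 2 / (1 - t0) ^ 2, by positivity, fun s hs => ?_⟩
  have hs0 : 0 < s := lt_of_lt_of_le (by positivity) hs
  have h2 : (1 + t0) ^ 2 ≤ (1 - t0) ^ 2 * s := by
    rw [div_le_iff₀ hd] at hs
    linarith
  have h3 : s ≤ Real.exp (2 * s + 2 * s) := by
    have := Real.add_one_le_exp (2 * s + 2 * s)
    linarith
  have h4 : (1 + t0) ^ 2 ≤ (1 - t0) ^ 2 * Real.exp (2 * s + 2 * s) :=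
    h2.trans (mul_le_mul_of_nonneg_left h3 hd.le)
  rw [Real.cosh_eq, Real.sinh_eq]
  rw [Real.exp_add] at h4
  have hE : 0 < Real.exp (2 * s) := Real.exp_pos _
  rw [Real.exp_neg]
  have hEi : Real.exp (2 * s) * (Real.exp (2 * s))⁻¹ = 1 := mul_inv_cancel₀ hE.ne'
  set X := Real.exp (2 * s) with hX
  have hXi : 0 < X⁻¹ := inv_pos.2 hE
  have h5 : (1 + t0) ^ 2 * X⁻¹ ≤ (1 - t0) ^ 2 * X := by
    calc (1 + t0) ^ 2 * X⁻¹ ≤ (1 - t0) ^ 2 * (X * X) * X⁻¹ :=
          mul_le_mul_of_nonneg_right h4 hXi.le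
      _ = (1 - t0) ^ 2 * X * (X * X⁻¹) := by ring
      _ = (1 - t0) ^ 2 * X := by rw [hEi, mul_one]
  nlinarith

section homeo
variable {e : Sph V} {ρ : A →* (V ≃ₗᵢ[ℝ] V)}

/-- the exchange homeomorphism of level zero -/
def exH (b : Boxes e ρ) (s : ℝ) (g : Sph V ≃ₜ Sph V) : Sph V ≃ₜ Sph V :=
  (b.Ψ true).symm.trans ((Ts e (-(2 * s))).trans ((b.Ψ false).symm.trans ((Ts e (2 * s)).trans
    (g.trans ((Ts e (2 * s)).trans ((b.Ψ false).trans
      ((Ts e (-(2 * s))).trans (b.Ψ true))))))))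

theorem exH_apply (b : Boxes e ρ) (s : ℝ) (g : Sph V ≃ₜ Sph V) (x : Sph V) :
    exH b s g x = b.Ψ true (Ts e (-(2 * s)) (b.Ψ false (Ts e (2 * s) (g (Ts e (2 * s)
      ((b.Ψ false).symm (Ts e (-(2 * s)) ((b.Ψ true).symm x)))))))) := rfl

theorem Boxes.symm_id (b : Boxes e ρ) (i : Bool) (x : Sph V) (h : b.t0 ≤ |tc e x|) :
    (b.Ψ i).symm x = x := by
  rw [Homeomorph.symm_apply_eq]
  exact (b.Ψ_id i x h).symm

theorem Boxes.symm_B (b : Boxes e ρ) (i : Bool) (a : A) (ha : a ∈ stab ρ e) (x : Sph V) :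
    (b.Ψ i).symm (rS (ρ a) x) = rS (ρ a) ((b.Ψ i).symm x) := by
  rw [Homeomorph.symm_apply_eq, b.Ψ_B i a ha, Homeomorph.apply_symm_apply]

theorem Boxes.belt (b : Boxes e ρ) (i : Bool) (x : Sph V) (h : |tc e x| < b.t0) :
    |tc e (b.Ψ i x)| < b.t0 := by
  by_contra hcon
  push Not at hcon
  have h1 := b.symm_id i _ hcon
  rw [Homeomorph.symm_apply_apply] at h1
  rw [← h1] at hcon
  exact absurd h (not_lt.2 hcon)

theorem exH_B (b : Boxes e ρ) (s : ℝ) {g : Sph V ≃ₜ Sph V}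
    (hg : ∀ a ∈ stab ρ e, ∀ x, g (rS (ρ a) x) = rS (ρ a) (g x)) (a : A) (ha : a ∈ stab ρ e)
    (x : Sph V) : exH b s g (rS (ρ a) x) = rS (ρ a) (exH b s g x) := by
  rw [exH_apply, exH_apply, b.symm_B true a ha, Ts_rS _ _ _ ha, b.symm_B false a ha,
    Ts_rS _ _ _ ha, hg a ha, Ts_rS _ _ _ ha, b.Ψ_B false a ha, Ts_rS _ _ _ ha,
    b.Ψ_B true a ha]

theorem exH_true (b : Boxes e ρ) {s : ℝ}
    (hs : 2 * b.t0 * Real.cosh (2 * s) ≤ (1 + b.t0 ^ 2) * Real.sinh (2 * s))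
    {g : Sph V ≃ₜ Sph V} (hg1 : ∀ x ∈ b.box true, g x = x) (x : Sph V)
    (hx : (b.Ψ true).symm x ∈ b.box true) : exH b s g x = x := by
  rw [exH_apply]
  set y := (b.Ψ true).symm x with hy
  have hty : |tc e y| < b.t0 := b.box_sub true y hx
  have h1 : b.t0 ≤ |tc e (Ts e (-(2 * s)) y)| := by
    have := tc_down e b.t0_pos b.t0_lt hs y hty
    rw [abs_of_nonpos (by linarith [b.t0_pos])]
    linarith
  have h2 : b.t0 ≤ |tc e (Ts e (2 * s) y)| :=
    (tc_up e b.t0_pos b.t0_lt hs y hty).trans (le_abs_self _)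
  rw [b.symm_id false _ h1, Ts_cancel, hg1 y hx, b.Ψ_id false _ h2, Ts_cancel', hy,
    Homeomorph.apply_symm_apply]

theorem exH_false (b : Boxes e ρ) {s : ℝ}
    (hs : 2 * b.t0 * Real.cosh (2 * s) ≤ (1 + b.t0 ^ 2) * Real.sinh (2 * s))
    {g : Sph V ≃ₜ Sph V}
    (hg2 : ∀ x ∈ b.box false, g (Ts e (2 * s) x) = Ts e (-(2 * s)) x) (Y : Sph V)
    (hY : Y ∈ b.box false) :
    exH b s g (Ts e (2 * s) (b.Ψ false Y)) = Ts e (-(2 * s)) (b.Ψ false Y) := by
  rw [exH_apply]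
  have hZ : |tc e (b.Ψ false Y)| < b.t0 := b.belt false Y (b.box_sub false Y hY)
  have h1 : b.t0 ≤ |tc e (Ts e (2 * s) (b.Ψ false Y))| :=
    (tc_up e b.t0_pos b.t0_lt hs _ hZ).trans (le_abs_self _)
  have h2 : b.t0 ≤ |tc e (Ts e (-(2 * s)) (b.Ψ false Y))| := by
    have := tc_down e b.t0_pos b.t0_lt hs _ hZ
    rw [abs_of_nonpos (by linarith [b.t0_pos])]
    linarith
  rw [b.symm_id true _ h1, Ts_cancel', Homeomorph.symm_apply_apply, hg2 Y hY, Ts_cancel,
    b.Ψ_id true _ h2]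

end homeo

/-- EX3: the exchange homeomorphism of level zero. -/
theorem exch_h [Finite A] (e : Sph V) (ρ : A →* (V ≃ₗᵢ[ℝ] V)) (b : Boxes e ρ) :
    ∃ s0 : ℝ, 0 < s0 ∧ ∀ s, s0 ≤ s → ∀ P Q : PP (Sph V) A (stab ρ e),
      P.act = cact ρ e s → P.E = cE b s → Q.act = cact ρ e (-s) → Q.E = cE b (-s) →
      ∃ h : Sph V ≃ₜ Sph V, BiLip h ∧ h e = e ∧ Compat P Q h := by
  obtain ⟨s0, hs0, hbelt⟩ := belt_exists b.t0_pos b.t0_lt
  refine ⟨s0, hs0, fun s hs P Q hPa hPE hQa hQE => ?_⟩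
  have hspos : 0 < s := lt_of_lt_of_le hs0 hs
  have hb := hbelt s hs
  obtain ⟨g, hgL, hge, hgB, hg1, hg2⟩ := b.slide s hspos
  have hneg : ∀ x : Sph V, Ts e (-(2 * -s)) x = Ts e (2 * s) x := by
    intro x
    rw [show -(2 * -s) = 2 * s by ring]
  have hneg' : ∀ x : Sph V, Ts e (2 * -s) x = Ts e (-(2 * s)) x := by
    intro x
    rw [show 2 * -s = -(2 * s) by ring]
  -- values
  have vT : ∀ x, x ∈ cE b s true → exH b s g x = x := fun x hx => exH_true b hb hg1 x hx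
  have vF : ∀ x, x ∈ cE b s false → exH b s g x = Ts e (-(2 * s)) (Ts e (-(2 * s)) x) := by
    intro x hx
    have hx' : (b.Ψ false).symm (Ts e (-(2 * s)) x) ∈ b.box false := hx
    have := exH_false b hb hg2 _ hx'
    rw [Homeomorph.apply_symm_apply, Ts_cancel] at this
    exact this
  have eT : cE b (-s) true = cE b s true := rfl
  have memF : ∀ x, x ∈ cE b (-s) false ↔ (b.Ψ false).symm (Ts e (2 * s) x) ∈ b.box false := by
    intro x
    show (b.Ψ false).symm (Ts e (-(2 * -s)) x) ∈ b.box false ↔ _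
    rw [hneg]
  refine ⟨exH b s g, ?_, ?_, ⟨?_, ?_, ?_, ?_⟩⟩
  · exact (b.Ψ_lip true).symm3.trans3 ((Ts_biLip e _).trans3 ((b.Ψ_lip false).symm3.trans3
      ((Ts_biLip e _).trans3 (hgL.trans3 ((Ts_biLip e _).trans3 ((b.Ψ_lip false).trans3
        ((Ts_biLip e _).trans3 (b.Ψ_lip true))))))))
  · have he : b.t0 ≤ |tc e e| := by
      rw [tc_e_self, abs_one]; exact b.t0_lt.le
    rw [exH_apply, b.symm_id true e he, Ts_e, b.symm_id false e he, Ts_e, hge, Ts_e,
      b.Ψ_id false e he, Ts_e, b.Ψ_id true e he]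
  · intro i x
    rw [hPE, hQE]
    cases i with
    | true =>
      rw [eT]
      constructor
      · intro hx
        rw [vT x hx]; exact hx
      · intro hx
        have h1 := vT _ hx
        have h2 := (exH b s g).injective h1
        rwa [h2] at hx
    | false =>
      constructor
      · intro hx
        rw [vF x hx, memF, Ts_cancel]
        exact hx
      · intro hx
        rw [memF] at hx
        have h1 := exH_false b hb hg2 _ hx
        rw [Homeomorph.apply_symm_apply, Ts_cancel'] at h1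
        have h2 := (exH b s g).injective h1
        rw [← h2]
        show (b.Ψ false).symm (Ts e (-(2 * s)) (Ts e (2 * s) (Ts e (2 * s) (exH b s g x)))) ∈
          b.box false
        rw [Ts_cancel']
        exact hx
  · intro i a ha x
    rw [hPa, hQa, cact_stab _ _ _ _ _ ha, cact_stab _ _ _ _ _ ha]
    exact exH_B b s hgB a ha x
  · intro i a x hx
    rw [hPE] at hx
    rw [hPE, hQE, hPa, hQa]
    cases i with
    | true =>
      rw [vT x hx, eT]
      rfl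
    | false =>
      have e1 : cact ρ e (-s) false a (exH b s g x) =
          Ts e (-(2 * s)) (rS (ρ a) (Ts e (-(2 * s)) x)) := by
        show Ts e (2 * -s) (rS (ρ a) (Ts e (-(2 * -s)) (exH b s g x))) = _
        rw [hneg, hneg', vF x hx, Ts_cancel]
      rw [e1, memF, Ts_cancel]
      show (b.Ψ false).symm (Ts e (-(2 * s)) (Ts e (2 * s) (rS (ρ a) (Ts e (-(2 * s)) x)))) ∈
        b.box false ↔ (b.Ψ false).symm (rS (ρ a) (Ts e (-(2 * s)) x)) ∈ b.box false
      rw [Ts_cancel']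
  · intro i a x hx hax
    rw [hPE] at hx hax
    rw [hPa] at hax ⊢
    rw [hQa]
    cases i with
    | true =>
      rw [vT x hx, vT _ hax]
      rfl
    | false =>
      have e1 : cact ρ e (-s) false a (exH b s g x) =
          Ts e (-(2 * s)) (rS (ρ a) (Ts e (-(2 * s)) x)) := by
        show Ts e (2 * -s) (rS (ρ a) (Ts e (-(2 * -s)) (exH b s g x))) = _
        rw [hneg, hneg', vF x hx, Ts_cancel]
      rw [e1, vF _ hax]
      show Ts e (-(2 * s)) (Ts e (-(2 * s)) (Ts e (2 * s) (rS (ρ a) (Ts e (-(2 * s)) x)))) = _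
      rw [Ts_cancel']

end Pool.Agent.Lib.MP_c2de4f_an
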