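import Pool.Agent.Lib.MP_c2de4f_an.EX1
import Pool.Agent.Lib.MP_c2de4f_an.EX2
import Pool.Agent.Lib.MP_c2de4f_an.EX3
import Pool.Agent.Lib.MP_c2de4f_an.DYN1B
import Pool.Agent.Lib.MP_c2de4f_an.DYN2C

set_option autoImplicit false

/-! # EX4: the exchange theorem -/

noncomputable section

open Metric Set
open scoped RealInnerProductSpace

namespace Pool.Agent.Lib.MP_c2de4f_an

variable {V : Type*} [NormedAddCommGroup V] [InnerProductSpace ℝ V] {A : Type*} [Group A]

theorem rS_neg (a : V ≃ₗᵢ[ℝ] V) (x : Sph V) : rS a (-x) = -rS a x := by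
  apply Subtype.ext
  show a (-(x : V)) = -(a x)
  simp

/-- `-f` intertwines `cact s` with itself if `f` intertwines `cact s` with `cact (-s)`. -/
theorem neg_cact (e : Sph V) (ρ : A →* (V ≃ₗᵢ[ℝ] V)) (s : ℝ) (i : Bool) (a : A) (y : Sph V) :
    -cact ρ e (-s) i a y = cact ρ e s i a (-y) := by
  cases i with
  | true => exact (rS_neg _ _).symm
  | false =>
    show -Ts e (2 * -s) (rS (ρ a) (Ts e (-(2 * -s)) y)) =
      Ts e (2 * s) (rS (ρ a) (Ts e (-(2 * s)) (-y)))
    rw [Ts_neg, rS_neg, Ts_neg]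
    have h1 : 2 * -s = -(2 * s) := by ring
    rw [h1]

/-- EX4: the exchange theorem. -/
theorem exch [FiniteDimensional ℝ V] [Finite A] (e : Sph V) (ρ : A →* (V ≃ₗᵢ[ℝ] V))
    (hneg : ∀ a, ρ a (e : V) ≠ -e) (hdim : ∃ y : Sph V, tc e y = 0) (b : Boxes e ρ) :
    ∃ s : ℝ, 0 < s ∧ ∃ φ : Sph V ≃ₜ Sph V, QC φ ∧ φ e = -e ∧
      (∀ i a x, φ (cact ρ e s i a x) = cact ρ e s i a (φ x)) := by
  obtain ⟨s1, hs1, h1⟩ := exch_PP e ρ hneg b
  obtain ⟨s2, hs2, h2⟩ := exch_PPO e ρ hneg hdim b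
  obtain ⟨s3, hs3, h3⟩ := exch_h e ρ b
  set s : ℝ := max s1 (max s2 s3) with hs
  have hs0 : 0 < s := lt_of_lt_of_le hs1 (le_max_left _ _)
  obtain ⟨P, hP, hPE⟩ := h1 s ((le_max_left _ _).trans (le_abs_self _))
  obtain ⟨Q, hQ, hQE⟩ := h1 (-s) (by rw [abs_neg]; exact (le_max_left _ _).trans (le_abs_self _))
  obtain ⟨O⟩ := h2 s ((le_max_left _ _).trans (le_max_right _ _)) P hP hPE
  obtain ⟨h, hL, he, hc⟩ := h3 s ((le_max_right _ _).trans (le_max_right _ _)) P Q hP hPE hQ hQE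
  obtain ⟨f, hf, hf0⟩ := dyn1 P Q h hc
  have hQcr : ∀ i a, CR (Q.act i a) := by
    intro i a
    rw [hQ]
    exact cact_cr e ρ (-s) i a
  have hqc : QC f := dyn2 P Q h e O hQcr hL f hf hf0
  have hee : tc e e = 1 := by
    show ⟪(e : V), (e : V)⟫ = 1
    rw [real_inner_self_eq_norm_sq]; simp
  have heF : e ∈ P.F0 := by
    intro i hi
    have hi' : e ∈ P.E i := hi.1
    rw [hPE] at hi'
    cases i with
    | true =>
      have h4 : (b.Ψ true).symm e ∈ b.box true := hi'
      have h5 : (b.Ψ true).symm e = e := by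
        rw [Homeomorph.symm_apply_eq]
        exact (b.Ψ_id true e (by rw [hee]; simpa using b.t0_lt.le)).symm
      rw [h5] at h4
      have := b.box_sub true e h4
      rw [hee] at this
      simp at this
      linarith [b.t0_lt]
    | false =>
      have h4 : (b.Ψ false).symm (Ts e (-(2 * s)) e) ∈ b.box false := hi'
      rw [Ts_e] at h4
      have h5 : (b.Ψ false).symm e = e := by
        rw [Homeomorph.symm_apply_eq]
        exact (b.Ψ_id false e (by rw [hee]; simpa using b.t0_lt.le)).symm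
      rw [h5] at h4
      have := b.box_sub false e h4
      rw [hee] at this
      simp at this
      linarith [b.t0_lt]
  have hfe : f e = e := by rw [hf0 e heF, he]
  refine ⟨s, hs0, f.trans (Homeomorph.neg (Sph V)), ?_, ?_, ?_⟩
  · obtain ⟨H, hH⟩ := hqc
    refine ⟨H, fun x => ?_⟩
    obtain ⟨δ, hδ, hh⟩ := hH x
    refine ⟨δ, hδ, fun r hr hr' y z hy hz => ?_⟩
    have hneg' : ∀ u v : Sph V, dist (-u) (-v) = dist u v := by
      intro u v
      show dist (-(u : V)) (-(v : V)) = dist (u : V) (v : V)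
      exact dist_neg_neg _ _
    show dist (-f y) (-f x) ≤ H * dist (-f z) (-f x)
    rw [hneg', hneg']
    exact hh r hr hr' y z hy hz
  · show -f e = -e
    rw [hfe]
  · intro i a x
    show -f (cact ρ e s i a x) = cact ρ e s i a (-f x)
    have := hf i a x
    rw [hP, hQ] at this
    rw [this, neg_cact]

end Pool.Agent.Lib.MP_c2de4f_an
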