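import Pool.Agent.Lib.MP_c2de4f_an.TS

set_option autoImplicit false

/-! # EXDEF: two particles in standard form; the two actions -/

noncomputable section

open Metric Set
open scoped RealInnerProductSpace

namespace Pool.Agent.Lib.MP_c2de4f_an

variable {V : Type*} [NormedAddCommGroup V] [InnerProductSpace ℝ V] {A : Type*} [Group A]

/-- Two particles in standard form. -/
structure Boxes (e : Sph V) (ρ : A →* (V ≃ₗᵢ[ℝ] V)) where
  t0 : ℝ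
  t0_pos : 0 < t0
  t0_lt : t0 < 1
  Ψ : Bool → (Sph V ≃ₜ Sph V)
  box : Bool → Set (Sph V)
  box_open : ∀ i, IsOpen (box i)
  box_sub : ∀ i, ∀ x ∈ box i, |tc e x| < t0
  box_B : ∀ i, ∀ a ∈ stab ρ e, ∀ x ∈ box i, rS (ρ a) x ∈ box i
  Ψ_id : ∀ i x, t0 ≤ |tc e x| → Ψ i x = x
  Ψ_B : ∀ i, ∀ a ∈ stab ρ e, ∀ x, Ψ i (rS (ρ a) x) = rS (ρ a) (Ψ i x)
  Ψ_lip : ∀ i, BiLip (Ψ i)
  sep : ∀ i a x y, a ∉ stab ρ e → x ∉ box i → y ∉ box i → rS (ρ a) (Ψ i x) ≠ Ψ i y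
  slide : ∀ s : ℝ, 0 < s → ∃ g : Sph V ≃ₜ Sph V, BiLip g ∧ g e = e ∧
    (∀ a ∈ stab ρ e, ∀ x, g (rS (ρ a) x) = rS (ρ a) (g x)) ∧ (∀ x ∈ box true, g x = x) ∧
    (∀ x ∈ box false, g (Ts e (2 * s) x) = Ts e (-(2 * s)) x)

/-- The first group acts by isometries, the second one is its conjugate by `T_{2s}`. -/
def cact (ρ : A →* (V ≃ₗᵢ[ℝ] V)) (e : Sph V) (s : ℝ) (i : Bool) (a : A) (x : Sph V) : Sph V :=
  match i with
  | true => rS (ρ a) x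
  | false => Ts e (2 * s) (rS (ρ a) (Ts e (-(2 * s)) x))

/-- The regions of the two particles. -/
def cE {e : Sph V} {ρ : A →* (V ≃ₗᵢ[ℝ] V)} (b : Boxes e ρ) (s : ℝ) (i : Bool) : Set (Sph V) :=
  match i with
  | true => {x | (b.Ψ true).symm x ∈ b.box true}
  | false => {x | (b.Ψ false).symm (Ts e (-(2 * s)) x) ∈ b.box false}

end Pool.Agent.Lib.MP_c2de4f_an
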