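import Pool.Agent.Lib.MP_c2de4f_an.CDEF

set_option autoImplicit false

/-! # FIX7: fixed vectors and dimensions -/

noncomputable section

open Metric Set
open scoped RealInnerProductSpace

namespace Pool.Agent.Lib.MP_c2de4f_an

theorem d0_apply (m : ZMod 7) :
    (d0 : EuclideanSpace ℝ (ZMod 7)) m = if m = 0 then 6 / 7 else -1 / 7 := rfl

theorem norm_d0_pos : 0 < ‖d0‖ := by
  rcases (norm_nonneg d0).eq_or_lt with h | h
  · have := norm_d0
    rw [← h] at this
    norm_num at this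
  · exact h

theorem e7_coe : (e7 : E7) = (‖d0‖)⁻¹ • d0 := rfl

theorem d0_eq : d0 = ‖d0‖ • (e7 : E7) := by
  rw [e7_coe, smul_smul, mul_inv_cancel₀ norm_d0_pos.ne', one_smul]

theorem E7_ext {x y : E7} (h : ∀ m, (x : EuclideanSpace ℝ (ZMod 7)) m =
    (y : EuclideanSpace ℝ (ZMod 7)) m) : x = y := by
  apply Subtype.ext
  ext m
  exact h m

theorem rhoE_d0_iff (g : Aff) : rhoE g (e7 : E7) = e7 ↔ rhoE g d0 = d0 := by
  constructor
  · intro h
    have h2 : rhoE g d0 = ‖d0‖ • rhoE g (e7 : E7) := by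
      conv_lhs => rw [d0_eq]
      rw [map_smul]
    rw [h2, h]
    exact d0_eq.symm
  · intro h
    rw [e7_coe, map_smul, h]

theorem stab_e7 (g : Aff) : g ∈ stab rhoE e7 ↔ g.b = 0 := by
  rw [mem_stab, rhoE_d0_iff]
  constructor
  · intro h
    have h2 := congrArg (fun x : E7 => (x : EuclideanSpace ℝ (ZMod 7)) g.b) h
    simp only [rhoE_apply, d0_apply, sub_self, mul_zero] at h2
    by_contra hb
    rw [if_neg hb] at h2
    norm_num at h2
  · intro h
    apply E7_ext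
    intro m
    rw [rhoE_apply, d0_apply, d0_apply, h, sub_zero]
    have := fact7
    by_cases hm : m = 0
    · rw [if_pos hm, if_pos (by rw [hm, mul_zero])]
    · rw [if_neg hm, if_neg (mul_ne_zero (Units.ne_zero _) hm)]

theorem rhoE_e7_ne_neg (g : Aff) : rhoE g (e7 : E7) ≠ -e7 := by
  intro h
  have h2 : rhoE g d0 = -d0 := by
    have h3 : rhoE g d0 = ‖d0‖ • rhoE g (e7 : E7) := by
      conv_lhs => rw [d0_eq]
      rw [map_smul]
    rw [h3, h, smul_neg]
    rw [← d0_eq]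
  have h4 := congrArg (fun x : E7 => (x : EuclideanSpace ℝ (ZMod 7)) g.b) h2
  simp only [rhoE_apply, d0_apply, sub_self, mul_zero] at h4
  have h5 : ((-d0 : E7) : EuclideanSpace ℝ (ZMod 7)) g.b =
      -((d0 : EuclideanSpace ℝ (ZMod 7)) g.b) := rfl
  rw [h5, d0_apply] at h4
  split_ifs at h4 <;> norm_num at h4

/-- multiplication by `3`. -/
def g3 : Aff := ⟨⟨3, 5, by decide, by decide⟩, 0⟩

/-- translation by `1`. -/
def kap : Aff := ⟨1, 1⟩

theorem g3_mem : g3 ∈ stab rhoE e7 := (stab_e7 g3).2 rfl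

theorem kap_apply (x : E7) (m : ZMod 7) : (rhoE kap x : EuclideanSpace ℝ (ZMod 7)) m =
    (x : EuclideanSpace ℝ (ZMod 7)) (m - 1) := by
  rw [rhoE_apply]
  simp [kap]

theorem g3_apply (x : E7) (m : ZMod 7) : (rhoE g3 x : EuclideanSpace ℝ (ZMod 7)) m =
    (x : EuclideanSpace ℝ (ZMod 7)) (5 * m) := by
  rw [rhoE_apply]
  show (x : EuclideanSpace ℝ (ZMod 7)) (5 * (m - 0)) = _
  rw [sub_zero]

theorem fixE_all (x : E7) (h : ∀ g, rhoE g x = x) : x = 0 := by
  have h1 : ∀ m, (x : EuclideanSpace ℝ (ZMod 7)) m = (x : EuclideanSpace ℝ (ZMod 7)) (m - 1) := by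
    intro m
    rw [← kap_apply, h]
  have h2 := (mem_E7 _).1 x.2
  rw [sum7] at h2
  have e1 := h1 1
  have e2 := h1 2
  have e3 := h1 3
  have e4 := h1 4
  have e5 := h1 5
  have e6 := h1 6
  rw [show (1 : ZMod 7) - 1 = 0 from rfl] at e1
  rw [show (2 : ZMod 7) - 1 = 1 from rfl] at e2
  rw [show (3 : ZMod 7) - 1 = 2 from rfl] at e3
  rw [show (4 : ZMod 7) - 1 = 3 from rfl] at e4
  rw [show (5 : ZMod 7) - 1 = 4 from rfl] at e5
  rw [show (6 : ZMod 7) - 1 = 5 from rfl] at e6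
  apply E7_ext
  intro m
  show _ = (0 : ℝ)
  have hm : m = 0 ∨ m = 1 ∨ m = 2 ∨ m = 3 ∨ m = 4 ∨ m = 5 ∨ m = 6 := by revert m; decide
  rcases hm with h | h | h | h | h | h | h <;> subst h <;> linarith

theorem fixE_stab (x : E7) (h : ∀ g ∈ stab rhoE e7, rhoE g x = x) :
    ∃ t : ℝ, x = t • (e7 : E7) := by
  have h1 : ∀ m, (x : EuclideanSpace ℝ (ZMod 7)) m = (x : EuclideanSpace ℝ (ZMod 7)) (5 * m) := by
    intro m
    rw [← g3_apply, h g3 g3_mem]
  have h2 := (mem_E7 _).1 x.2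
  rw [sum7] at h2
  have e1 := h1 1
  have e2 := h1 2
  have e3 := h1 3
  have e4 := h1 4
  have e5 := h1 5
  have e6 := h1 6
  rw [show (5 : ZMod 7) * 1 = 5 from rfl] at e1
  rw [show (5 : ZMod 7) * 2 = 3 from rfl] at e2
  rw [show (5 : ZMod 7) * 3 = 1 from rfl] at e3
  rw [show (5 : ZMod 7) * 4 = 6 from rfl] at e4
  rw [show (5 : ZMod 7) * 5 = 4 from rfl] at e5
  rw [show (5 : ZMod 7) * 6 = 2 from rfl] at e6
  refine ⟨(x : EuclideanSpace ℝ (ZMod 7)) 0 * (7 / 6) * ‖d0‖, ?_⟩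
  rw [e7_coe, smul_smul, mul_assoc, mul_inv_cancel₀ norm_d0_pos.ne', mul_one]
  apply E7_ext
  intro m
  show _ = (x : EuclideanSpace ℝ (ZMod 7)) 0 * (7 / 6) * (d0 : EuclideanSpace ℝ (ZMod 7)) m
  rw [d0_apply]
  have hm : m = 0 ∨ m = 1 ∨ m = 2 ∨ m = 3 ∨ m = 4 ∨ m = 5 ∨ m = 6 := by revert m; decide
  have g1 : ¬ (1 : ZMod 7) = 0 := by decide
  have g2 : ¬ (2 : ZMod 7) = 0 := by decide
  have g3 : ¬ (3 : ZMod 7) = 0 := by decide
  have g4 : ¬ (4 : ZMod 7) = 0 := by decide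
  have g5 : ¬ (5 : ZMod 7) = 0 := by decide
  have g6 : ¬ (6 : ZMod 7) = 0 := by decide
  rcases hm with h | h | h | h | h | h | h <;> subst h <;>
    simp only [g1, g2, g3, g4, g5, g6, if_true, if_false] <;> linarith

theorem fixU_stab (u : U4) (h : ∀ g ∈ stab rhoE e7, rhoU g u = u) : u = 0 := by
  have h1 := h g3 g3_mem
  have h2 : chi 3 * u.fst = u.fst := by
    rw [← show ((g3.a : ZMod 7)) = 3 from rfl, ← rhoU_fst, h1]
  have h3 : chi 3 * u.snd = u.snd := by
    rw [← show ((g3.a : ZMod 7)) = 3 from rfl, ← rhoU_snd, h1]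
  rw [chi_vals.2.2.2.1] at h2 h3
  have h4 : eta - 1 ≠ 0 := by
    intro h5
    have := congrArg Complex.re h5
    simp [eta] at this
    norm_num at this
  apply W2.ext'
  · show u.fst = 0
    have : (eta - 1) * u.fst = 0 := by linear_combination h2
    exact (mul_eq_zero.1 this).resolve_left h4
  · show u.snd = 0
    have : (eta - 1) * u.snd = 0 := by linear_combination h3
    exact (mul_eq_zero.1 this).resolve_left h4

/-- The sum of the coordinates. -/
def sumF : EuclideanSpace ℝ (ZMod 7) →ₗ[ℝ] ℝ where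
  toFun x := ∑ m, x m
  map_add' x y := by simp [Finset.sum_add_distrib]
  map_smul' c x := by simp [Finset.mul_sum]

theorem finrank_E7 : Module.finrank ℝ E7 = 6 := by
  have h1 : E7 = LinearMap.ker sumF := by
    ext x
    rw [mem_E7, LinearMap.mem_ker]
    rfl
  have h2 := LinearMap.finrank_range_add_finrank_ker sumF
  have h3 : LinearMap.range sumF = ⊤ := by
    rw [LinearMap.range_eq_top]
    intro c
    refine ⟨WithLp.toLp 2 (fun m => if m = 0 then c else 0), ?_⟩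
    show ∑ m : ZMod 7, (if m = 0 then c else 0) = c
    simp
  have h4 : Module.finrank ℝ (EuclideanSpace ℝ (ZMod 7)) = 7 := by
    rw [finrank_euclideanSpace]
    rfl
  rw [h3, finrank_top, Module.finrank_self, h4] at h2
  rw [h1]
  omega

theorem finrank_W : Module.finrank ℝ (W2 E7 U4) = 10 := by
  have h1 : Module.finrank ℝ U4 = 4 := by
    rw [(WithLp.linearEquiv 2 ℝ (ℂ × ℂ)).finrank_eq, Module.finrank_prod,
      Complex.finrank_real_complex]
  rw [(WithLp.linearEquiv 2 ℝ (E7 × U4)).finrank_eq, Module.finrank_prod, finrank_E7, h1]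

theorem tc_zero_exists {E U : Type*} [NormedAddCommGroup E] [InnerProductSpace ℝ E]
    [NormedAddCommGroup U] [InnerProductSpace ℝ U] (ec : Sph E) (u : U) (hu : ‖u‖ = 1) :
    ∃ y : Sph (W2 E U), tc (eW ec) y = 0 := by
  refine ⟨⟨WithLp.toLp 2 ((0 : E), u), ?_⟩, ?_⟩
  · have h : ‖(WithLp.toLp 2 ((0 : E), u) : W2 E U)‖ ^ 2 = 1 := by
      rw [W2.norm_sq]; simp [hu]
    have h2 : ‖(WithLp.toLp 2 ((0 : E), u) : W2 E U)‖ = 1 := by
      have := norm_nonneg (WithLp.toLp 2 ((0 : E), u) : W2 E U)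
      nlinarith
    simp [h2]
  · show ⟪(eW (U := U) ec : W2 E U), (WithLp.toLp 2 ((0 : E), u) : W2 E U)⟫ = 0
    rw [W2.inner_def]
    simp [eW]

end Pool.Agent.Lib.MP_c2de4f_an
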