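import Pool.Agent.Lib.MP_c2de4f_an.Defs

set_option autoImplicit false

/-! # HOM: homogeneous maps -/

noncomputable section

open Metric Set
open scoped RealInnerProductSpace

namespace Pool.Agent.Lib.MP_c2de4f_an

variable {V : Type*} [NormedAddCommGroup V] [InnerProductSpace ℝ V]

/-- normalised vectors: Lipschitz estimate. -/
theorem homAux_norm_unit_sub {E : Type*} [NormedAddCommGroup E] [NormedSpace ℝ E] (x y : E)
    (hx : x ≠ 0) (hy : y ≠ 0) : ‖x‖ * ‖‖x‖⁻¹ • x - ‖y‖⁻¹ • y‖ ≤ 2 * ‖x - y‖ := by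
  have hx' : 0 < ‖x‖ := norm_pos_iff.2 hx
  have hy' : 0 < ‖y‖ := norm_pos_iff.2 hy
  have e : ‖x‖ * ‖‖x‖⁻¹ • x - ‖y‖⁻¹ • y‖ = ‖(x - y) + ((‖y‖ - ‖x‖) * ‖y‖⁻¹) • y‖ := by
    have : ‖x‖ = ‖(‖x‖ : ℝ)‖ := by simp
    rw [this, ← norm_smul, Real.norm_eq_abs, abs_norm]
    congr 1
    rw [smul_sub, smul_smul, smul_smul, mul_inv_cancel₀ hx'.ne', one_smul, sub_mul,
      mul_inv_cancel₀ hy'.ne', sub_smul, one_smul]
    abel
  rw [e]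
  calc ‖(x - y) + ((‖y‖ - ‖x‖) * ‖y‖⁻¹) • y‖ ≤ ‖x - y‖ + ‖((‖y‖ - ‖x‖) * ‖y‖⁻¹) • y‖ :=
        norm_add_le _ _
    _ = ‖x - y‖ + |‖y‖ - ‖x‖| := by
        rw [norm_smul, Real.norm_eq_abs, abs_mul, abs_of_pos (inv_pos.2 hy'), mul_assoc,
          inv_mul_cancel₀ hy'.ne', mul_one]
    _ ≤ 2 * ‖x - y‖ := by
        have := abs_norm_sub_norm_le y x
        rw [norm_sub_rev y x] at this
        linarith

theorem homAux_zero {E F : Type*} [NormedAddCommGroup E] [NormedSpace ℝ E] [NormedAddCommGroup F]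
    [NormedSpace ℝ F] (g : E → F) (hg : ∀ c : ℝ, 0 < c → ∀ x, g (c • x) = c • g x) : g 0 = 0 := by
  have := hg 2 (by norm_num) 0
  rw [smul_zero, two_smul] at this
  simpa using this.symm

/-- The Lipschitz estimate for the radial projection of a homogeneous map. -/
theorem homAux_proj_lip (Ψ : V → V) (K : ℝ) (l1 : ∀ x y, ‖Ψ x - Ψ y‖ ≤ K * ‖x - y‖)
    (h0 : ∀ x : V, ‖x‖ = 1 → 1 ≤ K * ‖Ψ x‖) (x y : V) (hx : ‖x‖ = 1) (hy : ‖y‖ = 1) :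
    ‖‖Ψ x‖⁻¹ • Ψ x - ‖Ψ y‖⁻¹ • Ψ y‖ ≤ (2 * K * K) * ‖x - y‖ := by
  have hx0 := h0 x hx
  have hy0 := h0 y hy
  have hΨx : Ψ x ≠ 0 := by
    intro h; rw [h] at hx0; simp at hx0; linarith
  have hΨy : Ψ y ≠ 0 := by
    intro h; rw [h] at hy0; simp at hy0; linarith
  have hpos : 0 < ‖Ψ x‖ := norm_pos_iff.2 hΨx
  have hK : 0 < K := by
    by_contra h
    have : K * ‖Ψ x‖ ≤ 0 := mul_nonpos_of_nonpos_of_nonneg (not_lt.1 h) hpos.le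
    linarith
  have h1 := homAux_norm_unit_sub (Ψ x) (Ψ y) hΨx hΨy
  have h2 : ‖‖Ψ x‖⁻¹ • Ψ x - ‖Ψ y‖⁻¹ • Ψ y‖ ≤
      K * (‖Ψ x‖ * ‖‖Ψ x‖⁻¹ • Ψ x - ‖Ψ y‖⁻¹ • Ψ y‖) := by
    have := mul_le_mul_of_nonneg_right hx0 (norm_nonneg (‖Ψ x‖⁻¹ • Ψ x - ‖Ψ y‖⁻¹ • Ψ y))
    linarith
  calc ‖‖Ψ x‖⁻¹ • Ψ x - ‖Ψ y‖⁻¹ • Ψ y‖
      ≤ K * (‖Ψ x‖ * ‖‖Ψ x‖⁻¹ • Ψ x - ‖Ψ y‖⁻¹ • Ψ y‖) := h2
    _ ≤ K * (2 * ‖Ψ x - Ψ y‖) := mul_le_mul_of_nonneg_left h1 hK.le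
    _ ≤ K * (2 * (K * ‖x - y‖)) :=
        mul_le_mul_of_nonneg_left (mul_le_mul_of_nonneg_left (l1 x y) (by norm_num)) hK.le
    _ = (2 * K * K) * ‖x - y‖ := by ring

/-- HOM: a homogeneous bi-Lipschitz bijection of `V` induces one of the sphere. -/
theorem proj_homeo (Ψ Φ : V → V) (K : ℝ) (hΨ : ∀ c : ℝ, 0 < c → ∀ x, Ψ (c • x) = c • Ψ x)
    (h1 : ∀ x, Φ (Ψ x) = x) (h2 : ∀ x, Ψ (Φ x) = x)
    (l1 : ∀ x y, ‖Ψ x - Ψ y‖ ≤ K * ‖x - y‖) (l2 : ∀ x y, ‖Φ x - Φ y‖ ≤ K * ‖x - y‖) :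
    ∃ F : Sph V ≃ₜ Sph V, BiLip F ∧ ∀ x, (F x : V) = ‖Ψ x‖⁻¹ • Ψ x := by
  have hΦ : ∀ c : ℝ, 0 < c → ∀ x, Φ (c • x) = c • Φ x := by
    intro c hc x
    conv_lhs => rw [← h2 x, ← hΨ c hc, h1]
  have Ψ0 : Ψ 0 = 0 := homAux_zero Ψ hΨ
  have Φ0 : Φ 0 = 0 := homAux_zero Φ hΦ
  have b1 : ∀ x : V, ‖x‖ = 1 → 1 ≤ K * ‖Ψ x‖ := by
    intro x hx
    have := l2 (Ψ x) 0
    rw [h1, Φ0, sub_zero, sub_zero, hx] at this
    exact this
  have b2 : ∀ x : V, ‖x‖ = 1 → 1 ≤ K * ‖Φ x‖ := by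
    intro x hx
    have := l1 (Φ x) 0
    rw [h2, Ψ0, sub_zero, sub_zero, hx] at this
    exact this
  have n1 : ∀ x : Sph V, ‖(x : V)‖ = 1 := fun x => by simp
  have p1 : ∀ x : Sph V, 0 < ‖Ψ x‖ := by
    intro x
    rw [norm_pos_iff]
    intro h
    have := b1 x (n1 x)
    rw [h] at this; simp at this; linarith
  have p2 : ∀ x : Sph V, 0 < ‖Φ x‖ := by
    intro x
    rw [norm_pos_iff]
    intro h
    have := b2 x (n1 x)
    rw [h] at this; simp at this; linarith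
  let F : Sph V → Sph V := fun x => ⟨‖Ψ x‖⁻¹ • Ψ x, by
    rw [mem_sphere_zero_iff_norm, norm_smul, norm_inv, norm_norm, inv_mul_cancel₀ (p1 x).ne']⟩
  let G : Sph V → Sph V := fun x => ⟨‖Φ x‖⁻¹ • Φ x, by
    rw [mem_sphere_zero_iff_norm, norm_smul, norm_inv, norm_norm, inv_mul_cancel₀ (p2 x).ne']⟩
  have GF : ∀ x, G (F x) = x := by
    intro x
    apply Subtype.ext
    show ‖Φ (‖Ψ x‖⁻¹ • Ψ x)‖⁻¹ • Φ (‖Ψ x‖⁻¹ • Ψ x) = x
    rw [hΦ _ (inv_pos.2 (p1 x)), h1, norm_smul, n1, norm_inv, norm_norm, mul_one, inv_inv,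
      smul_smul, mul_inv_cancel₀ (p1 x).ne', one_smul]
  have FG : ∀ x, F (G x) = x := by
    intro x
    apply Subtype.ext
    show ‖Ψ (‖Φ x‖⁻¹ • Φ x)‖⁻¹ • Ψ (‖Φ x‖⁻¹ • Φ x) = x
    rw [hΨ _ (inv_pos.2 (p2 x)), h2, norm_smul, n1, norm_inv, norm_norm, mul_one, inv_inv,
      smul_smul, mul_inv_cancel₀ (p2 x).ne', one_smul]
  have Fl : ∀ x y, dist (F x) (F y) ≤ (2 * K * K) * dist x y := by
    intro x y
    rw [Subtype.dist_eq, Subtype.dist_eq, dist_eq_norm, dist_eq_norm]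
    exact homAux_proj_lip Ψ K l1 b1 x y (n1 x) (n1 y)
  have Gl : ∀ x y, dist (G x) (G y) ≤ (2 * K * K) * dist x y := by
    intro x y
    rw [Subtype.dist_eq, Subtype.dist_eq, dist_eq_norm, dist_eq_norm]
    exact homAux_proj_lip Φ K l2 b2 x y (n1 x) (n1 y)
  have cF : Continuous F := by
    have : LipschitzWith (Real.toNNReal (2 * K * K)) F := by
      apply LipschitzWith.of_dist_le_mul
      intro x y
      rw [Real.coe_toNNReal _ (by nlinarith [mul_self_nonneg K])]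
      exact Fl x y
    exact this.continuous
  have cG : Continuous G := by
    have : LipschitzWith (Real.toNNReal (2 * K * K)) G := by
      apply LipschitzWith.of_dist_le_mul
      intro x y
      rw [Real.coe_toNNReal _ (by nlinarith [mul_self_nonneg K])]
      exact Gl x y
    exact this.continuous
  refine ⟨⟨⟨F, G, GF, FG⟩, cF, cG⟩, ⟨2 * K * K, Fl, ?_⟩, fun x => rfl⟩
  intro x y
  have := Gl (F x) (F y)
  rw [GF, GF] at this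
  exact this

/-- HOM: a homogeneous map that is Lipschitz on the unit sphere is Lipschitz. -/
theorem hom_lip {E F : Type*} [NormedAddCommGroup E] [NormedSpace ℝ E] [NormedAddCommGroup F]
    [NormedSpace ℝ F] (g : E → F) (hg : ∀ c : ℝ, 0 < c → ∀ x, g (c • x) = c • g x) (g0 : g 0 = 0)
    (K M : ℝ) (hK : ∀ x y, ‖x‖ = 1 → ‖y‖ = 1 → ‖g x - g y‖ ≤ K * ‖x - y‖)
    (hM : ∀ x, ‖x‖ = 1 → ‖g x‖ ≤ M) : ∀ x y, ‖g x - g y‖ ≤ (2 * K + M) * ‖x - y‖ := by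
  have hunit : ∀ x : E, x ≠ 0 → ‖‖x‖⁻¹ • x‖ = 1 := by
    intro x hx
    rw [norm_smul, norm_inv, norm_norm, inv_mul_cancel₀ (norm_ne_zero_iff.2 hx)]
  have hrep : ∀ x : E, x ≠ 0 → g x = ‖x‖ • g (‖x‖⁻¹ • x) := by
    intro x hx
    have hx' : 0 < ‖x‖ := norm_pos_iff.2 hx
    rw [← hg _ hx', smul_smul, mul_inv_cancel₀ hx'.ne', one_smul]
  have hKpos : ∀ x : E, x ≠ 0 → 0 ≤ K := by
    intro x hx
    have h := hK (‖x‖⁻¹ • x) (-(‖x‖⁻¹ • x)) (hunit x hx) (by rw [norm_neg]; exact hunit x hx)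
    have h2 : ‖‖x‖⁻¹ • x - -(‖x‖⁻¹ • x)‖ = 2 := by
      rw [sub_neg_eq_add, ← two_smul ℝ, norm_smul, hunit x hx]; simp
    rw [h2] at h
    have := norm_nonneg (g (‖x‖⁻¹ • x) - g (-(‖x‖⁻¹ • x)))
    linarith
  have hbd : ∀ x : E, ‖g x‖ ≤ M * ‖x‖ := by
    intro x
    by_cases hx : x = 0
    · rw [hx, g0]; simp
    · rw [hrep x hx, norm_smul, norm_norm, mul_comm M]
      exact mul_le_mul_of_nonneg_left (hM _ (hunit x hx)) (norm_nonneg _)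
  intro x y
  by_cases hx : x = 0
  · by_cases hy : y = 0
    · rw [hx, hy]; simp
    · rw [hx, g0, zero_sub, zero_sub, norm_neg, norm_neg]
      have h1 := hbd y
      have h2 := mul_nonneg (hKpos y hy) (norm_nonneg y)
      nlinarith
  · by_cases hy : y = 0
    · rw [hy, g0, sub_zero, sub_zero]
      have h1 := hbd x
      have h2 := mul_nonneg (hKpos x hx) (norm_nonneg x)
      nlinarith
    · have hK0 := hKpos x hx
      have hy1 := hM _ (hunit y hy)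
      have hM0 : 0 ≤ M := (norm_nonneg _).trans hy1
      have e : g x - g y = ‖x‖ • (g (‖x‖⁻¹ • x) - g (‖y‖⁻¹ • y)) + (‖x‖ - ‖y‖) • g (‖y‖⁻¹ • y) := by
        conv_lhs => rw [hrep x hx, hrep y hy]
        rw [smul_sub, sub_smul]; abel
      rw [e]
      calc ‖‖x‖ • (g (‖x‖⁻¹ • x) - g (‖y‖⁻¹ • y)) + (‖x‖ - ‖y‖) • g (‖y‖⁻¹ • y)‖
          ≤ ‖‖x‖ • (g (‖x‖⁻¹ • x) - g (‖y‖⁻¹ • y))‖ + ‖(‖x‖ - ‖y‖) • g (‖y‖⁻¹ • y)‖ :=
            norm_add_le _ _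
        _ = ‖x‖ * ‖g (‖x‖⁻¹ • x) - g (‖y‖⁻¹ • y)‖ + |‖x‖ - ‖y‖| * ‖g (‖y‖⁻¹ • y)‖ := by
            rw [norm_smul, norm_smul, norm_norm, Real.norm_eq_abs]
        _ ≤ ‖x‖ * (K * ‖‖x‖⁻¹ • x - ‖y‖⁻¹ • y‖) + ‖x - y‖ * M := by
            gcongr
            · exact hK _ _ (hunit x hx) (hunit y hy)
            · exact abs_norm_sub_norm_le x y
        _ = K * (‖x‖ * ‖‖x‖⁻¹ • x - ‖y‖⁻¹ • y‖) + ‖x - y‖ * M := by ring
        _ ≤ K * (2 * ‖x - y‖) + ‖x - y‖ * M := by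
            have := mul_le_mul_of_nonneg_left (homAux_norm_unit_sub x y hx hy) hK0
            linarith
        _ = (2 * K + M) * ‖x - y‖ := by ring

/-- HOM: positive lower bound of a positive homogeneous continuous function. -/
theorem hom_lower {E : Type*} [NormedAddCommGroup E] [NormedSpace ℝ E] [FiniteDimensional ℝ E]
    (F : E → ℝ) (hc : Continuous F) (hF : ∀ c : ℝ, 0 < c → ∀ x, F (c • x) = c * F x)
    (hpos : ∀ x, x ≠ 0 → 0 < F x) : ∃ c : ℝ, 0 < c ∧ ∀ x, c * ‖x‖ ≤ F x := by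
  have F0 : F 0 = 0 := by
    have := hF 2 (by norm_num) 0
    rw [smul_zero] at this
    linarith
  by_cases hE : ∃ x : E, x ≠ 0
  · obtain ⟨x₀, hx₀⟩ := hE
    have hne : (sphere (0 : E) 1).Nonempty := by
      refine ⟨‖x₀‖⁻¹ • x₀, ?_⟩
      rw [mem_sphere_zero_iff_norm, norm_smul, norm_inv, norm_norm,
        inv_mul_cancel₀ (norm_ne_zero_iff.2 hx₀)]
    obtain ⟨z, hz, hmin⟩ := (isCompact_sphere (0 : E) 1).exists_isMinOn hne hc.continuousOn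
    have hz1 : ‖z‖ = 1 := by simpa using hz
    have hz0 : z ≠ 0 := by
      intro h; rw [h] at hz1; simp at hz1
    refine ⟨F z, hpos z hz0, ?_⟩
    intro x
    by_cases hx : x = 0
    · rw [hx, F0]; simp
    · have hx' : 0 < ‖x‖ := norm_pos_iff.2 hx
      have h1 : F z ≤ F (‖x‖⁻¹ • x) := by
        apply hmin
        rw [mem_sphere_zero_iff_norm, norm_smul, norm_inv, norm_norm, inv_mul_cancel₀ hx'.ne']
      rw [hF _ (inv_pos.2 hx')] at h1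
      calc F z * ‖x‖ ≤ (‖x‖⁻¹ * F x) * ‖x‖ := mul_le_mul_of_nonneg_right h1 hx'.le
        _ = F x := by field_simp
  · push Not at hE
    refine ⟨1, one_pos, fun x => ?_⟩
    rw [hE x, F0]; simp

end Pool.Agent.Lib.MP_c2de4f_an
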