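import Pool.Agent.Lib.MP_c2de4f_an.SOS
import Pool.Agent.Lib.MP_c2de4f_an.HOM
import Pool.Agent.Lib.MP_c2de4f_an.FIX7

set_option autoImplicit false

/-! # G7: the data g -/

noncomputable section

open Metric Set
open scoped RealInnerProductSpace

namespace Pool.Agent.Lib.MP_c2de4f_an

theorem zf_smul (c : ℝ) (x : ZMod 7 → ℝ) : zf (fun m => c * x m) = c * zf x := by
  unfold zf
  rw [Finset.mul_sum]
  refine Finset.sum_congr rfl fun m _ => ?_
  push_cast
  ring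

theorem hf_smul (c : ℝ) (x : ZMod 7 → ℝ) : hf (fun m => c * x m) = c ^ 2 * hf x := by
  unfold hf
  rw [Finset.mul_sum]
  refine Finset.sum_congr rfl fun m _ => ?_
  push_cast
  ring

theorem g7_fst (x : E7) : (g7 x).fst = zf (x : EuclideanSpace ℝ (ZMod 7)) := rfl

theorem g7_snd (x : E7) : (g7 x).snd =
    ((‖x‖⁻¹ : ℝ) : ℂ) * hf (x : EuclideanSpace ℝ (ZMod 7)) := by
  show (‖x‖⁻¹ : ℝ) • hf (x : EuclideanSpace ℝ (ZMod 7)) = _
  exact Complex.real_smul

theorem g7_hom (c : ℝ) (hc : 0 < c) (x : E7) : g7 (c • x) = c • g7 x := by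
  apply W2.ext'
  · show zf (fun m => c * (x : EuclideanSpace ℝ (ZMod 7)) m) = c • zf _
    rw [zf_smul, Complex.real_smul]
  · rw [g7_snd]
    show ((‖c • x‖⁻¹ : ℝ) : ℂ) * hf (fun m => c * (x : EuclideanSpace ℝ (ZMod 7)) m) =
      c • (g7 x).snd
    rw [hf_smul, g7_snd, Complex.real_smul, norm_smul, Real.norm_eq_abs, abs_of_pos hc]
    have hc' : (c : ℂ) ≠ 0 := by exact_mod_cast hc.ne'
    push_cast
    rw [mul_inv]
    field_simp

theorem g7_zero (t : ℝ) : g7 (t • (e7 : E7)) = 0 := by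
  have h : t • (e7 : E7) = (t * ‖d0‖⁻¹) • d0 := by
    rw [e7_coe, smul_smul]
  rw [h]
  have key : ∀ m : ZMod 7, (((t * ‖d0‖⁻¹) • d0 : E7) : EuclideanSpace ℝ (ZMod 7)) m =
      (t * ‖d0‖⁻¹) * (if m = 0 then 6 / 7 else -1 / 7) := by
    intro m
    rfl
  have h1 : ¬ (1 : ZMod 7) = 0 := by decide
  have h2 : ¬ (2 : ZMod 7) = 0 := by decide
  have h3 : ¬ (3 : ZMod 7) = 0 := by decide
  have h4 : ¬ (4 : ZMod 7) = 0 := by decide
  have h5 : ¬ (5 : ZMod 7) = 0 := by decide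
  have h6 : ¬ (6 : ZMod 7) = 0 := by decide
  have hz : zf (((t * ‖d0‖⁻¹) • d0 : E7) : EuclideanSpace ℝ (ZMod 7)) = 0 := by
    rw [zf_eq]
    simp only [zr, zi, key, if_neg h1, if_neg h2, if_neg h3, if_neg h4, if_neg h5, if_neg h6]
    push_cast
    ring
  have hh : hf (((t * ‖d0‖⁻¹) • d0 : E7) : EuclideanSpace ℝ (ZMod 7)) = 0 := by
    rw [hf_eq]
    simp only [hr, hi, key, if_neg h1, if_neg h2, if_neg h3, if_neg h4, if_neg h5, if_neg h6,
      if_true]
    push_cast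
    ring
  apply W2.ext'
  · exact hz
  · rw [g7_snd, hh, mul_zero]
    rfl

theorem g7_eqv (a : Aff) (ha : a ∈ stab rhoE e7) (x : E7) :
    g7 (rhoE a x) = rhoU a (g7 x) := by
  have hb := (stab_e7 a).1 ha
  have hx : ∀ m, (rhoE a x : EuclideanSpace ℝ (ZMod 7)) m =
      (x : EuclideanSpace ℝ (ZMod 7)) (((a.a⁻¹ : (ZMod 7)ˣ) : ZMod 7) * m) := by
    intro m
    rw [rhoE_apply, hb, sub_zero]
  have hsum : ∀ f : ZMod 7 → ℂ, ∑ m, f m = ∑ m, f ((a.a : ZMod 7) * m) := by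
    intro f
    exact (Equiv.sum_comp (Units.mulLeft a.a) f).symm
  have hinv : ∀ m : ZMod 7, ((a.a⁻¹ : (ZMod 7)ˣ) : ZMod 7) * ((a.a : ZMod 7) * m) = m := by
    intro m
    rw [← mul_assoc, Units.inv_mul, one_mul]
  apply W2.ext'
  · rw [g7_fst, rhoU_fst, g7_fst]
    unfold zf
    rw [hsum, Finset.mul_sum]
    refine Finset.sum_congr rfl fun m _ => ?_
    rw [hx, hinv, chi_mul, mul_assoc]
  · rw [g7_snd, rhoU_snd, g7_snd, LinearIsometryEquiv.norm_map]
    have : hf (rhoE a x : EuclideanSpace ℝ (ZMod 7)) =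
        chi (a.a : ZMod 7) * hf (x : EuclideanSpace ℝ (ZMod 7)) := by
      unfold hf
      rw [hsum, Finset.mul_sum]
      refine Finset.sum_congr rfl fun m _ => ?_
      have e2 : (2 : ZMod 7) * ((a.a : ZMod 7) * m) = (a.a : ZMod 7) * (2 * m) := by ring
      have e3 : (3 : ZMod 7) * ((a.a : ZMod 7) * m) = (a.a : ZMod 7) * (3 * m) := by ring
      rw [e2, e3, hx, hx, hx, hx, hinv, hinv, hinv, mul_zero, chi_mul, mul_assoc]
    rw [this]
    ring

theorem norm_chi_le (m : ZMod 7) : ‖chi m‖ ≤ 1 := by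
  by_cases hm : m = 0
  · rw [hm, chi_vals.1]; simp
  · exact (norm_chi m hm).le

theorem term_bound (c : ℂ) (hc : ‖c‖ ≤ 1) (p q r P Q R : ℝ) (hp : |p| ≤ P) (hq : |q| ≤ Q)
    (hr : |r| ≤ R) :
    ‖c * ((p : ℂ) + 2 * eta * (q : ℂ) + 2 * (1 + eta) * (r : ℂ))‖ ≤ P + 2 * Q + 4 * R := by
  have h1 : ‖(p : ℂ)‖ ≤ P := by simpa using hp
  have h2 : ‖2 * eta * (q : ℂ)‖ ≤ 2 * Q := by
    rw [norm_mul, norm_mul, norm_eta]
    have : ‖(q : ℂ)‖ ≤ Q := by simpa using hq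
    simp only [Complex.norm_ofNat, mul_one]
    linarith
  have h3 : ‖2 * (1 + eta) * (r : ℂ)‖ ≤ 4 * R := by
    rw [norm_mul, norm_mul]
    have h4 : ‖(r : ℂ)‖ ≤ R := by simpa using hr
    have h5 : ‖1 + eta‖ ≤ 2 := by
      refine (norm_add_le _ _).trans ?_
      rw [norm_eta, norm_one]; norm_num
    simp only [Complex.norm_ofNat]
    have h6 := norm_nonneg (r : ℂ)
    have h7 := norm_nonneg (1 + eta)
    nlinarith
  have h4 : ‖(p : ℂ) + 2 * eta * (q : ℂ) + 2 * (1 + eta) * (r : ℂ)‖ ≤ P + 2 * Q + 4 * R := by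
    refine (norm_add_le _ _).trans ?_
    have := norm_add_le (p : ℂ) (2 * eta * (q : ℂ))
    linarith
  rw [norm_mul]
  have h5 := norm_nonneg ((p : ℂ) + 2 * eta * (q : ℂ) + 2 * (1 + eta) * (r : ℂ))
  have h6 := norm_nonneg c
  nlinarith

theorem prod_diff (a b a' b' d : ℝ) (h1 : |a - a'| ≤ d) (h2 : |b - b'| ≤ d) (h3 : |b| ≤ 1)
    (h4 : |a'| ≤ 1) : |a * b - a' * b'| ≤ 2 * d := by
  have h : a * b - a' * b' = (a - a') * b + a' * (b - b') := by ring
  rw [h]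
  refine (abs_add_le _ _).trans ?_
  rw [abs_mul, abs_mul]
  have n1 := abs_nonneg (a - a')
  have n2 := abs_nonneg (b - b')
  have n3 := abs_nonneg b
  have n4 := abs_nonneg a'
  nlinarith

theorem zf_bound (x : ZMod 7 → ℝ) (d : ℝ) (h : ∀ m, |x m| ≤ d) : ‖zf x‖ ≤ 7 * d := by
  unfold zf
  have h1 : ∀ m ∈ (Finset.univ : Finset (ZMod 7)), ‖chi m * (x m : ℂ)‖ ≤ d := by
    intro m _
    rw [norm_mul]
    have h2 : ‖(x m : ℂ)‖ ≤ d := by simpa using h m
    have h3 := norm_chi_le m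
    have h4 := norm_nonneg (x m : ℂ)
    have h5 := norm_nonneg (chi m)
    nlinarith
  refine (norm_sum_le_of_le _ h1).trans ?_
  rw [Finset.sum_const, Finset.card_univ, ZMod.card]
  simp

theorem hf_bound (x : ZMod 7 → ℝ) (h : ∀ m, |x m| ≤ 1) : ‖hf x‖ ≤ 91 := by
  unfold hf
  have hp : ∀ a b : ZMod 7, |x a * x b| ≤ 1 := by
    intro a b
    rw [abs_mul]
    have := h a
    have := h b
    have := abs_nonneg (x a)
    have := abs_nonneg (x b)
    nlinarith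
  have h1 : ∀ m ∈ (Finset.univ : Finset (ZMod 7)), ‖chi m * (((-5 * x m ^ 2 + 2 * x 0 * x m : ℝ) : ℂ)
      + 2 * eta * ((x m * x (2 * m) : ℝ) : ℂ)
      + 2 * (1 + eta) * ((x m * x (3 * m) : ℝ) : ℂ))‖ ≤ 7 + 2 * 1 + 4 * 1 := by
    intro m _
    refine term_bound _ (norm_chi_le m) _ _ _ 7 1 1 ?_ (hp _ _) (hp _ _)
    have h2 := abs_le.1 (hp m m)
    have h3 := abs_le.1 (hp 0 m)
    rw [abs_le]
    constructor <;> nlinarith
  refine (norm_sum_le_of_le _ h1).trans ?_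
  rw [Finset.sum_const, Finset.card_univ, ZMod.card]
  norm_num

theorem hf_lip (x y : ZMod 7 → ℝ) (d : ℝ) (hx : ∀ m, |x m| ≤ 1) (hy : ∀ m, |y m| ≤ 1)
    (h : ∀ m, |x m - y m| ≤ d) : ‖hf x - hf y‖ ≤ 182 * d := by
  have hp : ∀ a b : ZMod 7, |x a * x b - y a * y b| ≤ 2 * d :=
    fun a b => prod_diff _ _ _ _ _ (h a) (h b) (hx b) (hy a)
  have e : hf x - hf y = ∑ m, chi m * (((-5 * (x m * x m - y m * y m)
      + 2 * (x 0 * x m - y 0 * y m) : ℝ) : ℂ)
      + 2 * eta * ((x m * x (2 * m) - y m * y (2 * m) : ℝ) : ℂ)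
      + 2 * (1 + eta) * ((x m * x (3 * m) - y m * y (3 * m) : ℝ) : ℂ)) := by
    unfold hf
    rw [← Finset.sum_sub_distrib]
    refine Finset.sum_congr rfl fun m _ => ?_
    push_cast
    ring
  rw [e]
  have h1 : ∀ m ∈ (Finset.univ : Finset (ZMod 7)), ‖chi m * (((-5 * (x m * x m - y m * y m)
      + 2 * (x 0 * x m - y 0 * y m) : ℝ) : ℂ)
      + 2 * eta * ((x m * x (2 * m) - y m * y (2 * m) : ℝ) : ℂ)
      + 2 * (1 + eta) * ((x m * x (3 * m) - y m * y (3 * m) : ℝ) : ℂ))‖ ≤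
        14 * d + 2 * (2 * d) + 4 * (2 * d) := by
    intro m _
    refine term_bound _ (norm_chi_le m) _ _ _ _ _ _ ?_ (hp _ _) (hp _ _)
    have h2 := abs_le.1 (hp m m)
    have h3 := abs_le.1 (hp 0 m)
    rw [abs_le]
    constructor <;> linarith
  refine (norm_sum_le_of_le _ h1).trans ?_
  rw [Finset.sum_const, Finset.card_univ, ZMod.card, nsmul_eq_mul]
  push_cast
  linarith

theorem coord_le (x : E7) (m : ZMod 7) : |(x : EuclideanSpace ℝ (ZMod 7)) m| ≤ ‖x‖ := by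
  have := PiLp.norm_apply_le (x : EuclideanSpace ℝ (ZMod 7)) m
  simpa using this

theorem U4_norm_le (u : U4) : ‖u‖ ≤ ‖u.fst‖ + ‖u.snd‖ := by
  have h := W2.norm_sq u
  have h1 := norm_nonneg u
  have h2 := norm_nonneg u.fst
  have h3 := norm_nonneg u.snd
  nlinarith

theorem g7_lip (x y : E7) : ‖g7 x - g7 y‖ ≤ (2 * 189 + 98) * ‖x - y‖ := by
  refine hom_lip g7 g7_hom ?_ 189 98 ?_ ?_ x y
  · have := g7_zero 0
    rwa [zero_smul] at this
  · intro x y hx hy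
    replace hx : ‖x‖ = 1 := hx
    replace hy : ‖y‖ = 1 := hy
    have hx' : ∀ m, |(x : EuclideanSpace ℝ (ZMod 7)) m| ≤ 1 := fun m => hx ▸ coord_le x m
    have hy' : ∀ m, |(y : EuclideanSpace ℝ (ZMod 7)) m| ≤ 1 := fun m => hy ▸ coord_le y m
    have hd : ∀ m, |(x : EuclideanSpace ℝ (ZMod 7)) m - (y : EuclideanSpace ℝ (ZMod 7)) m| ≤
        ‖x - y‖ := fun m => coord_le (x - y) m
    refine (U4_norm_le _).trans ?_
    have e1 : (g7 x - g7 y).fst = zf (fun m => (x : EuclideanSpace ℝ (ZMod 7)) m -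
        (y : EuclideanSpace ℝ (ZMod 7)) m) := by
      show zf _ - zf _ = _
      unfold zf
      rw [← Finset.sum_sub_distrib]
      refine Finset.sum_congr rfl fun m _ => ?_
      push_cast
      ring
    have e2 : (g7 x - g7 y).snd = hf (x : EuclideanSpace ℝ (ZMod 7)) -
        hf (y : EuclideanSpace ℝ (ZMod 7)) := by
      show (g7 x).snd - (g7 y).snd = _
      rw [g7_snd, g7_snd, hx, hy]
      simp
    have b1 := zf_bound _ _ hd
    have b2 := hf_lip _ _ _ hx' hy' hd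
    rw [e1, e2]
    show _ ≤ 189 * ‖x - y‖
    linarith
  · intro x hx
    replace hx : ‖x‖ = 1 := hx
    have hx' : ∀ m, |(x : EuclideanSpace ℝ (ZMod 7)) m| ≤ 1 := fun m => hx ▸ coord_le x m
    refine (U4_norm_le _).trans ?_
    rw [g7_fst, g7_snd, hx]
    have b1 := zf_bound _ _ hx'
    have b2 := hf_bound _ hx'
    simp only [inv_one, Complex.ofReal_one, one_mul]
    linarith

theorem g7_cont : Continuous g7 := by
  have : LipschitzWith (Real.toNNReal (2 * 189 + 98)) g7 := by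
    apply LipschitzWith.of_dist_le_mul
    intro x y
    rw [Real.coe_toNNReal _ (by norm_num), dist_eq_norm, dist_eq_norm]
    exact g7_lip x y
  exact this.continuous

theorem g7_kap (y : E7) (h : g7 (rhoE kap y) = g7 y) : y = 0 := by
  by_contra hy
  have hn : ‖y‖ ≠ 0 := norm_ne_zero_iff.2 hy
  have h1 : zf (fun m => (y : EuclideanSpace ℝ (ZMod 7)) (m - 1)) =
      zf (y : EuclideanSpace ℝ (ZMod 7)) := by
    have := congrArg (fun u : U4 => u.fst) h
    simp only [g7_fst] at this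
    rw [← this]
    congr 1
    funext m
    exact (kap_apply y m).symm
  have h2 : hf (fun m => (y : EuclideanSpace ℝ (ZMod 7)) (m - 1)) =
      hf (y : EuclideanSpace ℝ (ZMod 7)) := by
    have := congrArg (fun u : U4 => u.snd) h
    simp only [g7_snd, LinearIsometryEquiv.norm_map] at this
    have h3 : ((‖y‖⁻¹ : ℝ) : ℂ) ≠ 0 := by
      exact_mod_cast inv_ne_zero hn
    have h4 := mul_left_cancel₀ h3 this
    rw [← h4]
    congr 1
    funext m
    exact (kap_apply y m).symm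
  have h3 := sos _ ((mem_E7 _).1 y.2) h1 h2
  apply hy
  apply E7_ext
  intro m
  exact congrFun h3 m

/-- Every element outside the stabiliser is a conjugate of the translation by one, composed
with an element of the stabiliser. -/
theorem decomp (a : Aff) (ha : a ∉ stab rhoE e7) : ∃ β ∈ stab rhoE e7, ∃ k ∈ stab rhoE e7,
    a = β * kap * β⁻¹ * k ∧ a.a = k.a := by
  have := fact7
  have hb : a.b ≠ 0 := fun h => ha ((stab_e7 a).2 h)
  refine ⟨⟨Units.mk0 a.b hb, 0⟩, (stab_e7 _).2 rfl, ⟨a.a, 0⟩, (stab_e7 _).2 rfl, ?_, rfl⟩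
  apply Aff.ext
  · simp [kap]
  · simp [kap]

theorem g7_pos (a : Aff) (ha : a ∉ stab rhoE e7) (x : E7) (hx : x ≠ 0) :
    0 < ‖g7 (rhoE a x) - rhoU a (g7 x)‖ := by
  rw [norm_pos_iff, sub_ne_zero]
  intro h
  obtain ⟨β, hβ, k, hk, hak, hka⟩ := decomp a ha
  have hU : rhoU a (g7 x) = rhoU k (g7 x) := by
    apply W2.ext'
    · rw [rhoU_fst, rhoU_fst, hka]
    · rw [rhoU_snd, rhoU_snd, hka]
  set y : E7 := rhoE β⁻¹ (rhoE k x) with hy
  have h1 : rhoE a x = rhoE β (rhoE kap y) := by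
    rw [hak, map_mul, map_mul, map_mul]
    rfl
  have h2 : rhoE k x = rhoE β y := by
    rw [hy]
    show _ = (rhoE β * rhoE β⁻¹) (rhoE k x)
    rw [← map_mul, mul_inv_cancel, map_one]
    rfl
  rw [hU, ← g7_eqv k hk, h1, h2, g7_eqv β hβ, g7_eqv β hβ] at h
  have h3 := (rhoU β).injective h
  have h4 := g7_kap y h3
  rw [h4, map_zero] at h2
  apply hx
  have : (rhoE k).symm (rhoE k x) = (rhoE k).symm 0 := by rw [h2]
  rwa [LinearIsometryEquiv.symm_apply_apply, map_zero] at this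

theorem gdata7 : GData rhoE rhoU e7 g7 where
  lip := ⟨_, g7_lip⟩
  hom := g7_hom
  zero := g7_zero
  eqv := g7_eqv
  sep := by
    have h1 : ∀ a : Aff, ∃ c : ℝ, 0 < c ∧ (a ∉ stab rhoE e7 → ∀ x : E7, c * ‖x‖ ≤
        ‖g7 (rhoE a x) - rhoU a (g7 x)‖) := by
      intro a
      by_cases ha : a ∈ stab rhoE e7
      · exact ⟨1, one_pos, fun h => absurd ha h⟩
      · obtain ⟨c, hc, hc2⟩ := hom_lower (fun x : E7 => ‖g7 (rhoE a x) - rhoU a (g7 x)‖)
          ((g7_cont.comp (rhoE a).continuous).sub ((rhoU a).continuous.comp g7_cont)).norm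
          (by
            intro c hc x
            show ‖g7 (rhoE a (c • x)) - rhoU a (g7 (c • x))‖ =
              c * ‖g7 (rhoE a x) - rhoU a (g7 x)‖
            rw [map_smul, g7_hom c hc, g7_hom c hc, map_smul, ← smul_sub, norm_smul,
              Real.norm_eq_abs, abs_of_pos hc])
          (g7_pos a ha)
        exact ⟨c, hc, fun _ => hc2⟩
    choose c hc hc2 using h1
    obtain ⟨a₀, ha₀⟩ := Finite.exists_min c
    refine ⟨c a₀, hc a₀, fun a ha x => ?_⟩
    refine le_trans ?_ (hc2 a ha x)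
    exact mul_le_mul_of_nonneg_right (ha₀ a) (norm_nonneg x)

end Pool.Agent.Lib.MP_c2de4f_an
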