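import Pool.Agent.Lib.MP_c2de4f_an.Defs

set_option autoImplicit false

/-! # SHR: soft threshold -/

noncomputable section

open Metric Set
open scoped RealInnerProductSpace

namespace Pool.Agent.Lib.MP_c2de4f_an

variable {V : Type*} [NormedAddCommGroup V] [InnerProductSpace ℝ V]

/-- Soft threshold: `y` minus its nearest point in the ball of radius `r`. -/
def shr (r : ℝ) (y : V) : V := (1 - min 1 (r / ‖y‖)) • y

theorem shr_zero (r : ℝ) (y : V) (h : ‖y‖ ≤ r) : shr r y = 0 := by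
  unfold shr
  by_cases hy : y = 0
  · rw [hy, smul_zero]
  · have hy' : 0 < ‖y‖ := norm_pos_iff.2 hy
    rw [min_eq_left ((one_le_div hy').2 h), sub_self, zero_smul]

theorem shr_big (r : ℝ) (y : V) (h : r ≤ ‖y‖) (hy : y ≠ 0) : shr r y = (1 - r / ‖y‖) • y := by
  unfold shr
  have hy' : 0 < ‖y‖ := norm_pos_iff.2 hy
  rw [min_eq_right ((div_le_one hy').2 h)]

theorem shr_sub (r : ℝ) (hr : 0 ≤ r) (y : V) : ‖shr r y - y‖ ≤ r := by
  by_cases hy : y = 0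
  · rw [shr_zero r y (by rw [hy]; simpa using hr), hy]; simpa using hr
  · have hy' : 0 < ‖y‖ := norm_pos_iff.2 hy
    have e : shr r y - y = (-(min 1 (r / ‖y‖))) • y := by
      unfold shr
      rw [sub_smul, one_smul, neg_smul]; abel
    rw [e, norm_smul, norm_neg, Real.norm_eq_abs, abs_of_nonneg (le_min zero_le_one (by positivity))]
    calc min 1 (r / ‖y‖) * ‖y‖ ≤ (r / ‖y‖) * ‖y‖ :=
          mul_le_mul_of_nonneg_right (min_le_right _ _) hy'.le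
      _ = r := by field_simp

theorem shr_hom (c : ℝ) (hc : 0 < c) (r : ℝ) (y : V) : shr (c * r) (c • y) = c • shr r y := by
  unfold shr
  have e : c * r / ‖c • y‖ = r / ‖y‖ := by
    rw [norm_smul, Real.norm_eq_abs, abs_of_pos hc]
    exact mul_div_mul_left _ _ hc.ne'
  rw [e, smul_smul, smul_smul, mul_comm]

theorem shr_map (r : ℝ) (a : V ≃ₗᵢ[ℝ] V) (y : V) : shr r (a y) = a (shr r y) := by
  unfold shr
  rw [a.norm_map, map_smul]

/-- change of the radius -/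
theorem shr_rad (r r' : ℝ) (hr : 0 ≤ r) (hr' : 0 ≤ r') (y : V) :
    ‖shr r y - shr r' y‖ ≤ |r - r'| := by
  by_cases hy : y = 0
  · rw [shr_zero r y (by rw [hy]; simpa using hr), shr_zero r' y (by rw [hy]; simpa using hr')]
    simp
  · have hy' : 0 < ‖y‖ := norm_pos_iff.2 hy
    have e : shr r y - shr r' y = (min 1 (r' / ‖y‖) - min 1 (r / ‖y‖)) • y := by
      unfold shr
      rw [← sub_smul]; congr 1; ring
    rw [e, norm_smul, Real.norm_eq_abs]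
    have h1 : |min 1 (r' / ‖y‖) - min 1 (r / ‖y‖)| ≤ |r' / ‖y‖ - r / ‖y‖| := by
      have := abs_min_sub_min_le_max 1 (r' / ‖y‖) 1 (r / ‖y‖)
      simpa using this
    calc |min 1 (r' / ‖y‖) - min 1 (r / ‖y‖)| * ‖y‖ ≤ |r' / ‖y‖ - r / ‖y‖| * ‖y‖ :=
          mul_le_mul_of_nonneg_right h1 hy'.le
      _ = |r - r'| := by
          rw [← sub_div, abs_div, abs_of_pos hy', div_mul_cancel₀ _ hy'.ne', abs_sub_comm]

/-- fixed radius: both points outside the ball -/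
theorem shr_pt_out (r : ℝ) (hr : 0 ≤ r) (y y' : V) (h : r ≤ ‖y‖) (h' : r ≤ ‖y'‖)
    (hy : y ≠ 0) (hy2 : y' ≠ 0) : ‖shr r y - shr r y'‖ ≤ 3 * ‖y - y'‖ := by
  have p : 0 < ‖y‖ := norm_pos_iff.2 hy
  have p' : 0 < ‖y'‖ := norm_pos_iff.2 hy2
  rw [shr_big r y h hy, shr_big r y' h' hy2]
  have e : (1 - r / ‖y‖) • y - (1 - r / ‖y'‖) • y' =
      (1 - r / ‖y‖) • (y - y') + (r / ‖y'‖ - r / ‖y‖) • y' := by
    rw [smul_sub, sub_smul, sub_smul, sub_smul, sub_smul]; abel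
  rw [e]
  have h1 : |1 - r / ‖y‖| ≤ 1 := by
    have a1 : r / ‖y‖ ≤ 1 := (div_le_one p).2 h
    have a2 : 0 ≤ r / ‖y‖ := by positivity
    rw [abs_le]; constructor <;> linarith
  have h2 : |r / ‖y'‖ - r / ‖y‖| * ‖y'‖ ≤ ‖y - y'‖ := by
    have e2 : r / ‖y'‖ - r / ‖y‖ = (r / ‖y‖) * ((‖y‖ - ‖y'‖) / ‖y'‖) := by
      field_simp
    have e3 : |r / ‖y‖ * ((‖y‖ - ‖y'‖) / ‖y'‖)| * ‖y'‖ = r / ‖y‖ * |‖y‖ - ‖y'‖| := by
      rw [abs_mul, abs_of_nonneg (by positivity : 0 ≤ r / ‖y‖), abs_div, abs_of_pos p', mul_assoc,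
        div_mul_cancel₀ _ p'.ne']
    rw [e2, e3]
    calc r / ‖y‖ * |‖y‖ - ‖y'‖| ≤ 1 * |‖y‖ - ‖y'‖| :=
          mul_le_mul_of_nonneg_right ((div_le_one p).2 h) (abs_nonneg _)
      _ ≤ ‖y - y'‖ := by rw [one_mul]; exact abs_norm_sub_norm_le y y'
  calc ‖(1 - r / ‖y‖) • (y - y') + (r / ‖y'‖ - r / ‖y‖) • y'‖
      ≤ ‖(1 - r / ‖y‖) • (y - y')‖ + ‖(r / ‖y'‖ - r / ‖y‖) • y'‖ := norm_add_le _ _
    _ = |1 - r / ‖y‖| * ‖y - y'‖ + |r / ‖y'‖ - r / ‖y‖| * ‖y'‖ := by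
        rw [norm_smul, norm_smul, Real.norm_eq_abs, Real.norm_eq_abs]
    _ ≤ 1 * ‖y - y'‖ + ‖y - y'‖ := add_le_add (mul_le_mul_of_nonneg_right h1 (norm_nonneg _)) h2
    _ ≤ 3 * ‖y - y'‖ := by nlinarith [norm_nonneg (y - y')]

theorem shr_norm (r : ℝ) (hr : 0 ≤ r) (y : V) : ‖shr r y‖ ≤ max 0 (‖y‖ - r) := by
  by_cases h : ‖y‖ ≤ r
  · rw [shr_zero r y h, norm_zero]; exact le_max_left _ _
  · have h' : r < ‖y‖ := not_le.1 h
    have p : 0 < ‖y‖ := lt_of_le_of_lt hr h'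
    have hy : y ≠ 0 := norm_pos_iff.1 p
    rw [shr_big r y h'.le hy, norm_smul, Real.norm_eq_abs, abs_of_nonneg (by
      have := (div_le_one p).2 h'.le; linarith)]
    have : (1 - r / ‖y‖) * ‖y‖ = ‖y‖ - r := by field_simp
    rw [this]; exact le_max_right _ _

theorem shr_pt (r : ℝ) (hr : 0 ≤ r) (y y' : V) : ‖shr r y - shr r y'‖ ≤ 3 * ‖y - y'‖ := by
  have hn := norm_nonneg (y - y')
  by_cases h : ‖y‖ ≤ r
  · rw [shr_zero r y h, zero_sub, norm_neg]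
    refine (shr_norm r hr y').trans (max_le (by linarith) ?_)
    have := norm_sub_norm_le y' y
    rw [norm_sub_rev] at this
    linarith
  · by_cases h' : ‖y'‖ ≤ r
    · rw [shr_zero r y' h', sub_zero]
      refine (shr_norm r hr y).trans (max_le (by linarith) ?_)
      have := norm_sub_norm_le y y'
      linarith
    · have h1 : r < ‖y‖ := not_le.1 h
      have h2 : r < ‖y'‖ := not_le.1 h'
      exact shr_pt_out r hr y y' h1.le h2.le (norm_pos_iff.1 (lt_of_le_of_lt hr h1))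
        (norm_pos_iff.1 (lt_of_le_of_lt hr h2))

theorem shr_lip (r r' : ℝ) (hr : 0 ≤ r) (hr' : 0 ≤ r') (y y' : V) :
    ‖shr r y - shr r' y'‖ ≤ 3 * ‖y - y'‖ + |r - r'| := by
  have e : shr r y - shr r' y' = (shr r y - shr r y') + (shr r y' - shr r' y') := by abel
  rw [e]
  exact (norm_add_le _ _).trans (add_le_add (shr_pt r hr y y') (shr_rad r r' hr hr' y'))

end Pool.Agent.Lib.MP_c2de4f_an
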