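import Pool.Agent.Lib.MP_c2de4f_an.Prod
import Pool.Agent.Lib.MP_c2de4f_an.HOM
import Pool.Agent.Lib.MP_c2de4f_an.SHR

set_option autoImplicit false

/-! # P2: the second particle -/

noncomputable section

open Metric Set
open scoped RealInnerProductSpace

namespace Pool.Agent.Lib.MP_c2de4f_an

variable {E U : Type*} [NormedAddCommGroup E] [InnerProductSpace ℝ E]
  [NormedAddCommGroup U] [InnerProductSpace ℝ U] {A : Type*} [Group A]
  {ρE : A →* (E ≃ₗᵢ[ℝ] E)} {ρU : A →* (U ≃ₗᵢ[ℝ] U)} {ec : Sph E}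

section norms

theorem p2_norm_fst_le (x : W2 E U) : ‖x.fst‖ ≤ ‖x‖ := by
  have h := W2.norm_sq x
  have h1 := norm_nonneg x
  have h2 := norm_nonneg x.fst
  nlinarith [sq_nonneg ‖x.snd‖]

theorem p2_norm_snd_le (x : W2 E U) : ‖x.snd‖ ≤ ‖x‖ := by
  have h := W2.norm_sq x
  have h1 := norm_nonneg x
  have h2 := norm_nonneg x.snd
  nlinarith [sq_nonneg ‖x.fst‖]

theorem p2_norm_le (x : W2 E U) : ‖x‖ ≤ ‖x.fst‖ + ‖x.snd‖ := by
  have h := W2.norm_sq x
  have h1 := norm_nonneg x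
  have h2 := norm_nonneg x.fst
  have h3 := norm_nonneg x.snd
  nlinarith [mul_nonneg h2 h3]

theorem p2_inner_le (ec : Sph E) (y : E) : |⟪(ec : E), y⟫| ≤ ‖y‖ := by
  have := abs_real_inner_le_norm (ec : E) y
  have h1 : ‖(ec : E)‖ = 1 := by simp
  rwa [h1, one_mul] at this

theorem p2_inner_self (ec : Sph E) : ⟪(ec : E), (ec : E)⟫ = 1 := by
  rw [real_inner_self_eq_norm_sq]
  have : ‖(ec : E)‖ = 1 := by simp
  rw [this]; norm_num

/-- Pythagoras for the three components. -/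
theorem p2_pyth (ec : Sph E) (x : W2 E U) :
    ‖x‖ ^ 2 = ⟪(ec : E), x.fst⟫ ^ 2 + ‖wpart ec x‖ ^ 2 + ‖x.snd‖ ^ 2 := by
  rw [W2.norm_sq]
  have h : ‖wpart ec x‖ ^ 2 = ‖x.fst‖ ^ 2 - ⟪(ec : E), x.fst⟫ ^ 2 := by
    unfold wpart
    rw [← real_inner_self_eq_norm_sq, inner_sub_left, inner_sub_right, inner_sub_right,
      inner_smul_left, inner_smul_right, inner_smul_left, inner_smul_right, p2_inner_self,
      real_inner_self_eq_norm_sq, real_inner_comm x.fst (ec : E)]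
    simp only [conj_trivial]
    ring
  rw [h]; ring

set_option linter.unusedSectionVars false in
theorem p2_decomp (ec : Sph E) (x : W2 E U) :
    x.fst = ⟪(ec : E), x.fst⟫ • (ec : E) + wpart ec x := by
  unfold wpart
  abel

theorem p2_tc (ec : Sph E) (x : Sph (W2 E U)) :
    tc (eW ec) x = ⟪(ec : E), (x : W2 E U).fst⟫ := by
  show ⟪((eW ec : Sph (W2 E U)) : W2 E U), (x : W2 E U)⟫ = _
  rw [W2.inner_def]
  show ⟪(ec : E), (x : W2 E U).fst⟫ + ⟪(0 : U), (x : W2 E U).snd⟫ = _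
  rw [inner_zero_left, add_zero]

end norms

/-- the second shear -/
def p2map (ec : Sph E) (v : U → E) (L eps : ℝ) (x : W2 E U) : W2 E U :=
  WithLp.toLp 2 (x.fst + L • shr (eps * |⟪(ec : E), x.fst⟫|) (v x.snd), x.snd)

set_option linter.unusedSectionVars false in
theorem p2map_fst (v : U → E) (L eps : ℝ) (x : W2 E U) :
    (p2map ec v L eps x).fst = x.fst + L • shr (eps * |⟪(ec : E), x.fst⟫|) (v x.snd) := rfl

set_option linter.unusedSectionVars false in
theorem p2map_snd (v : U → E) (L eps : ℝ) (x : W2 E U) :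
    (p2map ec v L eps x).snd = x.snd := rfl

theorem p2_shr_perp {v : U → E} (hv : VData ρE ρU ec v) (r : ℝ) (u : U) :
    ⟪(ec : E), shr r (v u)⟫ = 0 := by
  unfold shr
  rw [inner_smul_right, hv.perp, mul_zero]

theorem p2map_inner {v : U → E} (hv : VData ρE ρU ec v) (L eps : ℝ) (x : W2 E U) :
    ⟪(ec : E), (p2map ec v L eps x).fst⟫ = ⟪(ec : E), x.fst⟫ := by
  rw [p2map_fst, inner_add_right, inner_smul_right, p2_shr_perp hv, mul_zero, add_zero]

theorem p2map_inv {v : U → E} (hv : VData ρE ρU ec v) (L eps : ℝ) (x : W2 E U) :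
    p2map ec v (-L) eps (p2map ec v L eps x) = x := by
  apply W2.ext'
  · rw [p2map_fst, p2map_inner hv, p2map_snd, p2map_fst, neg_smul]
    abel
  · rw [p2map_snd, p2map_snd]

theorem p2map_hom {v : U → E} (hv : VData ρE ρU ec v) (L eps : ℝ) (c : ℝ) (hc : 0 < c)
    (x : W2 E U) : p2map ec v L eps (c • x) = c • p2map ec v L eps x := by
  apply W2.ext'
  · rw [p2map_fst]
    show c • x.fst + L • shr (eps * |⟪(ec : E), c • x.fst⟫|) (v (c • x.snd)) =
      c • (p2map ec v L eps x).fst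
    rw [p2map_fst, inner_smul_right, abs_mul, abs_of_pos hc, hv.hom c hc,
      show eps * (c * |⟪(ec : E), x.fst⟫|) = c * (eps * |⟪(ec : E), x.fst⟫|) by ring,
      shr_hom c hc, smul_add, smul_comm]
  · rfl

theorem p2map_lip {v : U → E} {K : ℝ} (hK : 0 ≤ K)
    (hl : ∀ x y, ‖v x - v y‖ ≤ K * ‖x - y‖) (L : ℝ) {eps : ℝ} (he : 0 ≤ eps) (x y : W2 E U) :
    ‖p2map ec v L eps x - p2map ec v L eps y‖ ≤ (2 + |L| * (3 * K + eps)) * ‖x - y‖ := by
  refine (p2_norm_le _).trans ?_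
  have h1 : (p2map ec v L eps x - p2map ec v L eps y).fst = (x - y).fst +
      L • (shr (eps * |⟪(ec : E), x.fst⟫|) (v x.snd) -
        shr (eps * |⟪(ec : E), y.fst⟫|) (v y.snd)) := by
    show (p2map ec v L eps x).fst - (p2map ec v L eps y).fst = (x.fst - y.fst) + _
    rw [p2map_fst, p2map_fst, smul_sub]
    abel
  have h2 : (p2map ec v L eps x - p2map ec v L eps y).snd = (x - y).snd := rfl
  rw [h1, h2]
  have h3 := shr_lip (eps * |⟪(ec : E), x.fst⟫|) (eps * |⟪(ec : E), y.fst⟫|)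
    (by positivity) (by positivity) (v x.snd) (v y.snd)
  have h4 : abs (eps * |⟪(ec : E), x.fst⟫| - eps * |⟪(ec : E), y.fst⟫|) ≤ eps * ‖x - y‖ := by
    rw [← mul_sub, abs_mul, abs_of_nonneg he]
    refine mul_le_mul_of_nonneg_left ?_ he
    refine (abs_abs_sub_abs_le_abs_sub _ _).trans ?_
    rw [← inner_sub_right]
    exact (p2_inner_le ec _).trans (p2_norm_fst_le (x - y))
  have h5 : ‖v x.snd - v y.snd‖ ≤ K * ‖x - y‖ :=
    (hl _ _).trans (mul_le_mul_of_nonneg_left (p2_norm_snd_le (x - y)) hK)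
  have h6 : ‖L • (shr (eps * |⟪(ec : E), x.fst⟫|) (v x.snd) -
      shr (eps * |⟪(ec : E), y.fst⟫|) (v y.snd))‖ ≤ |L| * ((3 * K + eps) * ‖x - y‖) := by
    rw [norm_smul, Real.norm_eq_abs]
    refine mul_le_mul_of_nonneg_left ?_ (abs_nonneg L)
    refine h3.trans ?_
    nlinarith
  have h7 := norm_add_le (x - y).fst (L • (shr (eps * |⟪(ec : E), x.fst⟫|) (v x.snd) -
      shr (eps * |⟪(ec : E), y.fst⟫|) (v y.snd)))
  have h8 := p2_norm_fst_le (x - y)
  have h9 := p2_norm_snd_le (x - y)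
  nlinarith

theorem p2map_eqv {v : U → E} (hv : VData ρE ρU ec v) (L eps : ℝ) (a : A)
    (ha : a ∈ stab ρE ec) (x : W2 E U) :
    p2map ec v L eps (prodRep ρE ρU a x) = prodRep ρE ρU a (p2map ec v L eps x) := by
  have hin : ⟪(ec : E), ρE a x.fst⟫ = ⟪(ec : E), x.fst⟫ := by
    have h1 : ρE a (ec : E) = ec := ha
    calc ⟪(ec : E), ρE a x.fst⟫ = ⟪ρE a (ec : E), ρE a x.fst⟫ := by rw [h1]
      _ = ⟪(ec : E), x.fst⟫ := (ρE a).inner_map_map _ _
  apply W2.ext'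
  · show ρE a x.fst + L • shr (eps * |⟪(ec : E), ρE a x.fst⟫|) (v (ρU a x.snd)) =
      ρE a (x.fst + L • shr (eps * |⟪(ec : E), x.fst⟫|) (v x.snd))
    rw [hin, hv.eqv a ha, shr_map, map_add, map_smul]
  · rfl

theorem p2map_id {v : U → E} (L : ℝ) {eps : ℝ} (x : W2 E U)
    (h : ‖v x.snd‖ ≤ eps * |⟪(ec : E), x.fst⟫|) : p2map ec v L eps x = x := by
  apply W2.ext'
  · rw [p2map_fst, shr_zero _ _ h, smul_zero, add_zero]
  · rfl

/-- the algebraic core of the disjointness -/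
theorem p2map_sep {v : U → E} (hv : VData ρE ρU ec v) {c : ℝ} (hc : 0 < c)
    (hsep : ∀ a, a ∉ stab ρE ec → ∀ (t t' : ℝ) (u : U),
      c * (|t| + |t'| + ‖u‖) ≤ ‖ρE a (t • (ec : E) + v u) - (t' • (ec : E) + v (ρU a u))‖)
    {L eps δ : ℝ} (hL : 0 < L) (he : 0 ≤ eps) (hcL : c * L = 8) (hLe : L * eps ≤ c / 4)
    (hδ : δ ≤ c / 4) (a : A) (ha : a ∉ stab ρE ec) (x y : W2 E U)
    (hx : ‖wpart ec x‖ ≤ 2 * ‖x.snd‖ + δ * |⟪(ec : E), x.fst⟫|)
    (hy : ‖wpart ec y‖ ≤ 2 * ‖y.snd‖ + δ * |⟪(ec : E), y.fst⟫|)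
    (heq : prodRep ρE ρU a (p2map ec v L eps x) = p2map ec v L eps y) : x = 0 := by
  have e1 : ρU a x.snd = y.snd := congrArg (fun z : W2 E U => z.snd) heq
  have e2 : ρE a (x.fst + L • shr (eps * |⟪(ec : E), x.fst⟫|) (v x.snd)) =
      y.fst + L • shr (eps * |⟪(ec : E), y.fst⟫|) (v y.snd) :=
    congrArg (fun z : W2 E U => z.fst) heq
  set t := ⟪(ec : E), x.fst⟫ with ht
  set t' := ⟪(ec : E), y.fst⟫ with ht'
  set r := shr (eps * |t|) (v x.snd) - v x.snd with hr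
  set r' := shr (eps * |t'|) (v y.snd) - v y.snd with hr'
  have hrn : ‖r‖ ≤ eps * |t| := shr_sub _ (by positivity) _
  have hrn' : ‖r'‖ ≤ eps * |t'| := shr_sub _ (by positivity) _
  have hxd : x.fst = t • (ec : E) + wpart ec x := p2_decomp ec x
  have hyd : y.fst = t' • (ec : E) + wpart ec y := p2_decomp ec y
  have hs1 : shr (eps * |t|) (v x.snd) = v x.snd + r := by rw [hr]; abel
  have hs2 : shr (eps * |t'|) (v y.snd) = v y.snd + r' := by rw [hr']; abel
  have h1 := hsep a ha t t' (L • x.snd)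
  rw [map_smul, hv.hom L hL, hv.hom L hL, e1] at h1
  have h2 : ρE a (t • (ec : E) + L • v x.snd) - (t' • (ec : E) + L • v y.snd) =
      wpart ec y - ρE a (wpart ec x) + L • r' - L • ρE a r := by
    rw [hs1, hs2, hxd, hyd] at e2
    have key : (ρE a (t • (ec : E) + L • v x.snd) - (t' • (ec : E) + L • v y.snd)) -
        (wpart ec y - ρE a (wpart ec x) + L • r' - L • ρE a r) =
        ρE a (t • (ec : E) + wpart ec x + L • (v x.snd + r)) -
          (t' • (ec : E) + wpart ec y + L • (v y.snd + r')) := by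
      simp only [map_add, map_smul, smul_add]
      abel
    rw [← sub_eq_zero, key, e2, sub_self]
  rw [h2] at h1
  have h3 : ‖wpart ec y - ρE a (wpart ec x) + L • r' - L • ρE a r‖ ≤
      ‖wpart ec y‖ + ‖wpart ec x‖ + L * ‖r'‖ + L * ‖r‖ := by
    refine (norm_sub_le _ _).trans ?_
    refine add_le_add ((norm_add_le _ _).trans (add_le_add ((norm_sub_le _ _).trans ?_) ?_)) ?_
    · rw [LinearIsometryEquiv.norm_map]
    · rw [norm_smul, Real.norm_eq_abs, abs_of_pos hL]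
    · rw [norm_smul, Real.norm_eq_abs, abs_of_pos hL, LinearIsometryEquiv.norm_map]
  have hun : ‖y.snd‖ = ‖x.snd‖ := by rw [← e1, LinearIsometryEquiv.norm_map]
  rw [norm_smul, Real.norm_eq_abs, abs_of_pos hL] at h1
  rw [hun] at hy
  have h4 : L * ‖r‖ ≤ c / 4 * |t| := by
    calc L * ‖r‖ ≤ L * (eps * |t|) := mul_le_mul_of_nonneg_left hrn hL.le
      _ = (L * eps) * |t| := by ring
      _ ≤ c / 4 * |t| := mul_le_mul_of_nonneg_right hLe (abs_nonneg _)
  have h5 : L * ‖r'‖ ≤ c / 4 * |t'| := by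
    calc L * ‖r'‖ ≤ L * (eps * |t'|) := mul_le_mul_of_nonneg_left hrn' hL.le
      _ = (L * eps) * |t'| := by ring
      _ ≤ c / 4 * |t'| := mul_le_mul_of_nonneg_right hLe (abs_nonneg _)
  have h6 : δ * |t| ≤ c / 4 * |t| := mul_le_mul_of_nonneg_right hδ (abs_nonneg _)
  have h7 : δ * |t'| ≤ c / 4 * |t'| := mul_le_mul_of_nonneg_right hδ (abs_nonneg _)
  have h8 : c * (|t| + |t'| + L * ‖x.snd‖) = c * |t| + c * |t'| + 8 * ‖x.snd‖ := by
    rw [← hcL]; ring
  have ht0 := abs_nonneg t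
  have ht0' := abs_nonneg t'
  have hu0 := norm_nonneg x.snd
  have h9 : c / 2 * |t| + c / 2 * |t'| + 4 * ‖x.snd‖ ≤ 0 := by
    rw [h8] at h1
    linarith
  have h10 : 0 ≤ c / 2 * |t| := by positivity
  have h11 : 0 ≤ c / 2 * |t'| := by positivity
  have hu : ‖x.snd‖ = 0 := by linarith
  have ht00 : |t| = 0 := by
    have : c / 2 * |t| = 0 := by linarith
    rcases mul_eq_zero.1 this with h | h
    · linarith
    · exact h
  have hw : ‖wpart ec x‖ ≤ 0 := by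
    rw [hu, ht00] at hx
    linarith
  have hp := p2_pyth ec x
  rw [← ht] at hp
  have hw0 : ‖wpart ec x‖ = 0 := le_antisymm hw (norm_nonneg _)
  rw [abs_eq_zero.1 ht00, hw0, hu] at hp
  have : ‖x‖ = 0 := by
    have : ‖x‖ ^ 2 = 0 := by rw [hp]; ring
    exact pow_eq_zero_iff (two_ne_zero) |>.1 this
  exact norm_eq_zero.1 this

/-- P2: the second particle. -/
theorem particle_two (v : U → E) (hv : VData ρE ρU ec v) :
    ∃ τ : ℝ, 0 < τ ∧ τ < 1 ∧ ∃ Ψ : Sph (W2 E U) ≃ₜ Sph (W2 E U), BiLip Ψ ∧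
      (∀ x, τ ≤ |tc (eW ec) x| → Ψ x = x) ∧
      (∀ a ∈ stab ρE ec, ∀ x, Ψ (rS (prodRep ρE ρU a) x) = rS (prodRep ρE ρU a) (Ψ x)) ∧
      (∀ t0, τ ≤ t0 → t0 < 1 → ∀ a, a ∉ stab ρE ec → ∀ x y : Sph (W2 E U),
        (‖wpart ec (x : W2 E U)‖ ≤ 2 * ‖(x : W2 E U).snd‖ ∨ t0 ≤ |tc (eW ec) x|) →
        (‖wpart ec (y : W2 E U)‖ ≤ 2 * ‖(y : W2 E U).snd‖ ∨ t0 ≤ |tc (eW ec) y|) →
        rS (prodRep ρE ρU a) (Ψ x) ≠ Ψ y) := by
  obtain ⟨K0, hK0⟩ := hv.lip
  obtain ⟨c, hc, hsep⟩ := hv.sep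
  set K := |K0| with hKdef
  have hK : 0 ≤ K := abs_nonneg _
  have hl : ∀ x y, ‖v x - v y‖ ≤ K * ‖x - y‖ := fun x y =>
    (hK0 x y).trans (mul_le_mul_of_nonneg_right (le_abs_self _) (norm_nonneg _))
  have hv0 : v 0 = 0 := by
    have h := hv.hom 2 (by norm_num) 0
    rw [smul_zero] at h
    have h2 : (2 : ℝ) • v 0 = v 0 + v 0 := two_smul ℝ _
    rw [h2] at h
    exact (left_eq_add.1 h)
  have hvn : ∀ u, ‖v u‖ ≤ K * ‖u‖ := by
    intro u
    have := hl u 0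
    rwa [hv0, sub_zero, sub_zero] at this
  set L : ℝ := 8 / c with hLdef
  have hL : 0 < L := by positivity
  have hcL : c * L = 8 := by rw [hLdef]; field_simp
  set eps : ℝ := c / (4 * L) with hepsdef
  have heps : 0 < eps := by positivity
  have hLe : L * eps ≤ c / 4 := by
    rw [hepsdef]; apply le_of_eq; field_simp
  set δ : ℝ := min (eps / (K + 1)) (c / 4) with hδdef
  have hδ : 0 < δ := lt_min (by positivity) (by positivity)
  have hδc : δ ≤ c / 4 := min_le_right _ _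
  have hδK : K * δ ≤ eps := by
    have h1 : δ ≤ eps / (K + 1) := min_le_left _ _
    have h2 : δ * (K + 1) ≤ eps := by
      rwa [le_div_iff₀ (by positivity)] at h1
    nlinarith
  set τ : ℝ := (Real.sqrt (1 + δ ^ 2))⁻¹ with hτdef
  have hsq : 1 < Real.sqrt (1 + δ ^ 2) := by
    rw [Real.lt_sqrt (by norm_num)]
    have : 0 < δ ^ 2 := by positivity
    linarith
  have hτ0 : 0 < τ := by positivity
  have hτ1 : τ < 1 := inv_lt_one_of_one_lt₀ hsq
  have hτ2 : τ ^ 2 * (1 + δ ^ 2) = 1 := by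
    rw [hτdef, inv_pow, Real.sq_sqrt (by positivity)]
    field_simp
  -- near the poles
  have hpole : ∀ x : Sph (W2 E U), τ ≤ |⟪(ec : E), (x : W2 E U).fst⟫| →
      ‖(x : W2 E U).snd‖ ≤ δ * |⟪(ec : E), (x : W2 E U).fst⟫| ∧
      ‖wpart ec (x : W2 E U)‖ ≤ δ * |⟪(ec : E), (x : W2 E U).fst⟫| := by
    intro x hx
    have hp := p2_pyth ec (x : W2 E U)
    have hx1 : ‖(x : W2 E U)‖ = 1 := by simp
    rw [hx1] at hp
    set t := ⟪(ec : E), (x : W2 E U).fst⟫ with ht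
    have ht2 : τ ^ 2 ≤ t ^ 2 := by
      rw [← sq_abs t]
      exact pow_le_pow_left₀ hτ0.le hx 2
    have h1 : 1 ≤ t ^ 2 * (1 + δ ^ 2) := by
      have h11 : τ ^ 2 * (1 + δ ^ 2) ≤ t ^ 2 * (1 + δ ^ 2) :=
        mul_le_mul_of_nonneg_right ht2 (by positivity)
      linarith
    have h2 : ‖(x : W2 E U).snd‖ ^ 2 ≤ (δ * |t|) ^ 2 := by
      rw [mul_pow, sq_abs]
      nlinarith [sq_nonneg ‖wpart ec (x : W2 E U)‖]
    have h3 : ‖wpart ec (x : W2 E U)‖ ^ 2 ≤ (δ * |t|) ^ 2 := by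
      rw [mul_pow, sq_abs]
      nlinarith [sq_nonneg ‖(x : W2 E U).snd‖]
    exact ⟨(pow_le_pow_iff_left₀ (norm_nonneg _) (by positivity) two_ne_zero).1 h2,
      (pow_le_pow_iff_left₀ (norm_nonneg _) (by positivity) two_ne_zero).1 h3⟩
  obtain ⟨F, hFL, hF⟩ := proj_homeo (p2map ec v L eps) (p2map ec v (-L) eps)
    (2 + |L| * (3 * K + eps)) (p2map_hom hv L eps) (p2map_inv hv L eps)
    (by
      intro x
      have := p2map_inv hv (-L) eps x
      rwa [neg_neg] at this)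
    (p2map_lip hK hl L heps.le)
    (by
      intro x y
      have := p2map_lip (ec := ec) hK hl (-L) heps.le x y
      rwa [abs_neg] at this)
  refine ⟨τ, hτ0, hτ1, F, hFL, ?_, ?_, ?_⟩
  · intro x hx
    rw [p2_tc] at hx
    obtain ⟨h1, -⟩ := hpole x hx
    have h2 : p2map ec v L eps (x : W2 E U) = x := by
      apply p2map_id
      refine (hvn _).trans ?_
      calc K * ‖(x : W2 E U).snd‖ ≤ K * (δ * |⟪(ec : E), (x : W2 E U).fst⟫|) :=
            mul_le_mul_of_nonneg_left h1 hK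
        _ = (K * δ) * |⟪(ec : E), (x : W2 E U).fst⟫| := by ring
        _ ≤ eps * |⟪(ec : E), (x : W2 E U).fst⟫| :=
            mul_le_mul_of_nonneg_right hδK (abs_nonneg _)
    apply Subtype.ext
    rw [hF, h2]
    have hx1 : ‖(x : W2 E U)‖ = 1 := by simp
    rw [hx1, inv_one, one_smul]
  · intro a ha x
    apply Subtype.ext
    rw [hF]
    show ‖p2map ec v L eps (prodRep ρE ρU a (x : W2 E U))‖⁻¹ •
      p2map ec v L eps (prodRep ρE ρU a (x : W2 E U)) = prodRep ρE ρU a (F x : W2 E U)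
    rw [p2map_eqv hv L eps a ha, hF, map_smul, LinearIsometryEquiv.norm_map]
  · intro t0 ht0 ht1 a ha x y hx hy heq
    have hcone : ∀ z : Sph (W2 E U),
        (‖wpart ec (z : W2 E U)‖ ≤ 2 * ‖(z : W2 E U).snd‖ ∨ t0 ≤ |tc (eW ec) z|) →
        ‖wpart ec (z : W2 E U)‖ ≤
          2 * ‖(z : W2 E U).snd‖ + δ * |⟪(ec : E), (z : W2 E U).fst⟫| := by
      intro z hz
      rcases hz with h | h
      · have : 0 ≤ δ * |⟪(ec : E), (z : W2 E U).fst⟫| := by positivity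
        linarith
      · rw [p2_tc] at h
        obtain ⟨-, h2⟩ := hpole z (ht0.trans h)
        have := norm_nonneg (z : W2 E U).snd
        linarith
    have hne : ∀ z : Sph (W2 E U), p2map ec v L eps (z : W2 E U) ≠ 0 := by
      intro z hz
      have h1 := p2map_inv hv L eps (z : W2 E U)
      rw [hz] at h1
      have h2 : p2map ec v (-L) eps (0 : W2 E U) = 0 := by
        have h3 := p2map_hom hv (-L) eps 2 (by norm_num) 0
        rw [smul_zero, two_smul] at h3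
        exact left_eq_add.1 h3
      rw [h2] at h1
      have h4 : ‖(z : W2 E U)‖ = 1 := by simp
      rw [← h1, norm_zero] at h4
      norm_num at h4
    set α := ‖p2map ec v L eps (x : W2 E U)‖⁻¹ with hα
    set β := ‖p2map ec v L eps (y : W2 E U)‖⁻¹ with hβ
    have hα0 : 0 < α := inv_pos.2 (norm_pos_iff.2 (hne x))
    have hβ0 : 0 < β := inv_pos.2 (norm_pos_iff.2 (hne y))
    have heq' : prodRep ρE ρU a (F x : W2 E U) = (F y : W2 E U) := congrArg Subtype.val heq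
    rw [hF, hF, ← hα, ← hβ, ← p2map_hom hv L eps α hα0, ← p2map_hom hv L eps β hβ0] at heq'
    have hsc : ∀ (γ : ℝ), 0 < γ → ∀ z : W2 E U,
        ‖wpart ec z‖ ≤ 2 * ‖z.snd‖ + δ * |⟪(ec : E), z.fst⟫| →
        ‖wpart ec (γ • z)‖ ≤ 2 * ‖(γ • z).snd‖ + δ * |⟪(ec : E), (γ • z).fst⟫| := by
      intro γ hγ z hz
      have e1 : wpart ec (γ • z) = γ • wpart ec z := by
        show γ • z.fst - ⟪(ec : E), γ • z.fst⟫ • (ec : E) = γ • wpart ec z
        unfold wpart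
        rw [inner_smul_right, smul_sub, mul_smul]
      have e2 : (γ • z).snd = γ • z.snd := rfl
      have e3 : (γ • z).fst = γ • z.fst := rfl
      rw [e1, e2, e3, norm_smul, norm_smul, inner_smul_right, abs_mul, Real.norm_eq_abs,
        abs_of_pos hγ]
      calc γ * ‖wpart ec z‖ ≤ γ * (2 * ‖z.snd‖ + δ * |⟪(ec : E), z.fst⟫|) :=
            mul_le_mul_of_nonneg_left hz hγ.le
        _ = _ := by ring
    have h0 := p2map_sep hv hc hsep hL heps.le hcL hLe hδc a ha (α • (x : W2 E U))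
      (β • (y : W2 E U)) (hsc α hα0 _ (hcone x hx)) (hsc β hβ0 _ (hcone y hy)) heq'
    have hx1 : ‖(x : W2 E U)‖ = 1 := by simp
    have h5 : ‖α • (x : W2 E U)‖ = 0 := by rw [h0, norm_zero]
    rw [norm_smul, hx1, mul_one, Real.norm_eq_abs, abs_of_pos hα0] at h5
    exact hα0.ne' h5

end Pool.Agent.Lib.MP_c2de4f_an
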