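import Pool.Agent.Lib.MP_c2de4f_an.TS

set_option autoImplicit false

/-! # SLIDE: translations along the axis by a variable amount -/

noncomputable section

open Metric Set
open scoped RealInnerProductSpace

namespace Pool.Agent.Lib.MP_c2de4f_an

variable {V : Type*} [NormedAddCommGroup V] [InnerProductSpace ℝ V]

theorem slide_lip_aux (e : Sph V) (σ : Sph V → ℝ) (R C : ℝ) (hσ : ∀ x, |σ x| ≤ R)
    (hC : ∀ x y, |σ x - σ y| * ‖(x : V) - tc e x • (e : V)‖ ≤ C * dist x y) (x y : Sph V) :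
    dist (Ts e (σ x) x) (Ts e (σ y) y) ≤
      (Real.exp R + 2 * Real.exp (2 * R) * |C|) * dist x y := by
  have h1 := dist_triangle (Ts e (σ x) x) (Ts e (σ x) y) (Ts e (σ y) y)
  have h2 := Ts_lip e (σ x) x y
  have h3 := dist_Ts_Ts e (σ x) (σ y) R (hσ x) (hσ y) y
  have h4 := hC y x
  rw [abs_sub_comm, dist_comm] at h4
  have h5 : Real.exp |σ x| ≤ Real.exp R := Real.exp_le_exp.2 (hσ x)
  have h6 : C * dist x y ≤ |C| * dist x y := mul_le_mul_of_nonneg_right (le_abs_self C) dist_nonneg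
  have h7 : Real.exp |σ x| * dist x y ≤ Real.exp R * dist x y :=
    mul_le_mul_of_nonneg_right h5 dist_nonneg
  have h8 : 2 * Real.exp (2 * R) * (|σ x - σ y| * ‖(y : V) - tc e y • (e : V)‖) ≤
      2 * Real.exp (2 * R) * (|C| * dist x y) :=
    mul_le_mul_of_nonneg_left (h4.trans h6) (by positivity)
  have h9 : 2 * Real.exp (2 * R) * |σ x - σ y| * ‖(y : V) - tc e y • (e : V)‖ =
      2 * Real.exp (2 * R) * (|σ x - σ y| * ‖(y : V) - tc e y • (e : V)‖) := by ring
  rw [h9] at h3
  have h10 : (Real.exp R + 2 * Real.exp (2 * R) * |C|) * dist x y =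
      Real.exp R * dist x y + 2 * Real.exp (2 * R) * (|C| * dist x y) := by ring
  rw [h10]
  linarith

/-- SLIDE: translations along the axis by a variable amount. -/
theorem slide_exists (e : Sph V) (σ : Sph V → ℝ) (R C : ℝ) (hσ : ∀ x, |σ x| ≤ R)
    (hC : ∀ x y, |σ x - σ y| * ‖(x : V) - tc e x • (e : V)‖ ≤ C * dist x y)
    (hinv : ∀ x s, σ (Ts e s x) = σ x) :
    ∃ g : Sph V ≃ₜ Sph V, BiLip g ∧ (∀ x, g x = Ts e (σ x) x) := by
  have hσ' : ∀ x, |(fun x => -σ x) x| ≤ R := fun x => by simpa using hσ x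
  have hC' : ∀ x y, |(fun x => -σ x) x - (fun x => -σ x) y| * ‖(x : V) - tc e x • (e : V)‖
      ≤ C * dist x y := fun x y => by
    have h : |(fun x => -σ x) x - (fun x => -σ x) y| = |σ x - σ y| := by
      show |-σ x - -σ y| = |σ x - σ y|
      rw [neg_sub_neg, abs_sub_comm]
    rw [h]
    exact hC x y
  have L1 := slide_lip_aux e σ R C hσ hC
  have L2 := slide_lip_aux e (fun x => -σ x) R C hσ' hC'
  have hL0 : 0 ≤ Real.exp R + 2 * Real.exp (2 * R) * |C| := by positivity
  have cont : ∀ f : Sph V → Sph V, (∀ x y, dist (f x) (f y) ≤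
      (Real.exp R + 2 * Real.exp (2 * R) * |C|) * dist x y) → Continuous f := by
    intro f hf
    apply LipschitzWith.continuous (K := ⟨_, hL0⟩)
    exact LipschitzWith.of_dist_le_mul hf
  have left : ∀ x, Ts e (-σ (Ts e (σ x) x)) (Ts e (σ x) x) = x := by
    intro x
    rw [hinv, Ts_add, neg_add_cancel, Ts_zero]
  have right : ∀ x, Ts e (σ (Ts e (-σ x) x)) (Ts e (-σ x) x) = x := by
    intro x
    rw [hinv, Ts_add, add_neg_cancel, Ts_zero]
  let g : Sph V ≃ₜ Sph V :=
    { toFun := fun x => Ts e (σ x) x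
      invFun := fun x => Ts e (-σ x) x
      left_inv := left
      right_inv := right
      continuous_toFun := cont _ L1
      continuous_invFun := cont _ L2 }
  refine ⟨g, ⟨_, L1, ?_⟩, fun x => rfl⟩
  intro x y
  have h := L2 (Ts e (σ x) x) (Ts e (σ y) y)
  simp only [left] at h
  exact h

end Pool.Agent.Lib.MP_c2de4f_an
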