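import Pool.Agent.Lib.MP_c2de4f_an.Prod
import Pool.Agent.Lib.MP_c2de4f_an.SLIDE

set_option autoImplicit false

/-! # P3: the slide between the two cones -/

noncomputable section

open Metric Set
open scoped RealInnerProductSpace

namespace Pool.Agent.Lib.MP_c2de4f_an

variable {E U : Type*} [NormedAddCommGroup E] [InnerProductSpace ℝ E]
  [NormedAddCommGroup U] [InnerProductSpace ℝ U] {A : Type*} [Group A]
  {ρE : A →* (E ≃ₗᵢ[ℝ] E)} {ρU : A →* (U ≃ₗᵢ[ℝ] U)} {ec : Sph E}

set_option linter.unusedSectionVars false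

namespace P3aux

/-- the cutoff -/
def cut (p q : ℝ) : ℝ := max 0 (min 1 ((2 * p - q) / (p + q)))

theorem cut_nonneg (p q : ℝ) : 0 ≤ cut p q := le_max_left _ _

theorem cut_le_one (p q : ℝ) : cut p q ≤ 1 := max_le zero_le_one (min_le_left _ _)

theorem cut_mul (c p q : ℝ) (hc : 0 < c) : cut (c * p) (c * q) = cut p q := by
  unfold cut
  rw [show 2 * (c * p) - c * q = c * (2 * p - q) by ring, ← mul_add, mul_div_mul_left _ _ hc.ne']

theorem cut_zero (p q : ℝ) (hp : 0 ≤ p) (h : 2 * p < q) : cut p q = 0 := by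
  unfold cut
  have : (2 * p - q) / (p + q) ≤ 0 := div_nonpos_of_nonpos_of_nonneg (by linarith) (by linarith)
  exact max_eq_left ((min_le_right _ _).trans this)

theorem cut_one (p q : ℝ) (hq : 0 ≤ q) (h : 2 * q < p) : cut p q = 1 := by
  unfold cut
  have : 1 ≤ (2 * p - q) / (p + q) := by
    rw [one_le_div (by linarith)]; linarith
  rw [min_eq_left this]; exact max_eq_right zero_le_one

theorem cut_lip (p q p' q' : ℝ) (hp : 0 ≤ p) (hq : 0 ≤ q) (hp' : 0 ≤ p') (hq' : 0 ≤ q') :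
    |cut p q - cut p' q'| * (p + q) ≤ 3 * (|p - p'| + |q - q'|) := by
  have a1 := abs_nonneg (p - p')
  have a2 := abs_nonneg (q - q')
  rcases (add_nonneg hp hq).eq_or_lt with h | h
  · rw [← h, mul_zero]; positivity
  · rcases (add_nonneg hp' hq').eq_or_lt with h' | h'
    · have e1 : p' = 0 := by linarith
      have e2 : q' = 0 := by linarith
      have b1 : |cut p q - cut p' q'| ≤ 1 := by
        rw [abs_le]
        have := cut_nonneg p q
        have := cut_le_one p q
        have := cut_nonneg p' q'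
        have := cut_le_one p' q'
        constructor <;> linarith
      calc |cut p q - cut p' q'| * (p + q) ≤ 1 * (p + q) := mul_le_mul_of_nonneg_right b1 h.le
        _ = |p - p'| + |q - q'| := by
            rw [e1, e2, sub_zero, sub_zero, abs_of_nonneg hp, abs_of_nonneg hq, one_mul]
        _ ≤ 3 * (|p - p'| + |q - q'|) := by linarith
    · have b1 : |cut p q - cut p' q'| ≤ |(2 * p - q) / (p + q) - (2 * p' - q') / (p' + q')| := by
        unfold cut
        have h1 := abs_max_sub_max_le_max 0 (min 1 ((2 * p - q) / (p + q))) 0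
          (min 1 ((2 * p' - q') / (p' + q')))
        have h2 := abs_min_sub_min_le_max 1 ((2 * p - q) / (p + q)) 1 ((2 * p' - q') / (p' + q'))
        simp only [sub_self, abs_zero] at h1 h2
        exact (h1.trans (le_of_eq (max_eq_right (abs_nonneg _)))).trans
          (h2.trans (le_of_eq (max_eq_right (abs_nonneg _))))
      have b2 : (2 * p - q) / (p + q) - (2 * p' - q') / (p' + q') =
          3 * ((p - p') * q' + (q' - q) * p') / ((p + q) * (p' + q')) := by
        field_simp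
        ring
      have b3 : |(p - p') * q' + (q' - q) * p'| ≤ (|p - p'| + |q - q'|) * (p' + q') := by
        calc |(p - p') * q' + (q' - q) * p'| ≤ |(p - p') * q'| + |(q' - q) * p'| := abs_add_le _ _
          _ = |p - p'| * q' + |q - q'| * p' := by
              rw [abs_mul, abs_mul, abs_of_nonneg hq', abs_of_nonneg hp', abs_sub_comm q' q]
          _ ≤ (|p - p'| + |q - q'|) * (p' + q') := by
              nlinarith [mul_nonneg a1 hp', mul_nonneg a2 hq']
      calc |cut p q - cut p' q'| * (p + q)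
          ≤ |(2 * p - q) / (p + q) - (2 * p' - q') / (p' + q')| * (p + q) :=
            mul_le_mul_of_nonneg_right b1 h.le
        _ = 3 * |(p - p') * q' + (q' - q) * p'| / (p' + q') := by
            rw [b2, abs_div, abs_mul, abs_of_pos (mul_pos h h'), abs_of_pos (by norm_num : (0:ℝ) < 3)]
            field_simp
        _ ≤ 3 * ((|p - p'| + |q - q'|) * (p' + q')) / (p' + q') := by
            gcongr
        _ = 3 * (|p - p'| + |q - q'|) := by
            field_simp

theorem wpart_smul (c : ℝ) (x : W2 E U) : wpart ec (c • x) = c • wpart ec x := by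
  unfold wpart
  rw [WithLp.smul_fst, inner_smul_right, smul_sub, smul_smul]

theorem wpart_add_e (x : W2 E U) (c : ℝ) : wpart ec (x + c • ((eW ec : Sph (W2 E U)) : W2 E U)) = wpart ec x := by
  unfold wpart
  have h1 : ⟪(ec : E), (ec : E)⟫ = 1 := by
    rw [real_inner_self_eq_norm_sq]; simp
  have e : (x + c • ((eW ec : Sph (W2 E U)) : W2 E U)).fst = x.fst + c • (ec : E) := rfl
  rw [e, inner_add_right, inner_smul_right, h1, mul_one, add_smul]
  abel

theorem snd_add_e (x : W2 E U) (c : ℝ) : (x + c • ((eW ec : Sph (W2 E U)) : W2 E U)).snd = x.snd := by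
  show x.snd + c • (0 : U) = x.snd
  rw [smul_zero, add_zero]

theorem wpart_lip (x y : W2 E U) : ‖wpart ec x - wpart ec y‖ ≤ ‖x - y‖ := by
  have h1 : ⟪(ec : E), (ec : E)⟫ = 1 := by
    rw [real_inner_self_eq_norm_sq]; simp
  have e : wpart ec x - wpart ec y = (x - y).fst - ⟪(ec : E), (x - y).fst⟫ • (ec : E) := by
    unfold wpart
    rw [WithLp.sub_fst, inner_sub_right, sub_smul]; abel
  rw [e]
  have h2 : ‖(x - y).fst - ⟪(ec : E), (x - y).fst⟫ • (ec : E)‖ ^ 2 + ⟪(ec : E), (x - y).fst⟫ ^ 2 =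
      ‖(x - y).fst‖ ^ 2 := by
    rw [← real_inner_self_eq_norm_sq, ← real_inner_self_eq_norm_sq (x - y).fst]
    rw [inner_sub_left, inner_sub_right, inner_sub_right, inner_smul_left, inner_smul_right,
      inner_smul_left, inner_smul_right, h1, real_inner_comm (ec : E) (x - y).fst]
    simp
    ring
  have h3 := W2.norm_sq (x - y)
  refine (abs_le_of_sq_le_sq' ?_ (norm_nonneg _)).2
  nlinarith [sq_nonneg ⟪(ec : E), (x - y).fst⟫, sq_nonneg ‖(x - y).snd‖]

theorem snd_lip (x y : W2 E U) : ‖x.snd - y.snd‖ ≤ ‖x - y‖ := by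
  have h3 := W2.norm_sq (x - y)
  rw [← WithLp.sub_snd]
  refine (abs_le_of_sq_le_sq' ?_ (norm_nonneg _)).2
  nlinarith [sq_nonneg ‖(x - y).fst‖]

/-- the amount of sliding -/
def sig (ec : Sph E) (s : ℝ) (x : Sph (W2 E U)) : ℝ :=
  -(4 * s) * cut ‖wpart ec (x : W2 E U)‖ ‖(x : W2 E U).snd‖

theorem sub_e_norm (x : Sph (W2 E U)) :
    ‖(x : W2 E U) - tc (eW ec) x • ((eW ec : Sph (W2 E U)) : W2 E U)‖ ≤
      ‖wpart ec (x : W2 E U)‖ + ‖(x : W2 E U).snd‖ := by
  have ht : tc (eW ec) x = ⟪(ec : E), (x : W2 E U).fst⟫ := by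
    unfold tc eW
    rw [W2.inner_def]
    simp
  have hn := W2.norm_sq ((x : W2 E U) - tc (eW ec) x • ((eW ec : Sph (W2 E U)) : W2 E U))
  have e1 : ((x : W2 E U) - tc (eW ec) x • ((eW ec : Sph (W2 E U)) : W2 E U)).fst = wpart ec (x : W2 E U) := by
    show (x : W2 E U).fst - tc (eW ec) x • (ec : E) = wpart ec (x : W2 E U)
    rw [ht]; rfl
  have e2 : ((x : W2 E U) - tc (eW ec) x • ((eW ec : Sph (W2 E U)) : W2 E U)).snd = (x : W2 E U).snd := by
    show (x : W2 E U).snd - tc (eW ec) x • (0 : U) = (x : W2 E U).snd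
    rw [smul_zero, sub_zero]
  rw [e1, e2] at hn
  refine (abs_le_of_sq_le_sq' ?_ (by positivity)).2
  rw [hn]
  nlinarith [mul_nonneg (norm_nonneg (wpart ec (x : W2 E U))) (norm_nonneg (x : W2 E U).snd)]

theorem sig_lip (s : ℝ) (hs : 0 < s) (x y : Sph (W2 E U)) :
    |sig ec s x - sig ec s y| * ‖(x : W2 E U) - tc (eW ec) x • ((eW ec : Sph (W2 E U)) : W2 E U)‖ ≤
      (24 * s) * dist x y := by
  have h1 : |sig ec s x - sig ec s y| = (4 * s) *
      |cut ‖wpart ec (x : W2 E U)‖ ‖(x : W2 E U).snd‖ -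
        cut ‖wpart ec (y : W2 E U)‖ ‖(y : W2 E U).snd‖| := by
    unfold sig
    rw [← mul_sub, abs_mul, abs_neg, abs_of_pos (by linarith : 0 < 4 * s)]
  have h2 := cut_lip ‖wpart ec (x : W2 E U)‖ ‖(x : W2 E U).snd‖ ‖wpart ec (y : W2 E U)‖
    ‖(y : W2 E U).snd‖ (norm_nonneg _) (norm_nonneg _) (norm_nonneg _) (norm_nonneg _)
  have h3 := sub_e_norm (ec := ec) x
  have h4 : |‖wpart ec (x : W2 E U)‖ - ‖wpart ec (y : W2 E U)‖| ≤ dist x y := by
    rw [Subtype.dist_eq, dist_eq_norm]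
    exact (abs_norm_sub_norm_le _ _).trans (wpart_lip _ _)
  have h5 : |‖(x : W2 E U).snd‖ - ‖(y : W2 E U).snd‖| ≤ dist x y := by
    rw [Subtype.dist_eq, dist_eq_norm]
    exact (abs_norm_sub_norm_le _ _).trans (snd_lip _ _)
  set Cc := |cut ‖wpart ec (x : W2 E U)‖ ‖(x : W2 E U).snd‖ -
        cut ‖wpart ec (y : W2 E U)‖ ‖(y : W2 E U).snd‖| with hCc
  have hC0 : 0 ≤ Cc := abs_nonneg _
  have h6 : Cc * ‖(x : W2 E U) - tc (eW ec) x • ((eW ec : Sph (W2 E U)) : W2 E U)‖ ≤ 6 * dist x y := by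
    have := mul_le_mul_of_nonneg_left h3 hC0
    linarith
  rw [h1, mul_assoc]
  have := mul_le_mul_of_nonneg_left h6 (by linarith : 0 ≤ 4 * s)
  linarith

theorem den_pos' (e : Sph (W2 E U)) (s : ℝ) (x : Sph (W2 E U)) : 0 < den (e : W2 E U) s x := by
  rw [den_sph]
  have h1 := tc_le e x
  have h2 := Real.cosh_sq s
  have h3 := Real.cosh_pos s
  have h4 : |tc e x * Real.sinh s| < Real.cosh s := by
    rw [abs_mul]
    have h5 : |Real.sinh s| < Real.cosh s := by
      apply abs_lt_of_sq_lt_sq _ h3.le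
      linarith
    calc |tc e x| * |Real.sinh s| ≤ 1 * |Real.sinh s| :=
          mul_le_mul_of_nonneg_right h1 (abs_nonneg _)
      _ < Real.cosh s := by rw [one_mul]; exact h5
  have := (abs_lt.1 h4).1
  linarith

theorem sig_inv (s : ℝ) (x : Sph (W2 E U)) (r : ℝ) : sig ec s (Ts (eW ec) r x) = sig ec s x := by
  unfold sig
  rw [Ts_coe]
  unfold Tb
  have hd := den_pos' (eW ec) r x
  rw [wpart_smul, WithLp.smul_snd, wpart_add_e, snd_add_e, norm_smul, norm_smul, Real.norm_eq_abs,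
    abs_of_pos (inv_pos.2 hd), cut_mul _ _ _ (inv_pos.2 hd)]

end P3aux

open P3aux in
/-- P3: the slide between the cones `‖snd‖ > 2 ‖w‖` and `‖w‖ > 2 ‖snd‖`. -/
theorem slide_cones (s : ℝ) (hs : 0 < s) : ∃ g : Sph (W2 E U) ≃ₜ Sph (W2 E U), BiLip g ∧
    g (eW ec) = eW ec ∧
    (∀ a ∈ stab ρE ec, ∀ x, g (rS (prodRep ρE ρU a) x) = rS (prodRep ρE ρU a) (g x)) ∧
    (∀ x : Sph (W2 E U), 2 * ‖wpart ec (x : W2 E U)‖ < ‖(x : W2 E U).snd‖ → g x = x) ∧
    (∀ x : Sph (W2 E U), 2 * ‖(x : W2 E U).snd‖ < ‖wpart ec (x : W2 E U)‖ →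
      g (Ts (eW ec) (2 * s) x) = Ts (eW ec) (-(2 * s)) x) := by
  obtain ⟨g, hgL, hg⟩ := slide_exists (eW ec : Sph (W2 E U)) (sig ec s) (4 * s) (24 * s)
    (fun x => by
      unfold sig
      rw [abs_mul, abs_neg, abs_of_pos (by linarith : 0 < 4 * s), abs_of_nonneg (cut_nonneg _ _)]
      have := cut_le_one ‖wpart ec (x : W2 E U)‖ ‖(x : W2 E U).snd‖
      nlinarith)
    (fun x y => sig_lip s hs x y)
    (fun x r => sig_inv s x r)
  refine ⟨g, hgL, ?_, ?_, ?_, ?_⟩
  · rw [hg, Ts_e]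
  · intro a ha x
    have ha' : ρE a (ec : E) = ec := ha
    have hfix : prodRep ρE ρU a ((eW ec : Sph (W2 E U)) : W2 E U) = (eW ec : Sph (W2 E U)) := by
      apply W2.ext'
      · exact ha'
      · show ρU a (0 : U) = 0
        exact map_zero _
    have hsig : sig ec s (rS (prodRep ρE ρU a) x) = sig ec s x := by
      unfold sig
      have e1 : wpart ec ((rS (prodRep ρE ρU a) x : Sph (W2 E U)) : W2 E U) =
          ρE a (wpart ec (x : W2 E U)) := by
        show ρE a (x : W2 E U).fst - ⟪(ec : E), ρE a (x : W2 E U).fst⟫ • (ec : E) =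
          ρE a ((x : W2 E U).fst - ⟪(ec : E), (x : W2 E U).fst⟫ • (ec : E))
        have e3 : ⟪(ec : E), ρE a (x : W2 E U).fst⟫ = ⟪(ec : E), (x : W2 E U).fst⟫ := by
          conv_lhs => rw [← ha']
          exact (ρE a).inner_map_map _ _
        rw [e3, map_sub, map_smul, ha']
      have e2 : ((rS (prodRep ρE ρU a) x : Sph (W2 E U)) : W2 E U).snd =
          ρU a (x : W2 E U).snd := rfl
      rw [e1, e2, (ρE a).norm_map, (ρU a).norm_map]
    rw [hg, hg, hsig, Ts_rS _ _ _ hfix]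
  · intro x hx
    have h0 : sig ec s x = 0 := by
      unfold sig
      rw [cut_zero _ _ (norm_nonneg _) hx, mul_zero]
    rw [hg, h0, Ts_zero]
  · intro x hx
    have h0 : sig ec s x = -(4 * s) := by
      unfold sig
      rw [cut_one _ _ (norm_nonneg _) hx, mul_one]
    rw [hg, sig_inv, h0, Ts_add]
    congr 2
    ring

end Pool.Agent.Lib.MP_c2de4f_an
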