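import Pool.Agent.Lib.MP_c2de4f_an.P1
import Pool.Agent.Lib.MP_c2de4f_an.P2
import Pool.Agent.Lib.MP_c2de4f_an.P3
import Pool.Agent.Lib.MP_c2de4f_an.EXDEF

set_option autoImplicit false

/-! # P4: the boxes -/

noncomputable section

open Metric Set
open scoped RealInnerProductSpace

namespace Pool.Agent.Lib.MP_c2de4f_an

variable {E U : Type*} [NormedAddCommGroup E] [InnerProductSpace ℝ E]
  [NormedAddCommGroup U] [InnerProductSpace ℝ U] {A : Type*} [Group A]
  {ρE : A →* (E ≃ₗᵢ[ℝ] E)} {ρU : A →* (U ≃ₗᵢ[ℝ] U)} {ec : Sph E}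

theorem mem_stab_prod (a : A) :
    a ∈ stab (prodRep ρE ρU) (eW (U := U) ec) ↔ a ∈ stab ρE ec := by
  rw [mem_stab, mem_stab]
  constructor
  · intro h
    exact congrArg (fun x : W2 E U => x.fst) h
  · intro h
    apply W2.ext'
    · exact h
    · show ρU a 0 = 0
      simp

theorem prodRep_fst (a : A) (x : W2 E U) : (prodRep ρE ρU a x).fst = ρE a x.fst := rfl
theorem prodRep_snd (a : A) (x : W2 E U) : (prodRep ρE ρU a x).snd = ρU a x.snd := rfl

theorem norm_wpart_map (a : A) (ha : a ∈ stab ρE ec) (x : W2 E U) :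
    ‖wpart ec (prodRep ρE ρU a x)‖ = ‖wpart ec x‖ := by
  have ha' : ρE a (ec : E) = ec := ha
  have h : wpart ec (prodRep ρE ρU a x) = ρE a (wpart ec x) := by
    unfold wpart
    rw [prodRep_fst, map_sub, LinearIsometryEquiv.map_smul, ha']
    congr 2
    conv_lhs => rw [← ha']
    rw [LinearIsometryEquiv.inner_map_map]
  rw [h, LinearIsometryEquiv.norm_map]

theorem norm_snd_map (a : A) (x : W2 E U) : ‖(prodRep ρE ρU a x).snd‖ = ‖x.snd‖ := by
  rw [prodRep_snd, LinearIsometryEquiv.norm_map]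

theorem tc_rS_stab {V : Type*} [NormedAddCommGroup V] [InnerProductSpace ℝ V]
    (ρ : A →* (V ≃ₗᵢ[ℝ] V)) (e : Sph V) (a : A) (ha : a ∈ stab ρ e) (x : Sph V) :
    tc e (rS (ρ a) x) = tc e x := by
  have ha' : ρ a (e : V) = e := ha
  show ⟪(e : V), ρ a (x : V)⟫ = ⟪(e : V), (x : V)⟫
  conv_lhs => rw [← ha']
  rw [LinearIsometryEquiv.inner_map_map]

theorem continuous_tc {V : Type*} [NormedAddCommGroup V] [InnerProductSpace ℝ V] (e : Sph V) :
    Continuous (tc e) := by
  unfold tc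
  exact continuous_const.inner continuous_subtype_val

theorem continuous_wpart : Continuous (fun x : Sph (W2 E U) => ‖wpart ec (x : W2 E U)‖) := by
  unfold wpart
  have h1 : Continuous (fun x : Sph (W2 E U) => (x : W2 E U).fst) :=
    (WithLp.continuous_fst 2 E U).comp continuous_subtype_val
  exact (h1.sub ((continuous_const.inner h1).smul continuous_const)).norm

theorem continuous_snd' : Continuous (fun x : Sph (W2 E U) => ‖(x : W2 E U).snd‖) :=
  ((WithLp.continuous_snd 2 E U).comp continuous_subtype_val).norm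

/-- P4: all together. -/
theorem boxes_exist (g : E → U) (hg : GData ρE ρU ec g) (v : U → E) (hv : VData ρE ρU ec v) :
    Nonempty (Boxes (eW ec) (prodRep ρE ρU)) := by
  obtain ⟨τ1, hτ1, hτ1', Ψ1, hL1, hid1, hB1, hs1⟩ := particle_one g hg
  obtain ⟨τ2, hτ2, hτ2', Ψ2, hL2, hid2, hB2, hs2⟩ := particle_two v hv
  refine ⟨{
    t0 := max τ1 τ2
    t0_pos := lt_of_lt_of_le hτ1 (le_max_left _ _)
    t0_lt := max_lt hτ1' hτ2'
    Ψ := fun i => if i then Ψ1 else Ψ2
    box := fun i => if i then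
      {x | 2 * ‖wpart ec (x : W2 E U)‖ < ‖(x : W2 E U).snd‖ ∧ |tc (eW ec) x| < max τ1 τ2}
      else {x | 2 * ‖(x : W2 E U).snd‖ < ‖wpart ec (x : W2 E U)‖ ∧ |tc (eW ec) x| < max τ1 τ2}
    box_open := ?_
    box_sub := ?_
    box_B := ?_
    Ψ_id := ?_
    Ψ_B := ?_
    Ψ_lip := ?_
    sep := ?_
    slide := ?_ }⟩
  · intro i
    cases i
    · exact (isOpen_lt (continuous_const.mul continuous_snd') continuous_wpart).inter
        (isOpen_lt (continuous_tc _).abs continuous_const)
    · exact (isOpen_lt (continuous_const.mul continuous_wpart) continuous_snd').inter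
        (isOpen_lt (continuous_tc _).abs continuous_const)
  · intro i x hx
    cases i <;> exact hx.2
  · intro i a ha x hx
    have ha' := (mem_stab_prod (ρU := ρU) a).1 ha
    cases i
    · refine ⟨?_, ?_⟩
      · show 2 * ‖(prodRep ρE ρU a (x : W2 E U)).snd‖ < ‖wpart ec (prodRep ρE ρU a (x : W2 E U))‖
        rw [norm_snd_map, norm_wpart_map a ha']
        exact hx.1
      · rw [tc_rS_stab _ _ a ha]; exact hx.2
    · refine ⟨?_, ?_⟩
      · show 2 * ‖wpart ec (prodRep ρE ρU a (x : W2 E U))‖ < ‖(prodRep ρE ρU a (x : W2 E U)).snd‖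
        rw [norm_snd_map, norm_wpart_map a ha']
        exact hx.1
      · rw [tc_rS_stab _ _ a ha]; exact hx.2
  · intro i x hx
    cases i
    · exact hid2 x ((le_max_right _ _).trans hx)
    · exact hid1 x ((le_max_left _ _).trans hx)
  · intro i a ha x
    have ha' := (mem_stab_prod (ρU := ρU) a).1 ha
    cases i
    · exact hB2 a ha' x
    · exact hB1 a ha' x
  · intro i
    cases i
    · exact hL2
    · exact hL1
  · intro i a x y ha hx hy
    have ha' : a ∉ stab ρE ec := fun h => ha ((mem_stab_prod (ρU := ρU) a).2 h)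
    cases i
    · have key : ∀ z : Sph (W2 E U), ¬ (2 * ‖(z : W2 E U).snd‖ < ‖wpart ec (z : W2 E U)‖ ∧
          |tc (eW ec) z| < max τ1 τ2) →
          (‖wpart ec (z : W2 E U)‖ ≤ 2 * ‖(z : W2 E U).snd‖ ∨ max τ1 τ2 ≤ |tc (eW ec) z|) := by
        intro z hz
        by_contra hcon
        push Not at hcon
        exact hz hcon
      exact hs2 (max τ1 τ2) (le_max_right _ _) (max_lt hτ1' hτ2') a ha' x y (key x hx) (key y hy)
    · have key : ∀ z : Sph (W2 E U), ¬ (2 * ‖wpart ec (z : W2 E U)‖ < ‖(z : W2 E U).snd‖ ∧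
          |tc (eW ec) z| < max τ1 τ2) →
          (‖(z : W2 E U).snd‖ ≤ 2 * ‖wpart ec (z : W2 E U)‖ ∨ max τ1 τ2 ≤ |tc (eW ec) z|) := by
        intro z hz
        by_contra hcon
        push Not at hcon
        exact hz hcon
      exact hs1 (max τ1 τ2) (le_max_left _ _) (max_lt hτ1' hτ2') a ha' x y (key x hx) (key y hy)
  · intro s hs
    obtain ⟨g, hg1, hg2, hg3, hg4, hg5⟩ :=
      slide_cones (E := E) (U := U) (ρE := ρE) (ρU := ρU) (ec := ec) s hs
    refine ⟨g, hg1, hg2, ?_, ?_, ?_⟩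
    · intro a ha x
      exact hg3 a ((mem_stab_prod (ρU := ρU) a).1 ha) x
    · intro x hx
      exact hg4 x hx.1
    · intro x hx
      exact hg5 x hx.1

end Pool.Agent.Lib.MP_c2de4f_an
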