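import Pool.Agent.Lib.MP_c2de4f_an.HOM
import Pool.Agent.Lib.MP_c2de4f_an.FIX7

set_option autoImplicit false

/-! # V7: the data v -/

noncomputable section

open Metric Set
open scoped RealInnerProductSpace

namespace Pool.Agent.Lib.MP_c2de4f_an

theorem v7_apply (u : U4) (m : ZMod 7) : (v7 u : EuclideanSpace ℝ (ZMod 7)) m =
    ((starRingEnd ℂ (chi m)) * u.snd).re + ‖u‖⁻¹ * ((starRingEnd ℂ (chi m)) ^ 2 * u.fst ^ 2).re :=
  rfl

theorem v7_hom (c : ℝ) (hc : 0 < c) (u : U4) : v7 (c • u) = c • v7 u := by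
  apply E7_ext
  intro m
  show _ = c * (v7 u : EuclideanSpace ℝ (ZMod 7)) m
  rw [v7_apply, v7_apply, norm_smul, Real.norm_eq_abs, abs_of_pos hc]
  have h1 : (c • u).snd = (c : ℂ) * u.snd := Complex.real_smul
  have h2 : (c • u).fst = (c : ℂ) * u.fst := Complex.real_smul
  have e1 : (starRingEnd ℂ) (chi m) * ((c : ℂ) * u.snd) =
      (c : ℂ) * ((starRingEnd ℂ) (chi m) * u.snd) := by ring
  have e2 : (starRingEnd ℂ) (chi m) ^ 2 * ((c : ℂ) * u.fst) ^ 2 =
      ((c ^ 2 : ℝ) : ℂ) * ((starRingEnd ℂ) (chi m) ^ 2 * u.fst ^ 2) := by push_cast; ring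
  rw [h1, h2, e1, e2, Complex.re_ofReal_mul, Complex.re_ofReal_mul, mul_inv]
  field_simp

theorem v7_zero_coord (u : U4) : (v7 u : EuclideanSpace ℝ (ZMod 7)) 0 = 0 := by
  rw [v7_apply, chi_vals.1]
  simp

theorem inner_d0 (x : E7) : ⟪d0, x⟫ = (x : EuclideanSpace ℝ (ZMod 7)) 0 := by
  have h : ⟪d0, x⟫ = ∑ m : ZMod 7, (x : EuclideanSpace ℝ (ZMod 7)) m *
      (d0 : EuclideanSpace ℝ (ZMod 7)) m := by
    show ⟪(d0 : EuclideanSpace ℝ (ZMod 7)), (x : EuclideanSpace ℝ (ZMod 7))⟫ = _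
    rw [PiLp.inner_apply]
    rfl
  rw [h]
  have h2 : ∀ m : ZMod 7, (x : EuclideanSpace ℝ (ZMod 7)) m *
      (d0 : EuclideanSpace ℝ (ZMod 7)) m = (if m = 0 then (x : EuclideanSpace ℝ (ZMod 7)) m else 0)
        + (-1 / 7) * (x : EuclideanSpace ℝ (ZMod 7)) m := by
    intro m
    rw [d0_apply]
    split_ifs <;> ring
  simp only [h2]
  rw [Finset.sum_add_distrib, ← Finset.mul_sum, (mem_E7 _).1 x.2, mul_zero, add_zero]
  simp

theorem v7_perp (u : U4) : ⟪(e7 : E7), v7 u⟫ = 0 := by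
  rw [e7_coe]
  refine (real_inner_smul_left d0 (v7 u) ‖d0‖⁻¹).trans ?_
  rw [inner_d0, v7_zero_coord, mul_zero]

theorem chi_unit_inv (a : (ZMod 7)ˣ) : chi ((a⁻¹ : (ZMod 7)ˣ) : ZMod 7) =
    starRingEnd ℂ (chi (a : ZMod 7)) := by
  have := fact7
  have h1 : chi ((a⁻¹ : (ZMod 7)ˣ) : ZMod 7) * chi (a : ZMod 7) = 1 := by
    rw [← chi_mul, Units.inv_mul, chi_one]
  have h2 : starRingEnd ℂ (chi (a : ZMod 7)) * chi (a : ZMod 7) = 1 := by
    rw [mul_comm, Complex.mul_conj, Complex.normSq_eq_norm_sq, norm_chi _ a.ne_zero]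
    simp
  have h3 : chi (a : ZMod 7) ≠ 0 := by
    intro h
    rw [h, mul_zero] at h1
    exact zero_ne_one h1
  exact mul_right_cancel₀ h3 (h1.trans h2.symm)

theorem v7_eqv (a : Aff) (ha : a ∈ stab rhoE e7) (u : U4) : v7 (rhoU a u) = rhoE a (v7 u) := by
  have hb := (stab_e7 a).1 ha
  apply E7_ext
  intro m
  rw [rhoE_apply, hb, sub_zero, v7_apply, v7_apply, LinearIsometryEquiv.norm_map, rhoU_fst,
    rhoU_snd, chi_mul, chi_unit_inv, map_mul, Complex.conj_conj]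
  exact congrArg₂ (· + ·) (congrArg Complex.re (by ring))
    (congrArg (‖u‖⁻¹ * ·) (congrArg Complex.re (by ring)))

theorem conj_chi_le (m : ZMod 7) : ‖starRingEnd ℂ (chi m)‖ ≤ 1 := by
  rw [Complex.norm_conj]
  by_cases hm : m = 0
  · rw [hm, chi_vals.1]; simp
  · exact (norm_chi m hm).le

theorem fst_le (u : U4) : ‖u.fst‖ ≤ ‖u‖ := by
  have h := W2.norm_sq u
  have h1 := norm_nonneg u
  have h2 := norm_nonneg u.fst
  have h3 := norm_nonneg u.snd
  nlinarith

theorem snd_le (u : U4) : ‖u.snd‖ ≤ ‖u‖ := by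
  have h := W2.norm_sq u
  have h1 := norm_nonneg u
  have h2 := norm_nonneg u.fst
  have h3 := norm_nonneg u.snd
  nlinarith

theorem norm_le_of_coord (x : E7) (d : ℝ) (h : ∀ m, |(x : EuclideanSpace ℝ (ZMod 7)) m| ≤ d) :
    ‖x‖ ≤ 3 * d := by
  have hd : 0 ≤ d := (abs_nonneg _).trans (h 0)
  have h1 : ‖x‖ ^ 2 = ∑ m : ZMod 7, ‖(x : EuclideanSpace ℝ (ZMod 7)) m‖ ^ 2 :=
    EuclideanSpace.norm_sq_eq (x : EuclideanSpace ℝ (ZMod 7))
  have h2 : ∑ m : ZMod 7, ‖(x : EuclideanSpace ℝ (ZMod 7)) m‖ ^ 2 ≤ ∑ _m : ZMod 7, d ^ 2 := by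
    apply Finset.sum_le_sum
    intro m _
    have := h m
    rw [Real.norm_eq_abs]
    exact pow_le_pow_left₀ (abs_nonneg _) this 2
  rw [Finset.sum_const, Finset.card_univ, ZMod.card, nsmul_eq_mul] at h2
  have h3 := norm_nonneg x
  push_cast at h2
  nlinarith

theorem v7_lip (u w : U4) : ‖v7 u - v7 w‖ ≤ (2 * 9 + 6) * ‖u - w‖ := by
  refine hom_lip v7 v7_hom ?_ 9 6 ?_ ?_ u w
  · apply E7_ext
    intro m
    rw [v7_apply]
    show _ = (0 : ℝ)
    have h1 : (0 : U4).fst = 0 := rfl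
    have h2 : (0 : U4).snd = 0 := rfl
    rw [h1, h2]
    simp
  · intro u w hu hw
    replace hu : ‖u‖ = 1 := hu
    replace hw : ‖w‖ = 1 := hw
    show ‖v7 u - v7 w‖ ≤ 9 * ‖u - w‖
    have key : ∀ m, |((v7 u - v7 w : E7) : EuclideanSpace ℝ (ZMod 7)) m| ≤ 3 * ‖u - w‖ := by
      intro m
      show |(v7 u : EuclideanSpace ℝ (ZMod 7)) m - (v7 w : EuclideanSpace ℝ (ZMod 7)) m| ≤ _
      rw [v7_apply, v7_apply, hu, hw]
      have hc := conj_chi_le m
      have hc0 := norm_nonneg (starRingEnd ℂ (chi m))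
      have e : (starRingEnd ℂ (chi m) * u.snd).re + 1⁻¹ * (starRingEnd ℂ (chi m) ^ 2 * u.fst ^ 2).re
          - ((starRingEnd ℂ (chi m) * w.snd).re + 1⁻¹ * (starRingEnd ℂ (chi m) ^ 2 * w.fst ^ 2).re) =
          (starRingEnd ℂ (chi m) * (u.snd - w.snd)
            + starRingEnd ℂ (chi m) ^ 2 * ((u.fst - w.fst) * (u.fst + w.fst))).re := by
        simp only [inv_one, one_mul]
        rw [← Complex.add_re, ← Complex.add_re, ← Complex.sub_re]
        congr 1
        ring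
      rw [e]
      refine (Complex.abs_re_le_norm _).trans ?_
      refine (norm_add_le _ _).trans ?_
      rw [norm_mul, norm_mul, norm_mul, norm_pow]
      have a1 : ‖u.snd - w.snd‖ ≤ ‖u - w‖ := snd_le (u - w)
      have a2 : ‖u.fst - w.fst‖ ≤ ‖u - w‖ := fst_le (u - w)
      have a3 : ‖u.fst + w.fst‖ ≤ 2 := by
        refine (norm_add_le _ _).trans ?_
        have := fst_le u
        have := fst_le w
        linarith
      have n1 := norm_nonneg (u.snd - w.snd)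
      have n2 := norm_nonneg (u.fst - w.fst)
      have n3 := norm_nonneg (u.fst + w.fst)
      have n4 := norm_nonneg (u - w)
      have b1 : ‖starRingEnd ℂ (chi m)‖ * ‖u.snd - w.snd‖ ≤ 1 * ‖u - w‖ :=
        mul_le_mul hc a1 n1 zero_le_one
      have b2 : ‖starRingEnd ℂ (chi m)‖ ^ 2 ≤ 1 := pow_le_one₀ hc0 hc
      have b3 : ‖u.fst - w.fst‖ * ‖u.fst + w.fst‖ ≤ ‖u - w‖ * 2 :=
        mul_le_mul a2 a3 n3 n4
      have b4 : ‖starRingEnd ℂ (chi m)‖ ^ 2 * (‖u.fst - w.fst‖ * ‖u.fst + w.fst‖) ≤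
          1 * (‖u - w‖ * 2) := mul_le_mul b2 b3 (mul_nonneg n2 n3) zero_le_one
      linarith
    have := norm_le_of_coord _ _ key
    linarith
  · intro u hu
    replace hu : ‖u‖ = 1 := hu
    show ‖v7 u‖ ≤ 6
    have key : ∀ m, |(v7 u : EuclideanSpace ℝ (ZMod 7)) m| ≤ 2 := by
      intro m
      rw [v7_apply, hu]
      have hc := conj_chi_le m
      have hc0 := norm_nonneg (starRingEnd ℂ (chi m))
      have a1 : ‖u.snd‖ ≤ 1 := hu ▸ snd_le u
      have a2 : ‖u.fst‖ ≤ 1 := hu ▸ fst_le u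
      have n1 := norm_nonneg u.snd
      have n2 := norm_nonneg u.fst
      have b1 : |(starRingEnd ℂ (chi m) * u.snd).re| ≤ 1 := by
        refine (Complex.abs_re_le_norm _).trans ?_
        rw [norm_mul]
        have := mul_le_mul hc a1 n1 zero_le_one
        linarith
      have b2 : |(starRingEnd ℂ (chi m) ^ 2 * u.fst ^ 2).re| ≤ 1 := by
        refine (Complex.abs_re_le_norm _).trans ?_
        rw [norm_mul, norm_pow, norm_pow]
        have := mul_le_mul (pow_le_one₀ (n := 2) hc0 hc) (pow_le_one₀ (n := 2) n2 a2)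
          (pow_nonneg n2 2) zero_le_one
        linarith
      simp only [inv_one, one_mul]
      refine (abs_add_le _ _).trans ?_
      linarith
    have := norm_le_of_coord _ _ key
    linarith

theorem v7_cont : Continuous v7 := by
  have : LipschitzWith (Real.toNNReal (2 * 9 + 6)) v7 := by
    apply LipschitzWith.of_dist_le_mul
    intro x y
    rw [Real.coe_toNNReal _ (by norm_num), dist_eq_norm, dist_eq_norm]
    exact v7_lip x y
  exact this.continuous

/-- A complex number is determined by its two real coordinates. -/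
theorem eq_zero_of_re (z : ℂ) (h1 : z.re = 0) (h2 : (starRingEnd ℂ eta * z).re = 0) : z = 0 := by
  have h3 : 0 < Real.sqrt 3 := Real.sqrt_pos.2 (by norm_num)
  have h4 : (starRingEnd ℂ eta * z).re = 1 / 2 * z.re + Real.sqrt 3 / 2 * z.im := by
    rw [Complex.mul_re]
    simp [eta]
  rw [h4, h1] at h2
  have h5 : z.im = 0 := by
    have h6 : Real.sqrt 3 / 2 * z.im = 0 := by linarith
    rcases mul_eq_zero.1 h6 with h7 | h7
    · linarith
    · exact h7
  exact Complex.ext h1 h5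

/-- The six values of `v7 u` in terms of four real numbers. -/
theorem v7_values (u : U4) : ∃ A b α β : ℝ,
    A = ‖u‖⁻¹ * (u.fst ^ 2).re ∧ b = ‖u‖⁻¹ * (starRingEnd ℂ eta * u.fst ^ 2).re ∧
    α = u.snd.re ∧ β = (starRingEnd ℂ eta * u.snd).re ∧
    (v7 u : EuclideanSpace ℝ (ZMod 7)) 1 = α + A ∧
    (v7 u : EuclideanSpace ℝ (ZMod 7)) 2 = β - α - b ∧
    (v7 u : EuclideanSpace ℝ (ZMod 7)) 3 = β + b - A ∧
    (v7 u : EuclideanSpace ℝ (ZMod 7)) 4 = -β + b - A ∧
    (v7 u : EuclideanSpace ℝ (ZMod 7)) 5 = α - β - b ∧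
    (v7 u : EuclideanSpace ℝ (ZMod 7)) 6 = -α + A := by
  obtain ⟨h0, h1, h2, h3, h4, h5, h6⟩ := chi_vals
  have hc : starRingEnd ℂ eta ^ 2 = starRingEnd ℂ eta - 1 := by
    have h := congrArg (starRingEnd ℂ) eta_sq
    rwa [map_pow, map_sub, map_one] at h
  refine ⟨_, _, _, _, rfl, rfl, rfl, rfl, ?_, ?_, ?_, ?_, ?_, ?_⟩
  · rw [v7_apply, h1]
    simp
  · have e1 : (starRingEnd ℂ (eta - 1)) * u.snd = starRingEnd ℂ eta * u.snd - u.snd := by
      rw [map_sub, map_one]; ring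
    have e2 : (starRingEnd ℂ (eta - 1)) ^ 2 * u.fst ^ 2 = -(starRingEnd ℂ eta * u.fst ^ 2) := by
      rw [map_sub, map_one]; linear_combination (u.fst ^ 2) * hc
    rw [v7_apply, h2, e1, e2, Complex.sub_re, Complex.neg_re]
    ring
  · have e2 : (starRingEnd ℂ eta) ^ 2 * u.fst ^ 2 = starRingEnd ℂ eta * u.fst ^ 2 - u.fst ^ 2 := by
      linear_combination (u.fst ^ 2) * hc
    rw [v7_apply, h3, e2, Complex.sub_re]
    ring
  · have e1 : (starRingEnd ℂ (-eta)) * u.snd = -(starRingEnd ℂ eta * u.snd) := by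
      rw [map_neg]; ring
    have e2 : (starRingEnd ℂ (-eta)) ^ 2 * u.fst ^ 2 =
        starRingEnd ℂ eta * u.fst ^ 2 - u.fst ^ 2 := by
      rw [map_neg]; linear_combination (u.fst ^ 2) * hc
    rw [v7_apply, h4, e1, e2, Complex.sub_re, Complex.neg_re]
    ring
  · have e1 : (starRingEnd ℂ (1 - eta)) * u.snd = u.snd - starRingEnd ℂ eta * u.snd := by
      rw [map_sub, map_one]; ring
    have e2 : (starRingEnd ℂ (1 - eta)) ^ 2 * u.fst ^ 2 = -(starRingEnd ℂ eta * u.fst ^ 2) := by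
      rw [map_sub, map_one]; linear_combination (u.fst ^ 2) * hc
    rw [v7_apply, h5, e1, e2, Complex.sub_re, Complex.neg_re]
    ring
  · rw [v7_apply, h6]
    simp

theorem v7_kap (t t' : ℝ) (u : U4)
    (h : rhoE kap (t • (e7 : E7) + v7 u) = t' • (e7 : E7) + v7 u) : t = 0 ∧ t' = 0 ∧ u = 0 := by
  obtain ⟨A, b, α, β, hA, hb, hα, hβ, v1, v2, v3, v4, v5, v6⟩ := v7_values u
  have v0 := v7_zero_coord u
  have hd := norm_d0_pos
  have key : ∀ m : ZMod 7, t * ‖d0‖⁻¹ * (if m - 1 = 0 then 6 / 7 else -1 / 7) +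
      (v7 u : EuclideanSpace ℝ (ZMod 7)) (m - 1) =
      t' * ‖d0‖⁻¹ * (if m = 0 then 6 / 7 else -1 / 7) +
      (v7 u : EuclideanSpace ℝ (ZMod 7)) m := by
    intro m
    have h1 := congrArg (fun x : E7 => (x : EuclideanSpace ℝ (ZMod 7)) m) h
    simp only [kap_apply] at h1
    have h2 : ∀ (r : ℝ) (k : ZMod 7), ((r • (e7 : E7) + v7 u : E7) : EuclideanSpace ℝ (ZMod 7)) k
        = r * ‖d0‖⁻¹ * (if k = 0 then 6 / 7 else -1 / 7) +
          (v7 u : EuclideanSpace ℝ (ZMod 7)) k := by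
      intro r k
      rw [e7_coe, smul_smul]
      rfl
    rw [h2, h2] at h1
    exact h1
  have k0 := key 0
  have k1 := key 1
  have k2 := key 2
  have k3 := key 3
  have k4 := key 4
  have k5 := key 5
  have k6 := key 6
  rw [show (0 : ZMod 7) - 1 = 6 by decide] at k0
  rw [show (1 : ZMod 7) - 1 = 0 by decide] at k1
  rw [show (2 : ZMod 7) - 1 = 1 by decide] at k2
  rw [show (3 : ZMod 7) - 1 = 2 by decide] at k3
  rw [show (4 : ZMod 7) - 1 = 3 by decide] at k4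
  rw [show (5 : ZMod 7) - 1 = 4 by decide] at k5
  rw [show (6 : ZMod 7) - 1 = 5 by decide] at k6
  have h1 : ¬ (1 : ZMod 7) = 0 := by decide
  have h2 : ¬ (2 : ZMod 7) = 0 := by decide
  have h3 : ¬ (3 : ZMod 7) = 0 := by decide
  have h4 : ¬ (4 : ZMod 7) = 0 := by decide
  have h5 : ¬ (5 : ZMod 7) = 0 := by decide
  have h6 : ¬ (6 : ZMod 7) = 0 := by decide
  simp only [if_neg h1, if_neg h2, if_neg h3, if_neg h4, if_neg h5, if_neg h6, if_true,
    v0, v1, v2, v3, v4, v5, v6] at k0 k1 k2 k3 k4 k5 k6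
  generalize hs : t * ‖d0‖⁻¹ = s at *
  generalize hs' : t' * ‖d0‖⁻¹ = s' at *
  have s0 : s = 0 := by linarith
  have s0' : s' = 0 := by linarith
  have A0 : A = 0 := by linarith
  have b0 : b = 0 := by linarith
  have α0 : α = 0 := by linarith
  have β0 : β = 0 := by linarith
  have hinv : ‖d0‖⁻¹ ≠ 0 := inv_ne_zero hd.ne'
  refine ⟨?_, ?_, ?_⟩
  · rw [s0] at hs
    exact (mul_eq_zero.1 hs).resolve_right hinv
  · rw [s0'] at hs'
    exact (mul_eq_zero.1 hs').resolve_right hinv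
  · by_contra hu
    have hn : ‖u‖⁻¹ ≠ 0 := inv_ne_zero (norm_ne_zero_iff.2 hu)
    rw [A0] at hA
    rw [b0] at hb
    rw [α0] at hα
    rw [β0] at hβ
    apply hu
    apply W2.ext'
    · have h7 := eq_zero_of_re (u.fst ^ 2) ((mul_eq_zero.1 hA.symm).resolve_left hn)
        ((mul_eq_zero.1 hb.symm).resolve_left hn)
      exact pow_eq_zero_iff (two_ne_zero) |>.1 h7
    · exact eq_zero_of_re _ hα.symm hβ.symm

/-- Every element outside the stabiliser is a conjugate of the translation by one, composed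
with an element of the stabiliser. -/
theorem decompV (a : Aff) (ha : a ∉ stab rhoE e7) : ∃ β ∈ stab rhoE e7, ∃ k ∈ stab rhoE e7,
    a = β * kap * β⁻¹ * k ∧ a.a = k.a := by
  have := fact7
  have hb : a.b ≠ 0 := fun h => ha ((stab_e7 a).2 h)
  refine ⟨⟨Units.mk0 a.b hb, 0⟩, (stab_e7 _).2 rfl, ⟨a.a, 0⟩, (stab_e7 _).2 rfl, ?_, rfl⟩
  apply Aff.ext
  · simp [kap]
  · simp [kap]

theorem stab_vec (β : Aff) (hβ : β ∈ stab rhoE e7) (t : ℝ) (u : U4) :
    rhoE β (t • (e7 : E7) + v7 u) = t • (e7 : E7) + v7 (rhoU β u) := by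
  rw [map_add, map_smul, (mem_stab _ _ _).1 hβ, v7_eqv β hβ]

theorem v7_pos (a : Aff) (ha : a ∉ stab rhoE e7) (t t' : ℝ) (u : U4)
    (h : rhoE a (t • (e7 : E7) + v7 u) = t' • (e7 : E7) + v7 (rhoU a u)) :
    t = 0 ∧ t' = 0 ∧ u = 0 := by
  obtain ⟨β, hβ, k, hk, hak, hka⟩ := decompV a ha
  have hβ' : β⁻¹ ∈ stab rhoE e7 := inv_mem hβ
  have hU : rhoU a u = rhoU k u := by
    apply W2.ext'
    · rw [rhoU_fst, rhoU_fst, hka]
    · rw [rhoU_snd, rhoU_snd, hka]
  rw [hU, hak, map_mul, map_mul, map_mul] at h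
  replace h : rhoE β (rhoE kap (rhoE β⁻¹ (rhoE k (t • (e7 : E7) + v7 u)))) =
    t' • (e7 : E7) + v7 (rhoU k u) := h
  rw [stab_vec k hk, stab_vec β⁻¹ hβ'] at h
  have h1 : t' • (e7 : E7) + v7 (rhoU k u) =
      rhoE β (t' • (e7 : E7) + v7 (rhoU β⁻¹ (rhoU k u))) := by
    rw [← stab_vec β⁻¹ hβ']
    show _ = (rhoE β * rhoE β⁻¹) (t' • (e7 : E7) + v7 (rhoU k u))
    rw [← map_mul, mul_inv_cancel, map_one]
    rfl
  rw [h1] at h
  obtain ⟨h2, h3, h4⟩ := v7_kap _ _ _ ((rhoE β).injective h)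
  refine ⟨h2, h3, ?_⟩
  have h5 : rhoU k u = 0 := by
    have := congrArg (rhoU β⁻¹).symm h4
    rwa [LinearIsometryEquiv.symm_apply_apply, map_zero] at this
  have := congrArg (rhoU k).symm h5
  rwa [LinearIsometryEquiv.symm_apply_apply, map_zero] at this

theorem vdata7 : VData rhoE rhoU e7 v7 where
  lip := ⟨_, v7_lip⟩
  hom := v7_hom
  perp := v7_perp
  eqv := v7_eqv
  sep := by
    have h1 : ∀ a : Aff, ∃ c : ℝ, 0 < c ∧ (a ∉ stab rhoE e7 → ∀ (t t' : ℝ) (u : U4),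
        c * (|t| + |t'| + ‖u‖) ≤
          ‖rhoE a (t • (e7 : E7) + v7 u) - (t' • (e7 : E7) + v7 (rhoU a u))‖) := by
      intro a
      by_cases ha : a ∈ stab rhoE e7
      · exact ⟨1, one_pos, fun h => absurd ha h⟩
      · have hcont : Continuous (fun p : ℝ × ℝ × U4 =>
            ‖rhoE a (p.1 • (e7 : E7) + v7 p.2.2) - (p.2.1 • (e7 : E7) + v7 (rhoU a p.2.2))‖) := by
          apply Continuous.norm
          apply Continuous.sub
          · apply (rhoE a).continuous.comp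
            exact (continuous_fst.smul continuous_const).add
              (v7_cont.comp (continuous_snd.comp continuous_snd))
          · exact ((continuous_fst.comp continuous_snd).smul continuous_const).add
              (v7_cont.comp ((rhoU a).continuous.comp (continuous_snd.comp continuous_snd)))
        obtain ⟨c, hc, hc2⟩ := hom_lower (E := ℝ × ℝ × U4) _ hcont
          (by
            rintro c hc ⟨t, t', u⟩
            show ‖rhoE a ((c * t) • (e7 : E7) + v7 (c • u)) -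
              ((c * t') • (e7 : E7) + v7 (rhoU a (c • u)))‖ =
              c * ‖rhoE a (t • (e7 : E7) + v7 u) - (t' • (e7 : E7) + v7 (rhoU a u))‖
            rw [map_smul (rhoU a), v7_hom c hc, v7_hom c hc, mul_smul, mul_smul, ← smul_add,
              ← smul_add, map_smul, ← smul_sub, norm_smul, Real.norm_eq_abs, abs_of_pos hc])
          (by
            rintro ⟨t, t', u⟩ hne
            show 0 < ‖rhoE a (t • (e7 : E7) + v7 u) - (t' • (e7 : E7) + v7 (rhoU a u))‖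
            rw [norm_pos_iff, sub_ne_zero]
            intro h
            obtain ⟨h2, h3, h4⟩ := v7_pos a ha t t' u h
            apply hne
            rw [h2, h3, h4]
            rfl)
        refine ⟨c / 3, by positivity, fun _ t t' u => ?_⟩
        have h2 := hc2 (t, t', u)
        have n1 : |t| ≤ ‖(t, t', u)‖ := norm_fst_le (t, t', u)
        have n2 : ‖(t', u)‖ ≤ ‖(t, t', u)‖ := norm_snd_le (t, t', u)
        have n3 : |t'| ≤ ‖(t', u)‖ := norm_fst_le (t', u)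
        have n4 : ‖u‖ ≤ ‖(t', u)‖ := norm_snd_le (t', u)
        refine le_trans ?_ h2
        have : |t| + |t'| + ‖u‖ ≤ 3 * ‖(t, t', u)‖ := by linarith
        calc c / 3 * (|t| + |t'| + ‖u‖) ≤ c / 3 * (3 * ‖(t, t', u)‖) :=
              mul_le_mul_of_nonneg_left this (by positivity)
          _ = c * ‖(t, t', u)‖ := by ring
    choose c hc hc2 using h1
    obtain ⟨a₀, ha₀⟩ := Finite.exists_min c
    refine ⟨c a₀, hc a₀, fun a ha t t' u => ?_⟩
    refine le_trans ?_ (hc2 a ha t t' u)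
    exact mul_le_mul_of_nonneg_right (ha₀ a) (by positivity)

end Pool.Agent.Lib.MP_c2de4f_an
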