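import Pool.Agent.Lib.MP_c2de4f_an.OBS2
import Pool.Agent.Lib.MP_c2de4f_an.EX4
import Pool.Agent.Lib.MP_c2de4f_an.P4
import Pool.Agent.Lib.MP_c2de4f_an.G7
import Pool.Agent.Lib.MP_c2de4f_an.V7

set_option autoImplicit false

/-! # MAIN: the negative answer in dimension 10 -/

noncomputable section

open Metric Set
open scoped RealInnerProductSpace

namespace Pool.Agent.Lib.MP_c2de4f_an

theorem main : ¬ (∀ n : ℕ, 3 ≤ n → ∀ c : EuclideanSpace ℝ (Fin n), ∀ r : ℝ, 0 < r →
    ∃ T : (EuclideanSpace ℝ (Fin n) → EuclideanSpace ℝ (Fin n)) →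
        (EuclideanSpace ℝ (Fin n) → EuclideanSpace ℝ (Fin n)),
      (∀ φ ψ : EuclideanSpace ℝ (Fin n) → EuclideanSpace ℝ (Fin n),
          Set.EqOn φ ψ (Metric.sphere c r) → Set.EqOn (T φ) (T ψ) (Metric.ball c r)) ∧
      (∀ φ : EuclideanSpace ℝ (Fin n) → EuclideanSpace ℝ (Fin n),
        (Set.BijOn φ (Metric.sphere c r) (Metric.sphere c r) ∧
          ContinuousOn φ (Metric.sphere c r) ∧
          ∃ H : ℝ, ∀ x ∈ Metric.sphere c r, ∃ δ > (0 : ℝ), ∀ ρ : ℝ, 0 < ρ → ρ < δ →
            ∀ y ∈ Metric.sphere c r, ∀ z ∈ Metric.sphere c r,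
              dist y x = ρ → dist z x = ρ → dist (φ y) (φ x) ≤ H * dist (φ z) (φ x)) →
        (ContinuousOn (T φ) (Metric.closedBall c r) ∧
          Set.EqOn (T φ) φ (Metric.sphere c r) ∧
          Set.BijOn (T φ) (Metric.ball c r) (Metric.ball c r) ∧
          (∃ H : ℝ, ∀ x ∈ Metric.ball c r, ∃ δ > (0 : ℝ), ∀ ρ : ℝ, 0 < ρ → ρ < δ →
            ∀ y z : EuclideanSpace ℝ (Fin n),
              dist y x = ρ → dist z x = ρ →
                dist (T φ y) (T φ x) ≤ H * dist (T φ z) (T φ x)) ∧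
          ∀ g h : EuclideanSpace ℝ (Fin n) → EuclideanSpace ℝ (Fin n),
            (Set.BijOn g (Metric.closedBall c r) (Metric.closedBall c r) ∧
              ∀ a ∈ Metric.closedBall c r, ∀ b ∈ Metric.closedBall c r,
              ∀ d ∈ Metric.closedBall c r, ∀ e ∈ Metric.closedBall c r,
                dist (g a) (g d) * dist (g b) (g e) * (dist a b * dist d e) =
                  dist a d * dist b e * (dist (g a) (g b) * dist (g d) (g e))) →
            (Set.BijOn h (Metric.closedBall c r) (Metric.closedBall c r) ∧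
              ∀ a ∈ Metric.closedBall c r, ∀ b ∈ Metric.closedBall c r,
              ∀ d ∈ Metric.closedBall c r, ∀ e ∈ Metric.closedBall c r,
                dist (h a) (h d) * dist (h b) (h e) * (dist a b * dist d e) =
                  dist a d * dist b e * (dist (h a) (h b) * dist (h d) (h e))) →
            Set.EqOn (g ∘ T φ ∘ h) (T (g ∘ φ ∘ h)) (Metric.ball c r)))) := by
  intro H
  have hmem : ∀ g : Aff, g ∈ stab (prodRep rhoE rhoU) (eW (U := U4) e7) ↔ g ∈ stab rhoE e7 := by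
    intro g
    rw [mem_stab, mem_stab]
    constructor
    · intro h
      exact congrArg (fun x : W2 E7 U4 => x.fst) h
    · intro h
      apply W2.ext'
      · exact h
      · show rhoU g 0 = 0
        simp
  have hfst : ∀ (x : W2 E7 U4) (g : Aff), prodRep rhoE rhoU g x = x →
      rhoE g x.fst = x.fst ∧ rhoU g x.snd = x.snd := by
    intro x g h
    exact ⟨congrArg (fun x : W2 E7 U4 => x.fst) h, congrArg (fun x : W2 E7 U4 => x.snd) h⟩
  have : FiniteDimensional ℝ (W2 E7 U4) := Module.finite_of_finrank_pos (by rw [finrank_W]; norm_num)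
  obtain ⟨b⟩ := boxes_exist g7 gdata7 v7 vdata7
  obtain ⟨s, hs, φ, hφ, hφe, hc⟩ := exch (eW (U := U4) e7) (prodRep rhoE rhoU)
    (by
      intro g h
      apply rhoE_e7_ne_neg g
      exact congrArg (fun x : W2 E7 U4 => x.fst) h)
    (tc_zero_exists e7 (WithLp.toLp 2 ((1 : ℂ), (0 : ℂ)) : U4) (by
      have h := W2.norm_sq (WithLp.toLp 2 ((1 : ℂ), (0 : ℂ)) : U4)
      have h1 : ‖(WithLp.toLp 2 ((1 : ℂ), (0 : ℂ)) : U4)‖ ^ 2 = 1 := by
        rw [h]; simp
      have h2 := norm_nonneg (WithLp.toLp 2 ((1 : ℂ), (0 : ℂ)) : U4)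
      nlinarith)) b
  refine obstr 10 finrank_W (prodRep rhoE rhoU) (eW (U := U4) e7) ?_ ?_ s hs φ hφ hφe hc
    (H 10 (by norm_num) 0 1 one_pos)
  · intro x hx
    apply W2.ext'
    · exact fixE_all _ (fun g => (hfst x g (hx g)).1)
    · exact fixU_stab _ (fun g _ => (hfst x g (hx g)).2)
  · intro x hx
    obtain ⟨t, ht⟩ := fixE_stab x.fst (fun g hg => (hfst x g (hx g ((hmem g).2 hg))).1)
    refine ⟨t, ?_⟩
    apply W2.ext'
    · exact ht
    · have h0 : x.snd = 0 := fixU_stab _ (fun g hg => (hfst x g (hx g ((hmem g).2 hg))).2)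
      rw [h0]
      show (0 : U4) = t • (0 : U4)
      simp

end Pool.Agent.Lib.MP_c2de4f_an
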