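import Pool.Agent.Lib.MP_c2de4f_an.Defs

set_option autoImplicit false

/-! # MOB1: the Moebius translations of the closed ball, metric properties -/

noncomputable section

open Metric Set
open scoped RealInnerProductSpace

namespace Pool.Agent.Lib.MP_c2de4f_an

variable {V : Type*} [NormedAddCommGroup V] [InnerProductSpace ℝ V] {e : V}

theorem den_pos (he : ‖e‖ = 1) (s : ℝ) (z : V) (hz : ‖z‖ ≤ 1) : 0 < den e s z := by
  unfold den
  have h1 : |⟪e, z⟫| ≤ ‖z‖ := by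
    have := abs_real_inner_le_norm e z
    rwa [he, one_mul] at this
  have hn : 0 ≤ ‖z‖ := norm_nonneg z
  have hcs : |Real.sinh s| < Real.cosh s := by
    rw [abs_lt]
    constructor
    · have := Real.exp_pos s
      have h2 := Real.cosh_add_sinh s
      linarith
    · have := Real.exp_pos (-s)
      have h2 := Real.cosh_sub_sinh s
      linarith
  have hc1 : 1 ≤ Real.cosh s := Real.one_le_cosh s
  have hsq := Real.cosh_sq s
  have h3 : -(|Real.sinh s| * ‖z‖) ≤ Real.sinh s * ⟪e, z⟫ := by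
    have : |Real.sinh s * ⟪e, z⟫| ≤ |Real.sinh s| * ‖z‖ := by
      rw [abs_mul]; gcongr
    linarith [neg_abs_le (Real.sinh s * ⟪e, z⟫)]
  set a := |Real.sinh s| with ha
  have ha2 : a ^ 2 = Real.cosh s ^ 2 - 1 := by rw [ha, sq_abs, hsq]; ring
  have ha0 : 0 ≤ a := abs_nonneg _
  set c := Real.cosh s
  set r := ‖z‖
  -- (c+1) + (c-1) r^2 - 2 a r > 0
  have key : 0 < (c + 1) + (c - 1) * r ^ 2 - 2 * a * r := by
    have h4 : (c + 1) * ((c + 1) + (c - 1) * r ^ 2 - 2 * a * r) = ((c + 1) - a * r) ^ 2 := by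
      nlinarith
    have h5 : 0 < (c + 1) - a * r := by nlinarith
    have h6 : 0 < ((c + 1) - a * r) ^ 2 := by positivity
    by_contra hcon
    push Not at hcon
    nlinarith
  nlinarith

theorem real_inner_expand (z e : V) (k : ℝ) (he : ‖e‖ = 1) :
    ‖z + k • e‖ ^ 2 = ‖z‖ ^ 2 + 2 * k * ⟪e, z⟫ + k ^ 2 := by
  rw [norm_add_sq_real, norm_smul, inner_smul_right, real_inner_comm, mul_pow, he]
  simp
  ring

theorem norm_Tb_sq (he : ‖e‖ = 1) (s : ℝ) (z : V) : ‖Tb e s z‖ ^ 2 =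
    (‖z‖ ^ 2 + 2 * (Real.sinh s * (1 + ‖z‖ ^ 2) / 2 + (Real.cosh s - 1) * ⟪e, z⟫) * ⟪e, z⟫ +
      (Real.sinh s * (1 + ‖z‖ ^ 2) / 2 + (Real.cosh s - 1) * ⟪e, z⟫) ^ 2) / den e s z ^ 2 := by
  unfold Tb
  rw [norm_smul, mul_pow, real_inner_expand _ _ _ he, norm_inv, Real.norm_eq_abs, inv_pow, sq_abs]
  field_simp

theorem one_sub_norm (he : ‖e‖ = 1) (s : ℝ) (z : V) (hz : ‖z‖ ≤ 1) :
    1 - ‖Tb e s z‖ ^ 2 = (1 - ‖z‖ ^ 2) / den e s z := by
  have hd := den_pos he s z hz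
  rw [norm_Tb_sq he]
  have key : den e s z ^ 2 -
      (‖z‖ ^ 2 + 2 * (Real.sinh s * (1 + ‖z‖ ^ 2) / 2 + (Real.cosh s - 1) * ⟪e, z⟫) * ⟪e, z⟫ +
      (Real.sinh s * (1 + ‖z‖ ^ 2) / 2 + (Real.cosh s - 1) * ⟪e, z⟫) ^ 2) =
      (1 - ‖z‖ ^ 2) * den e s z := by
    unfold den
    linear_combination ((1 + ‖z‖ ^ 2) ^ 2 / 4 - ⟪e, z⟫ ^ 2) * Real.cosh_sq s
  field_simp
  linear_combination 4 * key

theorem inner_Tb (he : ‖e‖ = 1) (s : ℝ) (z w : V) : ⟪Tb e s z, Tb e s w⟫ =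
    (⟪z, w⟫ + (Real.sinh s * (1 + ‖z‖ ^ 2) / 2 + (Real.cosh s - 1) * ⟪e, z⟫) * ⟪e, w⟫ +
      (Real.sinh s * (1 + ‖w‖ ^ 2) / 2 + (Real.cosh s - 1) * ⟪e, w⟫) * ⟪e, z⟫ +
      (Real.sinh s * (1 + ‖z‖ ^ 2) / 2 + (Real.cosh s - 1) * ⟪e, z⟫) *
      (Real.sinh s * (1 + ‖w‖ ^ 2) / 2 + (Real.cosh s - 1) * ⟪e, w⟫)) /
      (den e s z * den e s w) := by
  unfold Tb
  have hee : ⟪e, e⟫ = 1 := by rw [real_inner_self_eq_norm_sq, he]; norm_num
  rw [real_inner_smul_left, real_inner_smul_right, inner_add_left, inner_add_right,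
    inner_add_right, real_inner_smul_left, real_inner_smul_left, real_inner_smul_right,
    real_inner_smul_right, hee, real_inner_comm e z]
  simp only [div_eq_mul_inv, mul_inv]
  ring

theorem dist_Tb (he : ‖e‖ = 1) (s : ℝ) (z w : V) (hz : ‖z‖ ≤ 1) (hw : ‖w‖ ≤ 1) :
    dist (Tb e s z) (Tb e s w) ^ 2 = dist z w ^ 2 / (den e s z * den e s w) := by
  have hd := den_pos he s z hz
  have hd' := den_pos he s w hw
  have h1 := one_sub_norm he s z hz
  have h2 := one_sub_norm he s w hw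
  rw [dist_eq_norm, dist_eq_norm, norm_sub_sq_real, norm_sub_sq_real, inner_Tb he]
  have h1' : ‖Tb e s z‖ ^ 2 = 1 - (1 - ‖z‖ ^ 2) / den e s z := by linarith
  have h2' : ‖Tb e s w‖ ^ 2 = 1 - (1 - ‖w‖ ^ 2) / den e s w := by linarith
  rw [h1', h2']
  field_simp
  unfold den
  linear_combination (4 * ((1 + ‖z‖ ^ 2) * (1 + ‖w‖ ^ 2) / 4 - ⟪e, z⟫ * ⟪e, w⟫)) *
    Real.cosh_sq s

theorem norm_Tb_le (he : ‖e‖ = 1) (s : ℝ) (z : V) (hz : ‖z‖ ≤ 1) : ‖Tb e s z‖ ≤ 1 := by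
  have hd := den_pos he s z hz
  have h1 := one_sub_norm he s z hz
  have h2 : 0 ≤ (1 - ‖z‖ ^ 2) / den e s z := by
    apply div_nonneg _ hd.le
    nlinarith [norm_nonneg z]
  nlinarith [norm_nonneg (Tb e s z)]

theorem norm_Tb_lt (he : ‖e‖ = 1) (s : ℝ) (z : V) (hz : ‖z‖ < 1) : ‖Tb e s z‖ < 1 := by
  have hd := den_pos he s z hz.le
  have h1 := one_sub_norm he s z hz.le
  have h2 : 0 < (1 - ‖z‖ ^ 2) / den e s z := by
    apply div_pos _ hd
    nlinarith [norm_nonneg z]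
  nlinarith [norm_nonneg (Tb e s z)]

theorem norm_Tb_eq (he : ‖e‖ = 1) (s : ℝ) (z : V) (hz : ‖z‖ = 1) : ‖Tb e s z‖ = 1 := by
  have h1 := one_sub_norm he s z hz.le
  rw [hz] at h1
  have h2 : ‖Tb e s z‖ ^ 2 = 1 := by
    have : (1 - (1 : ℝ) ^ 2) / den e s z = 0 := by norm_num
    linarith
  have h3 := norm_nonneg (Tb e s z)
  nlinarith

theorem Tb_continuousOn (he : ‖e‖ = 1) (s : ℝ) : ContinuousOn (Tb e s) (closedBall (0 : V) 1) := by
  have hden : Continuous (fun z : V => den e s z) := by unfold den; fun_prop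
  intro z hz
  have hz' : ‖z‖ ≤ 1 := by simpa using hz
  have hd := den_pos he s z hz'
  apply ContinuousAt.continuousWithinAt
  unfold Tb
  apply ContinuousAt.smul
  · exact hden.continuousAt.inv₀ hd.ne'
  · fun_prop

theorem Tb_cr (he : ‖e‖ = 1) (s : ℝ) :
    ∀ a ∈ closedBall (0 : V) 1, ∀ b ∈ closedBall (0 : V) 1, ∀ d ∈ closedBall (0 : V) 1,
      ∀ f ∈ closedBall (0 : V) 1,
      dist (Tb e s a) (Tb e s d) * dist (Tb e s b) (Tb e s f) * (dist a b * dist d f) =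
        dist a d * dist b f * (dist (Tb e s a) (Tb e s b) * dist (Tb e s d) (Tb e s f)) := by
  intro a ha b hb d hd f hf
  have ha' : ‖a‖ ≤ 1 := by simpa using ha
  have hb' : ‖b‖ ≤ 1 := by simpa using hb
  have hd' : ‖d‖ ≤ 1 := by simpa using hd
  have hf' : ‖f‖ ≤ 1 := by simpa using hf
  have pa := den_pos he s a ha'
  have pb := den_pos he s b hb'
  have pd := den_pos he s d hd'
  have pf := den_pos he s f hf'
  have h : (dist (Tb e s a) (Tb e s d) * dist (Tb e s b) (Tb e s f) * (dist a b * dist d f)) ^ 2 =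
      (dist a d * dist b f * (dist (Tb e s a) (Tb e s b) * dist (Tb e s d) (Tb e s f))) ^ 2 := by
    simp only [mul_pow]
    rw [dist_Tb he s a d ha' hd', dist_Tb he s b f hb' hf', dist_Tb he s a b ha' hb',
      dist_Tb he s d f hd' hf']
    field_simp
  exact (pow_left_inj₀ (by positivity) (by positivity) two_ne_zero).1 h

end Pool.Agent.Lib.MP_c2de4f_an
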