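import Pool.Agent.Lib.MP_c2de4f_an.MOB1

set_option autoImplicit false

/-! # MOB2: the Moebius translations of the closed ball, group properties -/

noncomputable section

open Metric Set
open scoped RealInnerProductSpace

namespace Pool.Agent.Lib.MP_c2de4f_an

variable {V : Type*} [NormedAddCommGroup V] [InnerProductSpace ℝ V] {e : V}

theorem inner_e_Tb (he : ‖e‖ = 1) (s : ℝ) (z : V) :
    ⟪e, Tb e s z⟫ = (Real.sinh s * (1 + ‖z‖ ^ 2) / 2 + Real.cosh s * ⟪e, z⟫) / den e s z := by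
  have hee : ⟪e, e⟫ = 1 := by rw [real_inner_self_eq_norm_sq, he]; norm_num
  unfold Tb
  rw [real_inner_smul_right, inner_add_right, real_inner_smul_right, hee, div_eq_inv_mul]
  ring

theorem den_Tb (he : ‖e‖ = 1) (s s' : ℝ) (z : V) (hz : ‖z‖ ≤ 1) :
    den e s (Tb e s' z) = den e (s + s') z / den e s' z := by
  have hd := den_pos he s' z hz
  have h1 := one_sub_norm he s' z hz
  have h1' : ‖Tb e s' z‖ ^ 2 = 1 - (1 - ‖z‖ ^ 2) / den e s' z := by linarith
  conv_lhs => unfold den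
  rw [inner_e_Tb he, h1']
  field_simp
  unfold den
  rw [Real.cosh_add, Real.sinh_add]
  ring

theorem Tb_Tb (he : ‖e‖ = 1) (s s' : ℝ) (z : V) (hz : ‖z‖ ≤ 1) :
    Tb e s (Tb e s' z) = Tb e (s + s') z := by
  have hd := den_pos he s' z hz
  have hd2 := den_pos he (s + s') z hz
  have h1 := one_sub_norm he s' z hz
  have h1' : ‖Tb e s' z‖ ^ 2 = 1 - (1 - ‖z‖ ^ 2) / den e s' z := by linarith
  have hk : Real.sinh s * (1 + ‖Tb e s' z‖ ^ 2) / 2 + (Real.cosh s - 1) * ⟪e, Tb e s' z⟫ =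
      (den e s' z)⁻¹ * ((Real.sinh (s + s') * (1 + ‖z‖ ^ 2) / 2 +
        (Real.cosh (s + s') - 1) * ⟪e, z⟫) -
        (Real.sinh s' * (1 + ‖z‖ ^ 2) / 2 + (Real.cosh s' - 1) * ⟪e, z⟫)) := by
    rw [inner_e_Tb he, h1']
    field_simp
    unfold den
    rw [Real.cosh_add, Real.sinh_add]
    ring
  have e1 : Tb e s (Tb e s' z) = (den e s (Tb e s' z))⁻¹ • (Tb e s' z +
    (Real.sinh s * (1 + ‖Tb e s' z‖ ^ 2) / 2 + (Real.cosh s - 1) * ⟪e, Tb e s' z⟫) • e) := rfl
  rw [e1, hk, den_Tb he _ _ _ hz]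
  conv_lhs => rw [show Tb e s' z = (den e s' z)⁻¹ •
    (z + (Real.sinh s' * (1 + ‖z‖ ^ 2) / 2 + (Real.cosh s' - 1) * ⟪e, z⟫) • e) from rfl]
  rw [mul_smul, ← smul_add, smul_smul]
  have e2 : (den e (s + s') z / den e s' z)⁻¹ * (den e s' z)⁻¹ = (den e (s + s') z)⁻¹ := by
    field_simp
  rw [e2]
  unfold Tb
  congr 1
  rw [sub_smul]
  abel

theorem Tb_zero (z : V) : Tb e 0 z = z := by
  have : den e 0 z = 1 := by
    unfold den; simp; 
  unfold Tb
  rw [this]; simp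

theorem Tb_neg (he : ‖e‖ = 1) (s : ℝ) (z : V) : Tb e s (-z) = -Tb e (-s) z := by
  have hd : den e s (-z) = den e (-s) z := by
    unfold den; simp
  unfold Tb
  rw [hd, ← smul_neg]
  congr 1
  rw [neg_add, ← neg_smul]
  congr 2
  simp
  ring

theorem Tb_e (he : ‖e‖ = 1) (s : ℝ) : Tb e s e = e := by
  have hee : ⟪e, e⟫ = 1 := by rw [real_inner_self_eq_norm_sq, he]; norm_num
  have hd : den e s e = Real.cosh s + Real.sinh s := by
    unfold den; rw [he, hee]; ring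
  have hpos : 0 < Real.cosh s + Real.sinh s := by rw [Real.cosh_add_sinh]; positivity
  unfold Tb
  rw [hd, he, hee]
  have : e + (Real.sinh s * (1 + 1 ^ 2) / 2 + (Real.cosh s - 1) * 1) • e =
      (Real.cosh s + Real.sinh s) • e := by
    rw [← one_smul ℝ e, smul_smul, ← add_smul]
    congr 1
    · ring
    · simp
  rw [this, smul_smul, inv_mul_cancel₀ hpos.ne', one_smul]

/-- `Tb e s 0 = tanh (s/2) • e`; we only need that it is a multiple `c • e` with `0 < c < 1`. -/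
theorem Tb_origin (he : ‖e‖ = 1) (s : ℝ) (hs : 0 < s) :
    ∃ c : ℝ, 0 < c ∧ c < 1 ∧ Tb e s 0 = c • e := by
  have hd : den e s 0 = (Real.cosh s + 1) / 2 := by unfold den; simp
  have h1 : 0 < Real.sinh s := Real.sinh_pos_iff.2 hs
  have h2 : 1 ≤ Real.cosh s := Real.one_le_cosh s
  have h3 : Real.sinh s < Real.cosh s := Real.sinh_lt_cosh s
  refine ⟨Real.sinh s / (Real.cosh s + 1), by positivity, ?_, ?_⟩
  · rw [div_lt_one (by linarith)]; linarith
  · unfold Tb
    rw [hd]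
    simp only [norm_zero, inner_zero_right, zero_add, mul_zero, add_zero]
    rw [smul_smul]
    congr 1
    field_simp
    norm_num

theorem Tb_map (a : V ≃ₗᵢ[ℝ] V) (ha : a e = e) (s : ℝ) (z : V) :
    Tb e s (a z) = a (Tb e s z) := by
  have h1 : ⟪e, a z⟫ = ⟪e, z⟫ := by
    conv_lhs => rw [← ha]
    exact a.inner_map_map e z
  have h2 : ‖a z‖ = ‖z‖ := a.norm_map z
  unfold Tb den
  rw [h1, h2, map_smul, map_add, map_smul, ha]

theorem Tb_bijOn (he : ‖e‖ = 1) (s : ℝ) :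
    BijOn (Tb e s) (closedBall (0 : V) 1) (closedBall (0 : V) 1) := by
  have hm : ∀ s : ℝ, MapsTo (Tb e s) (closedBall (0 : V) 1) (closedBall (0 : V) 1) := by
    intro s z hz
    have hz' : ‖z‖ ≤ 1 := by simpa using hz
    simpa using norm_Tb_le he s z hz'
  have hinv : InvOn (Tb e (-s)) (Tb e s) (closedBall (0 : V) 1) (closedBall (0 : V) 1) := by
    constructor
    · intro z hz
      have hz' : ‖z‖ ≤ 1 := by simpa using hz
      rw [Tb_Tb he _ _ _ hz']; simp [Tb_zero]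
    · intro z hz
      have hz' : ‖z‖ ≤ 1 := by simpa using hz
      rw [Tb_Tb he _ _ _ hz']; simp [Tb_zero]
  exact hinv.bijOn (hm s) (hm (-s))

end Pool.Agent.Lib.MP_c2de4f_an
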