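import Pool.Agent.Lib.MP_c2de4f_an.EXDEF

set_option autoImplicit false

/-! # OBS1: the contradiction -/

noncomputable section

open Metric Set
open scoped RealInnerProductSpace

namespace Pool.Agent.Lib.MP_c2de4f_an

variable {V : Type*} [NormedAddCommGroup V] [InnerProductSpace ℝ V]

/-- A homeomorphism of the closed ball with the given symmetries cannot exchange the ends. -/
theorem obstr_core {A : Type*} [Group A] (ρ : A →* (V ≃ₗᵢ[ℝ] V)) (e : Sph V)
    (hA : ∀ v : V, (∀ a, ρ a v = v) → v = 0)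
    (hB : ∀ v : V, (∀ a ∈ stab ρ e, ρ a v = v) → ∃ t : ℝ, v = t • (e : V))
    (s : ℝ) (hs : 0 < s) (F : V → V) (hF : ContinuousOn F (closedBall 0 1))
    (hmaps : MapsTo F (ball 0 1) (ball 0 1)) (hinj : InjOn F (ball 0 1))
    (hFe : F (e : V) = -(e : V))
    (h1 : ∀ a, ∀ x ∈ ball (0 : V) 1, F (ρ a x) = ρ a (F x))
    (h2 : ∀ a, ∀ x ∈ ball (0 : V) 1, F (Tb (e : V) (2 * s) (ρ a (Tb (e : V) (-(2 * s)) x))) =
      Tb (e : V) (2 * s) (ρ a (Tb (e : V) (-(2 * s)) (F x)))) : False := by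
  have he : ‖(e : V)‖ = 1 := by simp
  have h0 : (0 : V) ∈ ball (0 : V) 1 := by simp
  have hF0 : F 0 = 0 := by
    apply hA
    intro a
    have := h1 a 0 h0
    rw [map_zero] at this
    exact this.symm
  obtain ⟨c, hc0, hc1, hc⟩ := Tb_origin he (2 * s) (by linarith)
  have hin : ∀ r : ℝ, |r| < 1 → (r • (e : V)) ∈ ball (0 : V) 1 := by
    intro r hr
    rw [mem_ball_zero_iff, norm_smul, he, mul_one, Real.norm_eq_abs]
    exact hr
  have hp : (c • (e : V)) ∈ ball (0 : V) 1 := hin c (by rw [abs_of_pos hc0]; exact hc1)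
  have hback : Tb (e : V) (-(2 * s)) (c • (e : V)) = 0 := by
    rw [← hc, Tb_Tb he _ _ _ (by simp), neg_add_cancel]
    exact Tb_zero 0
  have hFpb : ‖F (c • (e : V))‖ ≤ 1 := (mem_ball_zero_iff.1 (hmaps hp)).le
  have hFp : F (c • (e : V)) = c • (e : V) := by
    have key : ∀ a, ρ a (Tb (e : V) (-(2 * s)) (F (c • (e : V)))) =
        Tb (e : V) (-(2 * s)) (F (c • (e : V))) := by
      intro a
      have h := h2 a _ hp
      rw [hback, map_zero, hc] at h
      have hn : ‖ρ a (Tb (e : V) (-(2 * s)) (F (c • (e : V))))‖ ≤ 1 := by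
        rw [LinearIsometryEquiv.norm_map]
        exact norm_Tb_le he _ _ hFpb
      have h3 := congrArg (Tb (e : V) (-(2 * s))) h
      rw [Tb_Tb he _ _ _ hn, neg_add_cancel, Tb_zero] at h3
      exact h3.symm
    have hz := hA _ key
    have h4 := congrArg (Tb (e : V) (2 * s)) hz
    rw [Tb_Tb he _ _ _ hFpb, add_neg_cancel, Tb_zero, hc] at h4
    exact h4
  have hline : ∀ r : ℝ, |r| < 1 → ∃ t : ℝ, F (r • (e : V)) = t • (e : V) := by
    intro r hr
    apply hB
    intro a ha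
    have h3 := h1 a _ (hin r hr)
    rw [map_smul, (mem_stab ρ e a).1 ha] at h3
    exact h3.symm
  have hu : ContinuousOn (fun r : ℝ => ⟪F (r • (e : V)), (e : V)⟫) (Icc c 1) := by
    refine ContinuousOn.inner ?_ continuousOn_const
    refine hF.comp (by fun_prop) ?_
    intro r hr
    rw [mem_closedBall_zero_iff, norm_smul, he, mul_one, Real.norm_eq_abs, abs_of_nonneg]
    · exact hr.2
    · exact hc0.le.trans hr.1
  have hee : ⟪(e : V), (e : V)⟫ = 1 := by
    rw [real_inner_self_eq_norm_sq, he]; norm_num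
  have huc : ⟪F (c • (e : V)), (e : V)⟫ = c := by
    rw [hFp, real_inner_smul_left, hee, mul_one]
  have hu1 : ⟪F ((1 : ℝ) • (e : V)), (e : V)⟫ = -1 := by
    rw [one_smul, hFe, inner_neg_left, hee]
  have hmem : (0 : ℝ) ∈ Icc (⟪F ((1 : ℝ) • (e : V)), (e : V)⟫) (⟪F (c • (e : V)), (e : V)⟫) := by
    rw [huc, hu1]
    exact ⟨by norm_num, hc0.le⟩
  obtain ⟨r, hr, hr0⟩ := intermediate_value_Icc' hc1.le hu hmem
  have hr0' : ⟪F (r • (e : V)), (e : V)⟫ = 0 := hr0
  have hr1 : r ≠ 1 := by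
    rintro rfl
    rw [hu1] at hr0'
    norm_num at hr0'
  have hrlt : r < 1 := lt_of_le_of_ne hr.2 hr1
  have hrpos : 0 < r := hc0.trans_le hr.1
  have hra : |r| < 1 := by rw [abs_of_pos hrpos]; exact hrlt
  obtain ⟨t, ht⟩ := hline r hra
  rw [ht, real_inner_smul_left, hee, mul_one] at hr0'
  rw [hr0', zero_smul] at ht
  have h5 : r • (e : V) = 0 := hinj (hin r hra) h0 (by rw [ht, hF0])
  rcases smul_eq_zero.1 h5 with h6 | h6
  · exact hrpos.ne' h6
  · rw [h6, norm_zero] at he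
    norm_num at he

end Pool.Agent.Lib.MP_c2de4f_an
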