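import Pool.Agent.Lib.MP_c2de4f_an.OBS1

set_option autoImplicit false

/-! # OBS2: no conformally natural extension operator -/

noncomputable section

open Metric Set
open scoped RealInnerProductSpace

namespace Pool.Agent.Lib.MP_c2de4f_an

namespace OBS2

variable {V : Type*} [NormedAddCommGroup V] [InnerProductSpace ℝ V]

/-- The class of Moebius self-maps of the closed ball used here. -/
structure Mb (M : V → V) : Prop where
  bij : BijOn M (closedBall (0 : V) 1) (closedBall (0 : V) 1)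
  m : ∃ m : V → ℝ, (∀ x ∈ closedBall (0 : V) 1, 0 < m x) ∧
    ∀ x ∈ closedBall (0 : V) 1, ∀ y ∈ closedBall (0 : V) 1,
      dist (M x) (M y) ^ 2 = dist x y ^ 2 * (m x * m y)

theorem Mb.comp {M N : V → V} (hM : Mb M) (hN : Mb N) : Mb (fun x => M (N x)) := by
  obtain ⟨m, hm, hm2⟩ := hM.m
  obtain ⟨n, hn, hn2⟩ := hN.m
  refine ⟨hM.bij.comp hN.bij, fun x => n x * m (N x), ?_, ?_⟩
  · intro x hx
    exact mul_pos (hn x hx) (hm _ (hN.bij.mapsTo hx))
  · intro x hx y hy
    show dist (M (N x)) (M (N y)) ^ 2 = _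
    rw [hm2 _ (hN.bij.mapsTo hx) _ (hN.bij.mapsTo hy), hn2 x hx y hy]
    ring

theorem Mb.isom (a : V ≃ₗᵢ[ℝ] V) : Mb (fun x => a x) := by
  refine ⟨?_, fun _ => 1, fun _ _ => one_pos, ?_⟩
  · refine ⟨?_, a.injective.injOn, ?_⟩
    · intro x hx
      simpa using hx
    · intro y hy
      refine ⟨a.symm y, ?_, by simp⟩
      simpa using hy
  · intro x _ y _
    simp [a.dist_map]

theorem Mb.tb {e : V} (he : ‖e‖ = 1) (s : ℝ) : Mb (fun x => Tb e s x) := by
  refine ⟨Tb_bijOn he s, fun x => (den e s x)⁻¹, ?_, ?_⟩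
  · intro x hx
    exact inv_pos.2 (den_pos he s x (by simpa using hx))
  · intro x hx y hy
    show dist (Tb e s x) (Tb e s y) ^ 2 = _
    rw [dist_Tb he s x y (by simpa using hx) (by simpa using hy), div_eq_mul_inv, mul_inv]

theorem Mb.cr {M : V → V} (hM : Mb M) :
    ∀ a ∈ closedBall (0 : V) 1, ∀ b ∈ closedBall (0 : V) 1, ∀ d ∈ closedBall (0 : V) 1,
      ∀ e ∈ closedBall (0 : V) 1,
      dist (M a) (M d) * dist (M b) (M e) * (dist a b * dist d e) =
        dist a d * dist b e * (dist (M a) (M b) * dist (M d) (M e)) := by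
  obtain ⟨m, hm, hm2⟩ := hM.m
  intro a ha b hb d hd e he
  have h1 := hm2 a ha d hd
  have h2 := hm2 b hb e he
  have h3 := hm2 a ha b hb
  have h4 := hm2 d hd e he
  have hsq : (dist (M a) (M d) * dist (M b) (M e) * (dist a b * dist d e)) ^ 2 =
      (dist a d * dist b e * (dist (M a) (M b) * dist (M d) (M e))) ^ 2 := by
    have e1 : (dist (M a) (M d) * dist (M b) (M e) * (dist a b * dist d e)) ^ 2 =
      dist (M a) (M d) ^ 2 * dist (M b) (M e) ^ 2 * (dist a b ^ 2 * dist d e ^ 2) := by ring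
    have e2 : (dist a d * dist b e * (dist (M a) (M b) * dist (M d) (M e))) ^ 2 =
      dist a d ^ 2 * dist b e ^ 2 * (dist (M a) (M b) ^ 2 * dist (M d) (M e) ^ 2) := by ring
    rw [e1, e2, h1, h2, h3, h4]
    ring
  exact (sq_eq_sq₀ (by positivity) (by positivity)).1 hsq

variable {W : Type*} [NormedAddCommGroup W] [InnerProductSpace ℝ W]

theorem tr_bij (i : V ≃ₗᵢ[ℝ] W) {M : V → V} (hM : Mb M) :
    BijOn (fun y => i (M (i.symm y))) (closedBall (0 : W) 1) (closedBall (0 : W) 1) := by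
  refine ⟨?_, ?_, ?_⟩
  · intro y hy
    have h1 : i.symm y ∈ closedBall (0 : V) 1 := by simpa using hy
    have h2 := hM.bij.mapsTo h1
    simpa using h2
  · intro y hy z hz hyz
    have h1 : i.symm y ∈ closedBall (0 : V) 1 := by simpa using hy
    have h2 : i.symm z ∈ closedBall (0 : V) 1 := by simpa using hz
    have h3 := hM.bij.injOn h1 h2 (i.injective hyz)
    exact i.symm.injective h3
  · intro y hy
    have h1 : i.symm y ∈ closedBall (0 : V) 1 := by simpa using hy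
    obtain ⟨x, hx, hxy⟩ := hM.bij.surjOn h1
    refine ⟨i x, by simpa using hx, ?_⟩
    show i (M (i.symm (i x))) = y
    rw [i.symm_apply_apply, hxy, i.apply_symm_apply]

theorem tr_cr (i : V ≃ₗᵢ[ℝ] W) {M : V → V} (hM : Mb M) :
    ∀ a ∈ closedBall (0 : W) 1, ∀ b ∈ closedBall (0 : W) 1, ∀ d ∈ closedBall (0 : W) 1,
      ∀ e ∈ closedBall (0 : W) 1,
      dist (i (M (i.symm a))) (i (M (i.symm d))) * dist (i (M (i.symm b))) (i (M (i.symm e))) *
        (dist a b * dist d e) =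
        dist a d * dist b e * (dist (i (M (i.symm a))) (i (M (i.symm b))) *
          dist (i (M (i.symm d))) (i (M (i.symm e)))) := by
  intro a ha b hb d hd e he
  have h := hM.cr (i.symm a) (by simpa using ha) (i.symm b) (by simpa using hb)
    (i.symm d) (by simpa using hd) (i.symm e) (by simpa using he)
  simp only [i.dist_map, i.symm.dist_map] at h ⊢
  exact h

section act
variable {A : Type*} [Group A] (ρ : A →* (V ≃ₗᵢ[ℝ] V)) (e : Sph V) (s : ℝ)

/-- The two actions on the closed ball. -/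
def cV (i : Bool) (a : A) (x : V) : V :=
  match i with
  | true => ρ a x
  | false => Tb (e : V) (2 * s) (ρ a (Tb (e : V) (-(2 * s)) x))

theorem cV_coe (i : Bool) (a : A) (x : Sph V) : (cact ρ e s i a x : V) = cV ρ e s i a x := by
  cases i <;> rfl

theorem norm_e : ‖(e : V)‖ = 1 := by simp

theorem cV_mb (i : Bool) (a : A) : Mb (cV ρ e s i a) := by
  cases i
  · exact (Mb.tb (norm_e e) (2 * s)).comp
      ((Mb.isom (ρ a)).comp (Mb.tb (norm_e e) (-(2 * s))))
  · exact Mb.isom (ρ a)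

theorem cV_inv (i : Bool) (a : A) (x : V) (hx : ‖x‖ ≤ 1) :
    cV ρ e s i a⁻¹ (cV ρ e s i a x) = x := by
  have hr : ∀ y : V, ρ a⁻¹ (ρ a y) = y := by
    intro y
    show (ρ a⁻¹ * ρ a) y = y
    rw [← map_mul, inv_mul_cancel, map_one]
    rfl
  cases i
  · show Tb (e : V) (2 * s) (ρ a⁻¹ (Tb (e : V) (-(2 * s))
      (Tb (e : V) (2 * s) (ρ a (Tb (e : V) (-(2 * s)) x))))) = x
    have h1 : ‖Tb (e : V) (-(2 * s)) x‖ ≤ 1 := norm_Tb_le (norm_e e) _ _ hx
    have h2 : ‖ρ a (Tb (e : V) (-(2 * s)) x)‖ ≤ 1 := by simpa using h1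
    rw [Tb_Tb (norm_e e) _ _ _ h2]
    rw [show -(2 * s) + 2 * s = 0 by ring, Tb_zero, hr, Tb_Tb (norm_e e) _ _ _ hx]
    rw [show 2 * s + -(2 * s) = 0 by ring, Tb_zero]
  · exact hr x

end act

end OBS2

open OBS2 in
theorem obstr {V : Type*} [NormedAddCommGroup V] [InnerProductSpace ℝ V] [FiniteDimensional ℝ V]
    (n : ℕ) (hn : Module.finrank ℝ V = n) {A : Type*} [Group A] (ρ : A →* (V ≃ₗᵢ[ℝ] V)) (e : Sph V)
    (hA : ∀ v : V, (∀ a, ρ a v = v) → v = 0)
    (hB : ∀ v : V, (∀ a ∈ stab ρ e, ρ a v = v) → ∃ t : ℝ, v = t • (e : V))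
    (s : ℝ) (hs : 0 < s) (φ : Sph V ≃ₜ Sph V) (hφ : QC φ) (hφe : φ e = -e)
    (hc : ∀ i a x, φ (cact ρ e s i a x) = cact ρ e s i a (φ x)) :
    ¬ ∃ T : (EuclideanSpace ℝ (Fin n) → EuclideanSpace ℝ (Fin n)) →
        (EuclideanSpace ℝ (Fin n) → EuclideanSpace ℝ (Fin n)),
      (∀ φ ψ : EuclideanSpace ℝ (Fin n) → EuclideanSpace ℝ (Fin n),
          Set.EqOn φ ψ (Metric.sphere 0 1) → Set.EqOn (T φ) (T ψ) (Metric.ball 0 1)) ∧
      (∀ φ : EuclideanSpace ℝ (Fin n) → EuclideanSpace ℝ (Fin n),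
        (Set.BijOn φ (Metric.sphere 0 1) (Metric.sphere 0 1) ∧
          ContinuousOn φ (Metric.sphere 0 1) ∧
          ∃ H : ℝ, ∀ x ∈ Metric.sphere 0 1, ∃ δ > (0 : ℝ), ∀ ρ : ℝ, 0 < ρ → ρ < δ →
            ∀ y ∈ Metric.sphere 0 1, ∀ z ∈ Metric.sphere 0 1,
              dist y x = ρ → dist z x = ρ → dist (φ y) (φ x) ≤ H * dist (φ z) (φ x)) →
        (ContinuousOn (T φ) (Metric.closedBall 0 1) ∧
          Set.EqOn (T φ) φ (Metric.sphere 0 1) ∧
          Set.BijOn (T φ) (Metric.ball 0 1) (Metric.ball 0 1) ∧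
          (∃ H : ℝ, ∀ x ∈ Metric.ball 0 1, ∃ δ > (0 : ℝ), ∀ ρ : ℝ, 0 < ρ → ρ < δ →
            ∀ y z : EuclideanSpace ℝ (Fin n),
              dist y x = ρ → dist z x = ρ →
                dist (T φ y) (T φ x) ≤ H * dist (T φ z) (T φ x)) ∧
          ∀ g h : EuclideanSpace ℝ (Fin n) → EuclideanSpace ℝ (Fin n),
            (Set.BijOn g (Metric.closedBall 0 1) (Metric.closedBall 0 1) ∧
              ∀ a ∈ Metric.closedBall 0 1, ∀ b ∈ Metric.closedBall 0 1,
              ∀ d ∈ Metric.closedBall 0 1, ∀ e ∈ Metric.closedBall 0 1,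
                dist (g a) (g d) * dist (g b) (g e) * (dist a b * dist d e) =
                  dist a d * dist b e * (dist (g a) (g b) * dist (g d) (g e))) →
            (Set.BijOn h (Metric.closedBall 0 1) (Metric.closedBall 0 1) ∧
              ∀ a ∈ Metric.closedBall 0 1, ∀ b ∈ Metric.closedBall 0 1,
              ∀ d ∈ Metric.closedBall 0 1, ∀ e ∈ Metric.closedBall 0 1,
                dist (h a) (h d) * dist (h b) (h e) * (dist a b * dist d e) =
                  dist a d * dist b e * (dist (h a) (h b) * dist (h d) (h e))) →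
            Set.EqOn (g ∘ T φ ∘ h) (T (g ∘ φ ∘ h)) (Metric.ball 0 1))) := by
  subst hn
  rintro ⟨T, hT1, hT2⟩
  classical
  set i : V ≃ₗᵢ[ℝ] EuclideanSpace ℝ (Fin (Module.finrank ℝ V)) :=
    (stdOrthonormalBasis ℝ V).repr with hi
  clear_value i
  have hsph : ∀ y : EuclideanSpace ℝ (Fin (Module.finrank ℝ V)), y ∈ sphere
      (0 : EuclideanSpace ℝ (Fin (Module.finrank ℝ V))) 1 → i.symm y ∈ sphere (0 : V) 1 := by
    intro y hy
    simpa using hy
  let φ' : EuclideanSpace ℝ (Fin (Module.finrank ℝ V)) →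
      EuclideanSpace ℝ (Fin (Module.finrank ℝ V)) :=
    fun y => if h : i.symm y ∈ sphere (0 : V) 1 then i (φ ⟨i.symm y, h⟩ : V) else 0
  have hφ' : ∀ (y : EuclideanSpace ℝ (Fin (Module.finrank ℝ V))) (h : i.symm y ∈ sphere (0 : V) 1),
      φ' y = i (φ ⟨i.symm y, h⟩ : V) := by
    intro y h
    simp only [φ', dif_pos h]
  have hφi : ∀ x : Sph V, φ' (i x) = i (φ x : V) := by
    intro x
    have h : i.symm (i (x : V)) ∈ sphere (0 : V) 1 := by
      rw [i.symm_apply_apply]; exact x.2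
    rw [hφ' _ h]
    congr 3
    apply Subtype.ext
    exact i.symm_apply_apply _
  have hbij : Set.BijOn φ' (Metric.sphere 0 1) (Metric.sphere 0 1) := by
    refine ⟨?_, ?_, ?_⟩
    · intro y hy
      rw [hφ' y (hsph y hy)]
      simp
    · intro y hy z hz hyz
      rw [hφ' y (hsph y hy), hφ' z (hsph z hz)] at hyz
      have h1 := i.injective hyz
      have h2 := φ.injective (Subtype.ext h1)
      have h3 : i.symm y = i.symm z := congrArg Subtype.val h2
      exact i.symm.injective h3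
    · intro y hy
      obtain ⟨x, hx⟩ := φ.surjective ⟨i.symm y, hsph y hy⟩
      refine ⟨i x, by simp, ?_⟩
      rw [hφi, hx]
      exact i.apply_symm_apply _
  have hcont : ContinuousOn φ' (Metric.sphere 0 1) := by
    rw [continuousOn_iff_continuous_domRestrict]
    have h1 : (Metric.sphere (0 : EuclideanSpace ℝ (Fin (Module.finrank ℝ V))) 1).domRestrict φ' =
        fun y : Metric.sphere (0 : EuclideanSpace ℝ (Fin (Module.finrank ℝ V))) 1 => i (φ ⟨i.symm (y : EuclideanSpace ℝ (Fin (Module.finrank ℝ V))),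
          hsph _ y.2⟩ : V) := by
      funext y
      exact hφ' _ (hsph _ y.2)
    rw [h1]
    refine i.continuous.comp (continuous_subtype_val.comp (φ.continuous.comp ?_))
    exact (i.symm.continuous.comp continuous_subtype_val).subtype_mk _
  have hqc : ∃ H : ℝ, ∀ x ∈ Metric.sphere (0 : EuclideanSpace ℝ (Fin (Module.finrank ℝ V))) 1,
      ∃ δ > (0 : ℝ), ∀ ρ : ℝ, 0 < ρ → ρ < δ →
      ∀ y ∈ Metric.sphere (0 : EuclideanSpace ℝ (Fin (Module.finrank ℝ V))) 1,
        ∀ z ∈ Metric.sphere (0 : EuclideanSpace ℝ (Fin (Module.finrank ℝ V))) 1,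
        dist y x = ρ → dist z x = ρ → dist (φ' y) (φ' x) ≤ H * dist (φ' z) (φ' x) := by
    obtain ⟨H, hH⟩ := hφ
    refine ⟨H, fun x hx => ?_⟩
    obtain ⟨δ, hδ, h⟩ := hH ⟨i.symm x, hsph x hx⟩
    refine ⟨δ, hδ, fun r hr hrd y hy z hz hyx hzx => ?_⟩
    have h1 := h r hr hrd ⟨i.symm y, hsph y hy⟩ ⟨i.symm z, hsph z hz⟩
      (by rw [Subtype.dist_eq]; simpa using hyx) (by rw [Subtype.dist_eq]; simpa using hzx)
    rw [hφ' y (hsph y hy), hφ' x (hsph x hx), hφ' z (hsph z hz), i.dist_map, i.dist_map]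
    rw [Subtype.dist_eq, Subtype.dist_eq] at h1
    exact h1
  obtain ⟨hTc, hTs, hTb, -, hTn⟩ := hT2 φ' ⟨hbij, hcont, hqc⟩
  set F : V → V := fun x => i.symm (T φ' (i x)) with hF
  have hFb : ∀ x ∈ ball (0 : V) 1, F x ∈ ball (0 : V) 1 := by
    intro x hx
    have h1 : i x ∈ ball (0 : EuclideanSpace ℝ (Fin (Module.finrank ℝ V))) 1 := by simpa using hx
    have h2 := hTb.mapsTo h1
    simpa [F] using h2
  have hFs : ∀ x ∈ sphere (0 : V) 1, F x ∈ sphere (0 : V) 1 := by
    intro x hx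
    have h1 : i x ∈ sphere (0 : EuclideanSpace ℝ (Fin (Module.finrank ℝ V))) 1 := by simpa using hx
    have h2 := hbij.mapsTo h1
    rw [← hTs h1] at h2
    simpa [F] using h2
  have hFcb : ∀ x ∈ closedBall (0 : V) 1, F x ∈ closedBall (0 : V) 1 := by
    intro x hx
    rw [← ball_union_sphere] at hx ⊢
    rcases hx with hx | hx
    · exact Or.inl (hFb x hx)
    · exact Or.inr (hFs x hx)
  have key : ∀ (j : Bool) (a : A), ∀ x ∈ ball (0 : V) 1,
      F (cV ρ e s j a x) = cV ρ e s j a (F x) := by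
    intro j a x hx
    have hM := cV_mb ρ e s j a
    have hM' := cV_mb ρ e s j a⁻¹
    have hnat := hTn (fun y => i (cV ρ e s j a⁻¹ (i.symm y))) (fun y => i (cV ρ e s j a (i.symm y)))
      ⟨tr_bij i hM', tr_cr i hM'⟩ ⟨tr_bij i hM, tr_cr i hM⟩
    have hloc : Set.EqOn ((fun y => i (cV ρ e s j a⁻¹ (i.symm y))) ∘ φ' ∘
        (fun y => i (cV ρ e s j a (i.symm y)))) φ' (Metric.sphere 0 1) := by
      intro y hy
      show i (cV ρ e s j a⁻¹ (i.symm (φ' (i (cV ρ e s j a (i.symm y)))))) = φ' y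
      have e1 : cV ρ e s j a (i.symm y) = (cact ρ e s j a ⟨i.symm y, hsph y hy⟩ : Sph V) :=
        (cV_coe ρ e s j a ⟨i.symm y, hsph y hy⟩).symm
      rw [e1, hφi, hc, i.symm_apply_apply, cV_coe, cV_inv ρ e s j a _ (by simp),
        hφ' y (hsph y hy)]
    have h1 := hT1 _ _ hloc
    have hix : i x ∈ ball (0 : EuclideanSpace ℝ (Fin (Module.finrank ℝ V))) 1 := by simpa using hx
    have h2 := (hnat hix).trans (h1 hix)
    have h3 : i (cV ρ e s j a⁻¹ (F (cV ρ e s j a x))) = T φ' (i x) := by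
      have h4 : i (cV ρ e s j a⁻¹ (i.symm (T φ' (i (cV ρ e s j a (i.symm (i x))))))) =
        T φ' (i x) := h2
      rw [i.symm_apply_apply] at h4
      exact h4
    have h5 : cV ρ e s j a⁻¹ (F (cV ρ e s j a x)) = F x := by
      show _ = i.symm (T φ' (i x))
      rw [← h3, i.symm_apply_apply]
    rw [← h5]
    have h6 : F (cV ρ e s j a x) ∈ closedBall (0 : V) 1 :=
      hFcb _ (hM.bij.mapsTo (ball_subset_closedBall hx))
    have h7 := cV_inv ρ e s j a⁻¹ (F (cV ρ e s j a x)) (by simpa using h6)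
    rw [inv_inv] at h7
    exact h7.symm
  refine obstr_core ρ e hA hB s hs F ?_ hFb ?_ ?_ (key true) (key false)
  · refine i.symm.continuous.comp_continuousOn (hTc.comp i.continuous.continuousOn ?_)
    intro x hx
    simpa using hx
  · intro x hx y hy hxy
    have h1 : i x ∈ ball (0 : EuclideanSpace ℝ (Fin (Module.finrank ℝ V))) 1 := by simpa using hx
    have h2 : i y ∈ ball (0 : EuclideanSpace ℝ (Fin (Module.finrank ℝ V))) 1 := by simpa using hy
    exact i.injective (hTb.injOn h1 h2 (i.symm.injective hxy))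
  · show i.symm (T φ' (i e)) = -(e : V)
    rw [hTs (by simp : i (e : V) ∈ sphere _ _), hφi, i.symm_apply_apply, hφe]
    rfl

end Pool.Agent.Lib.MP_c2de4f_an
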