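import Pool.Agent.Lib.MP_c2de4f_an.Prod
import Pool.Agent.Lib.MP_c2de4f_an.HOM
import Pool.Agent.Lib.MP_c2de4f_an.SHR

set_option autoImplicit false

/-! # P1: the first particle -/

noncomputable section

open Metric Set
open scoped RealInnerProductSpace

namespace Pool.Agent.Lib.MP_c2de4f_an

variable {E U : Type*} [NormedAddCommGroup E] [InnerProductSpace ℝ E]
  [NormedAddCommGroup U] [InnerProductSpace ℝ U] {A : Type*} [Group A]
  {ρE : A →* (E ≃ₗᵢ[ℝ] E)} {ρU : A →* (U ≃ₗᵢ[ℝ] U)} {ec : Sph E}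

set_option linter.unusedSectionVars false

namespace P1aux

theorem snd_norm_le (x : W2 E U) : ‖x.snd‖ ≤ ‖x‖ := by
  have := W2.norm_sq x
  nlinarith [norm_nonneg x, norm_nonneg x.snd, sq_nonneg ‖x.fst‖]

theorem fst_norm_le (x : W2 E U) : ‖x.fst‖ ≤ ‖x‖ := by
  have := W2.norm_sq x
  nlinarith [norm_nonneg x, norm_nonneg x.fst, sq_nonneg ‖x.snd‖]

theorem norm_eW (ec : Sph E) : ‖(ec : E)‖ = 1 := by simp

/-- Pythagoras along the axis. -/
theorem wpart_sq (ec : Sph E) (x : E) :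
    ‖x - ⟪(ec : E), x⟫ • (ec : E)‖ ^ 2 + ⟪(ec : E), x⟫ ^ 2 = ‖x‖ ^ 2 := by
  have h1 : ⟪(ec : E), (ec : E)⟫ = 1 := by
    rw [real_inner_self_eq_norm_sq, norm_eW, one_pow]
  rw [← real_inner_self_eq_norm_sq, ← real_inner_self_eq_norm_sq x]
  rw [inner_sub_left, inner_sub_right, inner_sub_right, inner_smul_left, inner_smul_right,
    inner_smul_left, inner_smul_right, h1, real_inner_comm (ec : E) x]
  simp
  ring

theorem tc_eW (ec : Sph E) (x : Sph (W2 E U)) : tc (eW ec) x = ⟪(ec : E), (x : W2 E U).fst⟫ := by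
  unfold tc eW
  rw [W2.inner_def]
  simp

theorem abs_t_le (ec : Sph E) (x : E) : |⟪(ec : E), x⟫| ≤ ‖x‖ := by
  have := abs_real_inner_le_norm (ec : E) x
  rwa [norm_eW, one_mul] at this

theorem wpart_le (ec : Sph E) (x : W2 E U) : ‖wpart ec x‖ ≤ ‖x.fst‖ := by
  have h := wpart_sq ec x.fst
  unfold wpart
  exact abs_le_of_sq_le_sq' (by nlinarith [sq_nonneg ⟪(ec : E), x.fst⟫]) (norm_nonneg _) |>.2

/-- the shear -/
def shear (G : E → U) (X : W2 E U) : W2 E U := WithLp.toLp 2 (X.fst, X.snd + G X.fst)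

@[simp] theorem shear_fst (G : E → U) (X : W2 E U) : (shear G X).fst = X.fst := rfl
@[simp] theorem shear_snd (G : E → U) (X : W2 E U) : (shear G X).snd = X.snd + G X.fst := rfl

theorem shear_lip (G : E → U) (K : ℝ) (hK : ∀ x y, ‖G x - G y‖ ≤ K * ‖x - y‖) (hK0 : 0 ≤ K)
    (X Y : W2 E U) : ‖shear G X - shear G Y‖ ≤ (1 + K) * ‖X - Y‖ := by
  have e : shear G X - shear G Y = (X - Y) + WithLp.toLp 2 ((0 : E), G X.fst - G Y.fst) := by
    apply W2.ext'
    · simp
    · simp; abel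
  have hn : ‖(WithLp.toLp 2 ((0 : E), G X.fst - G Y.fst) : W2 E U)‖ = ‖G X.fst - G Y.fst‖ := by
    refine (sq_eq_sq₀ (norm_nonneg _) (norm_nonneg _)).1 ?_
    rw [W2.norm_sq]
    simp
  have hf : ‖X.fst - Y.fst‖ ≤ ‖X - Y‖ := fst_norm_le (X - Y)
  rw [e]
  calc ‖(X - Y) + WithLp.toLp 2 ((0 : E), G X.fst - G Y.fst)‖
      ≤ ‖X - Y‖ + ‖(WithLp.toLp 2 ((0 : E), G X.fst - G Y.fst) : W2 E U)‖ := norm_add_le _ _
    _ = ‖X - Y‖ + ‖G X.fst - G Y.fst‖ := by rw [hn]
    _ ≤ ‖X - Y‖ + K * ‖X - Y‖ := by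
        have := hK X.fst Y.fst
        have := mul_le_mul_of_nonneg_left hf hK0
        linarith
    _ = (1 + K) * ‖X - Y‖ := by ring

theorem shear_hom (G : E → U) (hG : ∀ c : ℝ, 0 < c → ∀ x, G (c • x) = c • G x) (c : ℝ) (hc : 0 < c)
    (X : W2 E U) : shear G (c • X) = c • shear G X := by
  apply W2.ext'
  · simp
  · simp [hG c hc]

theorem shear_inv (G : E → U) (X : W2 E U) : shear (fun x => - G x) (shear G X) = X := by
  apply W2.ext'
  · simp
  · simp

end P1aux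

open P1aux in
/-- P1: the first particle. -/
theorem particle_one (g : E → U) (hg : GData ρE ρU ec g) :
    ∃ τ : ℝ, 0 < τ ∧ τ < 1 ∧ ∃ Ψ : Sph (W2 E U) ≃ₜ Sph (W2 E U), BiLip Ψ ∧
      (∀ x, τ ≤ |tc (eW ec) x| → Ψ x = x) ∧
      (∀ a ∈ stab ρE ec, ∀ x, Ψ (rS (prodRep ρE ρU a) x) = rS (prodRep ρE ρU a) (Ψ x)) ∧
      (∀ t0, τ ≤ t0 → t0 < 1 → ∀ a, a ∉ stab ρE ec → ∀ x y : Sph (W2 E U),
        (‖(x : W2 E U).snd‖ ≤ 2 * ‖wpart ec (x : W2 E U)‖ ∨ t0 ≤ |tc (eW ec) x|) →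
        (‖(y : W2 E U).snd‖ ≤ 2 * ‖wpart ec (y : W2 E U)‖ ∨ t0 ≤ |tc (eW ec) y|) →
        rS (prodRep ρE ρU a) (Ψ x) ≠ Ψ y) := by
  obtain ⟨K₀, hK₀⟩ := hg.lip
  obtain ⟨c, hc, hsep⟩ := hg.sep
  set K : ℝ := max K₀ 0 with hKdef
  have hK0 : 0 ≤ K := le_max_right _ _
  have hK : ∀ x y, ‖g x - g y‖ ≤ K * ‖x - y‖ := fun x y =>
    (hK₀ x y).trans (mul_le_mul_of_nonneg_right (le_max_left _ _) (norm_nonneg _))
  set ε : ℝ := c / 4 with hε
  have hε0 : 0 < ε := by positivity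
  set Λ : ℝ := 16 / c with hΛ
  have hΛ0 : 0 < Λ := by positivity
  set G : E → U := fun x => Λ • shr (ε * ‖x‖) (g x) with hG
  have Ghom : ∀ c : ℝ, 0 < c → ∀ x, G (c • x) = c • G x := by
    intro c hc x
    simp only [hG]
    rw [hg.hom c hc, norm_smul, Real.norm_eq_abs, abs_of_pos hc,
      show ε * (c * ‖x‖) = c * (ε * ‖x‖) by ring, shr_hom c hc, smul_comm]
  have Glip : ∀ x y, ‖G x - G y‖ ≤ (Λ * (3 * K + ε)) * ‖x - y‖ := by
    intro x y
    simp only [hG]
    rw [← smul_sub, norm_smul, Real.norm_eq_abs, abs_of_pos hΛ0, mul_assoc]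
    apply mul_le_mul_of_nonneg_left _ hΛ0.le
    have h1 := shr_lip (ε * ‖x‖) (ε * ‖y‖) (by positivity) (by positivity) (g x) (g y)
    have h2 : |ε * ‖x‖ - ε * ‖y‖| ≤ ε * ‖x - y‖ := by
      rw [← mul_sub, abs_mul, abs_of_pos hε0]
      exact mul_le_mul_of_nonneg_left (abs_norm_sub_norm_le x y) hε0.le
    have h3 := hK x y
    nlinarith
  have GlipN : ∀ x y, ‖(fun x => - G x) x - (fun x => - G x) y‖ ≤
      (Λ * (3 * K + ε)) * ‖x - y‖ := by
    intro x y
    have : (fun x => - G x) x - (fun x => - G x) y = -(G x - G y) := by simp; abel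
    rw [this, norm_neg]
    exact Glip x y
  have hL0 : 0 ≤ Λ * (3 * K + ε) := by positivity
  obtain ⟨F, hFL, hF⟩ := proj_homeo (shear G) (shear (fun x => - G x)) (1 + Λ * (3 * K + ε))
    (fun c hc x => shear_hom G Ghom c hc x) (fun x => shear_inv G x)
    (fun x => by
      have := shear_inv (fun x => - G x) x
      simpa using this)
    (fun x y => shear_lip G _ Glip hL0 x y)
    (fun x y => shear_lip (fun x => - G x) _ GlipN hL0 x y)
  -- the threshold
  set η : ℝ := min (1 / 2) (ε / (2 * (K + 1))) with hη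
  have hη0 : 0 < η := lt_min (by norm_num) (by positivity)
  have hη1 : η ≤ 1 / 2 := min_le_left _ _
  have hη2 : K * η ≤ ε / 2 := by
    have h1 : η ≤ ε / (2 * (K + 1)) := min_le_right _ _
    have h2 : K * η ≤ K * (ε / (2 * (K + 1))) := mul_le_mul_of_nonneg_left h1 hK0
    have h3 : K * (ε / (2 * (K + 1))) ≤ ε / 2 := by
      rw [← mul_div_assoc, div_le_div_iff₀ (by positivity) (by norm_num)]
      nlinarith
    linarith
  have hη3 : η ^ 2 ≤ 1 / 4 := by nlinarith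
  have hτsq : Real.sqrt (1 - η ^ 2) ^ 2 = 1 - η ^ 2 := Real.sq_sqrt (by linarith)
  have hτhalf : 1 / 2 ≤ Real.sqrt (1 - η ^ 2) := by
    apply Real.le_sqrt_of_sq_le
    linarith
  have hτ1 : Real.sqrt (1 - η ^ 2) < 1 := by
    rw [Real.sqrt_lt' one_pos]
    nlinarith
  have n1 : ∀ x : Sph (W2 E U), ‖(x : W2 E U)‖ = 1 := fun x => by simp
  -- the representation commutes with the shear for elements of the stabiliser
  have Geqv : ∀ a ∈ stab ρE ec, ∀ x, G (ρE a x) = ρU a (G x) := by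
    intro a ha x
    simp only [hG]
    rw [hg.eqv a ha, (ρE a).norm_map, shr_map, map_smul]
  refine ⟨Real.sqrt (1 - η ^ 2), by linarith, hτ1, F, hFL, ?_, ?_, ?_⟩
  · intro x hx
    apply Subtype.ext
    rw [hF]
    rw [tc_eW] at hx
    set t : ℝ := ⟪(ec : E), (x : W2 E U).fst⟫ with ht
    have hsq : ‖(x : W2 E U).fst‖ ^ 2 + ‖(x : W2 E U).snd‖ ^ 2 = 1 := by
      rw [← W2.norm_sq, n1, one_pow]
    have hw := wpart_sq ec (x : W2 E U).fst
    rw [← ht] at hw
    have ht2 : 1 - η ^ 2 ≤ t ^ 2 := by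
      rw [← hτsq, ← sq_abs t]
      exact pow_le_pow_left₀ (Real.sqrt_nonneg _) hx 2
    have hwη : ‖(x : W2 E U).fst - t • (ec : E)‖ ≤ η :=
      (abs_le_of_sq_le_sq' (by nlinarith [sq_nonneg ‖(x : W2 E U).snd‖]) hη0.le).2
    have hgx : ‖g (x : W2 E U).fst‖ ≤ ε * ‖(x : W2 E U).fst‖ := by
      have h1 := hK (x : W2 E U).fst (t • (ec : E))
      rw [hg.zero, sub_zero] at h1
      have h2 : K * ‖(x : W2 E U).fst - t • (ec : E)‖ ≤ K * η :=
        mul_le_mul_of_nonneg_left hwη hK0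
      have h3 : 1 / 2 ≤ ‖(x : W2 E U).fst‖ := hτhalf.trans (hx.trans (abs_t_le ec _))
      nlinarith
    have hG0 : G (x : W2 E U).fst = 0 := by
      simp only [hG]
      rw [shr_zero _ _ hgx, smul_zero]
    have hsh : shear G (x : W2 E U) = x := by
      apply W2.ext'
      · rfl
      · rw [shear_snd, hG0, add_zero]
    rw [hsh, n1, inv_one, one_smul]
  · intro a ha x
    apply Subtype.ext
    have hcomm : shear G (prodRep ρE ρU a (x : W2 E U)) = prodRep ρE ρU a (shear G x) := by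
      apply W2.ext'
      · rfl
      · show ρU a (x : W2 E U).snd + G (ρE a (x : W2 E U).fst) =
          ρU a ((x : W2 E U).snd + G (x : W2 E U).fst)
        rw [Geqv a ha, map_add]
    have e1 : ((rS (prodRep ρE ρU a) x : Sph (W2 E U)) : W2 E U) = prodRep ρE ρU a (x : W2 E U) :=
      rfl
    have e2 : ((rS (prodRep ρE ρU a) (F x) : Sph (W2 E U)) : W2 E U) =
      prodRep ρE ρU a (F x : W2 E U) := rfl
    rw [e2, hF, hF, e1, hcomm, (prodRep ρE ρU a).norm_map, map_smul]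
  · intro t0 ht0 ht01 a ha x y hx hy heq
    have key : ∀ z : Sph (W2 E U), (‖(z : W2 E U).snd‖ ≤ 2 * ‖wpart ec (z : W2 E U)‖ ∨
        t0 ≤ |tc (eW ec) z|) → ‖(z : W2 E U).snd‖ ≤ 2 * ‖(z : W2 E U).fst‖ := by
      intro z hz
      rcases hz with hz | hz
      · have := wpart_le ec (z : W2 E U)
        linarith
      · rw [tc_eW] at hz
        have h1 := abs_t_le ec (z : W2 E U).fst
        have h2 := snd_norm_le (z : W2 E U)
        rw [n1] at h2
        linarith
    have hx2 := key x hx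
    have hy2 := key y hy
    have pos : ∀ z : Sph (W2 E U), 0 < ‖shear G (z : W2 E U)‖ := by
      intro z
      rw [norm_pos_iff]
      intro h
      have h1 := hF z
      rw [h, smul_zero] at h1
      have h2 := n1 (F z)
      rw [h1, norm_zero] at h2
      exact zero_ne_one h2
    set α : ℝ := ‖shear G (x : W2 E U)‖⁻¹ with hα
    set β : ℝ := ‖shear G (y : W2 E U)‖⁻¹ with hβ
    have hα0 : 0 < α := inv_pos.2 (pos x)
    have hβ0 : 0 < β := inv_pos.2 (pos y)
    have heq' : prodRep ρE ρU a (α • shear G (x : W2 E U)) = β • shear G (y : W2 E U) := by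
      have := congrArg (fun z : Sph (W2 E U) => (z : W2 E U)) heq
      have e2 : ((rS (prodRep ρE ρU a) (F x) : Sph (W2 E U)) : W2 E U) =
        prodRep ρE ρU a (F x : W2 E U) := rfl
      simp only [e2, hF] at this
      exact this
    rw [← shear_hom G Ghom α hα0, ← shear_hom G Ghom β hβ0] at heq'
    set X : W2 E U := α • (x : W2 E U) with hX
    set Y : W2 E U := β • (y : W2 E U) with hY
    have hXs : ‖X.snd‖ ≤ 2 * ‖X.fst‖ := by
      simp only [hX, WithLp.smul_fst, WithLp.smul_snd, norm_smul, Real.norm_eq_abs,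
        abs_of_pos hα0]
      nlinarith
    have hYs : ‖Y.snd‖ ≤ 2 * ‖Y.fst‖ := by
      simp only [hY, WithLp.smul_fst, WithLp.smul_snd, norm_smul, Real.norm_eq_abs,
        abs_of_pos hβ0]
      nlinarith
    have f1 : ρE a X.fst = Y.fst := by
      have := congrArg (fun z : W2 E U => z.fst) heq'
      exact this
    have f2 : ρU a (X.snd + G X.fst) = Y.snd + G Y.fst := by
      have := congrArg (fun z : W2 E U => z.snd) heq'
      exact this
    have hYn : ‖Y.fst‖ = ‖X.fst‖ := by rw [← f1, (ρE a).norm_map]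
    have f3 : G (ρE a X.fst) - ρU a (G X.fst) = ρU a X.snd - Y.snd := by
      rw [f1, sub_eq_sub_iff_add_eq_add, add_comm (G Y.fst), ← f2, map_add]
    have g1 : ‖G (ρE a X.fst) - ρU a (G X.fst)‖ ≤ 4 * ‖X.fst‖ := by
      rw [f3]
      have := norm_sub_le (ρU a X.snd) Y.snd
      rw [(ρU a).norm_map] at this
      rw [hYn] at hYs
      linarith
    have g2 : 8 * ‖X.fst‖ ≤ ‖G (ρE a X.fst) - ρU a (G X.fst)‖ := by
      have e3 : G (ρE a X.fst) - ρU a (G X.fst) =
          Λ • ((g (ρE a X.fst) - ρU a (g X.fst)) +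
            ((shr (ε * ‖ρE a X.fst‖) (g (ρE a X.fst)) - g (ρE a X.fst)) -
              ρU a (shr (ε * ‖X.fst‖) (g X.fst) - g X.fst))) := by
        simp only [hG]
        rw [map_smul, ← smul_sub, map_sub]
        congr 1
        abel
      rw [e3, norm_smul, Real.norm_eq_abs, abs_of_pos hΛ0]
      have k1 := hsep a ha X.fst
      have k2 := shr_sub (ε * ‖ρE a X.fst‖) (by positivity) (g (ρE a X.fst))
      have k3 := shr_sub (ε * ‖X.fst‖) (by positivity) (g X.fst)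
      rw [(ρE a).norm_map] at k2
      have k4 : ‖(shr (ε * ‖ρE a X.fst‖) (g (ρE a X.fst)) - g (ρE a X.fst)) -
              ρU a (shr (ε * ‖X.fst‖) (g X.fst) - g X.fst)‖ ≤ 2 * (ε * ‖X.fst‖) := by
        have := norm_sub_le (shr (ε * ‖ρE a X.fst‖) (g (ρE a X.fst)) - g (ρE a X.fst))
          (ρU a (shr (ε * ‖X.fst‖) (g X.fst) - g X.fst))
        rw [(ρU a).norm_map, (ρE a).norm_map] at this
        rw [(ρE a).norm_map]
        linarith
      have k5 := norm_sub_le_norm_add (g (ρE a X.fst) - ρU a (g X.fst))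
        ((shr (ε * ‖ρE a X.fst‖) (g (ρE a X.fst)) - g (ρE a X.fst)) -
              ρU a (shr (ε * ‖X.fst‖) (g X.fst) - g X.fst))
      have k6 : (c / 2) * ‖X.fst‖ ≤ ‖(g (ρE a X.fst) - ρU a (g X.fst)) +
            ((shr (ε * ‖ρE a X.fst‖) (g (ρE a X.fst)) - g (ρE a X.fst)) -
              ρU a (shr (ε * ‖X.fst‖) (g X.fst) - g X.fst))‖ := by
        have : (c / 2) * ‖X.fst‖ = c * ‖X.fst‖ - 2 * (ε * ‖X.fst‖) := by rw [hε]; ring
        linarith
      have k7 := mul_le_mul_of_nonneg_left k6 hΛ0.le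
      have k8 : Λ * (c / 2 * ‖X.fst‖) = 8 * ‖X.fst‖ := by
        rw [hΛ]; field_simp; ring
      linarith
    have hX0 : ‖X.fst‖ = 0 := by
      have := norm_nonneg X.fst
      linarith
    have hx0 : ‖(x : W2 E U).fst‖ = 0 := by
      simp only [hX, WithLp.smul_fst, norm_smul, Real.norm_eq_abs, abs_of_pos hα0] at hX0
      rcases mul_eq_zero.1 hX0 with h | h
      · exact absurd h hα0.ne'
      · exact h
    have hs0 : ‖(x : W2 E U).snd‖ = 0 := by
      have := norm_nonneg (x : W2 E U).snd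
      linarith
    have := W2.norm_sq (x : W2 E U)
    rw [hx0, hs0, n1] at this
    norm_num at this

end Pool.Agent.Lib.MP_c2de4f_an
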