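import Pool.Agent.Lib.MP_c2de4f_an.Defs

set_option autoImplicit false

/-! # The product `E ⊕ U` and the data `g : E → U`, `v : U → E` -/

noncomputable section

open Metric Set
open scoped RealInnerProductSpace

namespace Pool.Agent.Lib.MP_c2de4f_an

section Prod
variable {E U : Type*} [NormedAddCommGroup E] [InnerProductSpace ℝ E]
  [NormedAddCommGroup U] [InnerProductSpace ℝ U]

/-- The Hilbert space sum. -/
abbrev W2 (E U : Type*) : Type _ := WithLp 2 (E × U)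

theorem W2.ext' {E U : Type*} {x y : W2 E U} (h1 : x.fst = y.fst) (h2 : x.snd = y.snd) : x = y :=
  WithLp.ofLp_injective 2 (Prod.ext h1 h2)

set_option linter.unusedSectionVars false in
theorem W2.norm_sq (x : W2 E U) : ‖x‖ ^ 2 = ‖x.fst‖ ^ 2 + ‖x.snd‖ ^ 2 :=
  WithLp.prod_norm_sq_eq_of_L2 x

theorem W2.inner_def (x y : W2 E U) : ⟪x, y⟫ = ⟪x.fst, y.fst⟫ + ⟪x.snd, y.snd⟫ := rfl

/-- The sum of two linear isometries. -/
def prodIso (a : E ≃ₗᵢ[ℝ] E) (b : U ≃ₗᵢ[ℝ] U) : W2 E U ≃ₗᵢ[ℝ] W2 E U where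
  toFun x := WithLp.toLp 2 (a x.fst, b x.snd)
  map_add' x y := by apply W2.ext' <;> simp
  map_smul' c x := by apply W2.ext' <;> simp
  invFun x := WithLp.toLp 2 (a.symm x.fst, b.symm x.snd)
  left_inv x := by apply W2.ext' <;> simp
  right_inv x := by apply W2.ext' <;> simp
  norm_map' x := by
    have h : ‖(WithLp.toLp 2 (a x.fst, b x.snd) : W2 E U)‖ ^ 2 = ‖x‖ ^ 2 := by
      rw [W2.norm_sq, W2.norm_sq]; simp
    exact (sq_eq_sq₀ (norm_nonneg _) (norm_nonneg _)).1 h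

@[simp] theorem prodIso_fst (a : E ≃ₗᵢ[ℝ] E) (b : U ≃ₗᵢ[ℝ] U) (x : W2 E U) :
    (prodIso a b x).fst = a x.fst := rfl

@[simp] theorem prodIso_snd (a : E ≃ₗᵢ[ℝ] E) (b : U ≃ₗᵢ[ℝ] U) (x : W2 E U) :
    (prodIso a b x).snd = b x.snd := rfl

/-- The sum of two isometric representations. -/
def prodRep {A : Type*} [Group A] (ρE : A →* (E ≃ₗᵢ[ℝ] E)) (ρU : A →* (U ≃ₗᵢ[ℝ] U)) :
    A →* (W2 E U ≃ₗᵢ[ℝ] W2 E U) where
  toFun a := prodIso (ρE a) (ρU a)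
  map_one' := by
    ext x : 1
    apply W2.ext' <;> simp
  map_mul' a b := by
    ext x : 1
    apply W2.ext' <;> simp

/-- The axis vector `(e, 0)`. -/
def eW (ec : Sph E) : Sph (W2 E U) :=
  ⟨WithLp.toLp 2 ((ec : E), (0 : U)), by
    have h : ‖(WithLp.toLp 2 ((ec : E), (0 : U)) : W2 E U)‖ ^ 2 = 1 := by
      rw [W2.norm_sq]; simp
    have h2 : ‖(WithLp.toLp 2 ((ec : E), (0 : U)) : W2 E U)‖ = 1 := by
      have := norm_nonneg (WithLp.toLp 2 ((ec : E), (0 : U)) : W2 E U)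
      nlinarith
    simp [h2]⟩

/-- The component of the `E`-part orthogonal to the axis. -/
def wpart (ec : Sph E) (x : W2 E U) : E := x.fst - ⟪(ec : E), x.fst⟫ • (ec : E)

/-- Data for the first particle. -/
structure GData {A : Type*} [Group A] (ρE : A →* (E ≃ₗᵢ[ℝ] E)) (ρU : A →* (U ≃ₗᵢ[ℝ] U))
    (ec : Sph E) (g : E → U) : Prop where
  lip : ∃ K : ℝ, ∀ x y, ‖g x - g y‖ ≤ K * ‖x - y‖
  hom : ∀ c : ℝ, 0 < c → ∀ x, g (c • x) = c • g x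
  zero : ∀ t : ℝ, g (t • (ec : E)) = 0
  eqv : ∀ a, a ∈ stab ρE ec → ∀ x, g (ρE a x) = ρU a (g x)
  sep : ∃ c : ℝ, 0 < c ∧ ∀ a, a ∉ stab ρE ec → ∀ x, c * ‖x‖ ≤ ‖g (ρE a x) - ρU a (g x)‖

/-- Data for the second particle. -/
structure VData {A : Type*} [Group A] (ρE : A →* (E ≃ₗᵢ[ℝ] E)) (ρU : A →* (U ≃ₗᵢ[ℝ] U))
    (ec : Sph E) (v : U → E) : Prop where
  lip : ∃ K : ℝ, ∀ x y, ‖v x - v y‖ ≤ K * ‖x - y‖
  hom : ∀ c : ℝ, 0 < c → ∀ x, v (c • x) = c • v x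
  perp : ∀ u, ⟪(ec : E), v u⟫ = 0
  eqv : ∀ a, a ∈ stab ρE ec → ∀ u, v (ρU a u) = ρE a (v u)
  sep : ∃ c : ℝ, 0 < c ∧ ∀ a, a ∉ stab ρE ec → ∀ (t t' : ℝ) (u : U),
    c * (|t| + |t'| + ‖u‖) ≤ ‖ρE a (t • (ec : E) + v u) - (t' • (ec : E) + v (ρU a u))‖

end Prod

end Pool.Agent.Lib.MP_c2de4f_an
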