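import Pool.Agent.Lib.MP_c2de4f_an.CDEF

set_option autoImplicit false

/-! # SOS: the only computation of the proof -/

noncomputable section

open Metric Set
open scoped RealInnerProductSpace

namespace Pool.Agent.Lib.MP_c2de4f_an

def zr (x : ZMod 7 → ℝ) : ℝ := x 1 - x 2 + x 5 - x 6
def zi (x : ZMod 7 → ℝ) : ℝ := x 2 + x 3 - x 4 - x 5
def hr (x : ZMod 7 → ℝ) : ℝ :=
  2 * x 0 * x 1 - 2 * x 0 * x 2 + 2 * x 0 * x 5 - 2 * x 0 * x 6 - 5 * x 1^2 + 2 * x 1 * x 3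
  + 2 * x 1 * x 4 + 4 * x 1 * x 5 + 5 * x 2^2 - 2 * x 2 * x 3 - 2 * x 2 * x 4 - 4 * x 2 * x 6
  + 2 * x 3 * x 5 - 2 * x 3 * x 6 + 2 * x 4 * x 5 - 2 * x 4 * x 6 - 5 * x 5^2 + 5 * x 6^2
def hi (x : ZMod 7 → ℝ) : ℝ :=
  2 * x 0 * x 2 + 2 * x 0 * x 3 - 2 * x 0 * x 4 - 2 * x 0 * x 5 + 2 * x 1 * x 2 + 2 * x 1 * x 3
  - 2 * x 1 * x 4 - 2 * x 1 * x 5 - 5 * x 2^2 + 4 * x 2 * x 3 + 2 * x 2 * x 6 - 5 * x 3^2
  + 2 * x 3 * x 6 + 5 * x 4^2 - 4 * x 4 * x 5 - 2 * x 4 * x 6 + 5 * x 5^2 - 2 * x 5 * x 6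

theorem zf_eq (x : ZMod 7 → ℝ) : zf x = (zr x : ℂ) + (zi x : ℂ) * eta := by
  obtain ⟨h0, h1, h2, h3, h4, h5, h6⟩ := chi_vals
  unfold zf zr zi
  rw [sum7, h0, h1, h2, h3, h4, h5, h6]
  push_cast
  ring

theorem hf_eq (x : ZMod 7 → ℝ) : hf x = (hr x : ℂ) + (hi x : ℂ) * eta := by
  obtain ⟨h0, h1, h2, h3, h4, h5, h6⟩ := chi_vals
  unfold hf hr hi
  rw [sum7, h0, h1, h2, h3, h4, h5, h6]
  have e1 : (2 * (1 : ZMod 7)) = 2 := by decide
  have e2 : (2 * (2 : ZMod 7)) = 4 := by decide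
  have e3 : (2 * (3 : ZMod 7)) = 6 := by decide
  have e4 : (2 * (4 : ZMod 7)) = 1 := by decide
  have e5 : (2 * (5 : ZMod 7)) = 3 := by decide
  have e6 : (2 * (6 : ZMod 7)) = 5 := by decide
  have f1 : (3 * (1 : ZMod 7)) = 3 := by decide
  have f2 : (3 * (2 : ZMod 7)) = 6 := by decide
  have f3 : (3 * (3 : ZMod 7)) = 2 := by decide
  have f4 : (3 * (4 : ZMod 7)) = 5 := by decide
  have f5 : (3 * (5 : ZMod 7)) = 1 := by decide
  have f6 : (3 * (6 : ZMod 7)) = 4 := by decide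
  rw [e1, e2, e3, e4, e5, e6, f1, f2, f3, f4, f5, f6]
  push_cast
  have h := eta_sq
  linear_combination (2 * ((x 2 * x 4 + x 2 * x 6) + (x 3 * x 6 + x 3 * x 2)
    - (x 4 * x 1 + x 4 * x 5) - (x 5 * x 3 + x 5 * x 1)) : ℂ) * h

theorem eta_indep (a b c d : ℝ) (h : (a : ℂ) + (b : ℂ) * eta = (c : ℂ) + (d : ℂ) * eta) :
    a = c ∧ b = d := by
  have him := congrArg Complex.im h
  have hre := congrArg Complex.re h
  have h3 : 0 < Real.sqrt 3 := Real.sqrt_pos.2 (by norm_num)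
  simp only [eta, Complex.add_im, Complex.ofReal_im, Complex.mul_im, Complex.ofReal_re,
    zero_mul, add_zero, zero_add, Complex.add_re, Complex.mul_re, sub_zero] at him hre
  have hb : b = d := by
    have h4 : (b - d) * (Real.sqrt 3 / 2) = 0 := by linarith
    rcases mul_eq_zero.1 h4 with h5 | h5
    · linarith
    · linarith
  subst hb
  exact ⟨by linarith, rfl⟩

/-- SOS: the only computation of the proof. `(κ x) m = x (m - 1)`. -/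
theorem sos (x : ZMod 7 → ℝ) (hx : ∑ m, x m = 0)
    (hz : zf (fun m => x (m - 1)) = zf x) (hh : hf (fun m => x (m - 1)) = hf x) : x = 0 := by
  rw [zf_eq, zf_eq] at hz
  rw [hf_eq, hf_eq] at hh
  obtain ⟨z1, z2⟩ := eta_indep _ _ _ _ hz
  obtain ⟨h1, h2⟩ := eta_indep _ _ _ _ hh
  unfold zr at z1
  unfold zi at z2
  unfold hr at h1
  unfold hi at h2
  have e0 : (0 : ZMod 7) - 1 = 6 := by decide
  have e1 : (1 : ZMod 7) - 1 = 0 := by decide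
  have e2 : (2 : ZMod 7) - 1 = 1 := by decide
  have e3 : (3 : ZMod 7) - 1 = 2 := by decide
  have e4 : (4 : ZMod 7) - 1 = 3 := by decide
  have e5 : (5 : ZMod 7) - 1 = 4 := by decide
  have e6 : (6 : ZMod 7) - 1 = 5 := by decide
  simp only [e0, e1, e2, e3, e4, e5, e6] at z1 z2 h1 h2
  rw [sum7] at hx
  have key : 15 * (x 0 - x 6 - 17 / 15 * (x 1 - x 6) + 8 / 15 * (x 2 - x 6) - 1 / 3 * (x 3 - x 6)
        + 8 / 15 * (x 4 - x 6) - 17 / 15 * (x 5 - x 6)) ^ 2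
      + 236 / 15 * (x 1 - x 6 - 119 / 236 * (x 2 - x 6) - 5 / 118 * (x 3 - x 6)
        - 119 / 236 * (x 4 - x 6) + 131 / 236 * (x 5 - x 6)) ^ 2
      + 1589 / 236 * (x 2 - x 6 - 90 / 227 * (x 3 - x 6) - 9 / 227 * (x 4 - x 6)
        - 119 / 227 * (x 5 - x 6)) ^ 2
      + 1645 / 227 * (x 3 - x 6 - 18 / 47 * (x 4 - x 6) - 11 / 47 * (x 5 - x 6)) ^ 2
      + 266 / 47 * (x 4 - x 6 - 29 / 38 * (x 5 - x 6)) ^ 2
      + 203 / 38 * (x 5 - x 6) ^ 2 = 0 := by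
    have z1' : x 0 - x 1 + x 4 - x 5 - (x 1 - x 2 + x 5 - x 6) = 0 := by linarith
    have z2' : x 1 + x 2 - x 3 - x 4 - (x 2 + x 3 - x 4 - x 5) = 0 := by linarith
    linear_combination (-1) * h1 - 3 * h2
      + 10 * (x 0 - x 1 + x 4 - x 5 - (x 1 - x 2 + x 5 - x 6)) * z1'
      + 10 * (x 0 - x 1 + x 4 - x 5 - (x 1 - x 2 + x 5 - x 6)) * z2'
      + 10 * (x 1 + x 2 - x 3 - x 4 - (x 2 + x 3 - x 4 - x 5)) * z2'
  have gen : ∀ A B C D E F : ℝ, 15 * A ^ 2 + 236 / 15 * B ^ 2 + 1589 / 236 * C ^ 2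
      + 1645 / 227 * D ^ 2 + 266 / 47 * E ^ 2 + 203 / 38 * F ^ 2 = 0 →
      A = 0 ∧ B = 0 ∧ C = 0 ∧ D = 0 ∧ E = 0 ∧ F = 0 := by
    intro A B C D E F h
    have hA := sq_nonneg A
    have hB := sq_nonneg B
    have hC := sq_nonneg C
    have hD := sq_nonneg D
    have hE := sq_nonneg E
    have hF := sq_nonneg F
    refine ⟨?_, ?_, ?_, ?_, ?_, ?_⟩ <;>
      exact pow_eq_zero_iff (two_ne_zero) |>.1 (by linarith)
  obtain ⟨qA, qB, qC, qD, qE, qF⟩ := gen _ _ _ _ _ _ key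
  have r5 : x 5 = x 6 := by linarith
  have r4 : x 4 = x 6 := by linarith
  have r3 : x 3 = x 6 := by linarith
  have r2 : x 2 = x 6 := by linarith
  have r1 : x 1 = x 6 := by linarith
  have r0 : x 0 = x 6 := by linarith
  have r6 : x 6 = 0 := by linarith
  funext m
  have hm : ∀ k : Fin 7, x k = 0 := by
    intro k
    fin_cases k
    · exact r0.trans r6
    · exact r1.trans r6
    · exact r2.trans r6
    · exact r3.trans r6
    · exact r4.trans r6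
    · exact r5.trans r6
    · exact r6
  exact hm m

end Pool.Agent.Lib.MP_c2de4f_an
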