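import Pool.Agent.Lib.MP_c2de4f_an.MOB2

set_option autoImplicit false

/-! # TS: the Moebius translations of the sphere -/

noncomputable section

open Metric Set
open scoped RealInnerProductSpace

namespace Pool.Agent.Lib.MP_c2de4f_an

variable {V : Type*} [NormedAddCommGroup V] [InnerProductSpace ℝ V]

/-- Moebius translation of the sphere. -/
def Ts (e : Sph V) (s : ℝ) : Sph V ≃ₜ Sph V where
  toFun x := ⟨Tb (e : V) s x, by
    have := norm_Tb_eq (e := (e : V)) (by simp) s (x : V) (by simp)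
    simpa using this⟩
  invFun x := ⟨Tb (e : V) (-s) x, by
    have := norm_Tb_eq (e := (e : V)) (by simp) (-s) (x : V) (by simp)
    simpa using this⟩
  left_inv x := by
    apply Subtype.ext
    show Tb (e : V) (-s) (Tb (e : V) s x) = x
    rw [Tb_Tb (by simp) _ _ _ (by simp)]; simp [Tb_zero]
  right_inv x := by
    apply Subtype.ext
    show Tb (e : V) s (Tb (e : V) (-s) x) = x
    rw [Tb_Tb (by simp) _ _ _ (by simp)]; simp [Tb_zero]
  continuous_toFun := by
    refine Continuous.subtype_mk ?_ _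
    exact (Tb_continuousOn (e := (e : V)) (by simp) s).comp_continuous continuous_subtype_val
      (fun x => by simp)
  continuous_invFun := by
    refine Continuous.subtype_mk ?_ _
    exact (Tb_continuousOn (e := (e : V)) (by simp) (-s)).comp_continuous continuous_subtype_val
      (fun x => by simp)

theorem Ts_coe (e : Sph V) (s : ℝ) (x : Sph V) : (Ts e s x : V) = Tb (e : V) s x := rfl

theorem den_sph (e : Sph V) (s : ℝ) (x : Sph V) :
    den (e : V) s x = Real.cosh s + tc e x * Real.sinh s := by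
  have hx : ‖(x : V)‖ = 1 := by simp
  unfold den tc
  rw [hx]; ring

theorem den_sph_pos (e : Sph V) (s : ℝ) (x : Sph V) :
    0 < Real.cosh s + tc e x * Real.sinh s := by
  rw [← den_sph]
  exact den_pos (by simp) s _ (by simp)

theorem Ts_add (e : Sph V) (s s' : ℝ) (x : Sph V) : Ts e s (Ts e s' x) = Ts e (s + s') x := by
  apply Subtype.ext
  show Tb (e : V) s (Tb (e : V) s' x) = Tb (e : V) (s + s') x
  exact Tb_Tb (by simp) _ _ _ (by simp)

theorem Ts_zero (e : Sph V) (x : Sph V) : Ts e 0 x = x := by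
  apply Subtype.ext
  show Tb (e : V) 0 x = x
  exact Tb_zero _

theorem Ts_symm (e : Sph V) (s : ℝ) (x : Sph V) : (Ts e s).symm x = Ts e (-s) x := rfl

theorem Ts_e (e : Sph V) (s : ℝ) : Ts e s e = e := by
  apply Subtype.ext
  show Tb (e : V) s e = e
  exact Tb_e (by simp) s

theorem Ts_neg (e : Sph V) (s : ℝ) (x : Sph V) : Ts e s (-x) = -Ts e (-s) x := by
  apply Subtype.ext
  show Tb (e : V) s ((-x : Sph V) : V) = -Tb (e : V) (-s) x
  exact Tb_neg (by simp) s _

theorem Ts_rS (e : Sph V) (s : ℝ) (a : V ≃ₗᵢ[ℝ] V) (ha : a (e : V) = e) (x : Sph V) :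
    Ts e s (rS a x) = rS a (Ts e s x) := by
  apply Subtype.ext
  exact Tb_map a ha s _

theorem tc_le (e x : Sph V) : |tc e x| ≤ 1 := by
  have := abs_real_inner_le_norm (e : V) (x : V)
  simpa [tc] using this

theorem tc_Ts (e : Sph V) (s : ℝ) (x : Sph V) : tc e (Ts e s x) =
    (tc e x * Real.cosh s + Real.sinh s) / (Real.cosh s + tc e x * Real.sinh s) := by
  have h := inner_e_Tb (e := (e : V)) (by simp) s (x : V)
  have hx : ‖(x : V)‖ = 1 := by simp
  rw [den_sph, hx] at h
  show ⟪(e : V), Tb (e : V) s x⟫ = _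
  rw [h]
  congr 1
  unfold tc
  ring

theorem dist_Ts (e : Sph V) (s : ℝ) (x y : Sph V) : dist (Ts e s x) (Ts e s y) ^ 2 =
    dist x y ^ 2 / ((Real.cosh s + tc e x * Real.sinh s) * (Real.cosh s + tc e y * Real.sinh s)) := by
  have h := dist_Tb (e := (e : V)) (by simp) s (x : V) (y : V) (by simp) (by simp)
  rw [den_sph, den_sph] at h
  exact h

theorem den_sph_ge (e : Sph V) (s : ℝ) (x : Sph V) :
    Real.exp (-|s|) ≤ Real.cosh s + tc e x * Real.sinh s := by
  have h := tc_le e x
  rw [abs_le] at h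
  rcases le_total 0 s with hs | hs
  · rw [abs_of_nonneg hs, ← Real.cosh_sub_sinh]
    have : 0 ≤ Real.sinh s := Real.sinh_nonneg_iff.2 hs
    nlinarith
  · rw [abs_of_nonpos hs, neg_neg, ← Real.cosh_add_sinh]
    have : Real.sinh s ≤ 0 := Real.sinh_nonpos_iff.2 hs
    nlinarith

theorem Ts_lip (e : Sph V) (s : ℝ) (x y : Sph V) :
    dist (Ts e s x) (Ts e s y) ≤ Real.exp |s| * dist x y := by
  have h1 := den_sph_ge e s x
  have h2 := den_sph_ge e s y
  have hE : 0 < Real.exp (-|s|) := Real.exp_pos _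
  have h : dist (Ts e s x) (Ts e s y) ^ 2 ≤ (Real.exp |s| * dist x y) ^ 2 := by
    rw [dist_Ts, mul_pow, div_le_iff₀ (mul_pos (lt_of_lt_of_le hE h1) (lt_of_lt_of_le hE h2))]
    have h3 : Real.exp (-|s|) * Real.exp (-|s|) ≤ (Real.cosh s + tc e x * Real.sinh s) *
        (Real.cosh s + tc e y * Real.sinh s) := by
      gcongr
      exact h1.trans' hE.le
    have h4 : Real.exp |s| ^ 2 * (Real.exp (-|s|) * Real.exp (-|s|)) = 1 := by
      rw [sq, ← Real.exp_add, ← Real.exp_add, ← Real.exp_add]; simp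
    calc dist x y ^ 2 = (Real.exp |s| ^ 2 * (Real.exp (-|s|) * Real.exp (-|s|))) * dist x y ^ 2 := by
          rw [h4, one_mul]
      _ = Real.exp |s| ^ 2 * dist x y ^ 2 * (Real.exp (-|s|) * Real.exp (-|s|)) := by ring
      _ ≤ _ := by gcongr
  exact (pow_le_pow_iff_left₀ dist_nonneg (by positivity) two_ne_zero).1 h

theorem Ts_cr (e : Sph V) (s : ℝ) : CR (Ts e s) := by
  intro a b d f
  exact Tb_cr (e := (e : V)) (by simp) s a (by simp) b (by simp) d (by simp) f (by simp)

/-- the point `x` and its translate. -/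
theorem dist_Ts_self (e : Sph V) (s : ℝ) (x : Sph V) :
    dist (Ts e s x) x ^ 2 * (Real.cosh s + tc e x * Real.sinh s) =
      2 * (Real.cosh s - 1) * (1 - tc e x ^ 2) := by
  have hd := den_sph_pos e s x
  have hx : ‖(x : V)‖ = 1 := by simp
  have h1 : ‖Tb (e : V) s x‖ = 1 := norm_Tb_eq (by simp) s _ hx
  have h2 : dist (Ts e s x) x ^ 2 = 2 - 2 * ⟪Tb (e : V) s x, (x : V)⟫ := by
    show dist (Tb (e : V) s x) (x : V) ^ 2 = _
    rw [dist_eq_norm, norm_sub_sq_real, h1, hx]; ring
  have h3 : ⟪Tb (e : V) s x, (x : V)⟫ * (Real.cosh s + tc e x * Real.sinh s) =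
      1 + (Real.sinh s + (Real.cosh s - 1) * tc e x) * tc e x := by
    unfold Tb
    rw [den_sph, real_inner_smul_left, inner_add_left, real_inner_smul_left,
      real_inner_self_eq_norm_sq, hx]
    have : ⟪(e : V), (x : V)⟫ = tc e x := rfl
    rw [this]
    field_simp
    ring
  rw [h2]
  linear_combination (-2) * h3

theorem abs_sinh_le (u : ℝ) : |Real.sinh u| ≤ |u| * Real.exp |u| := by
  have key : ∀ v : ℝ, 0 ≤ v → Real.sinh v ≤ v * Real.exp v := by
    intro v hv
    have h1 := Real.add_one_le_exp (-(2 * v))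
    have h2 : Real.exp (-(2 * v)) * Real.exp v = Real.exp (-v) := by
      rw [← Real.exp_add]; congr 1; ring
    have h3 := Real.exp_pos v
    rw [Real.sinh_eq]
    nlinarith
  rw [Real.abs_sinh]
  exact key _ (abs_nonneg u)

theorem two_cosh_sub_one (r : ℝ) : 2 * (Real.cosh r - 1) ≤ (|r| * Real.exp (|r| / 2)) ^ 2 := by
  have h1 : Real.cosh r = Real.cosh (r / 2) ^ 2 + Real.sinh (r / 2) ^ 2 := by
    rw [← Real.cosh_two_mul]; congr 1; ring
  have h2 := Real.cosh_sq (r / 2)
  have h3 := abs_sinh_le (r / 2)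
  have h4 : |r / 2| = |r| / 2 := by rw [abs_div]; norm_num
  rw [h4] at h3
  have h5 : Real.sinh (r / 2) ^ 2 ≤ (|r| / 2 * Real.exp (|r| / 2)) ^ 2 := by
    rw [← sq_abs (Real.sinh (r / 2))]
    gcongr
  nlinarith

theorem norm_sub_tc (e x : Sph V) : ‖(x : V) - tc e x • (e : V)‖ ^ 2 = 1 - tc e x ^ 2 := by
  have hx : ‖(x : V)‖ = 1 := by simp
  have he : ‖(e : V)‖ = 1 := by simp
  rw [norm_sub_sq_real, hx, norm_smul, he, real_inner_smul_right, real_inner_comm,
    Real.norm_eq_abs, mul_pow, sq_abs]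
  unfold tc
  ring

/-- two points of the same meridian: the points `T_s x` and `T_s' x` are at distance
`≤ ‖x - t e‖ |s - s'| exp (...)`. -/
theorem dist_Ts_Ts (e : Sph V) (s s' R : ℝ) (hs : |s| ≤ R) (hs' : |s'| ≤ R) (x : Sph V) :
    dist (Ts e s x) (Ts e s' x) ≤
      2 * Real.exp (2 * R) * |s - s'| * ‖(x : V) - tc e x • (e : V)‖ := by
  have hD := den_sph_pos e s x
  have hD' := den_sph_pos e s' x
  have hR : 0 ≤ R := (abs_nonneg s).trans hs
  have hT : Ts e s x = Ts e (s - s') (Ts e s' x) := by rw [Ts_add]; simp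
  have h1 := dist_Ts_self e (s - s') (Ts e s' x)
  rw [← hT, tc_Ts] at h1
  set t := tc e x with ht
  set r := s - s' with hr
  have hcs := Real.cosh_sq s'
  have h2 : Real.cosh r + (t * Real.cosh s' + Real.sinh s') / (Real.cosh s' + t * Real.sinh s') *
      Real.sinh r = (Real.cosh s + t * Real.sinh s) / (Real.cosh s' + t * Real.sinh s') := by
    have hss : s = r + s' := by rw [hr]; ring
    have e1 : Real.cosh s = Real.cosh r * Real.cosh s' + Real.sinh r * Real.sinh s' := by
      rw [hss, Real.cosh_add]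
    have e2 : Real.sinh s = Real.sinh r * Real.cosh s' + Real.cosh r * Real.sinh s' := by
      rw [hss, Real.sinh_add]
    rw [e1, e2]
    field_simp
    ring
  have h3 : 1 - ((t * Real.cosh s' + Real.sinh s') / (Real.cosh s' + t * Real.sinh s')) ^ 2 =
      (1 - t ^ 2) / (Real.cosh s' + t * Real.sinh s') ^ 2 := by
    field_simp
    linear_combination (1 - t ^ 2) * hcs
  rw [h2, h3] at h1
  have h4 : dist (Ts e s x) (Ts e s' x) ^ 2 = 2 * (Real.cosh r - 1) * (1 - t ^ 2) /
      ((Real.cosh s + t * Real.sinh s) * (Real.cosh s' + t * Real.sinh s')) := by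
    rw [eq_div_iff (by positivity)]
    have h5 : dist (Ts e s x) (Ts e s' x) ^ 2 * (Real.cosh s + t * Real.sinh s) *
        (Real.cosh s' + t * Real.sinh s') = 2 * (Real.cosh r - 1) * (1 - t ^ 2) := by
      field_simp at h1
      linear_combination h1
    linear_combination h5
  have hn := norm_sub_tc e x
  rw [← ht] at hn
  have hg1 : Real.exp (-R) ≤ Real.cosh s + t * Real.sinh s :=
    le_trans (Real.exp_le_exp.2 (by linarith)) (den_sph_ge e s x)
  have hg2 : Real.exp (-R) ≤ Real.cosh s' + t * Real.sinh s' :=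
    le_trans (Real.exp_le_exp.2 (by linarith)) (den_sph_ge e s' x)
  have hc := two_cosh_sub_one r
  have hr2 : |r| ≤ 2 * R := by
    rw [hr]
    calc |s - s'| ≤ |s| + |s'| := abs_sub _ _
      _ ≤ 2 * R := by linarith
  have hsq : dist (Ts e s x) (Ts e s' x) ^ 2 ≤
      (Real.exp (2 * R) * |r| * ‖(x : V) - t • (e : V)‖) ^ 2 := by
    rw [h4, mul_pow, hn]
    have h1t : 0 ≤ 1 - t ^ 2 := by rw [← hn]; positivity
    rw [div_le_iff₀ (by positivity)]
    have h6 : Real.exp (-R) * Real.exp (-R) ≤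
      (Real.cosh s + t * Real.sinh s) * (Real.cosh s' + t * Real.sinh s') := by gcongr
    have h7 : 2 * (Real.cosh r - 1) ≤ (|r| * Real.exp R) ^ 2 := by
      refine hc.trans ?_
      gcongr
      linarith
    have h8 : Real.exp (2 * R) ^ 2 * (Real.exp (-R) * Real.exp (-R)) = Real.exp R ^ 2 := by
      rw [sq, sq, ← Real.exp_add, ← Real.exp_add, ← Real.exp_add, ← Real.exp_add]
      congr 1; ring
    calc 2 * (Real.cosh r - 1) * (1 - t ^ 2) ≤ (|r| * Real.exp R) ^ 2 * (1 - t ^ 2) := by gcongr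
      _ = |r| ^ 2 * Real.exp R ^ 2 * (1 - t ^ 2) := by ring
      _ = (Real.exp (2 * R) * |r|) ^ 2 * (1 - t ^ 2) * (Real.exp (-R) * Real.exp (-R)) := by
          rw [← h8]; ring
      _ ≤ _ := by gcongr
  have h9 := (pow_le_pow_iff_left₀ dist_nonneg (by positivity) two_ne_zero).1 hsq
  refine h9.trans ?_
  have : 0 ≤ Real.exp (2 * R) * |r| * ‖(x : V) - t • (e : V)‖ := by positivity
  nlinarith

end Pool.Agent.Lib.MP_c2de4f_an
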